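import Pool.Agent.W978.PD.UL
import Pool.Agent.Run7.h561.EC.StmP

/-! # DBLL: double points of the limits of the interface loops (after `W978/PD/UL.lean`) -/

set_option autoImplicit false

namespace Run7.h165.EC

open H974 H12S Finset H389NS H984P H984N H342P H342L H342T
open MeasureTheory Filter Topology Pool.Agent.W92.DP Pool.Agent.W822.PD Pool.Agent.W462.DPL
open Pool.Agent.W978.PDUL Run7.h561.EC
open scoped ENNReal NNReal

/-- the deterministic part -/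
theorem detL (hU : PD_UO) {z : ℂ} {r d : ℝ} {n : ℕ} (hn : 0 < n) (hδr : 1 / (n : ℝ) ≤ r)
    (hd : 256 * r ≤ d) {F : Finset Edg} {c : Curve} (hT : IsLoop n F c)
    (hE : c ∈ EvC z r (d / 2)) :
    A4a (ctc (1 / n) z) (⌈r / (1 / (n : ℝ))⌉₊ + 3 + 2) (⌊d / (8 * (1 / (n : ℝ)))⌋₊ - 2) ↑F ∨
      A4d (ctc (1 / n) z) (⌈r / (1 / (n : ℝ))⌉₊ + 3 + 2) (⌊d / (8 * (1 / (n : ℝ)))⌋₊ - 2) ↑F := by
  have hδ : (0:ℝ) < 1 / n := by positivity
  obtain ⟨s, t, hst, h1, h2, ⟨u, ⟨hsu, hut⟩, h3⟩, w, hw, h4⟩ := hE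
  obtain ⟨σ, N, hN, hper, hmin, hpath⟩ := hT
  have hr : 0 < r := hδ.trans_le hδr
  have hd0 : 0 < d := by linarith
  rw [hpath] at h1 h2 h3 h4
  have hst' : ∀ k < N, dist (pt n (orb (↑F) σ k).1) (pt n (orb (↑F) σ (k + 1)).1) ≤ 1 / (n : ℝ) :=
    fun k _ => pt_step' hn _ σ k
  obtain ⟨i, hiN, ⟨i1, i2⟩, hi⟩ := poly_close hN hst' s
  obtain ⟨j, hjN, ⟨j1, j2⟩, hj⟩ := poly_close hN hst' u
  obtain ⟨l, hlN, ⟨l1, l2⟩, hl⟩ := poly_close hN hst' t
  obtain ⟨j', hjN', ⟨j1', j2'⟩, hj'⟩ := poly_close hN hst' w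
  set f := poly (fun j => pt n (orb (↑F) σ j).1) N with hf
  have hsu' : s ≠ u := by
    intro h
    rw [h] at h1
    linarith
  have hut' : u ≠ t := by
    intro h
    rw [← h] at h2
    linarith
  have hsw' : w ≠ s := by
    intro h
    rw [← h] at h1
    linarith
  have htw' : t ≠ w := by
    intro h
    rw [h] at h2
    linarith
  have hij : i ≤ j := idx_le hN hsu hsu' i1 j2
  have hjl : j ≤ l := idx_le hN hut hut' j1 l2
  -- positions
  have pi : dist (pt n (orb (↑F) σ i).1) z ≤ r + 1 / n := by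
    have := dist_triangle_left (pt n (orb (↑F) σ i).1) z (f s)
    linarith
  have plz : dist (pt n (orb (↑F) σ l).1) z ≤ r + 1 / n := by
    have := dist_triangle_left (pt n (orb (↑F) σ l).1) z (f t)
    linarith
  have pj : d / 2 - 1 / n < dist (pt n (orb (↑F) σ j).1) z := by
    have := dist_triangle (f u) (pt n (orb (↑F) σ j).1) z
    linarith
  have pj' : d / 2 - 1 / n < dist (pt n (orb (↑F) σ j').1) z := by
    have := dist_triangle (f w) (pt n (orb (↑F) σ j').1) z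
    linarith
  have hij' : i < j := by
    rcases hij.lt_or_eq with h | h
    · exact h
    · exfalso
      rw [h] at pi
      linarith
  have hjl' : j < l := by
    rcases hjl.lt_or_eq with h | h
    · exact h
    · exfalso
      rw [← h] at plz
      linarith
  have hout : j' < i ∨ l < j' := by
    rcases hw with hw | hw
    · left
      have h5 : j' ≤ i := idx_le hN hw hsw' j1' i2
      rcases h5.lt_or_eq with h | h
      · exact h
      · exfalso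
        rw [← h] at pi
        linarith
    · right
      have h5 : l ≤ j' := idx_le hN hw htw' l1 j2'
      rcases h5.lt_or_eq with h | h
      · exact h
      · exfalso
        rw [h] at plz
        linarith
  obtain ⟨s1, _, _, _⟩ := sizes hδ hδr hd
  have hnb : ∀ x : ℕ, d / 2 - 1 / n < dist (pt n (orb (↑F) σ x).1) z →
      ¬ inR ((ctc (1 / n) z).1 - (⌊d / (8 * (1 / (n : ℝ)))⌋₊ : ℕ))
        ((ctc (1 / n) z).1 + (⌊d / (8 * (1 / (n : ℝ)))⌋₊ : ℕ))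
        ((ctc (1 / n) z).2 - (⌊d / (8 * (1 / (n : ℝ)))⌋₊ : ℕ))
        ((ctc (1 / n) z).2 + (⌊d / (8 * (1 / (n : ℝ)))⌋₊ : ℕ)) (orb (↑F) σ x).1 := by
    intro x hx hin
    have h5 := box_nearC hn hin
    have hk : (⌊d / (8 * (1 / (n : ℝ)))⌋₊ : ℝ) ≤ d / (8 * (1 / (n : ℝ))) :=
      Nat.floor_le (by positivity)
    have h6 : 2 * (1 / (n : ℝ)) * (⌊d / (8 * (1 / (n : ℝ)))⌋₊ : ℝ) ≤ d / 4 := by
      calc 2 * (1 / (n : ℝ)) * (⌊d / (8 * (1 / (n : ℝ)))⌋₊ : ℝ) ≤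
            2 * (1 / (n : ℝ)) * (d / (8 * (1 / (n : ℝ)))) :=
            mul_le_mul_of_nonneg_left hk (by positivity)
        _ = d / 4 := by
            have : (n : ℝ) ≠ 0 := by positivity
            field_simp
            norm_num
    linarith
  exact hU F σ N hN hper hmin (ctc (1 / n) z) (⌈r / (1 / (n : ℝ))⌉₊ + 3)
    ⌊d / (8 * (1 / (n : ℝ)))⌋₊ s1 i j l j' hij' hjl' hlN.le hout hjN'.le (near_boxC hn pi)
    (near_boxC hn plz) (hnb j pj) (hnb j' pj')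

/-! ### Probability -/

/-- probability bound -/
theorem prob_leL (hU : PD_UO) (hA : St_Aa) (hD : St_Ad)
    {γ : (n : ℕ) → Finset Plain.Edge → Curve} (hT : Lps γ) :
    ∃ C : ℝ, 0 < C ∧ ∀ (z : ℂ) (r d : ℝ) (n : ℕ), 0 < r → r ≤ d →
      Metric.ball z d ⊆ Sq → 0 < n → 1 / (n : ℝ) ≤ r →
        (lawOf n (γ n) : Measure Curve) (EvC z r (d / 2)) ≤
          ENNReal.ofReal (C * (r / d) ^ (5/4 : ℝ)) := by
  obtain ⟨Ca, hCa, hA'⟩ := hA
  obtain ⟨Cd, hCd, hD'⟩ := hD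
  refine ⟨(Ca + Cd + 1) * 256 ^ (5/4 : ℝ), by positivity, ?_⟩
  intro z r d n hr hrd hball hn hδr
  have hδ : (0:ℝ) < 1 / n := by positivity
  have hd0 : 0 < d := hr.trans_le hrd
  rw [lawOf_apply _ _ (EvC_open z r (d / 2)).measurableSet]
  apply ENNReal.ofReal_le_ofReal
  have hq : 0 < r / d := by positivity
  have hRHS : (Ca + Cd + 1) * 256 ^ (5/4 : ℝ) * (r / d) ^ (5/4 : ℝ) =
      (Ca + Cd + 1) * (256 * (r / d)) ^ (5/4 : ℝ) := by
    rw [Real.mul_rpow (by norm_num) hq.le]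
    ring
  rw [hRHS]
  by_cases h256 : 256 * r ≤ d
  · obtain ⟨s1, s2, s3, s4⟩ := sizes hδ hδr h256
    obtain ⟨b1, b2, b3, b4⟩ := dom_boxC hn (by linarith) hball
    have hsub : blk (ctc (1 / n) z) ⌊d / (8 * (1 / (n : ℝ)))⌋₊ ⊆ RE 0 n 0 n :=
      RE_subset b1.le b2.le b3.le b4.le
    have hsub1 : ∀ k : ℕ, k ≤ ⌊d / (8 * (1 / (n : ℝ)))⌋₊ →
        blk (ctc (1 / n) z) k ⊆ RE 0 n 0 n := by
      intro k hk
      refine (RE_subset ?_ ?_ ?_ ?_).trans hsub <;> omega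
    have h1 := hA' (ctc (1 / n) z) (⌈r / (1 / (n : ℝ))⌉₊ + 3 + 2)
      (⌊d / (8 * (1 / (n : ℝ)))⌋₊ - 2) (by omega) s2 (RE 0 n 0 n) (hsub1 _ (by omega))
    have h2 := hD' (ctc (1 / n) z) (⌈r / (1 / (n : ℝ))⌉₊ + 3 + 2)
      (⌊d / (8 * (1 / (n : ℝ)))⌋₊ - 2) (by omega) s2 (RE 0 n 0 n) (hsub1 _ (by omega))
    have hmono : Plain.prob n (fun F => γ n F ∈ EvC z r (d / 2)) ≤
        PQ (1/2) (RE 0 n 0 n) (fun F =>
          A4a (ctc (1 / n) z) (⌈r / (1 / (n : ℝ))⌉₊ + 3 + 2)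
            (⌊d / (8 * (1 / (n : ℝ)))⌋₊ - 2) ↑F ∨
          A4d (ctc (1 / n) z) (⌈r / (1 / (n : ℝ))⌉₊ + 3 + 2)
            (⌊d / (8 * (1 / (n : ℝ)))⌋₊ - 2) ↑F) := by
      refine Plain.prob_le_of_pr ?_
      intro F hF hE
      exact detL hU hn hδr h256 (hT n F hn hF) hE
    have hor := Pr_or_le okh (RE 0 n 0 n)
      (fun F => A4a (ctc (1 / n) z) (⌈r / (1 / (n : ℝ))⌉₊ + 3 + 2)
        (⌊d / (8 * (1 / (n : ℝ)))⌋₊ - 2) ↑F)
      (fun F => A4d (ctc (1 / n) z) (⌈r / (1 / (n : ℝ))⌉₊ + 3 + 2)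
        (⌊d / (8 * (1 / (n : ℝ)))⌋₊ - 2) ↑F)
    have hpow : (((⌈r / (1 / (n : ℝ))⌉₊ + 3 + 2 : ℕ) : ℝ) /
        ((⌊d / (8 * (1 / (n : ℝ)))⌋₊ - 2 : ℕ) : ℝ)) ^ (5/4 : ℝ) ≤
        (256 * (r / d)) ^ (5/4 : ℝ) :=
      Real.rpow_le_rpow (by positivity) s4 (by norm_num)
    have hx0 : 0 ≤ (256 * (r / d)) ^ (5/4 : ℝ) := by positivity
    have h3 := mul_le_mul_of_nonneg_left hpow hCa.le
    have h4 := mul_le_mul_of_nonneg_left hpow hCd.le
    have h5 := hmono.trans (hor.trans (add_le_add (h1.trans h3) (h2.trans h4)))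
    refine h5.trans ?_
    nlinarith
  · push Not at h256
    have h1 : Plain.prob n (fun F => γ n F ∈ EvC z r (d / 2)) ≤ 1 := by
      rw [Plain.prob_eq]
      exact Pr_le_one okh _ _
    refine h1.trans ?_
    have h2 : 1 ≤ 256 * (r / d) := by
      rw [← mul_div_assoc, le_div_iff₀ hd0]
      linarith
    have h3 : 1 ≤ (256 * (r / d)) ^ (5/4 : ℝ) := Real.one_le_rpow h2 (by norm_num)
    nlinarith

/-- **DBLL** -/
theorem t_DBLL (hU : PD_UO) (hA : St_Aa) (hD : St_Ad) : S_DBLL := by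
  intro γ hT k hk μ hμ η hη
  obtain ⟨C, hC, hP⟩ := prob_leL hU hA hD hT
  set dn : ℕ → ℝ := fun n => min η (1 / ((n : ℝ) + 1)) with hdn
  have hdn0 : ∀ n, 0 < dn n := fun n => lt_min hη (by positivity)
  have h1 : ∀ n j : ℕ, ∀ᵐ p ∂(μ : Measure Curve),
      dimH (DPc η p.path ∩ H934F.t10_A Sq (dn n)) ≤
        ENNReal.ofReal (3 / 4 + 1 / ((j : ℝ) + 1)) := by
    intro n j
    have hj : 0 < 1 / ((j : ℝ) + 1) := by positivity
    refine one_scaleC Sq_bdd hC (hdn0 n) (min_le_left _ _) hμ ?_ (by linarith)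
    intro z r hr hrd hb
    obtain ⟨n0, hn0⟩ := exists_nat_gt (1 / r)
    have hev : ∀ᶠ i in atTop, max n0 1 ≤ k i := tendsto_atTop.mp hk _
    filter_upwards [hev] with i hi
    rw [max_le_iff] at hi
    have hki : 0 < k i := hi.2
    have hki' : (0:ℝ) < k i := by exact_mod_cast hki
    have h6 : (n0 : ℝ) ≤ k i := by exact_mod_cast hi.1
    refine hP z r (dn n) (k i) hr hrd hb hki ?_
    rw [div_lt_iff₀ hr] at hn0
    rw [div_le_iff₀ hki']
    nlinarith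
  have h2 : ∀ᵐ p ∂(μ : Measure Curve), ∀ n j : ℕ,
      dimH (DPc η p.path ∩ H934F.t10_A Sq (dn n)) ≤
        ENNReal.ofReal (3 / 4 + 1 / ((j : ℝ) + 1)) := by
    rw [ae_all_iff]
    intro n
    rw [ae_all_iff]
    intro j
    exact h1 n j
  filter_upwards [h2] with p hp
  have hsub : DPc η p.path ∩ Sq ⊆ ⋃ n : ℕ, DPc η p.path ∩ H934F.t10_A Sq (dn n) := by
    rintro z ⟨hzK, hzD⟩
    obtain ⟨ε, hε, hb⟩ := Metric.isOpen_iff.mp Sq_open z hzD
    obtain ⟨n, hn⟩ := exists_nat_one_div_lt hε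
    exact Set.mem_iUnion.mpr ⟨n, hzK,
      (Metric.ball_subset_ball ((min_le_right _ _).trans hn.le)).trans hb⟩
  refine (dimH_mono hsub).trans ?_
  rw [dimH_iUnion]
  refine iSup_le fun n => ?_
  have hlim : Tendsto (fun j : ℕ => ENNReal.ofReal (3 / 4 + 1 / ((j : ℝ) + 1))) atTop
      (𝓝 (ENNReal.ofReal (3 / 4 + 0))) :=
    ENNReal.tendsto_ofReal (tendsto_const_nhds.add tendsto_one_div_add_atTop_nhds_zero_nat)
  have h74 : ENNReal.ofReal (3 / 4 + 0) = 3 / 4 := by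
    rw [add_zero, ENNReal.ofReal_div_of_pos (by norm_num)]
    norm_num
  rw [h74] at hlim
  exact ge_of_tendsto' hlim (fun j => hp n j)

end Run7.h165.EC
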