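import Pool.Agent.W978.PD.UL
import Pool.Agent.TH990.FU.Ex3
import Pool.Agent.Run7.h561.EC.StmP

/-! # ACCL: accessible points of the limits of the interface loops (after `TH990/FU/Ex3.lean`) -/

set_option autoImplicit false

namespace Run7.h165.EC

open H974 H973 H12S Finset H389NS H984P H984N H342P H342L H342T H443B
open MeasureTheory Filter Topology Pool.Agent.W92.DP Pool.Agent.W822.PD Pool.Agent.W462.DPL
open Pool.Agent.W978.PDUL Run7.h561.EC Pool.Agent.TH990.FU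
open Pool.Agent.W424.OD Pool.Agent.W571.DPad
open scoped ENNReal NNReal

theorem zp_pt {n : ℕ} (v : Vtx) : Pool.Agent.TH990.FU.zp (1 / (n : ℝ)) 0 v = pt n v := by
  apply Complex.ext
  · rw [pt_re]
    show (0 : ℝ) + 1 / (n : ℝ) * v.1 = _
    ring
  · rw [pt_im]
    show (0 : ℝ) + 1 / (n : ℝ) * v.2 = _
    ring

theorem vz_ctc {δ : ℝ} (z : ℂ) : vz δ 0 z = ctc δ z := by
  show (⌊(z.re - 0) / δ⌋, ⌊(z.im - 0) / δ⌋) = (⌊z.re / δ⌋, ⌊z.im / δ⌋)
  rw [sub_zero, sub_zero]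

theorem orb_inv {F : Set Edg} {σ : St} {N : ℕ} (hN : 0 < N) (hper : orb F σ N = σ) (τ : St) :
    τ ∈ {τ | ∃ t, orb F σ t = τ} ↔ nxt F τ ∈ {τ | ∃ t, orb F σ t = τ} := by
  have hinj := (nxt_bij F).1
  constructor
  · rintro ⟨t, rfl⟩
    exact ⟨t + 1, orb_succ _ _ _⟩
  · rintro ⟨t, ht⟩
    rcases t with _ | t
    · refine ⟨N - 1, hinj ?_⟩
      rw [← orb_succ, Nat.sub_add_cancel hN, hper, ← ht]
      rfl
    · refine ⟨t, hinj ?_⟩
      rw [← orb_succ, ht]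

theorem orb_lt {F : Set Edg} {σ : St} {N : ℕ} (hN : 0 < N) (hper : orb F σ N = σ) (t : ℕ) :
    ∃ k < N, orb F σ k = orb F σ t := by
  induction t with
  | zero => exact ⟨0, hN, rfl⟩
  | succ t ih =>
    obtain ⟨k, hk, he⟩ := ih
    rcases Nat.lt_or_eq_of_le (Nat.succ_le_of_lt hk) with h | h
    · refine ⟨k + 1, h, ?_⟩
      rw [orb_succ, orb_succ, he]
    · refine ⟨0, hN, ?_⟩
      rw [orb_succ F σ t, ← he, ← orb_succ]
      have h2 : k + 1 = N := h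
      rw [h2, hper]
      rfl

/-- the deterministic part for the loops -/
theorem detA {z : ℂ} {r d ζ : ℝ} {n : ℕ} (hn : 0 < n) (hδr : 1 / (n : ℝ) ≤ r)
    (hd : 256 * r ≤ d) (hζ : 8 * (1 / (n : ℝ)) ≤ ζ) {F : Finset Edg} {c : Curve}
    (hT : IsLoop n F c) (hE : c.path ∈ Ev3 z r (d / 2) ζ) :
    A3v (ctc (1 / n) z) (⌈r / (1 / (n : ℝ))⌉₊ + 3 + 2) (⌊d / (8 * (1 / (n : ℝ)))⌋₊ - 2) ↑F ∨
      A3v (ctc (1 / n) z) (⌈r / (1 / (n : ℝ))⌉₊ + 3 + 2) (⌊d / (8 * (1 / (n : ℝ)))⌋₊ - 2)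
        (dl '' (↑F : Set Edg)ᶜ) := by
  have hδ : (0:ℝ) < 1 / n := by positivity
  obtain ⟨⟨s, hs⟩, ⟨s', hs'⟩, g, hg0, hg1, hg⟩ := hE
  obtain ⟨σ, N, hN, hper, -, hpath⟩ := hT
  have hr : 0 < r := hδ.trans_le hδr
  have hd0 : 0 < d := by linarith
  have hst : ∀ k < N, dist (pt n (orb (↑F) σ k).1) (pt n (orb (↑F) σ (k + 1)).1) ≤ 1 / (n : ℝ) :=
    fun k _ => pt_step' hn _ σ k
  obtain ⟨i, hiN, -, hi⟩ := poly_close hN hst s
  obtain ⟨j, hjN, -, hj⟩ := poly_close hN hst s'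
  rw [← hpath] at hi hj
  have hmain := det_gen (o := 0) hδ hδr hd (C := (↑F : Set Edg))
    (A := {τ | ∃ t, orb (↑F) σ t = τ}) (orb_inv hN hper) hs hs' (g := g) hg0
    hg1.le ?_ (σ := orb (↑F) σ i) (τ := orb (↑F) σ j) ⟨i, rfl⟩ ?_ ?_ ?_ ?_
  · rwa [vz_ctc] at hmain
  · rintro t u hu q ⟨t0, ht0⟩
    have h4 := hu.dist hδ
    obtain ⟨k, hk, he⟩ := orb_lt hN hper t0
    rw [ht0] at he
    have hnode : c.path ⟨(k : ℝ) / N, by
        constructor
        · positivity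
        · rw [div_le_one (by exact_mod_cast hN)]; exact_mod_cast hk.le⟩ = pt n u := by
      rw [hpath]
      have h5 := POL_formula (fun j => pt n (orb (↑F) σ j).1) N k hk
        ⟨(k : ℝ) / N, by
          constructor
          · positivity
          · rw [div_le_one (by exact_mod_cast hN)]; exact_mod_cast hk.le⟩
        (by
          show (k : ℝ) ≤ N * ((k : ℝ) / N)
          rw [mul_div_cancel₀]
          have : (0 : ℝ) < N := by exact_mod_cast hN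
          exact this.ne')
        (by
          show N * ((k : ℝ) / N) ≤ k + 1
          rw [mul_div_cancel₀]
          · linarith
          · have : (0 : ℝ) < N := by exact_mod_cast hN
            exact this.ne')
      rw [h5]
      have h6 : ((N : ℝ) * ((k : ℝ) / N) - k : ℝ) = 0 := by
        rw [mul_div_cancel₀]
        · ring
        · have : (0 : ℝ) < N := by exact_mod_cast hN
          exact this.ne'
      simp only [he]
      show pt n u + (((N : ℝ) * ((k : ℝ) / N) - k : ℝ) : ℂ) * _ = _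
      rw [h6, Complex.ofReal_zero, zero_mul, add_zero]
    have h7 := hg ⟨(k : ℝ) / N, by
        constructor
        · positivity
        · rw [div_le_one (by exact_mod_cast hN)]; exact_mod_cast hk.le⟩ t
    rw [hnode] at h7
    rw [zp_pt] at h4
    linarith
  · rw [zp_pt]
    linarith
  · rw [zp_pt]
    linarith
  · exact (pb_reach _ _ _).symm.trans (pb_reach _ _ _)
  · have h1 := (reach_dl (F := ((↑F : Set Edg))ᶜ)).2 (pb_dreach (↑F : Set Edg) σ i)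
    have h2 := (reach_dl (F := ((↑F : Set Edg))ᶜ)).2 (pb_dreach (↑F : Set Edg) σ j)
    exact h1.symm.trans h2

theorem preL_open (z : ℂ) (r ρ ζ : ℝ) : IsOpen (Curve.path ⁻¹' Ev3 z r ρ ζ) := by
  rw [Metric.isOpen_iff]
  intro c hc
  obtain ⟨ε, hε, h⟩ := Ev3_near hc
  refine ⟨ε, hε, fun c' hcc' => ?_⟩
  rw [Metric.mem_ball, Curve.dist_def, cdist_eq] at hcc'
  obtain ⟨φ, hφ⟩ := exists_lt_of_ciInf_lt hcc'
  refine h c'.path φ.toEquiv fun x => ?_
  have h1 := ContinuousMap.dist_apply_le_dist (f := c'.path) (g := rep c.path φ) x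
  rw [rep_apply] at h1
  exact lt_of_le_of_lt h1 hφ

/-- the probability bound for the loops -/
theorem probL (hU : U3) {γ : (n : ℕ) → Finset Plain.Edge → Curve} (hT : Lps γ) :
    ∃ C : ℝ, 0 < C ∧ ∀ (z : ℂ) (r d ζ : ℝ) (n : ℕ), 0 < r → r ≤ d →
      Metric.ball z d ⊆ Pool.Agent.W822.PD.Sq → 0 < n → 1 / (n : ℝ) ≤ r →
      8 * (1 / (n : ℝ)) ≤ ζ →
        (lawOf n (γ n) : Measure Curve) (Curve.path ⁻¹' Ev3 z r (d / 2) ζ) ≤
          ENNReal.ofReal (C * (r / d) ^ (2/3 : ℝ)) := by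
  obtain ⟨Cd, hCd, hD'⟩ := u3d hU
  obtain ⟨Ca, hCa, hA'⟩ := hU
  refine ⟨(Ca + Cd + 1) * 256 ^ (2/3 : ℝ), by positivity, ?_⟩
  intro z r d ζ n hr hrd hball hn hδr hζ
  have hδ : (0:ℝ) < 1 / n := by positivity
  have hd0 : 0 < d := hr.trans_le hrd
  rw [lawOf_apply _ _ (preL_open z r (d / 2) ζ).measurableSet]
  apply ENNReal.ofReal_le_ofReal
  have hq : 0 < r / d := by positivity
  have hRHS : (Ca + Cd + 1) * 256 ^ (2/3 : ℝ) * (r / d) ^ (2/3 : ℝ) =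
      (Ca + Cd + 1) * (256 * (r / d)) ^ (2/3 : ℝ) := by
    rw [Real.mul_rpow (by norm_num) hq.le]
    ring
  rw [hRHS]
  by_cases h256 : 256 * r ≤ d
  · obtain ⟨s1, s2, s3, s4⟩ := sizes hδ hδr h256
    obtain ⟨b1, b2, b3, b4⟩ := dom_boxC hn (by linarith) hball
    have hsub : blk (ctc (1 / n) z) ⌊d / (8 * (1 / (n : ℝ)))⌋₊ ⊆ RE 0 n 0 n :=
      RE_subset b1.le b2.le b3.le b4.le
    have hsub1 : ∀ k : ℕ, k ≤ ⌊d / (8 * (1 / (n : ℝ)))⌋₊ →
        blk (ctc (1 / n) z) k ⊆ RE 0 n 0 n := by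
      intro k hk
      refine (RE_subset ?_ ?_ ?_ ?_).trans hsub <;> omega
    have h1 := hA' (ctc (1 / n) z) (⌈r / (1 / (n : ℝ))⌉₊ + 3 + 2)
      (⌊d / (8 * (1 / (n : ℝ)))⌋₊ - 2) (by omega) s2 (RE 0 n 0 n) (hsub1 _ (by omega))
    have h2 := hD' (ctc (1 / n) z) (⌈r / (1 / (n : ℝ))⌉₊ + 3 + 2)
      (⌊d / (8 * (1 / (n : ℝ)))⌋₊ - 2) (by omega) s2 (RE 0 n 0 n) (hsub1 _ (by omega))
    have hmono : Plain.prob n (fun F => γ n F ∈ Curve.path ⁻¹' Ev3 z r (d / 2) ζ) ≤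
        PQ (1/2) (RE 0 n 0 n) (fun F =>
          A3v (ctc (1 / n) z) (⌈r / (1 / (n : ℝ))⌉₊ + 3 + 2)
            (⌊d / (8 * (1 / (n : ℝ)))⌋₊ - 2) ↑F ∨
          A3v (ctc (1 / n) z) (⌈r / (1 / (n : ℝ))⌉₊ + 3 + 2)
            (⌊d / (8 * (1 / (n : ℝ)))⌋₊ - 2) (dl '' (↑F : Set Edg)ᶜ)) := by
      refine Plain.prob_le_of_pr ?_
      intro F hF hE
      exact detA hn hδr h256 hζ (hT n F hn hF) hE
    have hor := Pr_or_le okh (RE 0 n 0 n)
      (fun F => A3v (ctc (1 / n) z) (⌈r / (1 / (n : ℝ))⌉₊ + 3 + 2)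
        (⌊d / (8 * (1 / (n : ℝ)))⌋₊ - 2) ↑F)
      (fun F => A3v (ctc (1 / n) z) (⌈r / (1 / (n : ℝ))⌉₊ + 3 + 2)
        (⌊d / (8 * (1 / (n : ℝ)))⌋₊ - 2) (dl '' (↑F : Set Edg)ᶜ))
    have hpow : (((⌈r / (1 / (n : ℝ))⌉₊ + 3 + 2 : ℕ) : ℝ) /
        ((⌊d / (8 * (1 / (n : ℝ)))⌋₊ - 2 : ℕ) : ℝ)) ^ (2/3 : ℝ) ≤
        (256 * (r / d)) ^ (2/3 : ℝ) :=
      Real.rpow_le_rpow (by positivity) s4 (by norm_num)
    have hx0 : 0 ≤ (256 * (r / d)) ^ (2/3 : ℝ) := by positivity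
    have h3 := mul_le_mul_of_nonneg_left hpow hCa.le
    have h4 := mul_le_mul_of_nonneg_left hpow hCd.le
    have h5 := hmono.trans (hor.trans (add_le_add (h1.trans h3) (h2.trans h4)))
    refine h5.trans ?_
    nlinarith
  · push Not at h256
    have h1 : Plain.prob n (fun F => γ n F ∈ Curve.path ⁻¹' Ev3 z r (d / 2) ζ) ≤ 1 := by
      rw [Plain.prob_eq]
      exact Pr_le_one okh _ _
    refine h1.trans ?_
    have h2 : 1 ≤ 256 * (r / d) := by
      rw [← mul_div_assoc, le_div_iff₀ hd0]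
      linarith
    have h3 : 1 ≤ (256 * (r / d)) ^ (2/3 : ℝ) := Real.one_le_rpow h2 (by norm_num)
    nlinarith

/-- **ACCL** -/
theorem t_ACCL (hU : U3) : S_ACCL := by
  intro γ hT k hk μ hμ
  obtain ⟨C, hC, hP⟩ := probL hU hT
  have hO : ∀ z r ρ, IsOpen (Curve.path ⁻¹' E3U z r ρ) := by
    intro z r ρ
    unfold E3U
    rw [Set.preimage_iUnion]
    exact isOpen_iUnion fun j => preL_open _ _ _ _
  have key := acc_dim (pf := Curve.path) hO Sq_open (M := 1) Sq_bdd hC (μ := μ) ?_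
  · filter_upwards [key] with c hc
    rw [Set.iUnion_inter, dimH_iUnion]
    exact iSup_le hc
  intro z r d hr hrd hball
  have hmono : Monotone (fun j : ℕ => Curve.path ⁻¹' Ev3 z r (d / 2) (1 / ((j:ℝ) + 1))) :=
    fun i j hij c hc => Ev3_anti (Nat.one_div_le_one_div hij) hc
  have h : Curve.path ⁻¹' E3U z r (d / 2) =
      ⋃ j : ℕ, Curve.path ⁻¹' Ev3 z r (d / 2) (1 / ((j:ℝ) + 1)) := by
    unfold E3U
    rw [Set.preimage_iUnion]
  rw [h, hmono.measure_iUnion]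
  refine iSup_le fun j => ?_
  refine (ProbabilityMeasure.le_liminf_measure_open_of_tendsto hμ (preL_open _ _ _ _)).trans ?_
  refine liminf_le_of_frequently_le (Eventually.frequently ?_)
  have hpos : 0 < min r (1 / ((j:ℝ) + 1) / 8) := lt_min hr (by positivity)
  have hlim : Tendsto (fun i => 1 / (k i : ℝ)) atTop (𝓝 0) :=
    tendsto_one_div_atTop_nhds_zero_nat.comp hk
  filter_upwards [hlim.eventually (gt_mem_nhds hpos), hk.eventually_ge_atTop 1] with i hi hi1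
  have k1 := hi.le.trans (min_le_left _ _)
  have k3 := hi.le.trans (min_le_right _ _)
  exact hP z r d _ (k i) hr hrd hball hi1 k1 (by linarith)

end Run7.h165.EC
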