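import Pool.Agent.Run7.h561.EC.Stm

/-! # Openness of the event, and a limit -/

set_option autoImplicit false

namespace Run7.h165.EC

open Set Filter Topology Metric
open Run7.h561.EC
open scoped ENNReal NNReal

theorem four_thirds_le {x : ℝ≥0∞}
    (h : ∀ k : ℕ, ENNReal.ofReal (4 / 3 - 1 / ((k : ℝ) + 1)) ≤ x) : 4 / 3 ≤ x := by
  have h1 : Tendsto (fun k : ℕ => ENNReal.ofReal (4 / 3 - 1 / ((k : ℝ) + 1))) atTop
      (𝓝 (ENNReal.ofReal (4 / 3 - 0))) :=
    ENNReal.tendsto_ofReal (tendsto_const_nhds.sub tendsto_one_div_add_atTop_nhds_zero_nat)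
  have h2 : ENNReal.ofReal (4 / 3 - 0) = 4 / 3 := by
    rw [sub_zero, ENNReal.ofReal_div_of_pos (by norm_num)]
    norm_num
  rw [h2] at h1
  exact le_of_tendsto' h1 h

theorem evO_open (d : ℤ × ℤ) (H η : ℝ) (w : ℂ) : IsOpen (EvO d H η w) := by
  have h1 : IsOpen {f : C(unitInterval, ℂ) | ∀ s, η < dist w (f s)} := by
    have h := ContinuousMap.isOpen_setOfPred_mapsTo (X := unitInterval) (Y := ℂ)
      (isCompact_univ (X := unitInterval))
      (isOpen_lt (continuous_const (y := η)) (continuous_const.dist continuous_id :
        Continuous fun z : ℂ => dist w z))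
    convert h using 1
    ext f
    simp only [mem_ofPred_eq, MapsTo, mem_univ, true_imp_iff]
  have hB : IsOpen (Bx d H w) := by
    unfold Bx
    have c1 : Continuous fun z : ℂ => |z.re - w.re| := by fun_prop
    have c2 : Continuous fun z : ℂ => |z.im - w.im| := by fun_prop
    have c3 : Continuous fun z : ℂ => (z.re - w.re) * d.1 + (z.im - w.im) * d.2 := by fun_prop
    exact (isOpen_lt c1 continuous_const).inter ((isOpen_lt c2 continuous_const).inter
      (isOpen_lt continuous_const c3))
  have h2 : IsOpen {f : C(unitInterval, ℂ) | Crosses d H w f} := by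
    have h3 : {f : C(unitInterval, ℂ) | Crosses d H w f} =
        ⋃ s : unitInterval, ⋃ s' : unitInterval, ⋃ _ : s ≤ s',
          ({f : C(unitInterval, ℂ) | MapsTo f (Icc s s') (Bx d H w)} ∩
          ({f | ((f s).re - w.re) * d.2 - ((f s).im - w.im) * d.1 ≠ 0} ∩
          {f | (((f s).re - w.re) * d.2 - ((f s).im - w.im) * d.1) *
            (((f s').re - w.re) * d.2 - ((f s').im - w.im) * d.1) < 0})) := by
      ext f
      simp only [mem_ofPred_eq, Crosses, mem_iUnion, mem_inter_iff, exists_prop, mapsTo_iff_image_subset]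
    rw [h3]
    refine isOpen_iUnion fun s => isOpen_iUnion fun s' => isOpen_iUnion fun _ => ?_
    have hev : ∀ s : unitInterval, Continuous fun f : C(unitInterval, ℂ) => f s := fun s =>
      continuous_eval_const (F := C(unitInterval, ℂ)) s
    have hre : ∀ s : unitInterval, Continuous fun f : C(unitInterval, ℂ) => (f s).re := fun s =>
      Complex.continuous_re.comp (hev s)
    have him : ∀ s : unitInterval, Continuous fun f : C(unitInterval, ℂ) => (f s).im := fun s =>
      Complex.continuous_im.comp (hev s)
    have hsd : ∀ s : unitInterval, Continuous fun f : C(unitInterval, ℂ) =>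
        ((f s).re - w.re) * d.2 - ((f s).im - w.im) * d.1 := fun s =>
      (((hre s).sub continuous_const).mul continuous_const).sub
        (((him s).sub continuous_const).mul continuous_const)
    refine (ContinuousMap.isOpen_setOfPred_mapsTo isCompact_Icc hB).inter (IsOpen.inter ?_ ?_)
    · exact isOpen_ne_fun (hsd s) continuous_const
    · exact isOpen_lt ((hsd s).mul (hsd s')) continuous_const
  exact h1.inter h2

end Run7.h165.EC
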