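import Pool.Agent.Run7.h165.EC.Scale
import Pool.Agent.Run7.h165.EC.Aux1
import Pool.Agent.Run7.h561.EC.StmP
import Pool.Agent.W978.PD.UL

/-! # FINL: all the arcs of the interface loops -/

set_option autoImplicit false

namespace Run7.h165.EC

open Set Filter Topology Metric MeasureTheory
open Run7.h561.EC H342T H342L
open scoped ENNReal NNReal

/-- The upper bound. -/
theorem upperU {D U : Set ℂ} (hU : IsOpen U) {f : C(unitInterval, ℂ)}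
    (h2 : dimH (dbl f ∩ D) ≤ 3 / 4)
    (h3 : dimH ((⋃ i : ℕ, Pool.Agent.TH990.FU.Acc (1 / ((i : ℝ) + 1)) f) ∩ D) ≤ 4 / 3)
    (h4 : ∀ s t : unitInterval, s < t → ∃ u ∈ Icc s t, f u ≠ f s)
    {s t : unitInterval} (hst : s < t) {w z : ℂ} {ρ : ℝ} :
    dimH (frontier (CompD U f s t w) ∩ (U ∩ D ∩ ball z ρ)) ≤ 4 / 3 := by
  have hKc : IsClosed (f '' Icc s t) := isClosed_piece f s t
  have h5 : frontier (CompD U f s t w) ∩ (U ∩ D ∩ ball z ρ) ⊆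
      ((⋃ i : ℕ, Pool.Agent.TH990.FU.Acc (1 / ((i : ℝ) + 1)) f) ∩ D) ∪
        (f '' Icc s t ∩ rest f s t ∩ D) := by
    rintro y ⟨hy1, ⟨hyU, hy2⟩, -⟩
    by_cases hyL : y ∈ rest f s t
    · exact Or.inr ⟨⟨(frontier_comp hU hKc hy1 hyU).1, hyL⟩, hy2⟩
    · exact Or.inl ⟨acc_of hU h4 hst hyU hy1 hyL, hy2⟩
  refine (dimH_mono h5).trans ?_
  rw [dimH_union]
  refine max_le h3 ((dim_inter_rest h2 s t).trans ?_)
  rw [ENNReal.div_le_iff (by norm_num) (by norm_num)]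
  have : (4 / 3 * 4 : ℝ≥0∞) = ENNReal.ofReal (16 / 3) := by
    rw [ENNReal.ofReal_div_of_pos (by norm_num)]
    rw [show (ENNReal.ofReal 16) = 16 by norm_num, show (ENNReal.ofReal 3) = 3 by norm_num,
      ENNReal.div_eq_inv_mul, ENNReal.div_eq_inv_mul, mul_assoc]
    norm_num
  rw [this, show (3 : ℝ≥0∞) = ENNReal.ofReal 3 by norm_num]
  exact ENNReal.ofReal_le_ofReal (by norm_num)

/-- The deterministic part, with the event which excludes curves in small boxes. -/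
theorem coreL {D U : Set ℂ} (hD : IsOpen D) (hU : IsOpen U) {f : C(unitInterval, ℂ)}
    (h1 : ∀ (a b H η : ℚ) (d : ℤ × ℤ), Run7.h561.EC.Dir d → 0 < H → 0 < η →
      Run7.h561.EC.Sq (5 * (H : ℝ)) ⟨a, b⟩ ⊆ D → f ∈ EvL d H η ⟨a, b⟩ →
      4 / 3 ≤ dimH (Lb (Run7.h561.EC.Sq (4 * (H : ℝ)) ⟨a, b⟩) (range f) ⟨a, b⟩))
    (h2 : dimH (dbl f ∩ D) ≤ 3 / 4)
    (h3 : dimH ((⋃ i : ℕ, Pool.Agent.TH990.FU.Acc (1 / ((i : ℝ) + 1)) f) ∩ D) ≤ 4 / 3)
    (h4 : ∀ s t : unitInterval, s < t → ∃ u ∈ Icc s t, f u ≠ f s) (axi : S_AXI)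
    {s t : unitInterval} (hst : s < t) {w z : ℂ} (hzU : z ∈ U) (hz : z ∈ D)
    (hzf : z ∈ frontier (CompD U f s t w)) {ρ : ℝ} (hρ : 0 < ρ) :
    dimH (frontier (CompD U f s t w) ∩ (U ∩ D ∩ ball z ρ)) = 4 / 3 := by
  refine le_antisymm (upperU hU h2 h3 h4 hst) ?_
  -- a point of the curve away from `z`
  obtain ⟨x0, hx0⟩ : ∃ x, f x ≠ z := by
    by_contra hcon
    push Not at hcon
    obtain ⟨u, -, hu⟩ := h4 0 1 zero_lt_one
    exact hu (by rw [hcon, hcon])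
  have hL : 0 < dist (f x0) z := dist_pos.2 hx0
  set L : ℝ := dist (f x0) z with hLdef
  have hD' : IsOpen (D ∩ ball z (L / 64)) := hD.inter isOpen_ball
  have h5 := coreU hD' hU (fun a b H η d e1 e2 e3 e4 e5 => by
    have hHr : (0 : ℝ) < H := by exact_mod_cast e2
    have m1 : (⟨a, b⟩ : ℂ) ∈ D ∩ ball z (L / 64) := e4 (by
      unfold Run7.h561.EC.Sq
      simp only [Set.mem_ofPred_eq, sub_self, abs_zero]
      constructor <;> positivity)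
    have m2 : (⟨a + 4 * H, b⟩ : ℂ) ∈ D ∩ ball z (L / 64) := e4 (by
      unfold Run7.h561.EC.Sq
      simp only [Set.mem_ofPred_eq, sub_self, abs_zero]
      rw [add_sub_cancel_left, abs_of_pos (by positivity)]
      constructor <;> linarith)
    have d1 : dist (⟨a, b⟩ : ℂ) z < L / 64 := m1.2
    have d2 : dist (⟨a + 4 * H, b⟩ : ℂ) z < L / 64 := m2.2
    have d3 : dist (⟨a + 4 * H, b⟩ : ℂ) ⟨a, b⟩ = 4 * H := by
      rw [dist_eq_norm]
      have : (⟨a + 4 * H, b⟩ : ℂ) - ⟨a, b⟩ = ((4 * H : ℝ) : ℂ) := by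
        apply Complex.ext
        · simp
        · simp
      rw [this, Complex.norm_real, Real.norm_of_nonneg (by positivity)]
    have d4 := dist_triangle_right (⟨a + 4 * H, b⟩ : ℂ) ⟨a, b⟩ z
    have d5 := dist_triangle_left (f x0) z (⟨a, b⟩ : ℂ)
    refine h1 a b H η d e1 e2 e3 (e4.trans Set.inter_subset_left) ⟨e5, x0, ?_⟩
    linarith) ((dimH_mono (Set.inter_subset_inter_right _ Set.inter_subset_left)).trans h2)
    ((dimH_mono (Set.inter_subset_inter_right _ Set.inter_subset_left)).trans h3) h4 axi hst hzU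
    ⟨hz, mem_ball_self (by positivity)⟩ hzf hρ
  rw [← h5]
  apply dimH_mono
  rintro y ⟨hy1, ⟨hy2, hy3⟩, hy4⟩
  exact ⟨hy1, ⟨hy2, hy3.1⟩, hy4⟩

/-! ### The factorisation -/

section fac
variable {f g : C(unitInterval, ℂ)} {φ : unitInterval → unitInterval} (hm : Monotone φ)
  (hc : Continuous φ) (h0 : φ 0 = 0) (h1 : φ 1 = 1) (hf : ∀ x, f x = g (φ x))
include hm hc h0 h1 hf

omit hm hf in
theorem fac_surj : Function.Surjective φ := by
  intro y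
  have h1' : Icc (φ 0) (φ 1) ⊆ φ '' Icc 0 1 :=
    intermediate_value_Icc unitInterval.nonneg' hc.continuousOn
  rw [h0, h1] at h1'
  obtain ⟨x, -, hx⟩ := h1' ⟨unitInterval.nonneg', unitInterval.le_one'⟩
  exact ⟨x, hx⟩

omit hm in
theorem fac_range : range f = range g := by
  ext z
  constructor
  · rintro ⟨x, rfl⟩
    exact ⟨φ x, (hf x).symm⟩
  · rintro ⟨y, rfl⟩
    obtain ⟨x, rfl⟩ := fac_surj hc h0 h1 y
    exact ⟨x, hf x⟩

omit h0 h1 in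
theorem fac_image {s t : unitInterval} (hst : s ≤ t) : f '' Icc s t = g '' Icc (φ s) (φ t) := by
  ext z
  constructor
  · rintro ⟨x, ⟨hx1, hx2⟩, rfl⟩
    exact ⟨φ x, ⟨hm hx1, hm hx2⟩, (hf x).symm⟩
  · rintro ⟨y, hy, rfl⟩
    obtain ⟨x, hx, rfl⟩ := intermediate_value_Icc hst hc.continuousOn hy
    exact ⟨x, hx, hf x⟩

theorem fac_lift {s t : unitInterval} (hst : s ≤ t) :
    ∃ x y : unitInterval, x ≤ y ∧ φ x = s ∧ φ y = t := by
  obtain ⟨x, rfl⟩ := fac_surj hc h0 h1 s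
  obtain ⟨y, rfl⟩ := fac_surj hc h0 h1 t
  rcases le_total x y with h | h
  · exact ⟨x, y, h, rfl, rfl⟩
  · exact ⟨x, x, le_rfl, rfl, le_antisymm hst (hm h)⟩

theorem fac_EvL {d : ℤ × ℤ} {H η : ℝ} {w : ℂ} (hg : g ∈ EvL d H η w) : f ∈ EvL d H η w := by
  obtain ⟨⟨e1, s, s', hss, e2, e3⟩, x, hx⟩ := hg
  refine ⟨⟨fun u => ?_, ?_⟩, ?_⟩
  · rw [hf]
    exact e1 _
  · obtain ⟨a, b, hab, rfl, rfl⟩ := fac_lift hm hc h0 h1 hf hss
    refine ⟨a, b, hab, ?_, ?_⟩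
    · rw [fac_image hm hc hf hab]
      exact e2
    · rw [hf, hf]
      exact e3
  · obtain ⟨y, rfl⟩ := fac_surj hc h0 h1 x
    exact ⟨y, by rw [hf]; exact hx⟩

theorem fac_dbl (h4 : ∀ s t : unitInterval, s < t → ∃ u ∈ Icc s t, g u ≠ g s) :
    dbl g ⊆ (⋃ n : ℕ, Pool.Agent.W822.PD.DPc (1 / ((n : ℝ) + 1)) f) ∪ {g 0} := by
  rintro z ⟨s, t, hst, hs, ht⟩
  by_cases hz : z = g 0
  · exact Or.inr hz
  left
  -- excursion inside
  obtain ⟨u, ⟨hu1, hu2⟩, hu3⟩ := h4 s t hst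
  -- excursion outside
  have hs0 : 0 < s := by
    refine lt_of_le_of_ne unitInterval.nonneg' fun h => hz ?_
    rw [← hs, ← h]
  obtain ⟨a, b, hab, ha, hb⟩ := fac_lift hm hc h0 h1 hf hst.le
  have hp1 : 0 < dist (g u) z := dist_pos.2 (by rw [← hs]; exact hu3)
  have hp2 : 0 < dist (g 0) z := dist_pos.2 (Ne.symm hz)
  obtain ⟨n, hn⟩ := exists_nat_one_div_lt (lt_min hp1 hp2)
  refine Set.mem_iUnion.2 ⟨n, a, b, hab, ?_, ?_, ?_, ?_⟩
  · rw [hf, ha, hs]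
  · rw [hf, hb, ht]
  · have hu4 : u ∈ Icc (φ a) (φ b) := by rw [ha, hb]; exact ⟨hu1, hu2⟩
    obtain ⟨c, ⟨hc1, hc2⟩, hc3⟩ := intermediate_value_Icc hab hc.continuousOn hu4
    refine ⟨c, ⟨hc1, hc2⟩, ?_⟩
    rw [hf, hc3]
    exact hn.le.trans (min_le_left _ _)
  · refine ⟨0, Or.inl unitInterval.nonneg', ?_⟩
    rw [hf, h0]
    exact hn.le.trans (min_le_right _ _)

end fac

/-- **FINL** -/
theorem t_FINL (hit : S_HITL) (acc : S_ACCL) (dbc : S_DBLL) (mlf : S_MLF) (axi : S_AXI) :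
    S_FINL := by
  intro γ hγ k hk μ hμ
  have h1 : ∀ᵐ c : Curve ∂(μ : Measure Curve), ∀ (a b H η : ℚ) (d : ℤ × ℤ) (j : ℕ),
      Run7.h561.EC.Dir d → 0 < H → 0 < η →
      Run7.h561.EC.Sq (5 * (H : ℝ)) ⟨a, b⟩ ⊆ Pool.Agent.W822.PD.Sq → c.path ∈ EvL d H η ⟨a, b⟩ →
        ENNReal.ofReal (4 / 3 - 1 / ((j : ℝ) + 1)) ≤
          dimH (Lb (Run7.h561.EC.Sq (4 * (H : ℝ)) ⟨a, b⟩) (range c.path) ⟨a, b⟩) := by
    refine ae_all_iff.2 fun a => ae_all_iff.2 fun b => ae_all_iff.2 fun H =>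
      ae_all_iff.2 fun η => ae_all_iff.2 fun d => ae_all_iff.2 fun j => ?_
    by_cases hc : Run7.h561.EC.Dir d ∧ 0 < H ∧ 0 < η ∧
        Run7.h561.EC.Sq (5 * (H : ℝ)) ⟨a, b⟩ ⊆ Pool.Agent.W822.PD.Sq
    · obtain ⟨c1, c2, c3, c4⟩ := hc
      have hk0 : (0 : ℝ) < 1 / ((j : ℝ) + 1) := by positivity
      have hk1 : 1 / ((j : ℝ) + 1) ≤ 1 := by
        rw [div_le_one (by positivity)]
        have : (0 : ℝ) ≤ j := Nat.cast_nonneg _
        linarith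
      filter_upwards [hit γ hγ k hk μ hμ (4 / 3 - 1 / ((j : ℝ) + 1)) (by linarith) (by linarith)
        d H η ⟨a, b⟩ c1 (by exact_mod_cast c2) (by exact_mod_cast c3) c4] with c hc _ _ _ _
      exact hc
    · exact Eventually.of_forall fun c e1 e2 e3 e4 => absurd ⟨e1, e2, e3, e4⟩ hc
  have h2 : ∀ᵐ c : Curve ∂(μ : Measure Curve), ∀ n : ℕ,
      dimH (Pool.Agent.W822.PD.DPc (1 / ((n : ℝ) + 1)) c.path ∩ Pool.Agent.W822.PD.Sq) ≤ 3 / 4 :=
    ae_all_iff.2 fun n => dbc γ hγ k hk μ hμ _ (by positivity)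
  filter_upwards [h1, h2, acc γ hγ k hk μ hμ] with c g1 g2 g3
  intro s t hst U hU w z hzU hz hzf ρ hρ
  obtain ⟨u, ⟨hu1, hu2⟩, hu3⟩ := hst
  obtain ⟨φ, g, hm, hc, h0, h1', hf, h4⟩ := mlf c.path ⟨u, s, hu3⟩
  have hst : s ≤ t := hu1.trans hu2
  have hlt : φ s < φ t := by
    refine lt_of_lt_of_le ?_ (hm hu2)
    refine lt_of_le_of_ne (hm hu1) fun e => hu3 ?_
    rw [hf, hf, e]
  have hr := fac_range hc h0 h1' hf
  have himg := fac_image hm hc hf hst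
  have hacc : ∀ η : ℝ, Pool.Agent.TH990.FU.Acc η g = Pool.Agent.TH990.FU.Acc η c.path := by
    intro η
    ext y
    unfold Pool.Agent.TH990.FU.Acc
    simp only [Set.mem_ofPred_eq, hr]
    constructor
    · rintro ⟨e1, ⟨v, hv⟩, e2⟩
      obtain ⟨x, rfl⟩ := fac_surj hc h0 h1' v
      exact ⟨e1, ⟨x, by rw [hf]; exact hv⟩, e2⟩
    · rintro ⟨e1, ⟨v, hv⟩, e2⟩
      exact ⟨e1, ⟨φ v, by rw [← hf]; exact hv⟩, e2⟩
  rw [himg] at hzf ⊢
  refine coreL (f := g) Pool.Agent.W978.PDUL.Sq_open hU (fun a b H η d e1 e2 e3 e4 e5 => ?_) ?_ ?_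
    h4 axi hlt hzU hz hzf hρ
  · rw [← hr]
    exact four_thirds_le fun j => g1 a b H η d j e1 e2 e3 e4 (fac_EvL hm hc h0 h1' hf e5)
  · refine (dimH_mono (Set.inter_subset_inter_left _ (fac_dbl hm hc h0 h1' hf h4))).trans ?_
    rw [Set.union_inter_distrib_right, dimH_union, Set.iUnion_inter, dimH_iUnion]
    refine max_le (iSup_le g2) ?_
    refine (dimH_mono Set.inter_subset_left).trans ?_
    rw [dimH_singleton]
    exact zero_le
  · simp only [hacc]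
    exact g3

end Run7.h165.EC
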