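import Pool.Agent.H984R4.NP.Model

/-! # Components of the rectangle minus a piece of the curve -/

set_option autoImplicit false

namespace Run7.h165.EC

open Set Filter Topology Metric H984N
open scoped ENNReal NNReal

/-- A component of `D \ K` has boundary points in `D`, if `K` meets `D`. -/
theorem front_ne {D K : Set ℂ} (hD : IsOpen D) (hDc : IsPreconnected D) (hK : IsClosed K)
    (hKD : (K ∩ D).Nonempty) {w : ℂ} (hw : w ∈ D \ K) :
    (frontier (connectedComponentIn (D \ K) w) ∩ D).Nonempty := by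
  by_contra hcon
  rw [Set.not_nonempty_iff_eq_empty] at hcon
  set C := connectedComponentIn (D \ K) w with hC
  have hCo : IsOpen C := (hD.sdiff hK).connectedComponentIn
  have hwC : w ∈ C := mem_connectedComponentIn hw
  have h1 : D ⊆ C ∪ (closure C)ᶜ := by
    intro z hz
    by_cases h : z ∈ C
    · exact Or.inl h
    right
    intro h2
    have : z ∈ frontier C ∩ D := ⟨⟨h2, by rwa [hCo.interior_eq]⟩, hz⟩
    rw [hcon] at this
    exact this
  have h2 : Disjoint C (closure C)ᶜ := by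
    rw [Set.disjoint_left]
    intro z hz hz2
    exact hz2 (subset_closure hz)
  have h3 := hDc.subset_left_of_subset_union hCo isClosed_closure.isOpen_compl h2 h1
    ⟨w, hw.1, hwC⟩
  obtain ⟨z, hzK, hzD⟩ := hKD
  exact (connectedComponentIn_subset _ _ (h3 hzD)).2 hzK

theorem line_re (c : ℝ) : dimH {z : ℂ | z.re = c} ≤ 1 := by
  have h1 : LipschitzWith 1 (fun y : ℝ => (⟨c, y⟩ : ℂ)) := by
    refine LipschitzWith.of_dist_le_mul fun x y => ?_
    rw [NNReal.coe_one, one_mul, Complex.dist_eq_re_im]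
    simp only [sub_self]
    rw [Real.dist_eq, ← Real.sqrt_sq_eq_abs]
    apply Real.sqrt_le_sqrt
    linarith [sq_nonneg (x - y)]
  have h2 : {z : ℂ | z.re = c} ⊆ Set.range (fun y : ℝ => (⟨c, y⟩ : ℂ)) := by
    intro z hz
    exact ⟨z.im, Complex.ext hz.symm rfl⟩
  refine (dimH_mono h2).trans ((h1.dimH_range_le).trans ?_)
  rw [Real.dimH_univ]

theorem line_im (c : ℝ) : dimH {z : ℂ | z.im = c} ≤ 1 := by
  have h1 : LipschitzWith 1 (fun y : ℝ => (⟨y, c⟩ : ℂ)) := by
    refine LipschitzWith.of_dist_le_mul fun x y => ?_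
    rw [NNReal.coe_one, one_mul, Complex.dist_eq_re_im]
    simp only [sub_self]
    rw [Real.dist_eq, ← Real.sqrt_sq_eq_abs]
    apply Real.sqrt_le_sqrt
    linarith [sq_nonneg (x - y)]
  have h2 : {z : ℂ | z.im = c} ⊆ Set.range (fun y : ℝ => (⟨y, c⟩ : ℂ)) := by
    intro z hz
    exact ⟨z.re, Complex.ext rfl hz.symm⟩
  refine (dimH_mono h2).trans ((h1.dimH_range_le).trans ?_)
  rw [Real.dimH_univ]

theorem one_lt74 : (1 : ℝ≥0∞) < 7 / 4 := by
  have h : (7 / 4 : ℝ≥0∞) = ENNReal.ofReal (7 / 4) := by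
    rw [ENNReal.ofReal_div_of_pos (by norm_num)]; norm_num
  rw [h, ← ENNReal.ofReal_one]
  exact (ENNReal.ofReal_lt_ofReal_iff (by norm_num)).2 (by norm_num)

/-- A set of dimension `7/4` in the closed rectangle meets the rectangle. -/
theorem meets (R : Rect) {K : Set ℂ} (hK : K ⊆ closure R.D) (h : dimH K = 7 / 4) :
    (K ∩ R.D).Nonempty := by
  by_contra hcon
  rw [Set.not_nonempty_iff_eq_empty] at hcon
  have hcl : closure R.D ⊆ {z : ℂ | -R.A ≤ z.re ∧ z.re ≤ R.B ∧ 0 ≤ z.im ∧ z.im ≤ R.H} := by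
    apply closure_minimal
    · rintro z ⟨h1, h2, h3, h4⟩
      exact ⟨h1.le, h2.le, h3.le, h4.le⟩
    · refine IsClosed.and ?_ (IsClosed.and ?_ (IsClosed.and ?_ ?_))
      · exact isClosed_le continuous_const Complex.continuous_re
      · exact isClosed_le Complex.continuous_re continuous_const
      · exact isClosed_le continuous_const Complex.continuous_im
      · exact isClosed_le Complex.continuous_im continuous_const
  have h1 : K ⊆ (({z : ℂ | z.re = -R.A} ∪ {z : ℂ | z.re = R.B}) ∪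
      ({z : ℂ | z.im = 0} ∪ {z : ℂ | z.im = R.H})) := by
    intro z hz
    obtain ⟨g1, g2, g3, g4⟩ := hcl (hK hz)
    by_contra hcon2
    simp only [Set.mem_union, Set.mem_ofPred_eq, not_or] at hcon2
    obtain ⟨⟨k1, k2⟩, k3, k4⟩ := hcon2
    have : z ∈ K ∩ R.D := ⟨hz, lt_of_le_of_ne g1 (Ne.symm k1), lt_of_le_of_ne g2 k2,
      lt_of_le_of_ne g3 (Ne.symm k3), lt_of_le_of_ne g4 k4⟩
    rw [hcon] at this
    exact this
  have h2 := dimH_mono h1
  rw [dimH_union, dimH_union, dimH_union, h] at h2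
  have h3 : (7 / 4 : ℝ≥0∞) ≤ 1 := h2.trans (max_le (max_le (line_re _) (line_re _))
    (max_le (line_im _) (line_im _)))
  exact absurd h3 (not_le.2 one_lt74)

theorem rect_conn (R : Rect) : IsPreconnected R.D := by
  apply Convex.isPreconnected
  have h : R.D = ({z : ℂ | -R.A < z.re} ∩ {z : ℂ | z.re < R.B}) ∩
      ({z : ℂ | 0 < z.im} ∩ {z : ℂ | z.im < R.H}) := by
    ext z
    constructor
    · rintro ⟨h1, h2, h3, h4⟩
      exact ⟨⟨h1, h2⟩, h3, h4⟩
    · rintro ⟨⟨h1, h2⟩, h3, h4⟩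
      exact ⟨h1, h2, h3, h4⟩
  rw [h]
  exact ((convex_halfSpace_re_gt _).inter (convex_halfSpace_re_lt _)).inter
    ((convex_halfSpace_im_gt _).inter (convex_halfSpace_im_lt _))

theorem rect_ball (R : Rect) (z : ℂ) : ∃ ρ : ℝ, 0 < ρ ∧ R.D ⊆ ball z ρ := by
  have hb : Bornology.IsBounded R.D := by
    rw [Metric.isBounded_iff_subset_ball (0 : ℂ)]
    refine ⟨R.A + R.B + R.H + 1, ?_⟩
    rintro w ⟨h1, h2, h3, h4⟩
    rw [mem_ball_zero_iff]
    refine (Complex.norm_le_abs_re_add_abs_im w).trans_lt ?_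
    have a1 := R.hA
    have a2 := R.hB
    have e1 : |w.re| ≤ R.A + R.B := abs_le.2 ⟨by linarith, by linarith⟩
    have e2 : |w.im| ≤ R.H := abs_le.2 ⟨by linarith, h4.le⟩
    linarith
  obtain ⟨r, hr⟩ := (Metric.isBounded_iff_subset_ball z).1 hb
  exact ⟨max r 1, by positivity, hr.trans (ball_subset_ball (le_max_left _ _))⟩

end Run7.h165.EC
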