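import Pool.Agent.Run7.h165.EC.Scale
import Pool.Agent.Run7.h165.EC.Dom

/-! # All the components of the complement of a piece of the curve -/

set_option autoImplicit false

namespace Run7.h165.EC

open Set Filter Topology Metric H984N
open Run7.h561.EC
open scoped ENNReal NNReal

/-- A component of `Kᶜ` has boundary points in `D`. -/
theorem front_ne2 {D K : Set ℂ} (hDc : IsPreconnected D)
    (hV : IsPreconnected (closure D)ᶜ) (hfr : frontier D ⊆ closure (closure D)ᶜ)
    (hK : IsClosed K) (hKc : K ⊆ closure D) (hKD : (K ∩ D).Nonempty)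
    (hx : ∃ x ∈ frontier D, x ∉ K) {w : ℂ} (hw : w ∉ K) :
    (frontier (connectedComponentIn Kᶜ w) ∩ D).Nonempty := by
  by_contra hcon
  rw [Set.not_nonempty_iff_eq_empty] at hcon
  set C := connectedComponentIn Kᶜ w with hC
  have hCo : IsOpen C := hK.isOpen_compl.connectedComponentIn
  have hwC : w ∈ C := mem_connectedComponentIn hw
  have hCK : C ⊆ Kᶜ := connectedComponentIn_subset _ _
  -- a preconnected set which meets `C` is in `C`
  have hsub : ∀ S : Set ℂ, IsPreconnected S → S ⊆ Kᶜ → (S ∩ C).Nonempty → S ⊆ C := by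
    rintro S hS hSK ⟨y, hyS, hyC⟩
    rw [hC, connectedComponentIn_eq hyC]
    exact hS.subset_connectedComponentIn hyS hSK
  have h1 : D ⊆ C ∪ (closure C)ᶜ := by
    intro z hz
    by_cases h : z ∈ C
    · exact Or.inl h
    right
    intro h2
    have : z ∈ frontier C ∩ D := ⟨⟨h2, by rwa [hCo.interior_eq]⟩, hz⟩
    rw [hcon] at this
    exact this
  have h2 : Disjoint C (closure C)ᶜ := by
    rw [Set.disjoint_left]
    intro z hz hz2
    exact hz2 (subset_closure hz)
  -- `C` does not meet `D`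
  have h3 : ∀ z ∈ C, z ∉ D := by
    intro z hz hzD
    have h4 := hDc.subset_left_of_subset_union hCo isClosed_closure.isOpen_compl h2 h1
      ⟨z, hzD, hz⟩
    obtain ⟨y, hyK, hyD⟩ := hKD
    exact hCK (h4 hyD) hyK
  have h4 : w ∈ (closure D)ᶜ := by
    intro hwD
    obtain ⟨y, hyC, hyD⟩ := mem_closure_iff.1 hwD C hCo hwC
    exact h3 y hyC hyD
  have h5 : (closure D)ᶜ ⊆ C := hsub _ hV (Set.compl_subset_compl.2 hKc) ⟨w, h4, hwC⟩
  obtain ⟨x, hx1, hx2⟩ := hx
  obtain ⟨r, hr, hrK⟩ := Metric.isOpen_iff.1 hK.isOpen_compl x hx2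
  have h6 : ball x r ⊆ C := by
    refine hsub _ (convex_ball x r).isPreconnected hrK ?_
    obtain ⟨y, hyb, hyV⟩ := mem_closure_iff.1 (hfr hx1) (ball x r) isOpen_ball (mem_ball_self hr)
    exact ⟨y, hyb, h5 hyV⟩
  obtain ⟨y, hyb, hyD⟩ := mem_closure_iff.1 (frontier_subset_closure hx1) (ball x r) isOpen_ball
    (mem_ball_self hr)
  exact h3 y (h6 hyb) hyD

theorem piece_compact (f : C(unitInterval, ℂ)) (s t : unitInterval) :
    IsCompact (f '' Icc s t) := isCompact_Icc.image f.continuous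

theorem piece_ball (f : C(unitInterval, ℂ)) (s t : unitInterval) (z : ℂ) :
    ∃ ρ : ℝ, 0 < ρ ∧ f '' Icc s t ⊆ ball z ρ := by
  obtain ⟨r, hr⟩ := (Metric.isBounded_iff_subset_ball z).1 (piece_compact f s t).isBounded
  exact ⟨max r 1, by positivity, hr.trans (ball_subset_ball (le_max_left _ _))⟩

/-- The part in `U` of the boundary of a component of `U \ K` is in `K`. -/
theorem front_sub {U K : Set ℂ} (hU : IsOpen U) (hK : IsClosed K) (w : ℂ) :
    frontier (connectedComponentIn (U \ K) w) ∩ U ⊆ K := by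
  rintro z ⟨hz, hzU⟩
  by_contra hzK
  have hCo : IsOpen (connectedComponentIn (U \ K) w) := (hU.sdiff hK).connectedComponentIn
  have hCz : IsOpen (connectedComponentIn (U \ K) z) := (hU.sdiff hK).connectedComponentIn
  have hz1 : z ∈ connectedComponentIn (U \ K) z := mem_connectedComponentIn ⟨hzU, hzK⟩
  obtain ⟨y, hy1, hy2⟩ := mem_closure_iff.1 (frontier_subset_closure hz) _ hCz hz1
  have h1 := connectedComponentIn_eq hy1
  have h2 := connectedComponentIn_eq hy2
  have h3 : z ∈ connectedComponentIn (U \ K) w := by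
    rw [h2, ← h1]
    exact hz1
  rw [frontier, hCo.interior_eq] at hz
  exact hz.2 h3

/-- The whole boundary. -/
theorem whole {D : Set ℂ} {f : C(unitInterval, ℂ)} {s t : unitInterval} (hst : s < t)
    (h : Fin43 D f) (hDc : IsPreconnected D)
    (hV : IsPreconnected (closure D)ᶜ) (hfr : frontier D ⊆ closure (closure D)ᶜ)
    (hKc : f '' Icc s t ⊆ closure D) (hKD : (f '' Icc s t ∩ D).Nonempty)
    (hx : ∃ x ∈ frontier D, x ∉ f '' Icc s t) (hd : dimH (closure D \ D) ≤ 4 / 3) {w : ℂ}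
    (hw : w ∉ f '' Icc s t) :
    dimH (frontier (connectedComponentIn (f '' Icc s t)ᶜ w)) = 4 / 3 := by
  have hKcl := (piece_compact f s t).isClosed
  obtain ⟨z, hz, hzD⟩ := front_ne2 hDc hV hfr hKcl hKc hKD hx hw
  obtain ⟨ρ, hρ, hρK⟩ := piece_ball f s t z
  have h1 := h s t hst Set.univ isOpen_univ w z (Set.mem_univ z) hzD (by
    unfold CompD
    rwa [← Set.compl_eq_univ_sdiff]) ρ hρ
  unfold CompD at h1
  rw [← Set.compl_eq_univ_sdiff] at h1
  have hfK : frontier (connectedComponentIn (f '' Icc s t)ᶜ w) ⊆ f '' Icc s t := by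
    have h2 := front_sub isOpen_univ hKcl w
    rwa [← Set.compl_eq_univ_sdiff, Set.inter_univ] at h2
  apply le_antisymm
  · have h3 : frontier (connectedComponentIn (f '' Icc s t)ᶜ w) ⊆
        (frontier (connectedComponentIn (f '' Icc s t)ᶜ w) ∩ (Set.univ ∩ D ∩ ball z ρ)) ∪
        (closure D \ D) := by
      intro y hy
      by_cases hyD : y ∈ D
      · exact Or.inl ⟨hy, ⟨Set.mem_univ _, hyD⟩, hρK (hfK hy)⟩
      · exact Or.inr ⟨hKc (hfK hy), hyD⟩
    refine (dimH_mono h3).trans ?_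
    rw [dimH_union, h1]
    exact max_le le_rfl hd
  · rw [← h1]
    exact dimH_mono Set.inter_subset_left

/-- The whole boundary in `D`. -/
theorem wholeD {D : Set ℂ} (hD : IsOpen D) {f : C(unitInterval, ℂ)} {s t : unitInterval}
    (hst : s < t) (h : Fin43 D f) (hDc : IsPreconnected D) (hKD : (f '' Icc s t ∩ D).Nonempty)
    {w : ℂ} (hw : w ∈ D \ f '' Icc s t) :
    dimH (frontier (connectedComponentIn (D \ f '' Icc s t) w) ∩ D) = 4 / 3 := by
  have hKcl := (piece_compact f s t).isClosed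
  obtain ⟨z, hz, hzD⟩ := front_ne hD hDc hKcl hKD hw
  obtain ⟨ρ, hρ, hρK⟩ := piece_ball f s t z
  have h1 := h s t hst D hD w z hzD hzD hz ρ hρ
  unfold CompD at h1
  rw [← h1]
  congr 1
  ext y
  constructor
  · rintro ⟨hy1, hy2⟩
    exact ⟨hy1, ⟨hy2, hy2⟩, hρK (front_sub hD hKcl w ⟨hy1, hy2⟩)⟩
  · rintro ⟨hy1, ⟨hy2, -⟩, -⟩
    exact ⟨hy1, hy2⟩

/-- The times at which the curve is on a subset of dimension `4/3`. -/
theorem times_on {f : C(unitInterval, ℂ)} (hu : ∀ E : Set unitInterval,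
    dimH (f '' E) = 7 / 4 * dimH E) {s t : unitInterval} {S : Set ℂ} (hS : S ⊆ f '' Icc s t)
    (h : dimH S = 4 / 3) : dimH {u : unitInterval | u ∈ Icc s t ∧ f u ∈ S} = 16 / 21 := by
  have e : f '' {u : unitInterval | u ∈ Icc s t ∧ f u ∈ S} = S := by
    ext z
    constructor
    · rintro ⟨u, ⟨-, hu⟩, rfl⟩
      exact hu
    · intro hz
      obtain ⟨u, hu, rfl⟩ := hS hz
      exact ⟨u, ⟨hu, hz⟩, rfl⟩
  have h4 := hu {u : unitInterval | u ∈ Icc s t ∧ f u ∈ S}
  rw [e, h] at h4
  have a1 : (4 / 7 : ℝ≥0∞) = ENNReal.ofReal (4 / 7) := by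
    rw [ENNReal.ofReal_div_of_pos (by norm_num)]; norm_num
  have a2 : (7 / 4 : ℝ≥0∞) = ENNReal.ofReal (7 / 4) := by
    rw [ENNReal.ofReal_div_of_pos (by norm_num)]; norm_num
  have a3 : (4 / 3 : ℝ≥0∞) = ENNReal.ofReal (4 / 3) := by
    rw [ENNReal.ofReal_div_of_pos (by norm_num)]; norm_num
  have a4 : (16 / 21 : ℝ≥0∞) = ENNReal.ofReal (16 / 21) := by
    rw [ENNReal.ofReal_div_of_pos (by norm_num)]; norm_num
  have e2 : (4 / 7 : ℝ≥0∞) * (7 / 4) = 1 := by
    rw [a1, a2, ← ENNReal.ofReal_mul (by norm_num)]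
    norm_num
  calc dimH {u : unitInterval | u ∈ Icc s t ∧ f u ∈ S}
      = 4 / 7 * (7 / 4 * dimH {u : unitInterval | u ∈ Icc s t ∧ f u ∈ S}) := by
        rw [← mul_assoc, e2, one_mul]
    _ = 4 / 7 * (4 / 3) := by rw [← h4]
    _ = 16 / 21 := by
        rw [a1, a3, a4, ← ENNReal.ofReal_mul (by norm_num)]
        norm_num

theorem one_le43 : (1 : ℝ≥0∞) ≤ 4 / 3 := by
  have h : (4 / 3 : ℝ≥0∞) = ENNReal.ofReal (4 / 3) := by
    rw [ENNReal.ofReal_div_of_pos (by norm_num)]; norm_num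
  rw [h, ← ENNReal.ofReal_one]
  exact ENNReal.ofReal_le_ofReal (by norm_num)

/-! ### The rectangle -/

theorem rect_clos (R : Rect) : closure R.D =
    {z : ℂ | -R.A ≤ z.re ∧ z.re ≤ R.B ∧ 0 ≤ z.im ∧ z.im ≤ R.H} := by
  have hA := R.hA
  have hB := R.hB
  have hH := R.hH
  apply Set.Subset.antisymm
  · apply closure_minimal
    · rintro z ⟨h1, h2, h3, h4⟩
      exact ⟨h1.le, h2.le, h3.le, h4.le⟩
    · refine IsClosed.and ?_ (IsClosed.and ?_ (IsClosed.and ?_ ?_))
      · exact isClosed_le continuous_const Complex.continuous_re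
      · exact isClosed_le Complex.continuous_re continuous_const
      · exact isClosed_le continuous_const Complex.continuous_im
      · exact isClosed_le Complex.continuous_im continuous_const
  · rintro z ⟨h1, h2, h3, h4⟩
    -- the points of the segment from `z` to the centre
    set c : ℂ := ⟨(R.B - R.A) / 2, R.H / 2⟩ with hc
    have hcont : Continuous (fun x : ℝ => z + (x : ℂ) * (c - z)) := by fun_prop
    have hz : z = (fun x : ℝ => z + (x : ℂ) * (c - z)) 0 := by simp
    have h0 : (0 : ℝ) ∈ closure (Ioo (0 : ℝ) 1) := by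
      rw [closure_Ioo (by norm_num)]
      exact ⟨le_rfl, zero_le_one⟩
    have h5 := image_closure_subset_closure_image hcont ⟨0, h0, rfl⟩
    rw [← hz] at h5
    refine closure_mono ?_ h5
    rintro _ ⟨x, ⟨hx0, hx1⟩, rfl⟩
    have e1 : (z + (x : ℂ) * (c - z)).re = z.re + x * ((R.B - R.A) / 2 - z.re) := by
      simp [hc]
    have e2 : (z + (x : ℂ) * (c - z)).im = z.im + x * (R.H / 2 - z.im) := by
      simp [hc]
    refine ⟨?_, ?_, ?_, ?_⟩
    · simp only
      rw [e1]
      nlinarith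
    · simp only
      rw [e1]
      nlinarith
    · simp only
      rw [e2]
      nlinarith
    · simp only
      rw [e2]
      nlinarith

theorem rect_out (R : Rect) : (closure R.D)ᶜ = (({z : ℂ | z.im < 0} ∪ {z : ℂ | z.re < -R.A}) ∪
    {z : ℂ | R.B < z.re}) ∪ {z : ℂ | R.H < z.im} := by
  rw [rect_clos]
  ext z
  simp only [Set.mem_compl_iff, Set.mem_ofPred_eq, Set.mem_union]
  constructor
  · intro h
    by_contra hcon
    push Not at hcon
    obtain ⟨⟨⟨h1, h2⟩, h3⟩, h4⟩ := hcon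
    exact h ⟨h2, h3, h1, h4⟩
  · rintro (((h | h) | h) | h) ⟨h1, h2, h3, h4⟩ <;> linarith

theorem rect_out_conn (R : Rect) : IsPreconnected (closure R.D)ᶜ := by
  rw [rect_out]
  have hA := R.hA
  have hB := R.hB
  have hH := R.hH
  have c1 : IsPreconnected {z : ℂ | z.im < 0} := (convex_halfSpace_im_lt 0).isPreconnected
  have c2 : IsPreconnected {z : ℂ | z.re < -R.A} := (convex_halfSpace_re_lt _).isPreconnected
  have c3 : IsPreconnected {z : ℂ | R.B < z.re} := (convex_halfSpace_re_gt _).isPreconnected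
  have c4 : IsPreconnected {z : ℂ | R.H < z.im} := (convex_halfSpace_im_gt _).isPreconnected
  have h12 : IsPreconnected ({z : ℂ | z.im < 0} ∪ {z : ℂ | z.re < -R.A}) := by
    refine IsPreconnected.union' ⟨⟨-R.A - 1, -1⟩, ?_, ?_⟩ c1 c2
    · show (-1 : ℝ) < 0
      norm_num
    · show -R.A - 1 < -R.A
      linarith
  have h123 : IsPreconnected (({z : ℂ | z.im < 0} ∪ {z : ℂ | z.re < -R.A}) ∪
      {z : ℂ | R.B < z.re}) := by
    refine IsPreconnected.union' ⟨⟨R.B + 1, -1⟩, Or.inl ?_, ?_⟩ h12 c3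
    · show (-1 : ℝ) < 0
      norm_num
    · show R.B < R.B + 1
      linarith
  refine IsPreconnected.union' ⟨⟨R.B + 1, R.H + 1⟩, Or.inr ?_, ?_⟩ h123 c4
  · show R.B < R.B + 1
    linarith
  · show R.H < R.H + 1
    linarith

/-- A boundary point of a closed convex set with... (rectangle) is a limit of outer points. -/
theorem rect_front (R : Rect) : frontier R.D ⊆ closure (closure R.D)ᶜ := by
  intro z hz
  have hzc := frontier_subset_closure hz
  have hzi : z ∉ R.D := fun h => by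
    have := hz.2
    rw [IsOpen.interior_eq] at this
    · exact this h
    · refine IsOpen.and ?_ (IsOpen.and ?_ (IsOpen.and ?_ ?_))
      · exact isOpen_lt continuous_const Complex.continuous_re
      · exact isOpen_lt Complex.continuous_re continuous_const
      · exact isOpen_lt continuous_const Complex.continuous_im
      · exact isOpen_lt Complex.continuous_im continuous_const
  rw [rect_clos] at hzc
  obtain ⟨h1, h2, h3, h4⟩ := hzc
  have key : ∀ v : ℂ, (∀ x : ℝ, 0 < x → z + (x : ℂ) * v ∈ (closure R.D)ᶜ) →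
      z ∈ closure (closure R.D)ᶜ := by
    intro v hv
    have hcont : Continuous (fun x : ℝ => z + (x : ℂ) * v) := by fun_prop
    have hz' : z = (fun x : ℝ => z + (x : ℂ) * v) 0 := by simp
    have h0 : (0 : ℝ) ∈ closure (Ioo (0 : ℝ) 1) := by
      rw [closure_Ioo (by norm_num)]
      exact ⟨le_rfl, zero_le_one⟩
    have h5 := image_closure_subset_closure_image hcont ⟨0, h0, rfl⟩
    rw [← hz'] at h5
    refine closure_mono ?_ h5
    rintro _ ⟨x, ⟨hx0, hx1⟩, rfl⟩
    exact hv x hx0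
  by_cases k1 : z.re = -R.A
  · apply key (-1)
    intro x hx
    rw [rect_out]
    left; left; right
    show (z + (x : ℂ) * (-1)).re < -R.A
    simp
    linarith
  by_cases k2 : z.re = R.B
  · apply key 1
    intro x hx
    rw [rect_out]
    left; right
    show R.B < (z + (x : ℂ) * 1).re
    simp
    linarith
  by_cases k3 : z.im = 0
  · apply key (-Complex.I)
    intro x hx
    rw [rect_out]
    left; left; left
    show (z + (x : ℂ) * (-Complex.I)).im < 0
    simp
    linarith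
  by_cases k4 : z.im = R.H
  · apply key Complex.I
    intro x hx
    rw [rect_out]
    right
    show R.H < (z + (x : ℂ) * Complex.I).im
    simp
    linarith
  exact absurd ⟨lt_of_le_of_ne h1 (Ne.symm k1), lt_of_le_of_ne h2 k2,
    lt_of_le_of_ne h3 (Ne.symm k3), lt_of_le_of_ne h4 k4⟩ hzi

theorem rect_bd_dim (R : Rect) : dimH (closure R.D \ R.D) ≤ 4 / 3 := by
  have h1 : closure R.D \ R.D ⊆ (({z : ℂ | z.re = -R.A} ∪ {z : ℂ | z.re = R.B}) ∪
      ({z : ℂ | z.im = 0} ∪ {z : ℂ | z.im = R.H})) := by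
    rintro z ⟨hz1, hz2⟩
    rw [rect_clos] at hz1
    obtain ⟨g1, g2, g3, g4⟩ := hz1
    by_contra hcon2
    simp only [Set.mem_union, Set.mem_ofPred_eq, not_or] at hcon2
    obtain ⟨⟨k1, k2⟩, k3, k4⟩ := hcon2
    exact hz2 ⟨lt_of_le_of_ne g1 (Ne.symm k1), lt_of_le_of_ne g2 k2,
      lt_of_le_of_ne g3 (Ne.symm k3), lt_of_le_of_ne g4 k4⟩
  refine (dimH_mono h1).trans ?_
  rw [dimH_union, dimH_union, dimH_union]
  exact (max_le (max_le (line_re _) (line_re _)) (max_le (line_im _) (line_im _))).trans one_le43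

/-- The bottom side has dimension one. -/
theorem rect_bd_one (R : Rect) : 1 ≤ dimH (frontier R.D) := by
  have hA := R.hA
  have hB := R.hB
  have hH := R.hH
  have h1 : (fun x : ℝ => (x : ℂ)) '' Ioo (-R.A) R.B ⊆ frontier R.D := by
    rintro _ ⟨x, ⟨hx1, hx2⟩, rfl⟩
    constructor
    · rw [rect_clos]
      exact ⟨hx1.le, hx2.le, le_rfl, hH.le⟩
    · intro h
      have h2 := interior_subset h
      exact lt_irrefl _ h2.2.2.1
  have h2 : dimH ((fun x : ℝ => (x : ℂ)) '' Ioo (-R.A) R.B) = dimH (Ioo (-R.A) R.B) :=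
    Complex.isometry_ofReal.dimH_image _
  have h3 : dimH (Ioo (-R.A) R.B) = 1 := by
    have h4 : (interior (Ioo (-R.A) R.B)).Nonempty := by
      rw [interior_Ioo]
      exact Set.nonempty_Ioo.2 (by linarith)
    rw [Real.dimH_of_nonempty_interior h4, Module.finrank_self, Nat.cast_one]
  rw [← h3, ← h2]
  exact dimH_mono h1

end Run7.h165.EC
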