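import Pool.Agent.Run7.h165.EC.Finl
import Pool.Agent.Run7.h165.EC.Dom2

/-! # All the components of the complement of an arc in the closed unit square -/

set_option autoImplicit false

namespace Run7.h165.EC

open Set Filter Topology Metric
open scoped ENNReal NNReal

open Pool.Agent.W822.PD (Sq)

/-! ### The unit square -/

theorem sq_clos : closure Sq =
    {z : ℂ | 0 ≤ z.re ∧ z.re ≤ 1 ∧ 0 ≤ z.im ∧ z.im ≤ 1} := by
  apply Set.Subset.antisymm
  · apply closure_minimal
    · rintro z ⟨h1, h2, h3, h4⟩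
      exact ⟨h1.le, h2.le, h3.le, h4.le⟩
    · refine IsClosed.and ?_ (IsClosed.and ?_ (IsClosed.and ?_ ?_))
      · exact isClosed_le continuous_const Complex.continuous_re
      · exact isClosed_le Complex.continuous_re continuous_const
      · exact isClosed_le continuous_const Complex.continuous_im
      · exact isClosed_le Complex.continuous_im continuous_const
  · rintro z ⟨h1, h2, h3, h4⟩
    -- the points of the segment from `z` to the centre
    set c : ℂ := ⟨1 / 2, 1 / 2⟩ with hc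
    have hcont : Continuous (fun x : ℝ => z + (x : ℂ) * (c - z)) := by fun_prop
    have hz : z = (fun x : ℝ => z + (x : ℂ) * (c - z)) 0 := by simp
    have h0 : (0 : ℝ) ∈ closure (Ioo (0 : ℝ) 1) := by
      rw [closure_Ioo (by norm_num)]
      exact ⟨le_rfl, zero_le_one⟩
    have h5 := image_closure_subset_closure_image hcont ⟨0, h0, rfl⟩
    rw [← hz] at h5
    refine closure_mono ?_ h5
    rintro _ ⟨x, ⟨hx0, hx1⟩, rfl⟩
    have e1 : (z + (x : ℂ) * (c - z)).re = z.re + x * (1 / 2 - z.re) := by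
      simp [hc]
    have e2 : (z + (x : ℂ) * (c - z)).im = z.im + x * (1 / 2 - z.im) := by
      simp [hc]
    refine ⟨?_, ?_, ?_, ?_⟩
    · simp only
      rw [e1]
      nlinarith
    · simp only
      rw [e1]
      nlinarith
    · simp only
      rw [e2]
      nlinarith
    · simp only
      rw [e2]
      nlinarith

theorem sq_out : (closure Sq)ᶜ = (({z : ℂ | z.im < 0} ∪ {z : ℂ | z.re < 0}) ∪
    {z : ℂ | 1 < z.re}) ∪ {z : ℂ | 1 < z.im} := by
  rw [sq_clos]
  ext z
  simp only [Set.mem_compl_iff, Set.mem_ofPred_eq, Set.mem_union]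
  constructor
  · intro h
    by_contra hcon
    push Not at hcon
    obtain ⟨⟨⟨h1, h2⟩, h3⟩, h4⟩ := hcon
    exact h ⟨h2, h3, h1, h4⟩
  · rintro (((h | h) | h) | h) ⟨h1, h2, h3, h4⟩ <;> linarith

theorem sq_out_conn : IsPreconnected (closure Sq)ᶜ := by
  rw [sq_out]
  have c1 : IsPreconnected {z : ℂ | z.im < 0} := (convex_halfSpace_im_lt 0).isPreconnected
  have c2 : IsPreconnected {z : ℂ | z.re < 0} := (convex_halfSpace_re_lt _).isPreconnected
  have c3 : IsPreconnected {z : ℂ | 1 < z.re} := (convex_halfSpace_re_gt _).isPreconnected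
  have c4 : IsPreconnected {z : ℂ | 1 < z.im} := (convex_halfSpace_im_gt _).isPreconnected
  have h12 : IsPreconnected ({z : ℂ | z.im < 0} ∪ {z : ℂ | z.re < 0}) := by
    refine IsPreconnected.union' ⟨⟨-1, -1⟩, ?_, ?_⟩ c1 c2
    · show (-1 : ℝ) < 0
      norm_num
    · show (-1 : ℝ) < 0
      norm_num
  have h123 : IsPreconnected (({z : ℂ | z.im < 0} ∪ {z : ℂ | z.re < 0}) ∪
      {z : ℂ | 1 < z.re}) := by
    refine IsPreconnected.union' ⟨⟨2, -1⟩, Or.inl ?_, ?_⟩ h12 c3
    · show (-1 : ℝ) < 0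
      norm_num
    · show (1 : ℝ) < 2
      norm_num
  refine IsPreconnected.union' ⟨⟨2, 2⟩, Or.inr ?_, ?_⟩ h123 c4
  · show (1 : ℝ) < 2
    norm_num
  · show (1 : ℝ) < 2
    norm_num

/-- A boundary point of a closed convex set with... (rectangle) is a limit of outer points. -/
theorem sq_front : frontier Sq ⊆ closure (closure Sq)ᶜ := by
  intro z hz
  have hzc := frontier_subset_closure hz
  have hzi : z ∉ Sq := fun h => by
    have := hz.2
    rw [IsOpen.interior_eq] at this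
    · exact this h
    · refine IsOpen.and ?_ (IsOpen.and ?_ (IsOpen.and ?_ ?_))
      · exact isOpen_lt continuous_const Complex.continuous_re
      · exact isOpen_lt Complex.continuous_re continuous_const
      · exact isOpen_lt continuous_const Complex.continuous_im
      · exact isOpen_lt Complex.continuous_im continuous_const
  rw [sq_clos] at hzc
  obtain ⟨h1, h2, h3, h4⟩ := hzc
  have key : ∀ v : ℂ, (∀ x : ℝ, 0 < x → z + (x : ℂ) * v ∈ (closure Sq)ᶜ) →
      z ∈ closure (closure Sq)ᶜ := by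
    intro v hv
    have hcont : Continuous (fun x : ℝ => z + (x : ℂ) * v) := by fun_prop
    have hz' : z = (fun x : ℝ => z + (x : ℂ) * v) 0 := by simp
    have h0 : (0 : ℝ) ∈ closure (Ioo (0 : ℝ) 1) := by
      rw [closure_Ioo (by norm_num)]
      exact ⟨le_rfl, zero_le_one⟩
    have h5 := image_closure_subset_closure_image hcont ⟨0, h0, rfl⟩
    rw [← hz'] at h5
    refine closure_mono ?_ h5
    rintro _ ⟨x, ⟨hx0, hx1⟩, rfl⟩
    exact hv x hx0
  by_cases k1 : z.re = 0
  · apply key (-1)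
    intro x hx
    rw [sq_out]
    left; left; right
    show (z + (x : ℂ) * (-1)).re < 0
    simp [k1, hx]
  by_cases k2 : z.re = 1
  · apply key 1
    intro x hx
    rw [sq_out]
    left; right
    show 1 < (z + (x : ℂ) * 1).re
    simp [k2, hx]
  by_cases k3 : z.im = 0
  · apply key (-Complex.I)
    intro x hx
    rw [sq_out]
    left; left; left
    show (z + (x : ℂ) * (-Complex.I)).im < 0
    simp [k3, hx]
  by_cases k4 : z.im = 1
  · apply key Complex.I
    intro x hx
    rw [sq_out]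
    right
    show 1 < (z + (x : ℂ) * Complex.I).im
    simp [k4, hx]
  exact absurd ⟨lt_of_le_of_ne h1 (Ne.symm k1), lt_of_le_of_ne h2 k2,
    lt_of_le_of_ne h3 (Ne.symm k3), lt_of_le_of_ne h4 k4⟩ hzi

theorem sq_bd_dim : dimH (closure Sq \ Sq) ≤ 4 / 3 := by
  have h1 : closure Sq \ Sq ⊆ (({z : ℂ | z.re = 0} ∪ {z : ℂ | z.re = 1}) ∪
      ({z : ℂ | z.im = 0} ∪ {z : ℂ | z.im = 1})) := by
    rintro z ⟨hz1, hz2⟩
    rw [sq_clos] at hz1
    obtain ⟨g1, g2, g3, g4⟩ := hz1
    by_contra hcon2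
    simp only [Set.mem_union, Set.mem_ofPred_eq, not_or] at hcon2
    obtain ⟨⟨k1, k2⟩, k3, k4⟩ := hcon2
    exact hz2 ⟨lt_of_le_of_ne g1 (Ne.symm k1), lt_of_le_of_ne g2 k2,
      lt_of_le_of_ne g3 (Ne.symm k3), lt_of_le_of_ne g4 k4⟩
  refine (dimH_mono h1).trans ?_
  rw [dimH_union, dimH_union, dimH_union]
  exact (max_le (max_le (line_re _) (line_re _)) (max_le (line_im _) (line_im _))).trans one_le43

/-- The bottom side has dimension one. -/
theorem sq_bd_one : 1 ≤ dimH (frontier Sq) := by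
  have h1 : (fun x : ℝ => (x : ℂ)) '' Ioo (0 : ℝ) 1 ⊆ frontier Sq := by
    rintro _ ⟨x, ⟨hx1, hx2⟩, rfl⟩
    constructor
    · rw [sq_clos]
      exact ⟨hx1.le, hx2.le, le_rfl, zero_le_one⟩
    · intro h
      have h2 := interior_subset h
      exact lt_irrefl _ h2.2.2.1
  have h2 : dimH ((fun x : ℝ => (x : ℂ)) '' Ioo (0 : ℝ) 1) = dimH (Ioo (0 : ℝ) 1) :=
    Complex.isometry_ofReal.dimH_image _
  have h3 : dimH (Ioo (0 : ℝ) 1) = 1 := by
    have h4 : (interior (Ioo (0 : ℝ) 1)).Nonempty := by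
      rw [interior_Ioo]
      exact Set.nonempty_Ioo.2 zero_lt_one
    rw [Real.dimH_of_nonempty_interior h4, Module.finrank_self, Nat.cast_one]
  rw [← h3, ← h2]
  exact dimH_mono h1


theorem sq_conn : IsPreconnected Sq := by
  apply Convex.isPreconnected
  have h : Sq = ({z : ℂ | 0 < z.re} ∩ {z : ℂ | z.re < 1}) ∩
      ({z : ℂ | 0 < z.im} ∩ {z : ℂ | z.im < 1}) := by
    ext z
    constructor
    · rintro ⟨h1, h2, h3, h4⟩
      exact ⟨⟨h1, h2⟩, h3, h4⟩
    · rintro ⟨⟨h1, h2⟩, h3, h4⟩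
      exact ⟨h1, h2, h3, h4⟩
  rw [h]
  exact ((convex_halfSpace_re_gt _).inter (convex_halfSpace_re_lt _)).inter
    ((convex_halfSpace_im_gt _).inter (convex_halfSpace_im_lt _))

theorem sq_open : IsOpen Sq := by
  refine IsOpen.and ?_ (IsOpen.and ?_ (IsOpen.and ?_ ?_))
  · exact isOpen_lt continuous_const Complex.continuous_re
  · exact isOpen_lt Complex.continuous_re continuous_const
  · exact isOpen_lt continuous_const Complex.continuous_im
  · exact isOpen_lt Complex.continuous_im continuous_const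

theorem dim_one_Icc {a b : ℝ} (h : a < b) : dimH (Icc a b) = 1 := by
  have h4 : (interior (Icc a b)).Nonempty := by
    rw [interior_Icc]
    exact Set.nonempty_Ioo.2 h
  rw [Real.dimH_of_nonempty_interior h4, Module.finrank_self, Nat.cast_one]

theorem one_le_of_fun {K : Set ℂ} (hK : IsPreconnected K) {g : ℂ → ℝ} {C : ℝ≥0}
    (hg : LipschitzWith C g) {x y : ℂ} (hx : x ∈ K) (hy : y ∈ K) (hxy : g x < g y) :
    1 ≤ dimH K := by
  have h1 : IsPreconnected (g '' K) := hK.image g hg.continuous.continuousOn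
  have h2 : Icc (g x) (g y) ⊆ g '' K :=
    h1.Icc_subset (Set.mem_image_of_mem g hx) (Set.mem_image_of_mem g hy)
  rw [← dim_one_Icc hxy]
  exact (dimH_mono h2).trans (hg.dimH_image_le K)

/-- A connected set with more than one point has dimension at least one. -/
theorem one_le_conn {K : Set ℂ} (hK : IsPreconnected K) {x y : ℂ} (hx : x ∈ K) (hy : y ∈ K)
    (hxy : x ≠ y) : 1 ≤ dimH K := by
  by_cases h : x.re = y.re
  · have h2 : x.im ≠ y.im := fun h2 => hxy (Complex.ext h h2)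
    rcases lt_or_gt_of_ne h2 with h3 | h3
    · exact one_le_of_fun hK Complex.imCLM.lipschitz hx hy h3
    · exact one_le_of_fun hK Complex.imCLM.lipschitz hy hx h3
  · rcases lt_or_gt_of_ne h with h3 | h3
    · exact one_le_of_fun hK Complex.reCLM.lipschitz hx hy h3
    · exact one_le_of_fun hK Complex.reCLM.lipschitz hy hx h3

theorem two_thirds_lt : ENNReal.ofReal (2 / 3) < 1 := by
  rw [← ENNReal.ofReal_one]
  exact (ENNReal.ofReal_lt_ofReal_iff (by norm_num)).2 (by norm_num)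

theorem arc_big {f : C(unitInterval, ℂ)} {s t : unitInterval}
    (hne : ∃ u ∈ Icc s t, f u ≠ f s) : 1 ≤ dimH (f '' Icc s t) := by
  obtain ⟨u, hu, hus⟩ := hne
  have hst : s ≤ t := hu.1.trans hu.2
  exact one_le_conn (isPreconnected_Icc.image f f.continuous.continuousOn)
    (Set.mem_image_of_mem f hu) (Set.mem_image_of_mem f ⟨le_rfl, hst⟩) hus

theorem arc_meets {f : C(unitInterval, ℂ)} {s t : unitInterval}
    (hne : ∃ u ∈ Icc s t, f u ≠ f s) (hK : f '' Icc s t ⊆ closure Sq)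
    (hb : dimH (f '' Icc s t ∩ (closure Sq \ Sq)) ≤ ENNReal.ofReal (2 / 3)) :
    (f '' Icc s t ∩ Sq).Nonempty := by
  by_contra hcon
  rw [Set.not_nonempty_iff_eq_empty] at hcon
  have h1 : f '' Icc s t ⊆ f '' Icc s t ∩ (closure Sq \ Sq) := by
    intro z hz
    refine ⟨hz, hK hz, fun hzS => ?_⟩
    have : z ∈ f '' Icc s t ∩ Sq := ⟨hz, hzS⟩
    rw [hcon] at this
    exact this
  exact absurd (((arc_big hne).trans (dimH_mono h1)).trans hb) (not_le.2 two_thirds_lt)

theorem arc_pt {K : Set ℂ}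
    (hb : dimH (K ∩ (closure Sq \ Sq)) ≤ ENNReal.ofReal (2 / 3)) :
    ∃ x ∈ frontier Sq, x ∉ K := by
  by_contra hcon
  push Not at hcon
  have h1 : frontier Sq ⊆ K ∩ (closure Sq \ Sq) := by
    intro z hz
    refine ⟨hcon z hz, hz.1, fun hzS => hz.2 ?_⟩
    rwa [sq_open.interior_eq]
  exact absurd ((sq_bd_one.trans (dimH_mono h1)).trans hb) (not_le.2 two_thirds_lt)

/-- Every component of the complement of the arc. -/
theorem sq_whole {f : C(unitInterval, ℂ)} {s t : unitInterval}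
    (hne : ∃ u ∈ Icc s t, f u ≠ f s)
    (h : ∀ U : Set ℂ, IsOpen U → ∀ w z : ℂ, z ∈ U → z ∈ Sq →
      z ∈ frontier (connectedComponentIn (U \ f '' Icc s t) w) → ∀ ρ : ℝ, 0 < ρ →
        dimH (frontier (connectedComponentIn (U \ f '' Icc s t) w) ∩
          (U ∩ Sq ∩ ball z ρ)) = 4 / 3)
    (hK : f '' Icc s t ⊆ closure Sq)
    (hb : dimH (f '' Icc s t ∩ (closure Sq \ Sq)) ≤ ENNReal.ofReal (2 / 3)) {w : ℂ}
    (hw : w ∉ f '' Icc s t) :
    dimH (frontier (connectedComponentIn (f '' Icc s t)ᶜ w)) = 4 / 3 := by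
  have hKcl := (piece_compact f s t).isClosed
  obtain ⟨z, hz, hzD⟩ := front_ne2 sq_conn sq_out_conn sq_front hKcl hK (arc_meets hne hK hb)
    (arc_pt hb) hw
  obtain ⟨ρ, hρ, hρK⟩ := piece_ball f s t z
  have h1 := h Set.univ isOpen_univ w z (Set.mem_univ z) hzD (by
    rwa [← Set.compl_eq_univ_sdiff]) ρ hρ
  rw [← Set.compl_eq_univ_sdiff] at h1
  have hfK : frontier (connectedComponentIn (f '' Icc s t)ᶜ w) ⊆ f '' Icc s t := by
    have h2 := front_sub isOpen_univ hKcl w
    rwa [← Set.compl_eq_univ_sdiff, Set.inter_univ] at h2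
  apply le_antisymm
  · have h3 : frontier (connectedComponentIn (f '' Icc s t)ᶜ w) ⊆
        (frontier (connectedComponentIn (f '' Icc s t)ᶜ w) ∩ (Set.univ ∩ Sq ∩ ball z ρ)) ∪
        (closure Sq \ Sq) := by
      intro y hy
      by_cases hyD : y ∈ Sq
      · exact Or.inl ⟨hy, ⟨Set.mem_univ _, hyD⟩, hρK (hfK hy)⟩
      · exact Or.inr ⟨hK (hfK hy), hyD⟩
    refine (dimH_mono h3).trans ?_
    rw [dimH_union, h1]
    exact max_le le_rfl sq_bd_dim
  · rw [← h1]
    exact dimH_mono Set.inter_subset_left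

/-- Every component of the open square minus the arc. -/
theorem sq_wholeD {f : C(unitInterval, ℂ)} {s t : unitInterval}
    (hne : ∃ u ∈ Icc s t, f u ≠ f s)
    (h : ∀ U : Set ℂ, IsOpen U → ∀ w z : ℂ, z ∈ U → z ∈ Sq →
      z ∈ frontier (connectedComponentIn (U \ f '' Icc s t) w) → ∀ ρ : ℝ, 0 < ρ →
        dimH (frontier (connectedComponentIn (U \ f '' Icc s t) w) ∩
          (U ∩ Sq ∩ ball z ρ)) = 4 / 3)
    (hK : f '' Icc s t ⊆ closure Sq)
    (hb : dimH (f '' Icc s t ∩ (closure Sq \ Sq)) ≤ ENNReal.ofReal (2 / 3)) {w : ℂ}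
    (hw : w ∈ Sq \ f '' Icc s t) :
    dimH (frontier (connectedComponentIn (Sq \ f '' Icc s t) w) ∩ Sq) = 4 / 3 := by
  have hKcl := (piece_compact f s t).isClosed
  obtain ⟨z, hz, hzD⟩ := front_ne sq_open sq_conn hKcl (arc_meets hne hK hb) hw
  obtain ⟨ρ, hρ, hρK⟩ := piece_ball f s t z
  have h1 := h Sq sq_open w z hzD hzD hz ρ hρ
  rw [← h1]
  congr 1
  ext y
  constructor
  · rintro ⟨hy1, hy2⟩
    exact ⟨hy1, ⟨hy2, hy2⟩, hρK (front_sub sq_open hKcl w ⟨hy1, hy2⟩)⟩
  · rintro ⟨hy1, ⟨hy2, -⟩, -⟩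
    exact ⟨hy1, hy2⟩

end Run7.h165.EC
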