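import Pool.Agent.Run7.h165.EC.Bdl
import Pool.Agent.Run7.h165.EC.Dom4

/-! # The limits of the interface loops: every component, in the whole plane -/

set_option autoImplicit false

namespace Run7.h165.EC

open H974 H984P H342P H342L H342T H342P.Plain
open MeasureTheory Filter Topology Run7.h561.EC Set

theorem t_FINW (hF : S_FINL) (hb : Pool.Agent.W822.PD.PD_HB)
    {γ : (n : ℕ) → Finset Plain.Edge → Curve} (hT : Lps γ) {k : ℕ → ℕ} (hk : Tendsto k atTop atTop)
    {μ : ProbabilityMeasure Curve}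
    (hμ : Tendsto (fun i => lawOf (k i) (γ (k i))) atTop (𝓝 μ)) :
    ∀ᵐ c : Curve ∂(μ : Measure Curve), ∀ s t : unitInterval,
      (∃ u ∈ Icc s t, c.path u ≠ c.path s) →
      (∀ w : ℂ, w ∉ c.path '' Icc s t →
        dimH (frontier (connectedComponentIn (c.path '' Icc s t)ᶜ w)) = 4 / 3) ∧
      (∀ w : ℂ, w ∈ Pool.Agent.W822.PD.Sq \ c.path '' Icc s t →
        dimH (frontier (connectedComponentIn (Pool.Agent.W822.PD.Sq \ c.path '' Icc s t) w) ∩
          Pool.Agent.W822.PD.Sq) = 4 / 3) := by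
  filter_upwards [hF γ hT k hk μ hμ, t_BDL hb hT hk hμ] with c hc1 hc2 s t hne
  obtain ⟨h1, h2⟩ := hc2 (by
    obtain ⟨u, -, hu⟩ := hne
    exact ⟨u, s, hu⟩)
  have hcl : closure Pool.Agent.W822.PD.Sq = Pool.Agent.W822.PD.Sqc := sq_clos
  have hK : c.path '' Icc s t ⊆ closure Pool.Agent.W822.PD.Sq := by
    rw [hcl]
    exact (Set.image_subset_range _ _).trans h1
  have hd : dimH (c.path '' Icc s t ∩
      (closure Pool.Agent.W822.PD.Sq \ Pool.Agent.W822.PD.Sq)) ≤ ENNReal.ofReal (2 / 3) := by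
    rw [hcl]
    exact (dimH_mono (Set.inter_subset_inter_left _ (Set.image_subset_range _ _))).trans h2
  exact ⟨fun w hw => sq_whole hne (hc1 s t hne) hK hd hw,
    fun w hw => sq_wholeD hne (hc1 s t hne) hK hd hw⟩

end Run7.h165.EC
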