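import Mathlib

/-! # Monotone-light factorisation of a curve -/

set_option autoImplicit false

namespace Run7.h165.EC

open Set Filter Topology

/-- The point of `[a, x ∨ a]` closest to `y`. -/
def cl (a x y : unitInterval) : unitInterval := min (max y a) (max x a)

theorem cl_fix {a x p : unitInterval} (h1 : a ≤ p) (h2 : p ≤ max x a) : cl a x p = p := by
  unfold cl
  rw [max_eq_left h1, min_eq_left h2]

theorem cl_ge (a x y : unitInterval) : a ≤ cl a x y := by
  unfold cl
  exact le_min (le_max_right _ _) (le_max_right _ _)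

theorem cl_le (a x y : unitInterval) : cl a x y ≤ max x a := min_le_right _ _

/-- The oscillation of `f` on `[a, x]`. -/
noncomputable def osc (f : C(unitInterval, ℂ)) (a x : unitInterval) : ℝ :=
  sSup ((fun y => dist (f (cl a x y)) (f a)) '' Set.univ)

theorem osc_cont (f : C(unitInterval, ℂ)) (a : unitInterval) : Continuous (osc f a) := by
  unfold osc
  refine IsCompact.continuous_sSup isCompact_univ ?_
  unfold cl
  unfold Function.HasUncurry.uncurry Function.hasUncurryInduction Function.hasUncurryBase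
  simp only
  fun_prop

theorem osc_bdd (f : C(unitInterval, ℂ)) (a x : unitInterval) :
    BddAbove ((fun y => dist (f (cl a x y)) (f a)) '' Set.univ) := by
  refine ⟨2 * ‖f‖, ?_⟩
  rintro _ ⟨y, -, rfl⟩
  refine (dist_le_norm_add_norm _ _).trans ?_
  have h1 := f.norm_coe_le_norm (cl a x y)
  have h2 := f.norm_coe_le_norm a
  linarith

theorem le_osc (f : C(unitInterval, ℂ)) {a x p : unitInterval} (h1 : a ≤ p) (h2 : p ≤ max x a) :
    dist (f p) (f a) ≤ osc f a x := by
  refine le_csSup (osc_bdd f a x) ⟨p, Set.mem_univ _, ?_⟩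
  simp only
  rw [cl_fix h1 h2]

theorem osc_nonneg (f : C(unitInterval, ℂ)) (a x : unitInterval) : 0 ≤ osc f a x := by
  have h := le_osc f (le_refl a) (le_max_right x a)
  rwa [dist_self] at h

theorem osc_le {f : C(unitInterval, ℂ)} {a x : unitInterval} {r : ℝ}
    (h : ∀ p, a ≤ p → p ≤ max x a → dist (f p) (f a) ≤ r) : osc f a x ≤ r := by
  refine csSup_le ⟨_, ⟨a, Set.mem_univ _, rfl⟩⟩ ?_
  rintro _ ⟨y, -, rfl⟩
  exact h _ (cl_ge _ _ _) (cl_le _ _ _)

theorem osc_bound (f : C(unitInterval, ℂ)) (a x : unitInterval) : osc f a x ≤ 2 * ‖f‖ := by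
  refine osc_le fun p _ _ => ?_
  refine (dist_le_norm_add_norm _ _).trans ?_
  have h1 := f.norm_coe_le_norm p
  have h2 := f.norm_coe_le_norm a
  linarith

theorem osc_mono (f : C(unitInterval, ℂ)) (a : unitInterval) : Monotone (osc f a) := by
  intro x x' hx
  exact osc_le fun p h1 h2 => le_osc f h1 (h2.trans (max_le_max_right a hx))

theorem osc_zero (f : C(unitInterval, ℂ)) {a x : unitInterval} (h : x ≤ a) : osc f a x = 0 := by
  refine le_antisymm (osc_le fun p h1 h2 => ?_) (osc_nonneg f a x)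
  rw [max_eq_right h] at h2
  rw [le_antisymm h2 h1, dist_self]

theorem osc_const {f : C(unitInterval, ℂ)} {s t : unitInterval} (hst : s ≤ t)
    (h : ∀ u ∈ Icc s t, f u = f s) (a : unitInterval) : osc f a t = osc f a s := by
  refine le_antisymm (osc_le fun p h1 h2 => ?_) (osc_mono f a hst)
  rcases le_or_gt p (max s a) with h3 | h3
  · exact le_osc f h1 h3
  · have h4 : s < p := (le_max_left _ _).trans_lt h3
    have h5 : a < p := (le_max_right _ _).trans_lt h3
    have h6 : p ≤ t := by
      rcases le_max_iff.1 h2 with h | h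
      · exact h
      · exact absurd h (not_le.2 h5)
    rw [h p ⟨h4.le, h6⟩]
    rcases le_or_gt a s with h7 | h7
    · exact le_osc f h7 (le_max_left _ _)
    · rw [h a ⟨h7.le, h5.le.trans h6⟩, dist_self]
      exact osc_nonneg f a s

/-- A dense sequence. -/
noncomputable def ds (k : ℕ) : unitInterval := TopologicalSpace.denseSeq unitInterval k

/-- The clock. -/
noncomputable def clk (f : C(unitInterval, ℂ)) (x : unitInterval) : ℝ :=
  ∑' k : ℕ, (1 / 2 : ℝ) ^ k * osc f (ds k) x

theorem clk_bd (f : C(unitInterval, ℂ)) (x : unitInterval) (k : ℕ) :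
    ‖(1 / 2 : ℝ) ^ k * osc f (ds k) x‖ ≤ (1 / 2 : ℝ) ^ k * (2 * ‖f‖) := by
  rw [norm_mul, Real.norm_of_nonneg (by positivity : (0 : ℝ) ≤ (1 / 2) ^ k),
    Real.norm_of_nonneg (osc_nonneg _ _ _)]
  exact mul_le_mul_of_nonneg_left (osc_bound _ _ _) (by positivity)

theorem clk_sb (f : C(unitInterval, ℂ)) : Summable fun k : ℕ => (1 / 2 : ℝ) ^ k * (2 * ‖f‖) :=
  summable_geometric_two.mul_right _

theorem clk_sum (f : C(unitInterval, ℂ)) (x : unitInterval) :
    Summable fun k : ℕ => (1 / 2 : ℝ) ^ k * osc f (ds k) x :=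
  Summable.of_norm_bounded (clk_sb f) (clk_bd f x)

theorem clk_cont (f : C(unitInterval, ℂ)) : Continuous (clk f) := by
  unfold clk
  exact continuous_tsum (fun k => (osc_cont f (ds k)).const_mul _) (clk_sb f)
    fun k x => clk_bd f x k

theorem clk_mono (f : C(unitInterval, ℂ)) : Monotone (clk f) := by
  intro x y hxy
  exact (clk_sum f x).tsum_le_tsum (fun k => mul_le_mul_of_nonneg_left (osc_mono f _ hxy)
    (by positivity)) (clk_sum f y)

theorem clk_zero (f : C(unitInterval, ℂ)) : clk f 0 = 0 := by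
  unfold clk
  simp only [osc_zero f unitInterval.nonneg', mul_zero, tsum_zero]

theorem clk_const {f : C(unitInterval, ℂ)} {s t : unitInterval} (hst : s ≤ t)
    (h : ∀ u ∈ Icc s t, f u = f s) : clk f s = clk f t := by
  unfold clk
  simp only [osc_const hst h]

theorem clk_strict {f : C(unitInterval, ℂ)} {s t : unitInterval}
    (h : ∃ u ∈ Icc s t, f u ≠ f s) : clk f s < clk f t := by
  obtain ⟨u, ⟨hsu, hut⟩, hu⟩ := h
  have hsu' : s < u := lt_of_le_of_ne hsu fun e => hu (by rw [e])
  -- a point of the dense sequence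
  have hopen : IsOpen ({a : unitInterval | f a ≠ f u} ∩ Ioo s u) := by
    refine IsOpen.inter ?_ isOpen_Ioo
    exact isOpen_ne_fun f.continuous continuous_const
  have hne : ({a : unitInterval | f a ≠ f u} ∩ Ioo s u).Nonempty := by
    have h1 : {a : unitInterval | f a ≠ f u} ∈ 𝓝 s :=
      (isOpen_ne_fun f.continuous continuous_const).mem_nhds (Ne.symm hu)
    have h2 : (𝓝[>] s).NeBot := nhdsGT_neBot_of_exists_gt ⟨u, hsu'⟩
    have h3 : {a : unitInterval | f a ≠ f u} ∩ Ioo s u ∈ 𝓝[>] s :=
      Filter.inter_mem (mem_nhdsWithin_of_mem_nhds h1) (Ioo_mem_nhdsGT hsu')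
    exact h2.nonempty_of_mem h3
  obtain ⟨k, hk1, hk2, hk3⟩ := (TopologicalSpace.denseRange_denseSeq unitInterval).exists_mem_open
    hopen hne
  have hk1' : f (ds k) ≠ f u := hk1
  have hk2' : s < ds k := hk2
  have hk3' : ds k < u := hk3
  refine Summable.tsum_lt_tsum (i := k) (fun j => mul_le_mul_of_nonneg_left
    (osc_mono f _ (hsu.trans hut)) (by positivity)) ?_ (clk_sum f s) (clk_sum f t)
  refine mul_lt_mul_of_pos_left ?_ (by positivity)
  rw [osc_zero f hk2'.le]
  refine lt_of_lt_of_le (dist_pos.2 (Ne.symm hk1')) (le_osc f hk3'.le ?_)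
  exact hut.trans (le_max_left _ _)

/-- **Monotone-light factorisation.** -/
theorem mlf (f : C(unitInterval, ℂ)) (hf : ∃ s t, f s ≠ f t) :
    ∃ (φ : unitInterval → unitInterval) (g : C(unitInterval, ℂ)), Monotone φ ∧ Continuous φ ∧
      φ 0 = 0 ∧ φ 1 = 1 ∧ (∀ x, f x = g (φ x)) ∧
      ∀ s t : unitInterval, s < t → ∃ u ∈ Set.Icc s t, g u ≠ g s := by
  have hpos : 0 < clk f 1 := by
    rw [← clk_zero f]
    apply clk_strict
    by_contra hcon
    push Not at hcon
    obtain ⟨s, t, hst⟩ := hf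
    apply hst
    rw [hcon s ⟨unitInterval.nonneg', unitInterval.le_one'⟩,
      hcon t ⟨unitInterval.nonneg', unitInterval.le_one'⟩]
  have hle : ∀ x, clk f x / clk f 1 ∈ unitInterval := by
    intro x
    constructor
    · refine div_nonneg ?_ hpos.le
      rw [← clk_zero f]
      exact clk_mono f unitInterval.nonneg'
    · rw [div_le_one hpos]
      exact clk_mono f unitInterval.le_one'
  set φ : unitInterval → unitInterval := fun x => ⟨clk f x / clk f 1, hle x⟩ with hφ
  have hφc : Continuous φ := by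
    rw [hφ]
    exact ((clk_cont f).div_const _).subtype_mk _
  have hφm : Monotone φ := by
    intro x y hxy
    show clk f x / clk f 1 ≤ clk f y / clk f 1
    exact div_le_div_of_nonneg_right (clk_mono f hxy) hpos.le
  have hφ0 : φ 0 = 0 := by
    apply Subtype.ext
    show clk f 0 / clk f 1 = 0
    rw [clk_zero, zero_div]
  have hφ1 : φ 1 = 1 := by
    apply Subtype.ext
    show clk f 1 / clk f 1 = 1
    exact div_self hpos.ne'
  have hφeq : ∀ s t : unitInterval, s ≤ t → φ s = φ t → ∀ u ∈ Icc s t, f u = f s := by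
    intro s t hst h u hu
    by_contra hne
    have h1 := clk_strict (f := f) (s := s) (t := t) ⟨u, hu, hne⟩
    have h2 : clk f s / clk f 1 = clk f t / clk f 1 := congrArg Subtype.val h
    rw [div_left_inj' hpos.ne'] at h2
    linarith
  have hsurj : Function.Surjective φ := by
    intro y
    have h1 : Icc (φ 0) (φ 1) ⊆ φ '' Icc 0 1 :=
      intermediate_value_Icc unitInterval.nonneg' hφc.continuousOn
    rw [hφ0, hφ1] at h1
    obtain ⟨x, -, hx⟩ := h1 ⟨unitInterval.nonneg', unitInterval.le_one'⟩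
    exact ⟨x, hx⟩
  have hq : IsQuotientMap φ := hφc.isClosedMap.isQuotientMap hφc hsurj
  obtain ⟨σ, hσ⟩ := hsurj.hasRightInverse
  have hfg : ∀ x, f (σ (φ x)) = f x := by
    intro x
    have h1 : φ (σ (φ x)) = φ x := hσ (φ x)
    rcases le_total (σ (φ x)) x with h | h
    · exact (hφeq _ _ h h1 x ⟨h, le_rfl⟩).symm
    · exact hφeq _ _ h h1.symm _ ⟨h, le_rfl⟩
  have hgc : Continuous (fun y => f (σ y)) := by
    rw [hq.continuous_iff]
    have : (fun y => f (σ y)) ∘ φ = f := by
      funext x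
      exact hfg x
    rw [this]
    exact f.continuous
  refine ⟨φ, ⟨fun y => f (σ y), hgc⟩, hφm, hφc, hφ0, hφ1, fun x => (hfg x).symm, ?_⟩
  intro s t hst
  by_contra hcon
  push Not at hcon
  obtain ⟨x, rfl⟩ := hsurj s
  obtain ⟨y, rfl⟩ := hsurj t
  have hxy : x ≤ y := by
    by_contra h
    exact absurd (hφm (not_le.1 h).le) (not_le.2 hst)
  have h1 : ∀ u ∈ Icc x y, f u = f x := by
    intro u hu
    have h2 : f (σ (φ u)) = f (σ (φ x)) := hcon (φ u) ⟨hφm hu.1, hφm hu.2⟩
    rwa [hfg, hfg] at h2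
  have h3 : φ x = φ y := by
    apply Subtype.ext
    show clk f x / clk f 1 = clk f y / clk f 1
    rw [clk_const hxy h1]
  exact absurd hst (by rw [h3]; exact lt_irrefl _)

end Run7.h165.EC
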