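import Pool.Agent.Run7.h165.EC.Dom2

/-! # The complement of a piece of a curve in the half-plane -/

set_option autoImplicit false

namespace Run7.h165.EC

open Set Filter Topology Metric
open scoped ENNReal NNReal

theorem half_clos : closure {z : ℂ | 0 < z.im} = {z : ℂ | 0 ≤ z.im} :=
  Complex.closure_setOf_lt_im 0

theorem half_out : (closure {z : ℂ | 0 < z.im})ᶜ = {z : ℂ | z.im < 0} := by
  rw [half_clos]
  ext z
  simp

theorem half_conn : IsPreconnected {z : ℂ | 0 < z.im} := (convex_halfSpace_im_gt 0).isPreconnected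

theorem half_out_conn : IsPreconnected (closure {z : ℂ | 0 < z.im})ᶜ := by
  rw [half_out]
  exact (convex_halfSpace_im_lt 0).isPreconnected

theorem half_front : frontier {z : ℂ | 0 < z.im} ⊆ closure (closure {z : ℂ | 0 < z.im})ᶜ := by
  rw [half_out, Complex.closure_setOf_im_lt, Complex.frontier_setOf_lt_im]
  intro z hz
  exact le_of_eq hz

theorem half_bd_dim : dimH (closure {z : ℂ | 0 < z.im} \ {z : ℂ | 0 < z.im}) ≤ 4 / 3 := by
  refine (dimH_mono ?_).trans ((line_im 0).trans one_le43)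
  rintro z ⟨hz1, hz2⟩
  rw [half_clos] at hz1
  exact le_antisymm (not_lt.1 hz2) hz1

theorem half_meets {K : Set ℂ} (hK : K ⊆ closure {z : ℂ | 0 < z.im}) (h : dimH K = 7 / 4) :
    (K ∩ {z : ℂ | 0 < z.im}).Nonempty := by
  by_contra hcon
  rw [Set.not_nonempty_iff_eq_empty] at hcon
  have h1 : K ⊆ {z : ℂ | z.im = 0} := by
    intro z hz
    have h2 := hK hz
    rw [half_clos] at h2
    by_contra h3
    have : z ∈ K ∩ {z : ℂ | 0 < z.im} := ⟨hz, lt_of_le_of_ne h2 (Ne.symm h3)⟩
    rw [hcon] at this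
    exact this
  have h2 := (dimH_mono h1).trans (line_im 0)
  rw [h] at h2
  exact absurd h2 (not_le.2 one_lt74)

theorem half_pt {K : Set ℂ} (hK : IsCompact K) : ∃ x ∈ frontier {z : ℂ | 0 < z.im}, x ∉ K := by
  obtain ⟨r, hr⟩ := (Metric.isBounded_iff_subset_ball (0 : ℂ)).1 hK.isBounded
  refine ⟨((|r| : ℝ) : ℂ), ?_, fun h => ?_⟩
  · rw [Complex.frontier_setOf_lt_im]
    exact Complex.ofReal_im _
  · have h1 := hr h
    rw [mem_ball_zero_iff, Complex.norm_real, Real.norm_eq_abs, abs_abs] at h1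
    exact absurd h1 (not_lt.2 (le_abs_self r))

end Run7.h165.EC
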