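import Pool.Agent.Run7.h165.EC.Hp2
import Pool.Agent.Results.MP_6c8efb_pr.SpecialPoints

/-! # The half-plane: all pieces of the limit curve -/

set_option autoImplicit false

namespace Run7.h165.EC

open Set Filter Topology Metric MeasureTheory H984H
open Run7.h561.EC Pool.Agent.H389R2.Dim
open scoped ENNReal NNReal

/-- The scaling factor. -/
noncomputable def cm (m : ℕ) : ℝ := ((m : ℝ) + 1) ^ (4 / 7 : ℝ)

theorem cm_pos (m : ℕ) : 0 < cm m := Real.rpow_pos_of_pos (by positivity) _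

/-- The first `n` steps as a part of the first `(m + 1) n` steps. -/
theorem curve_scl (m n : ℕ) (ω : Conf) :
    curve n ω = scl m (cm m) (cm_pos m) (curve ((m + 1) * n) ω) := by
  ext t
  show H984N.pl n (fun k => (((n : ℝ) ^ (-(4/7) : ℝ) : ℝ) : ℂ) * gam ω k) t =
    ((cm m : ℝ) : ℂ) * H984N.pl ((m + 1) * n)
      (fun k => (((((m + 1) * n : ℕ) : ℝ) ^ (-(4/7) : ℝ) : ℝ) : ℂ) * gam ω k) (frac m t)
  have hc : cm m * ((((m + 1) * n : ℕ) : ℝ) ^ (-(4/7) : ℝ)) = (n : ℝ) ^ (-(4/7) : ℝ) := by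
    unfold cm
    push_cast
    rw [Real.mul_rpow (by positivity) (Nat.cast_nonneg n), ← mul_assoc,
      ← Real.rpow_add (by positivity)]
    norm_num
  have hcc : ∀ z : ℂ, ((cm m : ℝ) : ℂ) * ((((((m + 1) * n : ℕ) : ℝ) ^ (-(4/7) : ℝ) : ℝ) : ℂ) * z) =
      (((n : ℝ) ^ (-(4/7) : ℝ) : ℝ) : ℂ) * z := by
    intro z
    rw [← mul_assoc, ← Complex.ofReal_mul, hc]
  rw [H984N.pl_apply', H984N.pl_apply', mul_add, hcc, Finset.mul_sum]
  congr 1
  have hsub : Finset.range n ⊆ Finset.range ((m + 1) * n) := by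
    apply Finset.range_subset_range.2
    nlinarith [Nat.zero_le (m * n)]
  have hm : (0 : ℝ) < (m : ℝ) + 1 := by positivity
  have hval : ∀ k : ℕ, ((frac m t : unitInterval) : ℝ) * (((m + 1) * n : ℕ) : ℝ) - k =
      (t : ℝ) * n - k := by
    intro k
    show (t : ℝ) / ((m : ℝ) + 1) * (((m + 1) * n : ℕ) : ℝ) - k = _
    push_cast
    field_simp
  rw [← Finset.sum_subset hsub]
  · refine Finset.sum_congr rfl fun k _ => ?_
    rw [hval, mul_left_comm ((cm m : ℝ) : ℂ), mul_sub ((cm m : ℝ) : ℂ), hcc, hcc]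
  · intro k _ hk
    rw [Finset.mem_range, not_lt] at hk
    have h1 : H984N.clamp (((frac m t : unitInterval) : ℝ) * (((m + 1) * n : ℕ) : ℝ) - k) = 0 := by
      apply H984N.pl_clamp_zero
      rw [hval]
      have h2 : (n : ℝ) ≤ k := by exact_mod_cast hk
      have h3 := t.2.2
      have h4 : (t : ℝ) * n ≤ 1 * n := mul_le_mul_of_nonneg_right h3 (Nat.cast_nonneg n)
      linarith
    rw [h1]
    simp

/-- FINH: the boundaries of all the components of the complements of all the pieces of the limits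
of the half-plane exploration path. -/
def S_FINH : Prop := ∀ φ : ℕ → ℕ, Tendsto φ atTop atTop →
  ∀ μ : ProbabilityMeasure C(unitInterval, ℂ), Tendsto (fun i => lawH (φ i)) atTop (𝓝 μ) →
    ∀ᵐ f : C(unitInterval, ℂ) ∂(μ : Measure C(unitInterval, ℂ)), Fin43 {z | 0 < z.im} f

theorem acc_sub (f : C(unitInterval, ℂ)) :
    (⋃ i : ℕ, Pool.Agent.TH990.FU.Acc (1 / ((i : ℝ) + 1)) f) ⊆
      (⋃ i : ℕ, Pool.Agent.TH990.HP.AccT (1 / ((i : ℝ) + 1)) f) ∪ {f 1} := by
  intro w hw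
  by_cases h : w = f 1
  · exact Or.inr h
  left
  obtain ⟨i, hi⟩ := Set.mem_iUnion.1 hw
  obtain ⟨j, hj⟩ := exists_nat_one_div_lt (dist_pos.2 h)
  refine Set.mem_iUnion.2 ⟨max i j, 1, ?_, ?_⟩
  · have e : f.comp (Pool.Agent.TH990.HP.mT 1) = f := by
      ext s
      show f (1 * s) = f s
      rw [one_mul]
    rw [e]
    exact Pool.Agent.TH990.FU.Acc_anti (Nat.one_div_le_one_div (le_max_left i j)) _ hi
  · refine (Nat.one_div_le_one_div (le_max_right i j)).trans ?_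
    rw [dist_comm]
    exact hj.le

/-- The uniform facts for the limits. -/
theorem facts {φ : ℕ → ℕ} (hφ : Tendsto φ atTop atTop) {μ : ProbabilityMeasure C(unitInterval, ℂ)}
    (hμ : Tendsto (fun i => lawH (φ i)) atTop (𝓝 μ)) :
    ∀ᵐ f : C(unitInterval, ℂ) ∂(μ : Measure C(unitInterval, ℂ)),
      dimH (dbl f ∩ {z | 0 < z.im}) ≤ 3 / 4 ∧
      dimH ((⋃ i : ℕ, Pool.Agent.TH990.FU.Acc (1 / ((i : ℝ) + 1)) f) ∩ {z | 0 < z.im}) ≤ 4 / 3 ∧
      ∀ s t : unitInterval, s < t → ∃ u ∈ Icc s t, f u ≠ f s := by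
  filter_upwards [(Pool.Agent.Results.MP_6c8efb_pr.SpecialPoints.result.2 φ hφ μ hμ).2.1,
    Pool.Agent.TH990.HP.fix3 Pool.Agent.W424.KI.u3 hφ hμ Set.univ,
    Pool.Agent.Results.MP_6c8efb_pr.Displacement.result.2.2.2.2.2 φ hφ μ hμ] with f h1 h2 h3
  refine ⟨h1.1, ?_, ?_⟩
  · have e := h2.1
    rw [Pool.Agent.Results.MP_6c8efb_pr.SpecialPoints.dimC,
      Pool.Agent.Results.MP_6c8efb_pr.SpecialPoints.e23,
      Pool.Agent.Results.MP_6c8efb_pr.SpecialPoints.e43, Set.inter_univ] at e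
    have h4 : (⋃ i : ℕ, Pool.Agent.TH990.FU.Acc (1 / ((i : ℝ) + 1)) f) ∩ {z | 0 < z.im} ⊆
        ((⋃ i : ℕ, Pool.Agent.TH990.HP.AccT (1 / ((i : ℝ) + 1)) f) ∩
          Pool.Agent.TH990.HP.Hp) ∪ {f 1} := by
      rintro w ⟨hw, hw2⟩
      rcases acc_sub f hw with h | h
      · exact Or.inl ⟨h, hw2⟩
      · exact Or.inr h
    refine (dimH_mono h4).trans ?_
    rw [dimH_union, dimH_singleton]
    exact max_le e zero_le
  · obtain ⟨-, -, -, hdim, -⟩ := h3
    intro s t hst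
    by_contra hcon
    push Not at hcon
    have h5 := hdim s t hst
    have h6 : f '' Icc s t ⊆ {f s} := by
      rintro _ ⟨u, hu, rfl⟩
      exact hcon u hu
    have h7 := dimH_mono h6
    rw [h5, dimH_singleton] at h7
    have h8 : (7 / 4 : ℝ≥0∞) ≠ 0 := by
      rw [ne_eq, ENNReal.div_eq_zero_iff]
      norm_num
    exact h8 (le_antisymm h7 zero_le)

/-- The half-disc is the image of a smaller one. -/
theorem dil_Hd {c : ℝ} (hc : 0 < c) (r : ℝ) : dil c hc '' Hd (r / c) = Hd r := by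
  ext z
  constructor
  · rintro ⟨w, ⟨h1, h2⟩, rfl⟩
    refine ⟨?_, ?_⟩
    · rw [dil_apply, Complex.im_ofReal_mul]
      exact mul_pos hc h1
    · rw [dil_apply, norm_mul, Complex.norm_real, Real.norm_of_nonneg hc.le]
      rw [lt_div_iff₀ hc] at h2
      linarith
  · rintro ⟨h1, h2⟩
    obtain ⟨w, rfl⟩ := (dil c hc).surjective z
    rw [dil_apply] at h1 h2
    refine ⟨w, ⟨?_, ?_⟩, rfl⟩
    · rw [Complex.im_ofReal_mul] at h1
      exact (mul_pos_iff_of_pos_left hc).1 h1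
    · rw [norm_mul, Complex.norm_real, Real.norm_of_nonneg hc.le] at h2
      rw [lt_div_iff₀ hc]
      linarith

theorem cm_tendsto : Tendsto cm atTop atTop := by
  unfold cm
  exact (tendsto_rpow_atTop (by norm_num)).comp
    (tendsto_atTop_add_const_right _ _ tendsto_natCast_atTop_atTop)

theorem lawH_scl (m n : ℕ) : lawH n =
    (lawH ((m + 1) * n)).map (scl_cont m (cm_pos m)).measurable.aemeasurable := by
  apply Subtype.ext
  show perc.map (curve n) = Measure.map (scl m (cm m) (cm_pos m))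
    (perc.map (curve ((m + 1) * n)))
  rw [Measure.map_map (scl_cont m (cm_pos m)).measurable (curve_meas _)]
  congr 1
  funext ω
  exact curve_scl m n ω

/-- **The half-plane, all pieces.** -/
theorem t_FINH (hith : S_HITH) (axi : S_AXI) : S_FINH := by
  intro φ hφ μ hμ
  obtain ⟨⟨c, hc, hL⟩, ⟨C, hC, hU⟩, C2, hC2, hA⟩ :=
    Pool.Agent.Results.MP_6c8efb_pr.UniformDimension.inputs
  obtain ⟨⟨a, A, ha, hA0, htail⟩, -, -, hex, -⟩ := finalH hc hC hL hU hC2 hA
  have key : ∀ (r : ℕ) (ε : ℝ), 0 < ε →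
      (μ : Measure C(unitInterval, ℂ)) {f | ¬ Fin43 (Hd ((r : ℝ) + 1)) f} ≤
        ENNReal.ofReal ε := by
    intro r ε hε
    obtain ⟨r0, hr0, hr0'⟩ := noRet_prob (A1 := A) (fun n x hn hx => (htail n x hn hx).2) hε
    obtain ⟨m, hm⟩ := (cm_tendsto.eventually_ge_atTop (((r : ℝ) + 1) / r0)).exists
    have hcm := cm_pos m
    have hr' : ((r : ℝ) + 1) / cm m ≤ r0 := by
      rw [div_le_iff₀ hr0] at hm
      rw [div_le_iff₀ hcm]
      linarith
    have hr'0 : 0 < ((r : ℝ) + 1) / cm m := by positivity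
    have hν : Tendsto (fun i => (m + 1) * φ i) atTop atTop :=
      tendsto_atTop_mono (fun i => Nat.le_mul_of_pos_left _ (Nat.succ_pos m)) hφ
    obtain ⟨ψ, hψ, μ', hμ'⟩ := hex (fun i => (m + 1) * φ i) hν
    have hψν : Tendsto (fun i => (m + 1) * φ (ψ i)) atTop atTop := hν.comp hψ.tendsto_atTop
    have h1 := full_small hith hψν hμ' (hr0' _ hr'0 hr')
    have h2 := facts hψν hμ'
    have hmap : μ = μ'.map (scl_cont m hcm).measurable.aemeasurable := by
      refine tendsto_nhds_unique (hμ.comp hψ.tendsto_atTop) ?_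
      have h3 := ProbabilityMeasure.tendsto_map_of_tendsto_of_continuous _ _ hμ'
        (scl_cont m hcm)
      refine h3.congr fun i => ?_
      exact (lawH_scl m (φ (ψ i))).symm
    have h4 : (μ : Measure C(unitInterval, ℂ)) =
        (μ' : Measure C(unitInterval, ℂ)).map (scl m (cm m) hcm) := by
      rw [hmap]
      rfl
    rw [h4]
    apply map_outer_le (scl_cont m hcm)
    have h5 : scl m (cm m) hcm ⁻¹' {f | ¬ Fin43 (Hd ((r : ℝ) + 1)) f} ⊆
        {f | ¬ Full43 (Hd (((r : ℝ) + 1) / cm m)) f} ∪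
        {f | ¬ (dimH (dbl f ∩ {z | 0 < z.im}) ≤ 3 / 4 ∧
          dimH ((⋃ i : ℕ, Pool.Agent.TH990.FU.Acc (1 / ((i : ℝ) + 1)) f) ∩ {z | 0 < z.im}) ≤
            4 / 3 ∧ ∀ s t : unitInterval, s < t → ∃ u ∈ Icc s t, f u ≠ f s)} := by
      intro f hf
      by_contra hcon
      rw [Set.mem_union, not_or] at hcon
      obtain ⟨g1, g2⟩ := hcon
      rw [Set.mem_ofPred_eq, not_not] at g1 g2
      obtain ⟨g2, g3, g4⟩ := g2
      apply hf
      rw [← dil_Hd hcm]
      apply fin_scl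
      have hsub : Hd (((r : ℝ) + 1) / cm m) ⊆ {z : ℂ | 0 < z.im} := fun z hz => hz.1
      exact fin_of_full (Hd_open _) g1
        ((dimH_mono (Set.inter_subset_inter_right _ hsub)).trans g2)
        ((dimH_mono (Set.inter_subset_inter_right _ hsub)).trans g3) g4 axi
    refine (measure_mono h5).trans ((measure_union_le _ _).trans ?_)
    rw [ae_iff] at h2
    rw [h2, add_zero]
    exact h1
  have key0 : ∀ r : ℕ, (μ : Measure C(unitInterval, ℂ)) {f | ¬ Fin43 (Hd ((r : ℝ) + 1)) f} = 0 := by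
    intro r
    rw [← nonpos_iff_eq_zero]
    apply ENNReal.le_of_forall_pos_le_add
    intro ε hε _
    rw [zero_add]
    refine (key r ε (by exact_mod_cast hε)).trans ?_
    rw [ENNReal.ofReal_coe_nnreal]
  have hall : ∀ᵐ f : C(unitInterval, ℂ) ∂(μ : Measure C(unitInterval, ℂ)),
      ∀ r : ℕ, Fin43 (Hd ((r : ℝ) + 1)) f := by
    rw [ae_all_iff]
    intro r
    rw [ae_iff]
    exact key0 r
  filter_upwards [hall] with f hf
  refine fin_iUnion (Ds := fun r : ℕ => Hd ((r : ℝ) + 1)) ?_ ?_ hf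
  · ext z
    rw [Set.mem_iUnion]
    constructor
    · intro hz
      obtain ⟨n, hn⟩ := exists_nat_gt ‖z‖
      exact ⟨n, hz, by linarith⟩
    · rintro ⟨n, hz, -⟩
      exact hz
  · intro r r' hrr z hz
    have : (r : ℝ) ≤ r' := by exact_mod_cast hrr
    exact ⟨hz.1, hz.2.trans_le (by linarith)⟩

end Run7.h165.EC
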