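import Pool.Agent.Run7.h561.EC.Stm
import Pool.Agent.Y989.FR.T_LG

/-! # LGOC: passage to the limit on countably many open events, up to an exceptional event -/

set_option autoImplicit false

namespace Run7.h165.EC

open Set Filter Topology Metric MeasureTheory H984N
open Run7.h561.EC Pool.Agent.H389R2.Dim Pool.Agent.Y989.FR.LG
open scoped ENNReal NNReal

theorem lgoc {μs : ℕ → ProbabilityMeasure C(unitInterval, ℂ)}
    {μ : ProbabilityMeasure C(unitInterval, ℂ)} (hμ : Tendsto μs atTop (𝓝 μ))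
    {νs : ℕ → Measure C(unitInterval, ℂ)} {ε0 : ℝ≥0∞}
    (hν : ∀ᶠ i in atTop, ∀ S : Set C(unitInterval, ℂ), IsOpen S →
      (μs i : Measure C(unitInterval, ℂ)) S ≤ νs i S + ε0)
    {t : ℕ → ℝ} (ht : ∀ j, 0 < t j) (T : ℕ → C(unitInterval, ℂ) → Set ℂ)
    {Ev : ℕ → Set C(unitInterval, ℂ)} (hEv : ∀ j, IsOpen (Ev j))
    (h : ∀ j, ∀ ε : ℝ≥0∞, 0 < ε → ∃ (c : ℝ) (K : Set ℂ)
      (Q : ℕ → Set (C(unitInterval, ℂ) × ℂ)), 0 < c ∧ IsCompact K ∧ (∀ k, IsClosed (Q k)) ∧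
      (∀ f ∈ Ev j, ∀ z ∈ K, (∀ k, (f, z) ∈ Q k) → z ∈ T j f) ∧
      ∀ ε' : ℝ, 0 < ε' → ∀ᶠ i in atTop,
        νs i {f | f ∈ Ev j ∧ ¬ Good (t j) ε' c
          {z | z ∈ K ∧ ∀ k : ℕ, ε' ≤ 1 / ((k : ℝ) + 1) → (f, z) ∈ Q k}} ≤ ε) :
    (μ : Measure C(unitInterval, ℂ))
      {f | ∃ j, f ∈ Ev j ∧ ¬ ENNReal.ofReal (t j) ≤ dimH (T j f)} ≤ ε0 := by
  apply ENNReal.le_of_forall_pos_le_add
  intro ε hε _
  obtain ⟨εs, hεs, hsum⟩ := ENNReal.exists_pos_sum_of_countable' (ε := (ε : ℝ≥0∞))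
    (by exact_mod_cast hε.ne') ℕ
  choose c K Q hc hK hQ hT h1 using fun j => h j (εs j) (hεs j)
  have h1 : ∀ j, ∀ ε' : ℝ, 0 < ε' → ∀ᶠ i in atTop,
      νs i {f | f ∈ Ev j ∧ ¬ Good (t j) ε' (c j) (AA (K j) (Q j) ε' f)} ≤ εs j := h1
  have hT0 : ∀ j, ∀ f ∈ Ev j, AA (K j) (Q j) 0 f ⊆ T j f := by
    rintro j f hf z ⟨hz, hh⟩
    exact hT j f hf z hz (fun k => hh k (by positivity))
  -- the bad events
  set B : ℕ → ℝ → Set C(unitInterval, ℂ) := fun j ε' =>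
    {f | f ∈ Ev j ∧ ¬ Good (t j) ε' (c j) (AA (K j) (Q j) ε' f)} with hB
  have hBo : ∀ j ε', IsOpen (B j ε') := by
    intro j ε'
    have h2 : IsOpen {f | ¬ Good (t j) ε' (c j) (AA (K j) (Q j) ε' f)} :=
      (isClosed_good_AA (t := t j) (δ := ε') (c := c j) (e := ε') (hQ j) (hK j)).isOpen_compl
    exact (hEv j).inter h2
  set Bd : ℕ → Set C(unitInterval, ℂ) := fun n =>
    ⋃ j ∈ Finset.range n, B j (1 / ((n : ℝ) + 1)) with hBd
  have hBdo : ∀ n, IsOpen (Bd n) := fun n =>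
    isOpen_biUnion fun j _ => hBo j _
  have hmonoB : ∀ j, ∀ n n' : ℕ, n ≤ n' → B j (1 / ((n : ℝ) + 1)) ⊆ B j (1 / ((n' : ℝ) + 1)) := by
    intro j n n' hnn f hf
    refine ⟨hf.1, fun hG => ?_⟩
    apply hf.2
    have h3 := hG.anti (Nat.one_div_le_one_div (α := ℝ) hnn)
    exact h3.mono (AA_mono (Nat.one_div_le_one_div hnn) f)
  have hmono : Monotone Bd := by
    intro n n' hnn f hf
    rw [hBd, Set.mem_iUnion₂] at hf
    obtain ⟨j, hj, hf⟩ := hf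
    rw [hBd, Set.mem_iUnion₂]
    refine ⟨j, ?_, hmonoB j n n' hnn hf⟩
    rw [Finset.mem_range] at hj ⊢
    omega
  have hle : ∀ n, (μ : Measure C(unitInterval, ℂ)) (Bd n) ≤ ε0 + ε := by
    intro n
    refine (ProbabilityMeasure.le_liminf_measure_open_of_tendsto hμ (hBdo n)).trans ?_
    refine liminf_le_of_frequently_le (Eventually.frequently ?_)
    have h4 : ∀ᶠ i in atTop, ∀ j ∈ Finset.range n,
        νs i (B j (1 / ((n : ℝ) + 1))) ≤ εs j := by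
      rw [Filter.eventually_all_finset]
      intro j _
      exact h1 j _ (by positivity)
    filter_upwards [hν, h4] with i h5 h6
    calc (μs i : Measure C(unitInterval, ℂ)) (Bd n) ≤ νs i (Bd n) + ε0 := h5 _ (hBdo n)
      _ ≤ ∑ j ∈ Finset.range n, νs i (B j (1 / ((n : ℝ) + 1))) + ε0 := by
          gcongr
          exact measure_biUnion_finset_le _ _
      _ ≤ ∑ j ∈ Finset.range n, εs j + ε0 := by
          gcongr with j hj
          exact h6 j hj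
      _ ≤ ∑' j, εs j + ε0 := by
          gcongr
          exact ENNReal.sum_le_tsum _
      _ ≤ ε + ε0 := by gcongr
      _ = ε0 + ε := add_comm _ _
  have h3 : {f | ∃ j, f ∈ Ev j ∧ ¬ ENNReal.ofReal (t j) ≤ dimH (T j f)} ⊆ ⋃ n : ℕ, Bd n := by
    rintro f ⟨j, hfE, hfj⟩
    by_contra hcon
    apply hfj
    have hcon : ∀ n : ℕ, j < n → Good (t j) (1 / ((n : ℝ) + 1)) (c j)
        (AA (K j) (Q j) (1 / ((n : ℝ) + 1)) f) := by
      intro n hjn
      by_contra hn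
      refine hcon (mem_iUnion.2 ⟨n, Set.mem_iUnion₂.2 ⟨j, Finset.mem_range.2 hjn, hfE, hn⟩⟩)
    have h4 : ∀ δ' : ℝ, 0 < δ' → Good (t j) δ' (c j) (AA (K j) (Q j) 0 f) := by
      intro δ' hδ'
      apply good_zero (hQ j) (hK j)
      intro n
      obtain ⟨m, hm⟩ := exists_nat_one_div_lt hδ'
      have h5 := hcon (max (max n m) (j + 1)) (by
        have := le_max_right (max n m) (j + 1)
        omega)
      have h6 : (1 : ℝ) / (((max (max n m) (j + 1) : ℕ) : ℝ) + 1) ≤ 1 / ((n : ℝ) + 1) :=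
        Nat.one_div_le_one_div ((le_max_left _ _).trans (le_max_left _ _))
      have h7 : (1 : ℝ) / (((max (max n m) (j + 1) : ℕ) : ℝ) + 1) ≤ 1 / ((m : ℝ) + 1) :=
        Nat.one_div_le_one_div ((le_max_right _ _).trans (le_max_left _ _))
      exact (h5.mono (AA_mono h6 f)).anti (h7.trans hm.le)
    exact (le_dimH_of_good (ht j) (hc j) (isCompact_AA (hQ j) (hK j) f) h4).trans
      (dimH_mono (hT0 j f hfE))
  refine (measure_mono h3).trans ?_
  rw [hmono.measure_iUnion]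
  exact iSup_le fun n => hle n

end Run7.h165.EC
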