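import Mathlib

/-! # Outer measure of image measures -/

set_option autoImplicit false

namespace Run7.h165.EC

open MeasureTheory Set Filter Topology
open scoped ENNReal

/-- For a continuous map from a Polish space the image measure of a set (not assumed to be
measurable) is at most the outer measure of its preimage. -/
theorem map_outer_le {Y Z : Type*} [TopologicalSpace Y] [PolishSpace Y] [MeasurableSpace Y]
    [BorelSpace Y] [TopologicalSpace Z] [T2Space Z] [MeasurableSpace Z] [BorelSpace Z]
    {ν : Measure Y} [IsFiniteMeasure ν] {π : Y → Z} (hπ : Continuous π) {S : Set Z} {a : ℝ≥0∞}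
    (h : ν (π ⁻¹' S) ≤ a) : ν.map π S ≤ a := by
  apply ENNReal.le_of_forall_pos_le_add
  intro ε hε _
  set B := toMeasurable ν (π ⁻¹' S) with hB
  have hBm : MeasurableSet B := measurableSet_toMeasurable _ _
  obtain ⟨K, hK1, hK2, hK3⟩ := hBm.compl.exists_isCompact_lt_add (μ := ν)
    (measure_ne_top ν _) (ε := ε) (by exact_mod_cast hε.ne')
  have hKm : MeasurableSet K := hK2.measurableSet
  have hπK : MeasurableSet (π '' K) := (hK2.image hπ).measurableSet
  have h1 : S ⊆ (π '' K)ᶜ := by
    rintro z hz ⟨y, hy, rfl⟩
    exact hK1 hy (subset_toMeasurable _ _ hz)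
  calc ν.map π S ≤ ν.map π (π '' K)ᶜ := measure_mono h1
    _ = ν (π ⁻¹' (π '' K)ᶜ) := Measure.map_apply hπ.measurable hπK.compl
    _ ≤ ν Kᶜ := by
        apply measure_mono
        intro y hy hyK
        exact hy ⟨y, hyK, rfl⟩
    _ ≤ ν B + ν (Bᶜ \ K) := by
        refine (measure_mono ?_).trans (measure_union_le _ _)
        intro y hy
        by_cases hyB : y ∈ B
        · exact Or.inl hyB
        · exact Or.inr ⟨hyB, hy⟩
    _ ≤ a + ε := by
        gcongr
        · rw [hB, measure_toMeasurable]
          exact h
        · rw [measure_sdiff hK1 hKm.nullMeasurableSet (measure_ne_top ν _)]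
          rw [tsub_le_iff_left]
          exact hK3.le

end Run7.h165.EC
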