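import Pool.Agent.Run7.h165.EC.Scale
import Pool.Agent.Run7.h165.EC.Aux1
import Pool.Agent.Run7.h165.EC.Lgoc
import Pool.Agent.Run7.h165.EC.MapOuter
import Pool.Agent.Run7.h561.EC.P_H2
import Pool.Agent.H984R4.HN.FinalH
import Pool.Agent.H984R4.HN.Ret

/-! # The half-plane: transience, scaling -/

set_option autoImplicit false

namespace Run7.h165.EC

open Set Filter Topology Metric MeasureTheory H984H
open Run7.h561.EC Pool.Agent.H389R2.Dim
open scoped ENNReal NNReal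

/-- After `n` steps the path does not return to the ball of radius `r n ^ (4/7)`. -/
def NoRet (n : ℕ) (r : ℝ) (ω : Conf) : Prop :=
  ∀ k, n ≤ k → r * (n : ℝ) ^ (4 / 7 : ℝ) < ((H984H.sd (path ω k).1 (0, 0) : ℤ) : ℝ)

/-- The law of the curve on this event. -/
noncomputable def nuH (n : ℕ) (r : ℝ) : Measure C(unitInterval, ℂ) :=
  (perc.restrict {ω | NoRet n r ω}).map (curve n)

/-- The open half-disc. -/
def Hd (r : ℝ) : Set ℂ := {z | 0 < z.im ∧ ‖z‖ < r}

theorem Hd_open (r : ℝ) : IsOpen (Hd r) :=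
  (isOpen_lt continuous_const Complex.continuous_im).inter
    (isOpen_lt continuous_norm continuous_const)

/-- HITH: the discrete input. -/
def S_HITH : Prop := ∀ φ : ℕ → ℕ, Tendsto φ atTop atTop → ∀ t : ℝ, 0 < t → t < 4 / 3 →
  ∀ (d : ℤ × ℤ) (H η m r : ℝ) (w : ℂ), Run7.h561.EC.Dir d → 0 < H → 0 < η → 0 < m →
  Sq (5 * H) w ⊆ Hd r →
  ∀ ε : ℝ≥0∞, 0 < ε → ∃ (c : ℝ) (K : Set ℂ) (Q : ℕ → Set (C(unitInterval, ℂ) × ℂ)), 0 < c ∧
    IsCompact K ∧ (∀ k, IsClosed (Q k)) ∧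
    (∀ f ∈ EvM d H η m w, ∀ z ∈ K, (∀ k, (f, z) ∈ Q k) → z ∈ Lb (Sq (4 * H) w) (range f) w) ∧
    ∀ ε' : ℝ, 0 < ε' → ∀ᶠ i in atTop,
      nuH (φ i) r {f | f ∈ EvM d H η m w ∧ ¬ Good t ε' c
        {z | z ∈ K ∧ ∀ k : ℕ, ε' ≤ 1 / ((k : ℝ) + 1) → (f, z) ∈ Q k}} ≤ ε

theorem lawH_le (n : ℕ) (r : ℝ) {S : Set C(unitInterval, ℂ)} (hS : IsOpen S) :
    (lawH n : Measure C(unitInterval, ℂ)) S ≤ nuH n r S + perc {ω | ¬ NoRet n r ω} := by
  show perc.map (curve n) S ≤ _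
  unfold nuH
  have hm := curve_meas n hS.measurableSet
  rw [Measure.map_apply (curve_meas n) hS.measurableSet,
    Measure.map_apply (curve_meas n) hS.measurableSet, Measure.restrict_apply hm]
  refine (measure_mono ?_).trans (measure_union_le _ _)
  intro ω hω
  by_cases h : NoRet n r ω
  · exact Or.inl ⟨hω, h⟩
  · exact Or.inr h

/-! ### Transience -/

theorem gam_norm (ω : Conf) (k : ℕ) :
    ‖gam ω k‖ ≤ 2 * ((H984H.sd (path ω k).1 (0, 0) : ℤ) : ℝ) + 1 := by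
  unfold gam
  generalize path ω k = σ
  obtain ⟨⟨x, y⟩, c⟩ := σ
  have h1 : |(x : ℝ)| ≤ ((H984H.sd (x, y) (0, 0) : ℤ) : ℝ) := by
    rw [← Int.cast_abs]
    have : |x| ≤ H984H.sd (x, y) (0, 0) := by
      unfold H984H.sd
      simp
    exact_mod_cast this
  have h2 : |(y : ℝ)| ≤ ((H984H.sd (x, y) (0, 0) : ℤ) : ℝ) := by
    rw [← Int.cast_abs]
    have : |y| ≤ H984H.sd (x, y) (0, 0) := by
      unfold H984H.sd
      simp
    exact_mod_cast this
  have h3 : ‖place ((x, y), c)‖ ≤ |(place ((x, y), c)).re| + |(place ((x, y), c)).im| :=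
    Complex.norm_le_abs_re_add_abs_im _
  rw [abs_le] at h1 h2
  have h4 : |(place ((x, y), c)).re| ≤ ((H984H.sd (x, y) (0, 0) : ℤ) : ℝ) + 1 / 4 := by
    rw [abs_le]
    cases c <;> simp only [place] <;> constructor <;> linarith
  have h5 : |(place ((x, y), c)).im| ≤ ((H984H.sd (x, y) (0, 0) : ℤ) : ℝ) + 1 / 4 := by
    rw [abs_le]
    cases c <;> simp only [place] <;> constructor <;> linarith
  simp only
  linarith

/-- The path is transient. -/
theorem noRet_prob {A1 : ℝ} (hA1 : ∀ (n : ℕ) (x : ℝ), 1 ≤ n → 0 < x →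
      perc.real {ω | reach n ω ≤ x * (n : ℝ) ^ (4 / 7 : ℝ)} ≤ A1 * x ^ (7 / 4 : ℝ))
    {ε : ℝ} (hε : 0 < ε) : ∃ r0 : ℝ, 0 < r0 ∧ ∀ r : ℝ, 0 < r → r ≤ r0 →
      ∀ᶠ n : ℕ in atTop, perc.real {ω | ¬ NoRet n r ω} ≤ ε := by
  obtain ⟨a, A2, ha, hA2, hret⟩ := no_return
  -- the bound as a function of `r`
  have hlim : Tendsto (fun r : ℝ => A1 * (Real.sqrt r) ^ (7 / 4 : ℝ) +
      A2 * (16 * Real.sqrt r) ^ a) (𝓝 0) (𝓝 (A1 * (Real.sqrt 0) ^ (7 / 4 : ℝ) +
      A2 * (16 * Real.sqrt 0) ^ a)) := by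
    apply Tendsto.add
    · exact ((Real.continuous_sqrt.tendsto 0).rpow_const (Or.inr (by norm_num))).const_mul _
    · exact (((Real.continuous_sqrt.tendsto 0).const_mul 16).rpow_const
        (Or.inr ha.le)).const_mul _
  rw [Real.sqrt_zero, mul_zero, Real.zero_rpow (by norm_num), Real.zero_rpow ha.ne', mul_zero,
    mul_zero, add_zero] at hlim
  obtain ⟨r1, hr1, hr1'⟩ := Metric.eventually_nhds_iff.1 (hlim.eventually (gt_mem_nhds hε))
  refine ⟨min (r1 / 2) (1 / 64), lt_min (by linarith) (by norm_num), fun r hr hr0 => ?_⟩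
  have hrr1 : r < r1 := by
    have := hr0.trans (min_le_left _ _)
    linarith
  have hr64 : r ≤ 1 / 64 := hr0.trans (min_le_right _ _)
  have hb := hr1' (show dist r 0 < r1 by
    rw [Real.dist_eq, sub_zero, abs_of_pos hr]; exact hrr1)
  set s : ℝ := Real.sqrt r with hs
  have hs0 : 0 < s := Real.sqrt_pos.2 hr
  have hss : s * s = r := Real.mul_self_sqrt hr.le
  have hs8 : s ≤ 1 / 8 := by
    rw [hs, show (1 / 8 : ℝ) = Real.sqrt (1 / 64) by
      rw [show (1 / 64 : ℝ) = (1 / 8) ^ 2 by norm_num]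
      exact (Real.sqrt_sq (by norm_num)).symm]
    exact Real.sqrt_le_sqrt hr64
  have htend : Tendsto (fun n : ℕ => (n : ℝ) ^ (4 / 7 : ℝ)) atTop atTop :=
    (tendsto_rpow_atTop (by norm_num)).comp tendsto_natCast_atTop_atTop
  filter_upwards [htend.eventually_ge_atTop (16 / s + 1 / r), eventually_ge_atTop 1]
    with n hn hn1
  set X : ℝ := (n : ℝ) ^ (4 / 7 : ℝ) with hX
  have hX1 : 16 ≤ s * X := by
    have h1 : s * (16 / s + 1 / r) ≤ s * X := mul_le_mul_of_nonneg_left hn hs0.le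
    have h2 : s * (16 / s + 1 / r) = 16 + s / r := by field_simp
    have h3 : 0 < s / r := by positivity
    linarith
  have hX2 : 1 ≤ r * X := by
    have h1 : r * (16 / s + 1 / r) ≤ r * X := mul_le_mul_of_nonneg_left hn hr.le
    have h2 : r * (16 / s + 1 / r) = 16 * r / s + 1 := by field_simp
    have h3 : 0 < 16 * r / s := by positivity
    linarith
  set ri : ℤ := ⌈r * X⌉ with hri
  set Ri : ℤ := ⌊s * X / 4⌋ with hRi
  have e1 : r * X ≤ ri := Int.le_ceil _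
  have e2 : (ri : ℝ) < r * X + 1 := Int.ceil_lt_add_one _
  have e3 : (Ri : ℝ) ≤ s * X / 4 := Int.floor_le _
  have e4 : s * X / 4 < Ri + 1 := Int.lt_floor_add_one _
  have e5 : r * X ≤ s * X / 8 := by
    have h1 : r * X = s * (s * X) := by rw [← hss]; ring
    rw [h1]
    nlinarith
  have e6 : (1 : ℤ) ≤ ri := by
    have : (0 : ℝ) < ri := by linarith
    have h2 : 0 < ri := by exact_mod_cast this
    omega
  have e7 : ri ≤ Ri := by
    have : (ri : ℝ) < Ri + 1 := by linarith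
    have h2 : ri < Ri + 1 := by exact_mod_cast this
    omega
  have hsub : {ω | ¬ NoRet n r ω} ⊆ {ω | reach n ω ≤ s * X} ∪
      {ω | ∃ k l : ℕ, k ≤ l ∧ Ri ≤ H984H.sd (path ω k).1 (0, 0) ∧
        H984H.sd (path ω l).1 (0, 0) ≤ ri} := by
    intro ω hω
    by_cases h : reach n ω ≤ s * X
    · exact Or.inl h
    right
    unfold NoRet at hω
    rw [Set.mem_ofPred_eq] at hω
    push Not at hω h
    obtain ⟨l, hl, hl2⟩ := hω
    unfold reach at h
    obtain ⟨k, hk, hk2⟩ : ∃ k ∈ Finset.range (n + 1), s * X < ‖gam ω k‖ := by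
      by_contra hcon
      push Not at hcon
      exact absurd h (not_lt.2 (Finset.sup'_le _ _ hcon))
    rw [Finset.mem_range] at hk
    refine ⟨k, l, by omega, ?_, ?_⟩
    · have h1 := gam_norm ω k
      have h2 : (Ri : ℝ) ≤ ((H984H.sd (path ω k).1 (0, 0) : ℤ) : ℝ) := by linarith
      exact_mod_cast h2
    · have h2 : ((H984H.sd (path ω l).1 (0, 0) : ℤ) : ℝ) ≤ ri := hl2.trans e1
      exact_mod_cast h2
  have hle : perc.real {ω | ¬ NoRet n r ω} ≤ perc.real {ω | reach n ω ≤ s * X} +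
      perc.real {ω | ∃ k l : ℕ, k ≤ l ∧ Ri ≤ H984H.sd (path ω k).1 (0, 0) ∧
        H984H.sd (path ω l).1 (0, 0) ≤ ri} :=
    (measureReal_mono hsub).trans (measureReal_union_le _ _)
  have hb1 := hA1 n s hn1 hs0
  rw [← hX] at hb1
  have hb2 := hret ri Ri e6 e7
  have hratio : (ri : ℝ) / Ri ≤ 16 * s := by
    have h1 : (0 : ℝ) < Ri := by linarith
    rw [div_le_iff₀ h1]
    have h2 : (ri : ℝ) ≤ 2 * (r * X) := by linarith
    have h3 : s * X / 8 ≤ Ri := by linarith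
    have h4 : 16 * s * (s * X / 8) ≤ 16 * s * Ri := mul_le_mul_of_nonneg_left h3 (by positivity)
    have h5 : 16 * s * (s * X / 8) = 2 * (r * X) := by rw [← hss]; ring
    linarith
  have hb3 : A2 * ((ri : ℝ) / Ri) ^ a ≤ A2 * (16 * s) ^ a := by
    refine mul_le_mul_of_nonneg_left (Real.rpow_le_rpow ?_ hratio ha.le) hA2.le
    have h1 : (0 : ℝ) < Ri := by linarith
    have h2 : (0 : ℝ) < ri := by linarith
    positivity
  linarith

/-! ### The countable union -/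

/-- The trace condition holds up to a small probability. -/
theorem full_small (hith : S_HITH) {ψ : ℕ → ℕ} (hψ : Tendsto ψ atTop atTop)
    {μ : ProbabilityMeasure C(unitInterval, ℂ)}
    (hμ : Tendsto (fun i => lawH (ψ i)) atTop (𝓝 μ)) {r ε : ℝ}
    (hr : ∀ᶠ n : ℕ in atTop, perc.real {ω | ¬ NoRet n r ω} ≤ ε) :
    (μ : Measure C(unitInterval, ℂ)) {f | ¬ Full43 (Hd r) f} ≤ ENNReal.ofReal ε := by
  classical
  set P : ℚ × ℚ × ℚ × ℚ × (ℤ × ℤ) × ℕ × ℕ → Prop := fun x =>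
    Run7.h561.EC.Dir x.2.2.2.2.1 ∧ 0 < x.2.2.1 ∧ 0 < x.2.2.2.1 ∧
      Sq (5 * (x.2.2.1 : ℝ)) ⟨x.1, x.2.1⟩ ⊆ Hd r with hP
  obtain ⟨e, he⟩ := exists_surjective_nat (ℚ × ℚ × ℚ × ℚ × (ℤ × ℤ) × ℕ × ℕ)
  set Ev : ℕ → Set C(unitInterval, ℂ) := fun j =>
    if P (e j) then EvM (e j).2.2.2.2.1 (e j).2.2.1 (e j).2.2.2.1
      (1 / (((e j).2.2.2.2.2.2 : ℝ) + 1)) ⟨(e j).1, (e j).2.1⟩ else ∅
    with hEv
  set T : ℕ → C(unitInterval, ℂ) → Set ℂ := fun j f =>
    Lb (Sq (4 * ((e j).2.2.1 : ℝ)) ⟨(e j).1, (e j).2.1⟩) (range f) ⟨(e j).1, (e j).2.1⟩ with hT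
  set t : ℕ → ℝ := fun j => 4 / 3 - 1 / (((e j).2.2.2.2.2.1 : ℝ) + 1) with htdef
  have hk1 : ∀ k : ℕ, 1 / ((k : ℝ) + 1) ≤ 1 := by
    intro k
    rw [div_le_one (by positivity)]
    have : (0 : ℝ) ≤ k := Nat.cast_nonneg _
    linarith
  have ht : ∀ j, 0 < t j := by
    intro j
    have := hk1 (e j).2.2.2.2.2.1
    simp only [htdef]
    linarith
  have hopen : ∀ j, IsOpen (Ev j) := by
    intro j
    simp only [hEv]
    split_ifs with h
    · exact isOpen_EvM _ _ _ _ _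
    · exact isOpen_empty
  have key := lgoc hμ (νs := fun i => nuH (ψ i) r) (ε0 := ENNReal.ofReal ε) (t := t) ?_ ht T
    hopen ?_
  · refine (measure_mono ?_).trans key
    intro f hf
    rw [Set.mem_ofPred_eq] at hf
    unfold Full43 at hf
    push Not at hf
    obtain ⟨a, b, H, η, d, h1, h2, h3, h4, h5, h6⟩ := hf
    obtain ⟨m, hm⟩ := EvO_margin h5
    -- the index
    obtain ⟨k, hk⟩ : ∃ k : ℕ, ¬ ENNReal.ofReal (4 / 3 - 1 / ((k : ℝ) + 1)) ≤
        dimH (Lb (Sq (4 * (H : ℝ)) ⟨a, b⟩) (range f) ⟨a, b⟩) := by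
      by_contra hcon
      push Not at hcon
      exact absurd (four_thirds_le hcon) (not_le.2 h6)
    obtain ⟨j, hj⟩ := he (a, b, H, η, d, k, m)
    refine ⟨j, ?_, ?_⟩
    · simp only [hEv, hP, hj]
      rw [if_pos ⟨h1, h2, h3, h4⟩]
      exact hm
    · simp only [htdef, hT, hj]
      exact hk
  · filter_upwards [hψ.eventually hr] with i hi S hS
    refine (lawH_le (ψ i) r hS).trans ?_
    gcongr
    rw [← ofReal_measureReal (measure_ne_top _ _)]
    exact ENNReal.ofReal_le_ofReal hi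
  · intro j ε1 hε1
    by_cases h : P (e j)
    · obtain ⟨h1, h2, h3, h4⟩ := h
      have hh := hith ψ hψ (t j) (ht j) (by
        have : (0 : ℝ) < 1 / (((e j).2.2.2.2.2.1 : ℝ) + 1) := by positivity
        simp only [htdef]
        linarith) (e j).2.2.2.2.1 (e j).2.2.1 (e j).2.2.2.1 (1 / (((e j).2.2.2.2.2.2 : ℝ) + 1)) r
        ⟨(e j).1, (e j).2.1⟩ h1
        (by exact_mod_cast h2) (by exact_mod_cast h3) (by positivity) h4 ε1 hε1
      have hE : Ev j = EvM (e j).2.2.2.2.1 (e j).2.2.1 (e j).2.2.2.1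
          (1 / (((e j).2.2.2.2.2.2 : ℝ) + 1)) ⟨(e j).1, (e j).2.1⟩ := by
        simp only [hEv]
        rw [if_pos ⟨h1, h2, h3, h4⟩]
      rw [hE]
      exact hh
    · have hE : Ev j = ∅ := by
        simp only [hEv]
        rw [if_neg h]
      rw [hE]
      refine ⟨1, ∅, fun _ => ∅, one_pos, isCompact_empty, fun _ => isClosed_empty, ?_, ?_⟩
      · intro f hf
        exact absurd hf (Set.notMem_empty _)
      · intro ε' _
        refine Eventually.of_forall fun i => ?_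
        have : {f : C(unitInterval, ℂ) | f ∈ (∅ : Set C(unitInterval, ℂ)) ∧ ¬ Good (t j) ε' 1
            {z | z ∈ (∅ : Set ℂ) ∧ ∀ k : ℕ, ε' ≤ 1 / ((k : ℝ) + 1) →
              (f, z) ∈ (∅ : Set (C(unitInterval, ℂ) × ℂ))}} = ∅ := by
          ext f
          simp
        rw [this, measure_empty]
        exact zero_le

end Run7.h165.EC
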