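import Pool.Agent.Run7.h165.EC.Hp1
import Pool.Agent.Run7.h165.EC.Hp2
import Pool.Agent.Run7.h561.EC.P_H4

/-! # HIT for the half-plane -/

set_option autoImplicit false

namespace Run7.h165.EC

open H974 H12S Finset H342P H984P H984N H984H MeasureTheory Filter Topology
open Run7.h561 Run7.h561.EC
open Pool.Agent.H389R2.Dim Pool.Agent.Y989.FR
open scoped ENNReal

/-! ### Reversal and translation -/

theorem crv_rev {f g : C(unitInterval, ℂ)} {δ : ℝ} {T : ℕ} {p p' : ℕ → ℂ} (hc : Crv f δ T p)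
    (hg : ∀ s, g s = f (unitInterval.symm s)) (hp : ∀ k ≤ T, p' k = p (T - k)) :
    Crv g δ T p' := by
  constructor
  · intro k hk
    obtain ⟨s, hs⟩ := hc.node (T - k) (Nat.sub_le _ _)
    refine ⟨unitInterval.symm s, ?_⟩
    rw [hg, unitInterval.symm_symm, hs, hp k hk]
  · intro s s' hss
    obtain ⟨i, j, hij, hj, h1, h2, h3⟩ := hc.seg (unitInterval.symm s') (unitInterval.symm s)
      (unitInterval.symm_le_symm.2 hss)
    refine ⟨T - j, T - i, by omega, Nat.sub_le _ _, ?_, ?_, ?_⟩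
    · rw [hg, hp _ (Nat.sub_le _ _), show T - (T - j) = j by omega]
      exact h2
    · rw [hg, hp _ (Nat.sub_le _ _), show T - (T - i) = i by omega]
      exact h1
    · intro k hk1 hk2
      obtain ⟨u, hu1, hu2, hu3⟩ := h3 (T - k) (by omega) (by omega)
      refine ⟨unitInterval.symm u, ?_, ?_, ?_⟩
      · rw [← unitInterval.symm_symm s]
        exact unitInterval.symm_le_symm.2 hu2
      · rw [← unitInterval.symm_symm s']
        exact unitInterval.symm_le_symm.2 hu1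
      · rw [hg, unitInterval.symm_symm, hp k (by omega)]
        exact hu3

/-- The reversed curve, moved by `δ i`. -/
noncomputable def rt (δ : ℝ) (f : C(unitInterval, ℂ)) : C(unitInterval, ℂ) :=
  ⟨fun s => f (unitInterval.symm s) + ⟨0, δ⟩, by fun_prop⟩

theorem rt_apply (δ : ℝ) (f : C(unitInterval, ℂ)) (s : unitInterval) :
    rt δ f s = f (unitInterval.symm s) + ⟨0, δ⟩ := rfl

theorem rt_re (δ : ℝ) (f : C(unitInterval, ℂ)) (s : unitInterval) :
    (rt δ f s).re = (f (unitInterval.symm s)).re := by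
  rw [rt_apply, Complex.add_re, add_zero]

theorem rt_im (δ : ℝ) (f : C(unitInterval, ℂ)) (s : unitInterval) :
    (rt δ f s).im = (f (unitInterval.symm s)).im + δ := by
  rw [rt_apply, Complex.add_im]

theorem rt_dist {δ : ℝ} (hδ : 0 ≤ δ) (f : C(unitInterval, ℂ)) (s : unitInterval) :
    dist (rt δ f s) (f (unitInterval.symm s)) ≤ δ := by
  rw [rt_apply, dist_eq_norm, add_sub_cancel_left]
  refine (Complex.norm_le_abs_re_add_abs_im _).trans ?_
  simp only [abs_zero, zero_add]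
  exact (abs_of_nonneg hδ).le

theorem dir_abs {d : ℤ × ℤ} (hd : Run7.h561.EC.Dir d) : |(d.1 : ℝ)| ≤ 1 ∧ |(d.2 : ℝ)| ≤ 1 := by
  rcases hd with h | h | h | h <;> subst h <;> simp

theorem rt_EvM {d : ℤ × ℤ} {H η m δ : ℝ} {w : ℂ} {f : C(unitInterval, ℂ)}
    (hd : Run7.h561.EC.Dir d) (hδ : 0 ≤ δ) (hδm : δ ≤ m / 2) (hf : f ∈ EvM d H η m w) :
    rt δ f ∈ EvM d H η (m / 2) w := by
  obtain ⟨h1, s, s', hss, h2, h3⟩ := hf
  obtain ⟨hd1, hd2⟩ := dir_abs hd
  rw [abs_le] at hd1 hd2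
  have hL : ∀ u : unitInterval, Lf d w (rt δ f (unitInterval.symm u)) = Lf d w (f u) - δ * d.1 := by
    intro u
    unfold Lf
    rw [rt_re, rt_im, unitInterval.symm_symm]
    ring
  have hδ1 : δ * (d.1 : ℝ) ≤ m / 2 ∧ -(m / 2) ≤ δ * (d.1 : ℝ) := by
    constructor <;> nlinarith
  refine ⟨fun u => ?_, unitInterval.symm s', unitInterval.symm s,
    unitInterval.symm_le_symm.2 hss, ?_, ?_⟩
  · have e1 := h1 (unitInterval.symm u)
    have e2 := rt_dist hδ f u
    have e3 := dist_triangle w (rt δ f u) (f (unitInterval.symm u))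
    linarith
  · rintro _ ⟨u, ⟨hu1, hu2⟩, rfl⟩
    have hu : unitInterval.symm u ∈ Set.Icc s s' := by
      constructor
      · rw [← unitInterval.symm_symm s]
        exact unitInterval.symm_le_symm.2 hu2
      · rw [← unitInterval.symm_symm s']
        exact unitInterval.symm_le_symm.2 hu1
    obtain ⟨b1, b2, b3⟩ := h2 ⟨_, hu, rfl⟩
    refine ⟨?_, ?_, ?_⟩
    · rw [rt_re]
      linarith
    · rw [rt_im]
      rw [abs_lt] at b2 ⊢
      constructor <;> linarith [b2.1, b2.2]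
    · rw [rt_re, rt_im]
      have : -(m / 2) ≤ δ * (d.2 : ℝ) := by nlinarith
      nlinarith
  · rw [hL, hL]
    rcases h3 with ⟨h3, h4⟩ | ⟨h3, h4⟩
    · right
      constructor <;> linarith [hδ1.1, hδ1.2]
    · left
      constructor <;> linarith [hδ1.1, hδ1.2]

theorem rt_QW {O : Set ℂ} {M R e δ : ℝ} {B N : ℕ} {w z : ℂ} {f : C(unitInterval, ℂ)}
    (hM : 0 ≤ M) (hδ : 0 ≤ δ) (h : (rt δ f, z) ∈ QW O M R e B N w) {e' : ℝ}
    (he : e + (M + 1) * δ ≤ e') : (f, z) ∈ QW O M R e' B N w := by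
  obtain ⟨h1, ⟨s, hs⟩, x, h2, h3, h4, h5, h6, h7⟩ := h
  have hM1 : 0 ≤ M * δ := mul_nonneg hM hδ
  have hee : e ≤ e' := by nlinarith
  refine ⟨h1, ⟨unitInterval.symm s, ?_⟩, x, h2, h3.trans hee, h4.trans hee,
    fun i => (h5 i).trans hee, ?_, ?_⟩
  · have e2 := rt_dist hδ f s
    have e3 := dist_triangle (f (unitInterval.symm s)) (rt δ f s) z
    rw [dist_comm (f (unitInterval.symm s)) (rt δ f s)] at e3
    have hs' : dist (rt δ f s) z ≤ e := hs
    show dist (f (unitInterval.symm s)) z ≤ e'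
    nlinarith
  · intro i s
    have e1 : dist (x i) z ^ B ≤ M * dist (x i) (rt δ f (unitInterval.symm s)) + e :=
      h6 i (unitInterval.symm s)
    have e2 := rt_dist hδ f (unitInterval.symm s)
    rw [unitInterval.symm_symm] at e2
    have e3 := dist_triangle (x i) (f s) (rt δ f (unitInterval.symm s))
    rw [dist_comm (f s)] at e3
    show dist (x i) z ^ B ≤ M * dist (x i) (f s) + e'
    have e4 : M * dist (x i) (rt δ f (unitInterval.symm s)) ≤ M * (dist (x i) (f s) + δ) :=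
      mul_le_mul_of_nonneg_left (by linarith) hM
    nlinarith
  · intro i y hy
    have e1 := h7 i y hy
    show dist (x i) z ^ B ≤ M * dist (x i) y + e'
    exact e1.trans (by linarith)

/-! ### The discrete curve -/

theorem pos_place (δ : ℝ) (σ : St) : pos δ σ = (δ : ℂ) * place σ + ⟨0, δ⟩ := by
  obtain ⟨⟨x, y⟩, c⟩ := σ
  apply Complex.ext
  · rw [Complex.add_re, Complex.re_ofReal_mul]
    cases c <;> simp only [pos, place, add_zero]
  · rw [Complex.add_im, Complex.im_ofReal_mul]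
    cases c <;> simp only [pos, place] <;> ring

theorem crv_half {n : ℕ} (ω : Conf) {δ : ℝ} (hδ : δ = (n : ℝ) ^ (-(4/7) : ℝ)) :
    Crv (rt δ (curve n ω)) δ n (fun k => pos δ (orb (opn ω) (path ω n) k)) := by
  have hδ0 : 0 ≤ δ := by rw [hδ]; exact Real.rpow_nonneg (Nat.cast_nonneg n) _
  have h1 : Crv (pl n (fun k => pos δ (path ω k))) δ n (fun k => pos δ (path ω k)) := by
    refine crv_pl hδ0 fun k _ => ?_
    have h1 := pos_nxt hδ0 (opn ω) (path ω (k + 1))
    rw [nxt_path] at h1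
    rwa [dist_comm]
  refine crv_rev h1 (fun s => ?_) (fun k hk => ?_)
  · rw [rt_apply]
    show pl n (fun k => (((n : ℝ) ^ (-(4/7) : ℝ) : ℝ) : ℂ) * gam ω k) (unitInterval.symm s) + _ = _
    rw [← hδ, pl_apply', pl_apply']
    unfold gam
    simp only [pos_place]
    rw [add_right_comm]
    congr 1
    refine Finset.sum_congr rfl fun k _ => ?_
    ring
  · show pos δ (orb (opn ω) (path ω n) k) = pos δ (path ω (n - k))
    rw [orb_path ω n k hk]

/-- The position of the box in the lattice. -/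
theorem box_posH {w : ℂ} {H δ : ℝ} (hx : 100 ≤ 4 * H / δ) :
    (w.re - 4 * H) / δ + 2 < (bq w H δ).1 ∧
    (((bq w H δ).1 : ℝ) + ((2 * bn H δ : ℕ) : ℝ)) ≤ (w.re + 4 * H) / δ - 3 ∧
    (w.im - 4 * H) / δ + 1 < (bq w H δ).2 ∧
    (((bq w H δ).2 : ℝ) + ((2 * bn H δ : ℕ) : ℝ)) ≤ (w.im + 4 * H) / δ - 4 := by
  have hfl := Nat.floor_le (show 0 ≤ 4 * H / δ by linarith)
  have hnn : bn H δ + 3 = ⌊4 * H / δ⌋₊ := by
    unfold bn
    have : 3 ≤ ⌊4 * H / δ⌋₊ := by
      apply Nat.le_floor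
      push_cast
      linarith
    omega
  rw [← hnn] at hfl
  push_cast at hfl
  have e1 := Int.floor_le (w.re / δ)
  have e2 := Int.lt_floor_add_one (w.re / δ)
  have e3 := Int.floor_le (w.im / δ)
  have e4 := Int.lt_floor_add_one (w.im / δ)
  have h1 : (w.re - 4 * H) / δ = w.re / δ - 4 * H / δ := by ring
  have h2 : (w.re + 4 * H) / δ = w.re / δ + 4 * H / δ := by ring
  have h3 : (w.im - 4 * H) / δ = w.im / δ - 4 * H / δ := by ring
  have h4 : (w.im + 4 * H) / δ = w.im / δ + 4 * H / δ := by ring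
  rw [h1, h2, h3, h4]
  unfold bq bw
  push_cast
  refine ⟨?_, ?_, ?_, ?_⟩ <;> linarith

/-- The box and the half-disc. -/
theorem box_half {w : ℂ} {H δ r : ℝ} (hδ : 0 < δ) (hH : 0 < H) (hx : 100 ≤ 4 * H / δ)
    (hS : Sq (5 * H) w ⊆ Hd r) : 1 ≤ (bq w H δ).2 ∧
    ∀ v : Vtx, inR (bq w H δ).1 ((bq w H δ).1 + ((2 * bn H δ : ℕ) : ℤ)) (bq w H δ).2
      ((bq w H δ).2 + ((2 * bn H δ : ℕ) : ℤ)) v → δ * ((H984H.sd v (0, 0) : ℤ) : ℝ) < r := by
  obtain ⟨p1, p2, p3, p4⟩ := box_posH (w := w) (H := H) hx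
  have s3 : (⟨w.re, w.im - 9 / 2 * H⟩ : ℂ) ∈ Hd r := hS (by
    unfold Sq
    simp only [Set.mem_setOf_eq, sub_self, abs_zero]
    rw [show w.im - 9 / 2 * H - w.im = -(9 / 2 * H) by ring, abs_neg,
      abs_of_pos (by positivity)]
    constructor <;> linarith)
  have t3 : 0 < w.im - 9 / 2 * H := s3.1
  refine ⟨?_, ?_⟩
  · have h2 : 0 < (w.im - 4 * H) / δ := by
      apply div_pos _ hδ
      linarith
    have h3 : (0 : ℝ) < ((bq w H δ).2 : ℝ) := by linarith
    have h4 : 0 < (bq w H δ).2 := by exact_mod_cast h3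
    omega
  · intro v hv
    unfold inR at hv
    obtain ⟨⟨v1, v2⟩, v3, v4⟩ := hv
    have v1' : ((bq w H δ).1 : ℝ) ≤ v.1 := by exact_mod_cast v1
    have v2' : (v.1 : ℝ) ≤ ((bq w H δ).1 : ℝ) + ((2 * bn H δ : ℕ) : ℝ) := by exact_mod_cast v2
    have v3' : ((bq w H δ).2 : ℝ) ≤ v.2 := by exact_mod_cast v3
    have v4' : (v.2 : ℝ) ≤ ((bq w H δ).2 : ℝ) + ((2 * bn H δ : ℕ) : ℝ) := by exact_mod_cast v4
    have a1 : (w.re - 4 * H) / δ < v.1 := by linarith
    have a2 : (v.1 : ℝ) < (w.re + 4 * H) / δ := by linarith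
    have a3 : (w.im - 4 * H) / δ < v.2 := by linarith
    have a4 : (v.2 : ℝ) < (w.im + 4 * H) / δ := by linarith
    rw [div_lt_iff₀ hδ] at a1 a3
    rw [lt_div_iff₀ hδ] at a2 a4
    have b1 : (⟨δ * v.1, w.im⟩ : ℂ) ∈ Hd r := hS (by
      unfold Sq
      simp only [Set.mem_setOf_eq, sub_self, abs_zero]
      rw [abs_lt]
      refine ⟨⟨?_, ?_⟩, ?_⟩ <;> linarith)
    have b2 : (⟨w.re, δ * v.2⟩ : ℂ) ∈ Hd r := hS (by
      unfold Sq
      simp only [Set.mem_setOf_eq, sub_self, abs_zero]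
      rw [abs_lt]
      refine ⟨?_, ⟨?_, ?_⟩⟩ <;> linarith)
    have c1 := (Complex.abs_re_le_norm (⟨δ * v.1, w.im⟩ : ℂ)).trans_lt b1.2
    have c2 := (Complex.abs_im_le_norm (⟨w.re, δ * v.2⟩ : ℂ)).trans_lt b2.2
    simp only at c1 c2
    rw [abs_mul, abs_of_pos hδ] at c1 c2
    unfold H984H.sd
    simp only [sub_zero]
    rcases max_cases |v.1| |v.2| with h | h
    · rw [h.1]
      push_cast
      exact c1
    · rw [h.1]
      push_cast
      exact c2

/-- **HIT for the half-plane** -/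
theorem t_HITH (loc4 : S_LOC4) (dua : S_DUA) (chn : S_CHN) (qwc : S_QWC) (gew : S_GEW) :
    S_HITH := by
  intro φ hφ t ht ht1 d H η m r w hd hH hη hm hS ε hε
  obtain ⟨ε1, hε1, hε2⟩ : ∃ δ : ℝ, 0 < δ ∧ ENNReal.ofReal δ ≤ ε := by
    rcases eq_or_ne ε ∞ with h | h
    · exact ⟨1, one_pos, by rw [h]; exact le_top⟩
    · exact ⟨ε.toReal, ENNReal.toReal_pos hε.ne' h, by rw [ENNReal.ofReal_toReal h]⟩
  obtain ⟨c, M', B, NN, hc, hM', hB, hcore⟩ := hit_core loc4 dua chn ht ht1 hd hH hη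
    (half_pos hm) w hε1
  refine ⟨c, Metric.closedBall (0 : ℂ) (‖w‖ + 2 * (4 * H)),
    fun k => QW (Sq (4 * H) w)ᶜ M' (‖w‖ + 2 * (4 * H)) (2 / ((k : ℝ) + 1)) B (NN k) w, hc,
    isCompact_closedBall _ _, fun k => qwc _ _ _ _ _ _ _, ?_, ?_⟩
  · intro f hf z _ hz
    refine gew (Sq (4 * H) w) M' (‖w‖ + 2 * (4 * H)) B (fun k => NN (2 * k + 1)) w f z ?_ ?_ ?_
      hM' hB fun k => ?_
    · unfold Sq
      refine IsOpen.and ?_ ?_
      · exact isOpen_lt (by fun_prop) continuous_const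
      · exact isOpen_lt (by fun_prop) continuous_const
    · unfold Sq
      rw [Set.mem_setOf_eq, sub_self, sub_self, abs_zero]
      exact ⟨by linarith, by linarith⟩
    · rintro ⟨s, hs⟩
      have h1 := hf.1 s
      rw [hs, dist_self] at h1
      linarith
    · have h1 := hz (2 * k + 1)
      have h2 : (2 : ℝ) / (((2 * k + 1 : ℕ) : ℝ) + 1) = 1 / ((k : ℝ) + 1) := by
        push_cast
        field_simp
        ring
      simp only [h2] at h1
      exact h1
  · intro ε' hε'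
    obtain ⟨δ0, hδ0, hbad⟩ := hcore ε' hε'
    have hlim : Tendsto (fun i => (φ i : ℝ) ^ (-(4/7) : ℝ)) atTop (𝓝 0) :=
      (tendsto_rpow_neg_atTop (by norm_num)).comp (tendsto_natCast_atTop_atTop.comp hφ)
    have hev : ∀ᶠ i in atTop, (φ i : ℝ) ^ (-(4/7) : ℝ) <
        min (min δ0 (m / 2)) (min (4 * H / 100) (ε' / (M' + 1))) :=
      (tendsto_order.1 hlim).2 _ (by positivity)
    filter_upwards [hev, hφ.eventually_ge_atTop 1] with i hi hi1
    set n : ℕ := φ i with hn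
    obtain ⟨δ, hδ⟩ : ∃ δ : ℝ, δ = (n : ℝ) ^ (-(4/7) : ℝ) := ⟨_, rfl⟩
    rw [← hδ] at hi
    have hn0 : (0 : ℝ) < n := by exact_mod_cast hi1
    have hδp : 0 < δ := by rw [hδ]; exact Real.rpow_pos_of_pos hn0 _
    have i1 : δ < δ0 := hi.trans_le ((min_le_left _ _).trans (min_le_left _ _))
    have i2 : δ < m / 2 := hi.trans_le ((min_le_left _ _).trans (min_le_right _ _))
    have i3 : δ < 4 * H / 100 := hi.trans_le ((min_le_right _ _).trans (min_le_left _ _))
    have i4 : δ < ε' / (M' + 1) := hi.trans_le ((min_le_right _ _).trans (min_le_right _ _))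
    have i5 : (M' + 1) * δ ≤ ε' := by
      rw [lt_div_iff₀ (by linarith)] at i4
      linarith
    have hx : 100 ≤ 4 * H / δ := by
      rw [le_div_iff₀ hδp]
      linarith
    have hδn : δ * (n : ℝ) ^ (4/7 : ℝ) = 1 := by
      rw [hδ, ← Real.rpow_add hn0]
      norm_num
    obtain ⟨Bad, hB1, hB2⟩ := hbad δ hδp i1
    obtain ⟨b1, b2⟩ := box_half hδp hH hx hS
    set q : ℤ × ℤ := bq w H δ with hq
    set N : ℕ := 2 * bn H δ with hN
    -- the box of the random edges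
    obtain ⟨ρ, hρ⟩ : ∃ ρ : ℤ, ρ = |q.1| + |q.2| + N + 2 := ⟨_, rfl⟩
    have hsub : RE q.1 (q.1 + (N : ℤ)) q.2 (q.2 + (N : ℤ)) ⊆ (bx ρ).edges := by
      intro g hg
      unfold H984H.Dm.edges
      have ha1 := abs_le.1 (le_refl |q.1|)
      have ha2 := abs_le.1 (le_refl |q.2|)
      rw [mem_RE] at hg ⊢
      unfold inR bx at *
      simp only
      omega
    have hN1 : 1 ≤ N := by
      have h1 : (bn H δ : ℕ) = ⌊4 * H / δ⌋₊ - 3 := rfl
      have h2 : 100 ≤ ⌊4 * H / δ⌋₊ := by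
        apply Nat.le_floor
        push_cast
        linarith
      omega
    have hopen : IsOpen {f : C(unitInterval, ℂ) | f ∈ EvM d H η m w ∧ ¬ Good t ε' c
        {z | z ∈ Metric.closedBall (0 : ℂ) (‖w‖ + 2 * (4 * H)) ∧ ∀ k : ℕ,
          ε' ≤ 1 / ((k : ℝ) + 1) → (f, z) ∈ QW (Sq (4 * H) w)ᶜ M' (‖w‖ + 2 * (4 * H))
            (2 / ((k : ℝ) + 1)) B (NN k) w}} := by
      refine IsOpen.and (isOpen_EvM d H η m w) ?_
      exact (Pool.Agent.Y989.FR.LIM3.isClosed_good (isCompact_closedBall _ _)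
        fun k => qwc _ _ _ _ _ _ _).isOpen_compl
    have hm1 := hopen.measurableSet
    unfold nuH
    rw [Measure.map_apply (curve_meas n) hm1,
      Measure.restrict_apply (curve_meas n hm1)]
    have hle : (curve n ⁻¹' {f : C(unitInterval, ℂ) | f ∈ EvM d H η m w ∧ ¬ Good t ε' c
        {z | z ∈ Metric.closedBall (0 : ℂ) (‖w‖ + 2 * (4 * H)) ∧ ∀ k : ℕ,
          ε' ≤ 1 / ((k : ℝ) + 1) → (f, z) ∈ QW (Sq (4 * H) w)ᶜ M' (‖w‖ + 2 * (4 * H))
            (2 / ((k : ℝ) + 1)) B (NN k) w}}) ∩ {ω | NoRet n r ω} ⊆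
        {ω | Bad (Sub (cut ω ρ) q N)} := by
      rintro ω ⟨⟨e1, e2⟩, e3⟩
      by_contra hcon
      apply e2
      have hret : ∀ k, n ≤ k → ¬ inR q.1 (q.1 + N) q.2 (q.2 + N) (path ω k).1 := by
        intro k hk hcon2
        have h1 := e3 k hk
        have h2 := b2 _ hcon2
        have h3 := mul_lt_mul_of_pos_left h1 hδp
        have h4 : δ * (r * (n : ℝ) ^ (4 / 7 : ℝ)) = r := by
          rw [mul_left_comm, hδn, mul_one]
        linarith
      have hF : ∀ e : Edg, inR q.1 (q.1 + N) q.2 (q.2 + N) (src e) →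
          inR q.1 (q.1 + N) q.2 (q.2 + N) (tgt e) → (e ∈ cut ω ρ ↔ ω e = true) := by
        intro e he1 he2
        unfold cut
        rw [Finset.mem_filter]
        exact ⟨fun h => h.2, fun h => ⟨hsub (mem_RE.2 ⟨he1, he2⟩), h⟩⟩
      have hg := hB2 (opn ω) (path ω n) n (cut ω ρ) (rt δ (curve n ω)) (crv_half ω hδ)
        (nbh_half hN1 b1 hret hF) (rt_EvM hd hδp.le i2.le e1) hcon
      refine hg.mono ?_
      rintro z ⟨hz1, hz2⟩
      refine ⟨hz1, fun k hk => ?_⟩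
      refine rt_QW hM'.le hδp.le (hz2 k hk) ?_
      have : (2 : ℝ) / ((k : ℝ) + 1) = 1 / ((k : ℝ) + 1) + 1 / ((k : ℝ) + 1) := by ring
      rw [this]
      linarith
    refine (measure_mono hle).trans ?_
    rw [← ofReal_measureReal (measure_ne_top _ _), perc_cut ρ (fun F => Bad (Sub F q N))]
    refine le_trans (ENNReal.ofReal_le_ofReal ?_) hε2
    refine le_trans (le_of_eq ?_) hB1
    exact pr_Sub hsub Bad

end Run7.h165.EC
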