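import Pool.Agent.Run7.h165.EC.Scale
import Pool.Agent.Run7.h165.EC.Aux1
import Pool.Agent.Y989.FR.Up
import Pool.Agent.Results.MP_fe58d8_pr.DoublePoints

/-! # ALLT: all the pieces of the curve, from the full trace (assembly) -/

set_option autoImplicit false

namespace Run7.h165.EC

open Set Filter Topology Metric MeasureTheory H984N
open Run7.h561.EC Pool.Agent.TH990.FU
open scoped ENNReal NNReal

/-- All pieces, all open sets. -/
theorem fin_rect (hit : S_HIT) (axi : S_AXI) (R : Rect) {δ : ℕ → ℝ} (hδ : ∀ i, 0 < δ i)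
    (hlim : Tendsto δ atTop (𝓝 0)) {μ : ProbabilityMeasure X}
    (hμ : Tendsto (fun i => R.law (δ i)) atTop (𝓝 μ)) :
    ∀ᵐ p : X ∂(μ : Measure X), Fin43 R.D p.1 := by
  have hU := Pool.Agent.W424.KI.u3
  have h1 : ∀ᵐ p : X ∂(μ : Measure X), ∀ (a b H η : ℚ) (d : ℤ × ℤ) (k : ℕ), Run7.h561.EC.Dir d →
      0 < H → 0 < η → Sq (5 * (H : ℝ)) ⟨a, b⟩ ⊆ R.D → p.1 ∈ EvO d H η ⟨a, b⟩ →
      ENNReal.ofReal (4 / 3 - 1 / ((k : ℝ) + 1)) ≤
        dimH (Lb (Sq (4 * (H : ℝ)) ⟨a, b⟩) (range p.1) ⟨a, b⟩) := by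
    refine ae_all_iff.2 fun a => ae_all_iff.2 fun b => ae_all_iff.2 fun H =>
      ae_all_iff.2 fun η => ae_all_iff.2 fun d => ae_all_iff.2 fun k => ?_
    by_cases hc : Run7.h561.EC.Dir d ∧ 0 < H ∧ 0 < η ∧ Sq (5 * (H : ℝ)) ⟨a, b⟩ ⊆ R.D
    · obtain ⟨c1, c2, c3, c4⟩ := hc
      have hk0 : (0 : ℝ) < 1 / ((k : ℝ) + 1) := by positivity
      have hk1 : 1 / ((k : ℝ) + 1) ≤ 1 := by
        rw [div_le_one (by positivity)]
        have : (0 : ℝ) ≤ k := Nat.cast_nonneg _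
        linarith
      filter_upwards [hit R δ hδ hlim μ hμ (4 / 3 - 1 / ((k : ℝ) + 1)) (by linarith) (by linarith)
        d H η ⟨a, b⟩ c1 (by exact_mod_cast c2) (by exact_mod_cast c3) c4] with p hp _ _ _ _
      exact hp
    · exact Eventually.of_forall fun p e1 e2 e3 e4 => absurd ⟨e1, e2, e3, e4⟩ hc
  filter_upwards [h1, (Pool.Agent.Results.MP_fe58d8_pr.DoublePoints.result R).2 δ hδ hlim μ hμ,
    Pool.Agent.Y989.FR.Up.acc_fixed hU R hδ hlim hμ Set.univ,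
    (Pool.Agent.Results.MP_fe58d8_pr.NaturalCurve.result R).2.2.2 δ hδ hlim μ hμ]
    with p g1 g2 g3 g4
  refine fin_of_full (Pool.Agent.TH990.FU.D_open R) ?_
    ((dimH_mono Set.inter_subset_left).trans g2.1.le) ?_ ?_ axi
  · intro a b H η d e1 e2 e3 e4 e5
    exact four_thirds_le fun k => g1 a b H η d k e1 e2 e3 e4 e5
  · have e := g3.1
    rw [Pool.Agent.Y989.FR.Up.univ_dim, inter_univ] at e
    exact e
  · intro s t hst
    by_contra hcon
    push Not at hcon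
    have h5 := g4.2.2.2.2.1 s t hst
    have h6 : p.1 '' Icc s t ⊆ {p.1 s} := by
      rintro _ ⟨u, hu, rfl⟩
      exact hcon u hu
    have h7 := dimH_mono h6
    rw [h5, dimH_singleton] at h7
    have h8 : (7 / 4 : ℝ≥0∞) ≠ 0 := by
      rw [ne_eq, ENNReal.div_eq_zero_iff]
      norm_num
    exact h8 (le_antisymm h7 zero_le)

theorem t_ALLT : S_ALLT := by
  intro hit axi R δ hδ hlim μ hμ
  filter_upwards [fin_rect hit axi R hδ hlim hμ] with p hp s t hst w z hz hzf ρ hρ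
  have h := hp s t hst R.D (Pool.Agent.TH990.FU.D_open R) w z hz hz hzf ρ hρ
  rwa [Set.inter_self] at h

end Run7.h165.EC
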