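import Mathlib

/-! # Components of the complement of a compact set and of a part of it -/

set_option autoImplicit false

namespace Run7.h165.EC

open Set Filter Topology Metric TopologicalSpace

/-- `L` is a part of `K`, and `K` does not meet the component at `w` of the complement of `L`. -/
def Rel (K L : Set ℂ) (w : ℂ) : Prop := L ⊆ K ∧ ∀ p ∈ K, p ∉ connectedComponentIn Lᶜ w

theorem rel_comp {K L : Set ℂ} {w : ℂ} (h : Rel K L w) (hw : w ∉ K) :
    connectedComponentIn Kᶜ w = connectedComponentIn Lᶜ w := by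
  apply Set.Subset.antisymm
  · exact connectedComponentIn_mono w (Set.compl_subset_compl.2 h.1)
  · apply isPreconnected_connectedComponentIn.subset_connectedComponentIn
    · exact mem_connectedComponentIn (fun hwL => hw (h.1 hwL))
    · intro p hp hpK
      exact h.2 p hpK hp

theorem rel_of_front {K L : Set ℂ} (hK : IsClosed K) {w : ℂ} (hw : w ∉ K) (hL : L ⊆ K)
    (hf : frontier (connectedComponentIn Kᶜ w) ⊆ L) : Rel K L w := by
  refine ⟨hL, fun p hp hpC => ?_⟩
  have hVo : IsOpen (connectedComponentIn Kᶜ w) := hK.isOpen_compl.connectedComponentIn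
  have hWV : connectedComponentIn Lᶜ w ⊆ connectedComponentIn Kᶜ w := by
    have h1 : connectedComponentIn Lᶜ w ⊆
        connectedComponentIn Kᶜ w ∪ (closure (connectedComponentIn Kᶜ w))ᶜ := by
      intro z hz
      by_cases h : z ∈ connectedComponentIn Kᶜ w
      · exact Or.inl h
      right
      intro h2
      exact connectedComponentIn_subset _ _ hz (hf ⟨h2, by rwa [hVo.interior_eq]⟩)
    refine isPreconnected_connectedComponentIn.subset_left_of_subset_union hVo
      isClosed_closure.isOpen_compl ?_ h1 ⟨w, mem_connectedComponentIn (fun h => hw (hL h)),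
        mem_connectedComponentIn hw⟩
    rw [Set.disjoint_left]
    intro z hz hz2
    exact hz2 (subset_closure hz)
  exact connectedComponentIn_subset _ _ (hWV hpC) hp

theorem nc_near {X : Type*} [MetricSpace X] {K L : NonemptyCompacts X} {η : ℝ}
    (h : dist K L < η) : ∀ a ∈ (K : Set X), ∃ b ∈ (L : Set X), dist a b < η := by
  intro a ha
  rw [Metric.NonemptyCompacts.dist_eq] at h
  exact Metric.exists_dist_lt_of_hausdorffDist_lt ha h
    (Metric.hausdorffEDist_ne_top_of_nonempty_of_bounded K.nonempty L.nonempty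
      K.isCompact.isBounded L.isCompact.isBounded)

theorem rel_closed (w : ℂ) : IsClosed {x : NonemptyCompacts ℂ × NonemptyCompacts ℂ |
    w ∈ (x.1 : Set ℂ) ∨ Rel x.1 x.2 w} := by
  apply IsSeqClosed.isClosed
  intro x y hx hlim
  by_contra hcon
  simp only [Set.mem_ofPred_eq, not_or] at hcon
  obtain ⟨hw, hR⟩ := hcon
  apply hR
  have h1 : Tendsto (fun i => (x i).1) atTop (𝓝 y.1) :=
    (continuous_fst.tendsto y).comp hlim
  have h2 : Tendsto (fun i => (x i).2) atTop (𝓝 y.2) :=
    (continuous_snd.tendsto y).comp hlim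
  have e1 : ∀ η : ℝ, 0 < η → ∀ᶠ i in atTop, dist (x i).1 y.1 < η := fun η hη =>
    (Metric.tendsto_nhds.1 h1) η hη
  have e2 : ∀ η : ℝ, 0 < η → ∀ᶠ i in atTop, dist (x i).2 y.2 < η := fun η hη =>
    (Metric.tendsto_nhds.1 h2) η hη
  have hKcl : IsClosed (y.1 : Set ℂ) := y.1.isCompact.isClosed
  have hLcl : IsClosed (y.2 : Set ℂ) := y.2.isCompact.isClosed
  -- `w` is not in the sets of the sequence
  have hRi : ∀ᶠ i in atTop, Rel ((x i).1 : Set ℂ) ((x i).2 : Set ℂ) w := by
    obtain ⟨δ, hδ, hball⟩ := Metric.isOpen_iff.1 hKcl.isOpen_compl w hw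
    filter_upwards [e1 δ hδ] with i hi
    rcases hx i with h | h
    · exfalso
      obtain ⟨b, hb, hd⟩ := nc_near hi w h
      exact hball (by rwa [mem_ball, dist_comm]) hb
    · exact h
  constructor
  · intro l hl
    by_contra hlK
    obtain ⟨δ, hδ, hball⟩ := Metric.isOpen_iff.1 hKcl.isOpen_compl l hlK
    obtain ⟨i, h3, h4, h5⟩ := (hRi.and ((e1 (δ / 2) (by positivity)).and
      (e2 (δ / 2) (by positivity)))).exists
    obtain ⟨l', hl', hd⟩ := nc_near (by rwa [dist_comm] : dist y.2 (x i).2 < δ / 2) l hl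
    obtain ⟨k, hk, hd2⟩ := nc_near h4 l' (h3.1 hl')
    refine hball ?_ hk
    rw [mem_ball, dist_comm]
    have := dist_triangle l l' k
    linarith
  · intro p hp hpC
    have hCo : IsOpen (connectedComponentIn (y.2 : Set ℂ)ᶜ w) :=
      hLcl.isOpen_compl.connectedComponentIn
    have hwL : w ∈ (y.2 : Set ℂ)ᶜ := by
      by_contra hcon2
      rw [connectedComponentIn_eq_empty hcon2] at hpC
      exact hpC
    have hwC : w ∈ connectedComponentIn (y.2 : Set ℂ)ᶜ w := mem_connectedComponentIn hwL
    have hpath : IsPathConnected (connectedComponentIn (y.2 : Set ℂ)ᶜ w) :=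
      (hCo.isConnected_iff_isPathConnected).1 ⟨⟨w, hwC⟩, isPreconnected_connectedComponentIn⟩
    obtain ⟨γ, hγ⟩ := hpath.joinedIn w hwC p hpC
    have hT : IsCompact (range γ) := isCompact_range γ.continuous
    have hTc : IsPreconnected (range γ) := isPreconnected_range γ.continuous
    have hTL : range γ ⊆ (y.2 : Set ℂ)ᶜ := by
      rintro _ ⟨t, rfl⟩
      exact connectedComponentIn_subset _ _ (hγ t)
    obtain ⟨δ, hδ, hth⟩ := hT.exists_thickening_subset_open hLcl.isOpen_compl hTL
    obtain ⟨i, h3, h4, h5⟩ := (hRi.and ((e1 (δ / 2) (by positivity)).and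
      (e2 (δ / 2) (by positivity)))).exists
    obtain ⟨p', hp', hd⟩ := nc_near (by rwa [dist_comm] : dist y.1 (x i).1 < δ / 2) p hp
    have hpT : p ∈ range γ := ⟨1, γ.target⟩
    have hwT : w ∈ range γ := ⟨0, γ.source⟩
    have hfar : ∀ l ∈ ((x i).2 : Set ℂ), ∀ t ∈ range γ, δ / 2 ≤ dist l t := by
      intro l hl t ht
      by_contra hlt
      push Not at hlt
      obtain ⟨b, hb, hd2⟩ := nc_near h5 l hl
      refine hth ?_ hb
      rw [Metric.mem_thickening_iff]
      refine ⟨t, ht, ?_⟩
      have := dist_triangle b l t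
      rw [dist_comm b l] at this
      linarith
    have hS : IsPreconnected (range γ ∪ ball p (δ / 2)) :=
      IsPreconnected.union p hpT (mem_ball_self (by positivity)) hTc
        (convex_ball p (δ / 2)).isPreconnected
    have hSL : range γ ∪ ball p (δ / 2) ⊆ ((x i).2 : Set ℂ)ᶜ := by
      rintro z (hz | hz) hzL
      · have := hfar z hzL z hz
        rw [dist_self] at this
        linarith
      · have := hfar z hzL p hpT
        rw [mem_ball] at hz
        linarith
    refine h3.2 p' hp' (hS.subset_connectedComponentIn (Or.inl hwT) hSL (Or.inr ?_))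
    rw [mem_ball, dist_comm]
    exact hd

end Run7.h165.EC
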