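import Pool.Agent.H342R3.Tig.PRK
import Pool.Agent.Run7.h165.EC.Hol2

/-! # Joint limits -/

set_option autoImplicit false

namespace Run7.h165.EC

open H342T H342L H342P H342P.Plain MeasureTheory Set Filter Topology Metric TopologicalSpace
open scoped ENNReal NNReal

/-- The outer measure of a set under a projection is at most that of its preimage (for tight
measures). -/
theorem map_fst_le {X Y : Type} [TopologicalSpace X] [T2Space X] [MeasurableSpace X]
    [BorelSpace X] [TopologicalSpace Y] [MeasurableSpace Y] [BorelSpace Y]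
    [PseudoMetrizableSpace (X × Y)] [BorelSpace (X × Y)] (π : Measure (X × Y)) [IsFiniteMeasure π]
    (ht : ∀ ε : ℝ, 0 < ε → ∃ K : Set (X × Y), IsCompact K ∧ π Kᶜ ≤ ENNReal.ofReal ε)
    (B : Set X) : (π.map Prod.fst) B ≤ π (Prod.fst ⁻¹' B) := by
  apply ENNReal.le_of_forall_pos_le_add
  intro ε hε _
  set Z := toMeasurable π (Prod.fst ⁻¹' B) with hZ
  have hZm : MeasurableSet Z := measurableSet_toMeasurable _ _
  have hε2 : (0 : ℝ) < ε / 2 := by positivity
  obtain ⟨K, hK, hKε⟩ := ht (ε / 2) hε2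
  obtain ⟨C, hCZ, hC, hCε⟩ := hZm.compl.exists_isClosed_sdiff_lt (μ := π)
    (measure_ne_top _ _) (ε := ENNReal.ofReal (ε / 2)) (by
      rw [Ne, ENNReal.ofReal_eq_zero]
      push Not
      exact hε2)
  set Q := K ∩ C with hQ
  have hQc : IsCompact Q := hK.inter_right hC
  have hQ1 : IsClosed (Prod.fst '' Q) := (hQc.image continuous_fst).isClosed
  have h1 : B ⊆ (Prod.fst '' Q)ᶜ := by
    rintro x hx ⟨q, hq, rfl⟩
    exact hCZ hq.2 (subset_toMeasurable _ _ hx)
  have h2 : Prod.fst ⁻¹' (Prod.fst '' Q)ᶜ ⊆ Kᶜ ∪ (Z ∪ Zᶜ \ C) := by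
    intro q hq
    by_cases h3 : q ∈ K
    · right
      by_cases h4 : q ∈ Z
      · exact Or.inl h4
      · refine Or.inr ⟨h4, fun h5 => hq ⟨q, ⟨h3, h5⟩, rfl⟩⟩
    · exact Or.inl h3
  have e : ENNReal.ofReal (ε / 2) + ENNReal.ofReal (ε / 2) = (ε : ℝ≥0∞) := by
    rw [← ENNReal.ofReal_add hε2.le hε2.le, add_halves, ENNReal.ofReal_coe_nnreal]
  calc (π.map Prod.fst) B ≤ (π.map Prod.fst) (Prod.fst '' Q)ᶜ := measure_mono h1
    _ = π (Prod.fst ⁻¹' (Prod.fst '' Q)ᶜ) :=
        Measure.map_apply measurable_fst hQ1.measurableSet.compl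
    _ ≤ π (Kᶜ ∪ (Z ∪ Zᶜ \ C)) := measure_mono h2
    _ ≤ π Kᶜ + (π Z + π (Zᶜ \ C)) :=
        (measure_union_le _ _).trans (add_le_add le_rfl (measure_union_le _ _))
    _ ≤ ENNReal.ofReal (ε / 2) + (π (Prod.fst ⁻¹' B) + ENNReal.ofReal (ε / 2)) := by
        rw [hZ, measure_toMeasurable]
        exact add_le_add hKε (add_le_add le_rfl hCε.le)
    _ = π (Prod.fst ⁻¹' B) + ε := by
        rw [← e]
        ring

/-- Joint limits. -/
theorem joint {X Y : Type} [MetricSpace X] [SeparableSpace X] [MeasurableSpace X] [BorelSpace X]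
    [PseudoMetricSpace Y] [SeparableSpace Y] [MeasurableSpace Y] [BorelSpace Y]
    (f : (n : ℕ) → Finset Edge → X) (g : (n : ℕ) → Finset Edge → Y)
    (hf : ∀ ε : ℝ, 0 < ε → ∃ K : Set X, IsCompact K ∧
      ∀ n, 0 < n → (lawOf n (f n) : Measure X) Kᶜ ≤ ENNReal.ofReal ε)
    (hg : ∀ ε : ℝ, 0 < ε → ∃ K : Set Y, IsCompact K ∧ IsClosed K ∧
      ∀ n, 0 < n → (lawOf n (g n) : Measure Y) Kᶜ ≤ ENNReal.ofReal ε)
    {k : ℕ → ℕ} (hk : Tendsto k atTop atTop) {μ : ProbabilityMeasure X}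
    (hμ : Tendsto (fun i => lawOf (k i) (f (k i))) atTop (𝓝 μ)) :
    ∃ (φ : ℕ → ℕ) (π : ProbabilityMeasure (X × Y)), StrictMono φ ∧
      Tendsto (fun i => lawOf (k (φ i)) (fun F => (f (k (φ i)) F, g (k (φ i)) F))) atTop (𝓝 π) ∧
      (π : Measure (X × Y)).map Prod.fst = (μ : Measure X) ∧
      ∀ ε : ℝ, 0 < ε → ∃ K : Set (X × Y), IsCompact K ∧
        (π : Measure (X × Y)) Kᶜ ≤ ENNReal.ofReal ε := by
  have hK : ∀ ε : ℝ, 0 < ε → ∃ K : Set (X × Y), IsCompact K ∧ IsClosed K ∧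
      ∀ n, 0 < n → (lawOf n (fun F => (f n F, g n F)) : Measure (X × Y)) Kᶜ ≤
        ENNReal.ofReal ε := by
    intro ε hε
    obtain ⟨K1, hK1, h1⟩ := hf (ε / 2) (by positivity)
    obtain ⟨K2, hK2, hK2', h2⟩ := hg (ε / 2) (by positivity)
    refine ⟨K1 ×ˢ K2, hK1.prod hK2, hK1.isClosed.prod hK2', fun n hn => ?_⟩
    have hsub : (K1 ×ˢ K2)ᶜ ⊆ (Prod.fst ⁻¹' K1ᶜ : Set (X × Y)) ∪ (Prod.snd ⁻¹' K2ᶜ) := by
      intro x hx
      by_contra hcon
      simp only [Set.mem_union, Set.mem_preimage, Set.mem_compl_iff, not_or, not_not] at hcon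
      exact hx hcon
    have e1 : (lawOf n (fun F => (f n F, g n F)) : Measure (X × Y)) (Prod.fst ⁻¹' K1ᶜ) =
        (lawOf n (f n) : Measure X) K1ᶜ := by
      rw [lawOf_apply _ _ (measurable_fst hK1.isClosed.measurableSet.compl),
        lawOf_apply _ _ hK1.isClosed.measurableSet.compl]
      rfl
    have e2 : (lawOf n (fun F => (f n F, g n F)) : Measure (X × Y)) (Prod.snd ⁻¹' K2ᶜ) =
        (lawOf n (g n) : Measure Y) K2ᶜ := by
      rw [lawOf_apply _ _ (measurable_snd hK2'.measurableSet.compl),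
        lawOf_apply _ _ hK2'.measurableSet.compl]
      rfl
    refine (measure_mono hsub).trans ((measure_union_le _ _).trans ?_)
    rw [e1, e2]
    refine (add_le_add (h1 n hn) (h2 n hn)).trans (le_of_eq ?_)
    rw [← ENNReal.ofReal_add (by positivity) (by positivity), add_halves]
  obtain ⟨N, hN⟩ := (tendsto_atTop.mp hk 1).exists_forall_of_atTop
  obtain ⟨φ, π, hφ, hlim⟩ := PRK_gen
    (fun i => lawOf (k (i + N)) (fun F => (f (k (i + N)) F, g (k (i + N)) F))) (by
      intro ε hε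
      obtain ⟨K, h1, _, h3⟩ := hK ε hε
      exact ⟨K, h1, fun i => h3 _ (hN (i + N) (by omega))⟩)
  have hφ' : StrictMono (fun i => φ i + N) := fun i j hij => by
    have := hφ hij
    simp only
    omega
  refine ⟨fun i => φ i + N, π, hφ', hlim, ?_, ?_⟩
  · have h1 : Tendsto (fun i => lawOf (k (φ i + N)) (f (k (φ i + N)))) atTop
        (𝓝 (π.map measurable_fst.aemeasurable)) := by
      have h2 := ProbabilityMeasure.tendsto_map_of_tendsto_of_continuous _ _ hlim continuous_fst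
      have h5 : ∀ n, (lawOf n (fun F => (f n F, g n F))).map
          (measurable_fst (α := X) (β := Y)).aemeasurable = lawOf n (f n) := fun n =>
        lawOf_map n (fun F => (f n F, g n F)) measurable_fst
      refine h2.congr fun i => ?_
      exact h5 (k (φ i + N))
    have h3 : Tendsto (fun i => lawOf (k (φ i + N)) (f (k (φ i + N)))) atTop (𝓝 μ) :=
      hμ.comp hφ'.tendsto_atTop
    have h4 := tendsto_nhds_unique h1 h3
    rw [← h4]
    rfl
  · intro ε hε
    obtain ⟨K, h1, h2, h3⟩ := hK ε hε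
    refine ⟨K, h1, ?_⟩
    have h4 := ProbabilityMeasure.le_liminf_measure_open_of_tendsto hlim h2.isOpen_compl
    refine h4.trans (liminf_le_of_frequently_le' (Frequently.of_forall fun i => ?_))
    exact h3 _ (hN (φ i + N) (by omega))

end Run7.h165.EC
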