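import Pool.Agent.Run7.h561.EC.StmF
import Pool.Agent.TH990.FU.Cov

/-! # ALLT: all the pieces of the curve, from the full trace (deterministic part) -/

set_option autoImplicit false

namespace Run7.h165.EC

open Set Filter Topology Metric
open Run7.h561.EC
open scoped ENNReal NNReal

/-- The points which a curve visits at least twice. -/
def dbl (f : C(unitInterval, ℂ)) : Set ℂ :=
  {z | ∃ s t : unitInterval, s < t ∧ f s = z ∧ f t = z}

/-! ### Topology -/

theorem meets_frontier {W S : Set ℂ} (hW : IsOpen W) (hS : IsPreconnected S)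
    (h1 : ∃ y ∈ S, y ∈ W) (h2 : ∃ y ∈ S, y ∉ W) : ∃ y ∈ S, y ∈ frontier W := by
  by_contra hcon
  push Not at hcon
  have h3 : S ⊆ W ∪ (closure W)ᶜ := by
    intro y hy
    by_cases hyW : y ∈ W
    · exact Or.inl hyW
    · right
      intro hc
      apply hcon y hy
      rw [frontier, hW.interior_eq]
      exact ⟨hc, hyW⟩
  obtain ⟨a, haS, haW⟩ := h1
  obtain ⟨b, hbS, hbW⟩ := h2
  have hb : b ∈ (closure W)ᶜ := (h3 hbS).resolve_left hbW
  obtain ⟨c, -, hc1, hc2⟩ := hS W (closure W)ᶜ hW isClosed_closure.isOpen_compl h3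
    ⟨a, haS, haW⟩ ⟨b, hbS, hb⟩
  exact hc2 (subset_closure hc1)

/-- The boundary of a component of the complement of `K` in `D` is, in `D`, contained in `K`. -/
theorem frontier_comp {D K : Set ℂ} (hD : IsOpen D) (hK : IsClosed K) {w z : ℂ}
    (hz : z ∈ frontier (connectedComponentIn (D \ K) w)) (hzD : z ∈ D) :
    z ∈ K ∧ z ∈ closure (connectedComponentIn (D \ K) w) ∧
      z ∉ connectedComponentIn (D \ K) w := by
  have hO : IsOpen (D \ K) := hD.sdiff hK
  have hW : IsOpen (connectedComponentIn (D \ K) w) := hO.connectedComponentIn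
  rw [frontier, hW.interior_eq] at hz
  refine ⟨?_, hz.1, hz.2⟩
  by_contra hzK
  have h1 : z ∈ connectedComponentIn (D \ K) z := mem_connectedComponentIn ⟨hzD, hzK⟩
  obtain ⟨y, hy1, hy2⟩ := mem_closure_iff.1 hz.1 _ hO.connectedComponentIn h1
  apply hz.2
  rw [connectedComponentIn_eq hy2, ← connectedComponentIn_eq hy1]
  exact h1

/-- Circles which do not meet a set of dimension less than one. -/
theorem exists_radius {S : Set ℂ} {z : ℂ} (hS : dimH S < 1) {r0 : ℝ} (hr0 : 0 < r0) :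
    ∃ r, 0 < r ∧ r < r0 ∧ ∀ y ∈ S, dist y z ≠ r := by
  by_contra hcon
  push Not at hcon
  have h1 : Ioo 0 r0 ⊆ (fun y => dist y z) '' S := by
    intro r hr
    obtain ⟨y, hy, hy2⟩ := hcon r hr.1 hr.2
    exact ⟨y, hy, hy2⟩
  have h2 : dimH (Ioo 0 r0) = 1 := by
    rw [Real.dimH_of_nonempty_interior]
    · simp
    · rw [interior_Ioo]
      exact nonempty_Ioo.2 hr0
  have h3 : LipschitzWith 1 (fun y : ℂ => dist y z) := LipschitzWith.dist_left z
  have h4 := (dimH_mono h1).trans (h3.dimH_image_le S)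
  rw [h2] at h4
  exact absurd h4 (not_le.2 hS)

/-- A set of dimension less than one is not, locally, the boundary of a component of the complement
of a nondegenerate continuum. -/
theorem big_frontier {W K : Set ℂ} (hW : IsOpen W) (hWc : IsPreconnected W)
    (hK : IsPreconnected K) (hWK : Disjoint W K) {z : ℂ} (hzW : z ∈ closure W) (hzK : z ∈ K)
    (hK2 : ∃ y ∈ K, y ≠ z) {ρ : ℝ} (hρ : 0 < ρ) : ¬ dimH (frontier W ∩ ball z ρ) < 1 := by
  intro hdim
  obtain ⟨y, hyK, hyz⟩ := hK2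
  obtain ⟨x0, hx0⟩ : W.Nonempty := closure_nonempty_iff.1 ⟨z, hzW⟩
  have hzW' : z ∉ W := fun h => Set.disjoint_left.1 hWK h hzK
  have hxz : x0 ≠ z := fun h => hzW' (h ▸ hx0)
  obtain ⟨r, hr0, hr1, hr2⟩ := exists_radius (z := z) hdim
    (lt_min hρ (lt_min (dist_pos.2 hyz) (dist_pos.2 hxz)))
  have hrρ : r < ρ := hr1.trans_le (min_le_left _ _)
  have hry : r < dist y z := hr1.trans_le ((min_le_right _ _).trans (min_le_left _ _))
  have hrx : r < dist x0 z := hr1.trans_le ((min_le_right _ _).trans (min_le_right _ _))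
  have hcirc : ∀ c ∈ sphere z r, c ∉ frontier W := by
    intro c hc hcW
    rw [mem_sphere] at hc
    refine hr2 c ⟨hcW, ?_⟩ hc
    rw [mem_ball, hc]
    exact hrρ
  -- a connected set with points inside and outside of the circle meets it
  have cross : ∀ S : Set ℂ, IsPreconnected S → (∃ a ∈ S, dist a z < r) →
      (∃ b ∈ S, r < dist b z) → ∃ c ∈ S, c ∈ sphere z r := by
    rintro S hS ⟨a, ha, har⟩ ⟨b, hb, hbr⟩
    have h1 := hS.intermediate_value ha hb (f := fun c => dist c z) (by fun_prop)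
    obtain ⟨c, hc, hc2⟩ := h1 ⟨har.le, hbr.le⟩
    exact ⟨c, hc, hc2⟩
  obtain ⟨a, haW, haz⟩ := Metric.mem_closure_iff.1 hzW r hr0
  rw [dist_comm] at haz
  obtain ⟨c, hcW, hcr⟩ := cross W hWc ⟨a, haW, haz⟩ ⟨x0, hx0, hrx⟩
  have hsph : IsPreconnected (sphere z r) := by
    have h2 : 1 < Module.rank ℝ ℂ := by
      rw [Complex.rank_real_complex]
      norm_num
    exact isPreconnected_sphere h2 z r
  have hsub : ∀ c ∈ sphere z r, c ∈ W := by
    intro c' hc'
    by_contra hc'W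
    obtain ⟨c'', h3, h4⟩ := meets_frontier hW hsph ⟨c, hcr, hcW⟩ ⟨c', hc', hc'W⟩
    exact hcirc _ h3 h4
  obtain ⟨k, hk1, hk2⟩ := cross K hK ⟨z, hzK, by rw [dist_self]; exact hr0⟩ ⟨y, hyK, hry⟩
  exact Set.disjoint_left.1 hWK (hsub k hk2) hk1

/-! ### The pieces of a curve -/

/-- The other part of the trace. -/
def rest (f : C(unitInterval, ℂ)) (s t : unitInterval) : Set ℂ := f '' Icc 0 s ∪ f '' Icc t 1

theorem isClosed_piece (f : C(unitInterval, ℂ)) (s t : unitInterval) :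
    IsClosed (f '' Icc s t) := (isCompact_Icc.image f.continuous).isClosed

theorem isClosed_rest (f : C(unitInterval, ℂ)) (s t : unitInterval) : IsClosed (rest f s t) :=
  (isClosed_piece f 0 s).union (isClosed_piece f t 1)

theorem range_sub (f : C(unitInterval, ℂ)) (s t : unitInterval) {z : ℂ} (hz : z ∈ range f) :
    z ∈ f '' Icc s t ∨ z ∈ rest f s t := by
  obtain ⟨u, rfl⟩ := hz
  rcases le_total u s with h1 | h1
  · exact Or.inr (Or.inl ⟨u, ⟨unitInterval.nonneg', h1⟩, rfl⟩)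
  · rcases le_total u t with h2 | h2
    · exact Or.inl ⟨u, ⟨h1, h2⟩, rfl⟩
    · exact Or.inr (Or.inr ⟨u, ⟨h2, unitInterval.le_one'⟩, rfl⟩)

theorem rest_sub_range (f : C(unitInterval, ℂ)) (s t : unitInterval) :
    rest f s t ⊆ range f := by
  rintro z (⟨u, -, rfl⟩ | ⟨u, -, rfl⟩)
  · exact ⟨u, rfl⟩
  · exact ⟨u, rfl⟩

theorem piece_inter_rest (f : C(unitInterval, ℂ)) (s t : unitInterval) :
    f '' Icc s t ∩ rest f s t ⊆ dbl f ∪ {f s, f t} := by
  rintro z ⟨⟨u, hu, rfl⟩, hz⟩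
  by_cases hus : u = s
  · right; left; rw [hus]
  by_cases hut : u = t
  · right; right; rw [hut]; rfl
  left
  rcases hz with ⟨v, hv, hvz⟩ | ⟨v, hv, hvz⟩
  · exact ⟨v, u, lt_of_le_of_lt hv.2 (lt_of_le_of_ne hu.1 (Ne.symm hus)), hvz, rfl⟩
  · exact ⟨u, v, lt_of_lt_of_le (lt_of_le_of_ne hu.2 hut) hv.1, rfl, hvz⟩

theorem dim_inter_rest {D : Set ℂ} {f : C(unitInterval, ℂ)} (h2 : dimH (dbl f ∩ D) ≤ 3 / 4)
    (s t : unitInterval) : dimH (f '' Icc s t ∩ rest f s t ∩ D) ≤ 3 / 4 := by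
  have h3 : f '' Icc s t ∩ rest f s t ∩ D ⊆ (dbl f ∩ D) ∪ {f s, f t} := by
    rintro z ⟨hz, hzD⟩
    rcases piece_inter_rest f s t hz with h | h
    · exact Or.inl ⟨h, hzD⟩
    · exact Or.inr h
  refine (dimH_mono h3).trans ?_
  rw [dimH_union]
  refine max_le h2 ?_
  rw [Set.Finite.dimH_zero (Set.toFinite _)]
  exact zero_le

theorem piece_ne {f : C(unitInterval, ℂ)}
    (h4 : ∀ s t : unitInterval, s < t → ∃ u ∈ Icc s t, f u ≠ f s) {s t : unitInterval}
    (hst : s < t) (z : ℂ) : ∃ y ∈ f '' Icc s t, y ≠ z := by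
  obtain ⟨u, hu, hus⟩ := h4 s t hst
  by_cases h : f s = z
  · exact ⟨f u, ⟨u, hu, rfl⟩, fun h' => hus (h'.trans h.symm)⟩
  · exact ⟨f s, ⟨s, ⟨le_rfl, hst.le⟩, rfl⟩, h⟩

/-! ### The lower bound -/

/-- The square is small. -/
theorem Sq_sub {r : ℝ} {w y : ℂ} (hy : y ∈ Sq r w) : dist y w < 2 * r := by
  have h1 : dist y w ≤ |y.re - w.re| + |y.im - w.im| := by
    rw [Complex.dist_eq]
    have := Complex.norm_le_abs_re_add_abs_im (y - w)
    rwa [Complex.sub_re, Complex.sub_im] at this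
  obtain ⟨h2, h3⟩ := hy
  linarith

theorem static {D : Set ℂ} (hD : IsOpen D) {f : C(unitInterval, ℂ)}
    (h1 : ∀ (a b H η : ℚ) (d : ℤ × ℤ), Dir d → 0 < H → 0 < η → Sq (5 * (H : ℝ)) ⟨a, b⟩ ⊆ D →
      f ∈ EvO d H η ⟨a, b⟩ → 4 / 3 ≤ dimH (Lb (Sq (4 * (H : ℝ)) ⟨a, b⟩) (range f) ⟨a, b⟩))
    (h4 : ∀ s t : unitInterval, s < t → ∃ u ∈ Icc s t, f u ≠ f s) (axi : S_AXI)
    {s t : unitInterval} {w z : ℂ} (hz : z ∈ D) (hzf : z ∈ frontier (CompD D f s t w))
    (hzL : z ∉ rest f s t) {ρ : ℝ} (hρ : 0 < ρ) :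
    4 / 3 ≤ dimH (frontier (CompD D f s t w) ∩ (D ∩ ball z ρ)) := by
  set K : Set ℂ := f '' Icc s t with hK
  set L : Set ℂ := rest f s t with hL
  have hKc : IsClosed K := isClosed_piece f s t
  have hLc : IsClosed L := isClosed_rest f s t
  set W : Set ℂ := CompD D f s t w with hW
  have hWdef : W = connectedComponentIn (D \ K) w := rfl
  have hWo : IsOpen W := (hD.sdiff hKc).connectedComponentIn
  have hWsub : W ⊆ D \ K := connectedComponentIn_subset _ _
  obtain ⟨hzK, hzcl, hzW⟩ := frontier_comp hD hKc hzf hz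
  -- a ball
  have hO : IsOpen ((D \ L) ∩ ball z ρ) := (hD.sdiff hLc).inter isOpen_ball
  obtain ⟨r1, hr1, hball⟩ := Metric.isOpen_iff.1 hO z ⟨⟨hz, hzL⟩, mem_ball_self hρ⟩
  obtain ⟨x, hxW, hxz⟩ := Metric.mem_closure_iff.1 hzcl r1 hr1
  rw [dist_comm] at hxz
  have hxB : x ∈ ball z r1 := hxz
  have hxR : x ∈ D \ range f := by
    refine ⟨(hWsub hxW).1, fun hx => ?_⟩
    rcases range_sub f s t hx with h | h
    · exact (hWsub hxW).2 h
    · exact (hball hxB).1.2 h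
  have hRc : IsClosed (range f) := (isCompact_range f.continuous).isClosed
  set W1 : Set ℂ := connectedComponentIn (D \ range f) x with hW1
  have hW1o : IsOpen W1 := (hD.sdiff hRc).connectedComponentIn
  have hKsub : K ⊆ range f := by
    rintro _ ⟨u, -, rfl⟩
    exact ⟨u, rfl⟩
  have hW1W : W1 ⊆ W := by
    have h5 : W1 ⊆ connectedComponentIn (D \ K) x :=
      connectedComponentIn_mono x (Set.sdiff_subset_sdiff_right hKsub)
    have h6 : connectedComponentIn (D \ K) w = connectedComponentIn (D \ K) x :=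
      connectedComponentIn_eq hxW
    rw [hWdef, h6]
    exact h5
  obtain ⟨z2, hz2B, hz2F⟩ := meets_frontier hW1o (convex_ball z r1).isPreconnected
    ⟨x, hxB, mem_connectedComponentIn hxR⟩ ⟨z, mem_ball_self hr1, fun h => hzW (hW1W h)⟩
  obtain ⟨hz2R, hz2cl, -⟩ := frontier_comp hD hRc hz2F (hball hz2B).1.1
  obtain ⟨τ, hτ⟩ := hz2R
  -- a small radius
  obtain ⟨r2, hr2, hr2B⟩ := Metric.isOpen_iff.1 (isOpen_ball (x := z) (ε := r1)) z2 hz2B
  obtain ⟨a, b, H, η, d, hd, hH, hHr, hη, hdist, hmem, hEv⟩ := axi f D x τ (r2 / 20) hD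
    (hτ ▸ (hball hz2B).1.1) (by positivity) (hτ ▸ hz2cl) h4
  have hsq : ∀ c : ℝ, c ≤ 5 * H → ∀ y ∈ Sq c (⟨a, b⟩ : ℂ), y ∈ ball z r1 := by
    intro c hc y hy
    apply hr2B
    rw [mem_ball]
    have h5 := Sq_sub hy
    have h6 := dist_triangle y (⟨a, b⟩ : ℂ) z2
    rw [← hτ] at h6 ⊢
    linarith
  have hH' : (0 : ℝ) < H := by exact_mod_cast hH
  have h7 := h1 a b H η d hd hH hη (fun y hy => (hball (hsq _ le_rfl y hy)).1.1) hEv
  refine h7.trans (dimH_mono ?_)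
  rintro y ⟨hyR, hycl⟩
  have hyB : y ∈ ball z r1 := by
    apply hr2B
    have h8 : closure (connectedComponentIn (Sq (4 * (H : ℝ)) ⟨a, b⟩ \ range f) ⟨a, b⟩) ⊆
        closedBall (⟨a, b⟩ : ℂ) (8 * H) := by
      apply closure_minimal _ isClosed_closedBall
      intro y' hy'
      have h9 := Sq_sub ((connectedComponentIn_subset _ _) hy').1
      rw [mem_closedBall]
      linarith
    have h9 := h8 hycl
    rw [mem_closedBall] at h9
    rw [mem_ball]
    have h6 := dist_triangle y (⟨a, b⟩ : ℂ) z2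
    rw [← hτ] at h6 ⊢
    linarith
  have hyD := (hball hyB).1.1
  have hyL := (hball hyB).1.2
  have hyρ := (hball hyB).2
  have hyK : y ∈ K := (range_sub f s t hyR).resolve_right hyL
  have hcc : connectedComponentIn (Sq (4 * (H : ℝ)) ⟨a, b⟩ \ range f) ⟨a, b⟩ ⊆ W := by
    have h8 : connectedComponentIn (Sq (4 * (H : ℝ)) ⟨a, b⟩ \ range f) ⟨a, b⟩ ⊆
        connectedComponentIn (D \ range f) ⟨a, b⟩ :=
      connectedComponentIn_mono _ (Set.sdiff_subset_sdiff_left fun y hy =>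
        (hball (hsq _ (by linarith) y hy)).1.1)
    have h9 : W1 = connectedComponentIn (D \ range f) ⟨a, b⟩ := connectedComponentIn_eq hmem
    exact (h8.trans h9.symm.subset).trans hW1W
  refine ⟨?_, hyD, hyρ⟩
  rw [frontier, hWo.interior_eq]
  exact ⟨closure_mono hcc hycl, fun h => (hWsub h).2 hyK⟩

theorem lower {D : Set ℂ} (hD : IsOpen D) {f : C(unitInterval, ℂ)}
    (h1 : ∀ (a b H η : ℚ) (d : ℤ × ℤ), Dir d → 0 < H → 0 < η → Sq (5 * (H : ℝ)) ⟨a, b⟩ ⊆ D →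
      f ∈ EvO d H η ⟨a, b⟩ → 4 / 3 ≤ dimH (Lb (Sq (4 * (H : ℝ)) ⟨a, b⟩) (range f) ⟨a, b⟩))
    (h2 : dimH (dbl f ∩ D) ≤ 3 / 4)
    (h4 : ∀ s t : unitInterval, s < t → ∃ u ∈ Icc s t, f u ≠ f s) (axi : S_AXI)
    {s t : unitInterval} (hst : s < t) {w z : ℂ} (hz : z ∈ D)
    (hzf : z ∈ frontier (CompD D f s t w)) {ρ : ℝ} (hρ : 0 < ρ) :
    4 / 3 ≤ dimH (frontier (CompD D f s t w) ∩ (D ∩ ball z ρ)) := by
  set K : Set ℂ := f '' Icc s t with hK
  have hKc : IsClosed K := isClosed_piece f s t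
  have hWo : IsOpen (CompD D f s t w) := (hD.sdiff hKc).connectedComponentIn
  obtain ⟨hzK, hzcl, hzW⟩ := frontier_comp hD hKc hzf hz
  obtain ⟨r1, hr1, hball⟩ := Metric.isOpen_iff.1 (hD.inter (isOpen_ball (x := z) (ε := ρ))) z
    ⟨hz, mem_ball_self hρ⟩
  have h5 : ¬ dimH (frontier (CompD D f s t w) ∩ ball z r1) < 1 := by
    refine big_frontier hWo isPreconnected_connectedComponentIn
      (isPreconnected_Icc.image f f.continuous.continuousOn) ?_ hzcl hzK (piece_ne h4 hst z) hr1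
    rw [Set.disjoint_left]
    intro y hy
    exact ((connectedComponentIn_subset _ _) hy).2
  obtain ⟨z1, ⟨hz1f, hz1B⟩, hz1L⟩ : ∃ z1 ∈ frontier (CompD D f s t w) ∩ ball z r1,
      z1 ∉ rest f s t := by
    by_contra hcon
    push Not at hcon
    apply h5
    have h6 : frontier (CompD D f s t w) ∩ ball z r1 ⊆ f '' Icc s t ∩ rest f s t ∩ D := by
      intro y hy
      exact ⟨⟨(frontier_comp hD hKc hy.1 (hball hy.2).1).1, hcon y hy⟩, (hball hy.2).1⟩
    refine lt_of_le_of_lt ((dimH_mono h6).trans (dim_inter_rest h2 s t)) ?_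
    rw [ENNReal.div_lt_iff (Or.inl (by norm_num)) (Or.inl (by norm_num))]
    norm_num
  obtain ⟨r2, hr2, hball2⟩ := Metric.isOpen_iff.1 (isOpen_ball (x := z) (ε := ρ)) z1
    (hball hz1B).2
  refine (static hD h1 h4 axi (hball hz1B).1 hz1f hz1L hr2).trans (dimH_mono ?_)
  rintro y ⟨h6, h7, h8⟩
  exact ⟨h6, h7, hball2 h8⟩

/-! ### The upper bound -/

open Pool.Agent.TH990.FU in
theorem acc_of {D : Set ℂ} (hD : IsOpen D) {f : C(unitInterval, ℂ)}
    (h4 : ∀ s t : unitInterval, s < t → ∃ u ∈ Icc s t, f u ≠ f s)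
    {s t : unitInterval} (hst : s < t) {w z : ℂ} (hz : z ∈ D)
    (hzf : z ∈ frontier (CompD D f s t w)) (hzL : z ∉ rest f s t) :
    z ∈ ⋃ i : ℕ, Acc (1 / ((i : ℝ) + 1)) f := by
  have hKc : IsClosed (f '' Icc s t) := isClosed_piece f s t
  have hLc : IsClosed (rest f s t) := isClosed_rest f s t
  set W : Set ℂ := CompD D f s t w with hW
  have hWo : IsOpen W := (hD.sdiff hKc).connectedComponentIn
  have hWsub : W ⊆ D \ f '' Icc s t := connectedComponentIn_subset _ _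
  obtain ⟨hzK, hzcl, hzW⟩ := frontier_comp hD hKc hzf hz
  obtain ⟨x0, hx0⟩ : W.Nonempty := closure_nonempty_iff.1 ⟨z, hzcl⟩
  have hxz : x0 ≠ z := fun h => hzW (h ▸ hx0)
  have hpc : IsPathConnected W :=
    (hWo.isConnected_iff_isPathConnected).1 ⟨⟨x0, hx0⟩, isPreconnected_connectedComponentIn⟩
  obtain ⟨r1, hr1, hball⟩ := Metric.isOpen_iff.1 hLc.isOpen_compl z hzL
  obtain ⟨_, ⟨u, hu, rfl⟩, huz⟩ := piece_ne h4 hst z
  obtain ⟨i, hi⟩ := exists_nat_one_div_lt (lt_min hr1 (lt_min (dist_pos.2 hxz) (dist_pos.2 huz)))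
  set η : ℝ := 1 / ((i : ℝ) + 1) with hη
  have hη0 : 0 < η := by positivity
  have hη1 : η < r1 := hi.trans_le (min_le_left _ _)
  have hη2 : η < dist x0 z := hi.trans_le ((min_le_right _ _).trans (min_le_left _ _))
  have hη3 : η < dist (f u) z := hi.trans_le ((min_le_right _ _).trans (min_le_right _ _))
  refine mem_iUnion.2 ⟨i, ?_, ⟨u, hη3.le⟩, fun r hr => ?_⟩
  · obtain ⟨v, -, hv⟩ := hzK
    exact ⟨v, hv⟩
  obtain ⟨y, hy, hyz⟩ := Metric.mem_closure_iff.mp hzcl (min r η) (lt_min hr hη0)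
  rw [dist_comm] at hyz
  obtain ⟨γ, hγ⟩ := hpc.joinedIn y hy x0 hx0
  have hγc : Continuous (fun t : unitInterval => dist (γ t) z) := by fun_prop
  have h0 : dist (γ 0) z < η := by
    rw [γ.source]
    exact hyz.trans_le (min_le_right _ _)
  have h1 : η ≤ dist (γ 1) z := by
    rw [γ.target]
    exact hη2.le
  set S : Set unitInterval := {t | dist (γ t) z = η} with hS
  have hSc : IsCompact S := (isClosed_eq hγc continuous_const).isCompact
  have hSn : S.Nonempty := by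
    obtain ⟨c, -, hc⟩ := (isPreconnected_univ (α := unitInterval)).intermediate_value
      (mem_univ 0) (mem_univ 1) hγc.continuousOn ⟨h0.le, h1⟩
    exact ⟨c, hc⟩
  obtain ⟨τ, hτ1, hτ2⟩ := hSc.exists_isLeast hSn
  have hle : ∀ v ≤ τ, dist (γ v) z ≤ η := by
    intro v hv
    by_contra hcon
    push Not at hcon
    obtain ⟨c, hc1, hc2⟩ := (isPreconnected_Icc (a := (0 : unitInterval)) (b := v)).intermediate_value
      (left_mem_Icc.2 unitInterval.nonneg') (right_mem_Icc.2 unitInterval.nonneg')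
      hγc.continuousOn ⟨h0.le, hcon.le⟩
    have h5 : τ ≤ c := hτ2 hc2
    have h6 : c = v := le_antisymm hc1.2 (hv.trans h5)
    have h7 : dist (γ c) z = η := hc2
    rw [h6] at h7
    linarith
  refine ⟨⟨fun v => γ (v * τ), ?_⟩, ?_, ?_, fun v => ?_⟩
  · exact γ.continuous.comp (continuous_id.mul continuous_const)
  · show dist (γ (0 * τ)) z < r
    rw [zero_mul, γ.source]
    exact hyz.trans_le (min_le_left _ _)
  · show η ≤ dist (γ (1 * τ)) z
    rw [one_mul]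
    exact hτ1.ge
  · show γ (v * τ) ∉ range f
    intro hR
    rcases range_sub f s t hR with h | h
    · exact (hWsub (hγ _)).2 h
    · refine hball ?_ h
      rw [mem_ball]
      exact (hle _ unitInterval.mul_le_right).trans_lt hη1

open Pool.Agent.TH990.FU in
/-- **The deterministic part of ALLT.** -/
theorem core {D : Set ℂ} (hD : IsOpen D) {f : C(unitInterval, ℂ)}
    (h1 : ∀ (a b H η : ℚ) (d : ℤ × ℤ), Dir d → 0 < H → 0 < η → Sq (5 * (H : ℝ)) ⟨a, b⟩ ⊆ D →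
      f ∈ EvO d H η ⟨a, b⟩ → 4 / 3 ≤ dimH (Lb (Sq (4 * (H : ℝ)) ⟨a, b⟩) (range f) ⟨a, b⟩))
    (h2 : dimH (dbl f ∩ D) ≤ 3 / 4)
    (h3 : dimH ((⋃ i : ℕ, Acc (1 / ((i : ℝ) + 1)) f) ∩ D) ≤ 4 / 3)
    (h4 : ∀ s t : unitInterval, s < t → ∃ u ∈ Icc s t, f u ≠ f s) (axi : S_AXI)
    {s t : unitInterval} (hst : s < t) {w z : ℂ} (hz : z ∈ D)
    (hzf : z ∈ frontier (CompD D f s t w)) {ρ : ℝ} (hρ : 0 < ρ) :
    dimH (frontier (CompD D f s t w) ∩ (D ∩ ball z ρ)) = 4 / 3 := by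
  refine le_antisymm ?_ (lower hD h1 h2 h4 axi hst hz hzf hρ)
  have hKc : IsClosed (f '' Icc s t) := isClosed_piece f s t
  have h5 : frontier (CompD D f s t w) ∩ (D ∩ ball z ρ) ⊆
      ((⋃ i : ℕ, Acc (1 / ((i : ℝ) + 1)) f) ∩ D) ∪ (f '' Icc s t ∩ rest f s t ∩ D) := by
    rintro y ⟨hy1, hy2, -⟩
    by_cases hyL : y ∈ rest f s t
    · exact Or.inr ⟨⟨(frontier_comp hD hKc hy1 hy2).1, hyL⟩, hy2⟩
    · exact Or.inl ⟨acc_of hD h4 hst hy2 hy1 hyL, hy2⟩
  refine (dimH_mono h5).trans ?_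
  rw [dimH_union]
  refine max_le h3 ((dim_inter_rest h2 s t).trans ?_)
  rw [ENNReal.div_le_iff (by norm_num) (by norm_num)]
  have : (4 / 3 * 4 : ℝ≥0∞) = ENNReal.ofReal (16 / 3) := by
    rw [ENNReal.ofReal_div_of_pos (by norm_num)]
    rw [show (ENNReal.ofReal 16) = 16 by norm_num, show (ENNReal.ofReal 3) = 3 by norm_num,
      ENNReal.div_eq_inv_mul, ENNReal.div_eq_inv_mul, mul_assoc]
    norm_num
  rw [this, show (3 : ℝ≥0∞) = ENNReal.ofReal 3 by norm_num]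
  exact ENNReal.ofReal_le_ofReal (by norm_num)

end Run7.h165.EC
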