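import Pool.Agent.H342R3.Tig.RNG
import Pool.Agent.H342R3.Tig.ORB
import Pool.Agent.H342R3.Tig.POL
import Pool.Agent.H342R3.Lim.TOPB

/-! # The interface loop around a component of the complement of a cluster -/

set_option autoImplicit false

namespace Run7.h165.EC

open H342T H342L H342P H342P.Plain H984P MeasureTheory TopologicalSpace Filter Topology

theorem jf_iff (F : Finset Edge) (v f g : ℤ × ℤ) :
    (faceGraph (clusterEdges F v)).Reachable f g ↔
      H974.DReach (EC (↑F : Set H974.Edg) v)ᶜ f g := by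
  rw [reachable_iff (faceGraph_adj _), clusterEdges_eq]
  rfl

/-- The states of a cluster whose faces are joined outside of the cluster form one orbit. -/
theorem orb_one {F : Finset Edge} {v : ℤ × ℤ} {σ τ : St} (hσ : σ.1 ∈ cluster F v)
    (hτ : τ.1 ∈ cluster F v)
    (hoo : (faceGraph (clusterEdges F v)).Reachable (face σ) (face τ)) :
    ∃ s, orb (↑F) σ s = τ := by
  rw [Plain.mem_cluster] at hσ hτ
  rw [jf_iff] at hoo
  obtain ⟨hv, hf, hpot, hF, hE⟩ := pot_of_inv (↑F : Set H974.Edg)
    {τ | ∃ t, orb (↑F : Set H974.Edg) σ t = τ} (P17.inv F σ)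
  have hreach : ∀ u w, H974.Reach (↑F : Set H974.Edg) u w → hv u = hv w := by
    intro u w h
    induction h with
    | refl => rfl
    | tail _ hs ih =>
      obtain ⟨e, he, h | h⟩ := hs
      · rw [ih, ← h.1, ← h.2]; exact hF e he
      · rw [ih, ← h.1, ← h.2]; exact (hF e he).symm
  have hA : ∀ s : St, s ∈ {τ | ∃ t, orb (↑F : Set H974.Edg) σ t = τ} →
      H974.Reach (↑F : Set H974.Edg) v s.1 := by
    rintro s ⟨t, rfl⟩
    exact hσ.trans (P17.orb_vertex t)
  have hfe : ∀ e : H974.Edg, e ∉ EC (↑F : Set H974.Edg) v →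
      hf (H974.dsrc e) = hf (H974.dtgt e) := by
    intro e he
    by_cases heF : e ∈ (↑F : Set H974.Edg)
    · have hs : ¬ H974.Reach (↑F : Set H974.Edg) v (H974.src e) := fun h => he ⟨heF, h⟩
      have ht : ¬ H974.Reach (↑F : Set H974.Edg) v (H974.tgt e) := fun h =>
        hs (h.tail ⟨e, heF, Or.inr ⟨rfl, rfl⟩⟩)
      obtain ⟨s, rfl⟩ := SideAux.exists_ae e
      have h1 : ¬ H974.Reach (↑F : Set H974.Edg) v s.1 := by
        rcases SideAux.ends s with h | h
        · rw [← h.1]; exact hs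
        · rw [← h.2]; exact ht
      have h2 : ¬ H974.Reach (↑F : Set H974.Edg) v (SideAux.op s).1 := by
        rcases SideAux.ends s with h | h
        · rw [← h.2]; exact ht
        · rw [← h.1]; exact hs
      have h3 : hv s.1 = hf (face s) := by
        have := hpot s
        rw [H974.b2_not_of (fun h => h1 (hA s h))] at this
        exact SideAux.z2_eq this
      have h4 : hv (SideAux.op s).1 = hf (face (SideAux.op s)) := by
        have := hpot (SideAux.op s)
        rw [H974.b2_not_of (fun h => h2 (hA _ h))] at this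
        exact SideAux.z2_eq this
      have h5 : hv s.1 = hv (SideAux.op s).1 := by
        have := hF _ heF
        rcases SideAux.ends s with h | h
        · rw [h.1, h.2] at this; exact this
        · rw [h.1, h.2] at this; exact this.symm
      have h6 : hf (face s) = hf (face (SideAux.op s)) := by rw [← h3, ← h4, h5]
      rcases SideAux.faces s with h | h
      · rw [h.1, h.2]; exact h6
      · rw [h.1, h.2]; exact h6.symm
    · exact hE e heF
  have hdreach : ∀ f g, H974.DReach (EC (↑F : Set H974.Edg) v)ᶜ f g → hf f = hf g := by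
    intro f g h
    induction h with
    | refl => rfl
    | tail _ hs ih =>
      obtain ⟨e, he, h | h⟩ := hs
      · rw [ih, ← h.1, ← h.2]; exact hfe e he
      · rw [ih, ← h.1, ← h.2]; exact (hfe e he).symm
  have e1 : hv σ.1 = hv τ.1 := (hreach _ _ hσ).symm.trans (hreach _ _ hτ)
  have e2 : hf (face σ) = hf (face τ) := hdreach _ _ hoo
  have e3 := hpot σ
  rw [H974.b2_of (show σ ∈ {τ | ∃ t, orb (↑F : Set H974.Edg) σ t = τ} from ⟨0, rfl⟩)] at e3
  have e4 := hpot τ
  by_contra hcon
  rw [H974.b2_not_of (show τ ∉ {τ | ∃ t, orb (↑F : Set H974.Edg) σ t = τ} from hcon), ← e1, ← e2,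
    e3] at e4
  exact absurd e4 (by decide)

/-- Some face at `z` is joined to `g0` outside of the cluster. -/
def HQ (n : ℕ) (F : Finset Edge) (v g0 : ℤ × ℤ) (z : ℂ) : Prop :=
  ∃ g, TOPB_cl n z g ∧ (faceGraph (clusterEdges F v)).Reachable g g0

theorem HQ_const {n : ℕ} (hn : 0 < n) {F : Finset Edge} {v g0 : ℤ × ℤ} {S : Set ℂ}
    (hS : IsPreconnected S) (hSb : S ⊆ (body n F v)ᶜ) {x y : ℂ} (hx : x ∈ S) (hy : y ∈ S) :
    HQ n F v g0 x ↔ HQ n F v g0 y := by
  refine hS.induction₂ (fun x y => HQ n F v g0 x ↔ HQ n F v g0 y) ?_ ?_ ?_ hx hy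
  · intro x hx
    apply eventually_nhdsWithin_of_eventually_nhds
    filter_upwards [TOPB_near n x] with y hy
    constructor
    · rintro ⟨g, hg1, hg2⟩
      refine ⟨_, TOPB_floor n y, ?_⟩
      exact ((TOPB_joined hn (hSb hx) hg1 (hy _ (TOPB_floor n y))).symm).trans hg2
    · rintro ⟨g, hg1, hg2⟩
      exact ⟨g, hy g hg1, hg2⟩
  · intro x y z _ _ _ h1 h2
    exact h1.trans h2
  · intro x y _ _ h
    exact h.symm

theorem front_body {n : ℕ} {F : Finset Edge} {v : ℤ × ℤ} (w : ℂ) :
    frontier (connectedComponentIn (body n F v)ᶜ w) ⊆ body n F v := by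
  intro z hz
  by_contra hcon
  have hCo : IsOpen (connectedComponentIn (body n F v)ᶜ w) :=
    (CPT_isOpen_compl n F v).connectedComponentIn
  have hCz : IsOpen (connectedComponentIn (body n F v)ᶜ z) :=
    (CPT_isOpen_compl n F v).connectedComponentIn
  have hz1 : z ∈ connectedComponentIn (body n F v)ᶜ z := mem_connectedComponentIn hcon
  obtain ⟨y, hy1, hy2⟩ := mem_closure_iff.1 (frontier_subset_closure hz) _ hCz hz1
  have h1 := connectedComponentIn_eq hy1
  have h2 := connectedComponentIn_eq hy2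
  have h3 : z ∈ connectedComponentIn (body n F v)ᶜ w := by
    rw [h2, ← h1]
    exact hz1
  rw [frontier, hCo.interior_eq] at hz
  exact hz.2 h3

/-- A boundary point of a component is in a segment of a state of this component. -/
theorem hol_sup {n : ℕ} (hn : 0 < n) {F : Finset Edge} {v : ℤ × ℤ} {w z : ℂ}
    (hw : w ∉ body n F v) (hz : z ∈ frontier (connectedComponentIn (body n F v)ᶜ w)) :
    ∃ σ : St, σ.1 ∈ cluster F v ∧
      (faceGraph (clusterEdges F v)).Reachable (face σ) (⌊(n : ℝ) * w.re⌋, ⌊(n : ℝ) * w.im⌋) ∧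
      z ∈ segment ℝ (pt n σ.1) (pt n (nxt (↑F) σ).1) := by
  have hn' : (0 : ℝ) < n := by exact_mod_cast hn
  have hzb : z ∈ body n F v := front_body w hz
  have hz1 : z ∈ closure (connectedComponentIn (body n F v)ᶜ w) := frontier_subset_closure hz
  obtain ⟨y, hy1, hy2⟩ := mem_closure_iff_nhds.1 hz1 _ (TOPB_near n z)
  obtain ⟨g, hg1, hg2⟩ := (HQ_const (g0 := (⌊(n : ℝ) * w.re⌋, ⌊(n : ℝ) * w.im⌋)) hn
    isPreconnected_connectedComponentIn (connectedComponentIn_subset _ _)
    (mem_connectedComponentIn hw) hy2).1 ⟨_, TOPB_floor n w, SimpleGraph.Reachable.refl _⟩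
  have hg := hy1 g hg1
  have key : ∀ u ∈ cluster F v, (n : ℝ) * z.re = u.1 → (n : ℝ) * z.im = u.2 →
      ∃ σ : St, σ.1 ∈ cluster F v ∧ (faceGraph (clusterEdges F v)).Reachable (face σ)
        (⌊(n : ℝ) * w.re⌋, ⌊(n : ℝ) * w.im⌋) ∧
      z ∈ segment ℝ (pt n σ.1) (pt n (nxt (↑F) σ).1) := by
    intro u hu e1 e2
    have hinc : Inc u g := by
      obtain ⟨⟨a1, a2⟩, a3, a4⟩ := hg
      rw [e1] at a1 a2
      rw [e2] at a3 a4
      have b1 : g.1 ≤ u.1 := by exact_mod_cast a1
      have b2 : u.1 ≤ g.1 + 1 := by exact_mod_cast a2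
      have b3 : g.2 ≤ u.2 := by exact_mod_cast a3
      have b4 : u.2 ≤ g.2 + 1 := by exact_mod_cast a4
      unfold Inc
      omega
    obtain ⟨q, hq⟩ := RNG_face hinc
    refine ⟨(u, q), hu, by rw [hq]; exact hg2, ?_⟩
    have hzu : z = pt n u := by
      apply Complex.ext
      · simp only [pt]
        rw [← e1]; field_simp
      · simp only [pt]
        rw [← e2]; field_simp
    rw [hzu]
    exact left_mem_segment _ _ _
  rcases hzb with hzb | hzb
  · obtain ⟨w', hw', hzw⟩ := Set.mem_iUnion₂.1 hzb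
    rw [Set.mem_singleton_iff] at hzw
    obtain ⟨e1, e2⟩ := TOPA_pt hn w'
    exact key w' hw' (by rw [hzw]; exact e1) (by rw [hzw]; exact e2)
  · obtain ⟨e, he, hze⟩ := Set.mem_iUnion₂.1 hzb
    obtain ⟨t, ht0, ht1, h1, h2⟩ := TOPB_mem_seg hn hze
    rcases ht0.eq_or_lt with ht | ht0'
    · refine key (fst e) he.2 ?_ ?_
      · rw [h1, ← ht]; simp [fst]
      · rw [h2, ← ht]; simp [fst]
    rcases ht1.eq_or_lt with ht | ht1'
    · refine key (snd e) (RNG_snd he) ?_ ?_
      · rw [h1, ht]
        obtain ⟨a, b, c⟩ := e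
        cases c <;> simp [snd]
      · rw [h2, ht]
        obtain ⟨a, b, c⟩ := e
        cases c <;> simp [snd]
    · have hside : g = side₁ e ∨ g = side₂ e := by
        obtain ⟨a, b, c⟩ := e
        obtain ⟨g1, g2⟩ := g
        obtain ⟨⟨a1, a2⟩, a3, a4⟩ := hg
        simp only at a1 a2 a3 a4
        cases c
        · simp only [Bool.false_eq_true, if_false, add_zero] at h1 h2
          rw [h1] at a1 a2
          rw [h2] at a3 a4
          have b1 : g1 ≤ a := by exact_mod_cast a1
          have b2 : a ≤ g1 + 1 := by exact_mod_cast a2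
          have c1 : (g2:ℝ) < b + 1 := by linarith
          have c2 : (b:ℝ) < g2 + 1 := by linarith
          have b3 : g2 < b + 1 := by exact_mod_cast c1
          have b4 : b < g2 + 1 := by exact_mod_cast c2
          simp only [side₁, side₂, Bool.false_eq_true, if_false, Prod.mk.injEq]
          omega
        · simp only [if_true, add_zero] at h1 h2
          rw [h1] at a1 a2
          rw [h2] at a3 a4
          have b1 : g2 ≤ b := by exact_mod_cast a3
          have b2 : b ≤ g2 + 1 := by exact_mod_cast a4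
          have c1 : (g1:ℝ) < a + 1 := by linarith
          have c2 : (a:ℝ) < g1 + 1 := by linarith
          have b3 : g1 < a + 1 := by exact_mod_cast c1
          have b4 : a < g1 + 1 := by exact_mod_cast c2
          simp only [side₁, side₂, if_true, Prod.mk.injEq]
          omega
      obtain ⟨τ, ht1, ht2, ht3⟩ := RNG_edge hside
      refine ⟨τ, ?_, by rw [ht2]; exact hg2, ?_⟩
      · rcases ht3 with h | h
        · rw [h]; exact he.2
        · rw [h]; exact RNG_snd he
      · have ho : ae τ ∈ (↑F : Set Edge) := by rw [ht1]; exact Finset.mem_coe.2 he.1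
        rw [nxt_open ho, RNG_seg, ht1]
        exact hze

theorem body_pt {n : ℕ} {F : Finset Edge} {v u : ℤ × ℤ} (hu : u ∈ cluster F v) :
    pt n u ∈ body n F v := by
  left
  exact Set.mem_biUnion (x := u) hu (Set.mem_singleton _)

theorem hol_sub {n : ℕ} {F : Finset Edge} {v : ℤ × ℤ} {σ : St} (h1 : σ.1 ∈ cluster F v) :
    segment ℝ (pt n σ.1) (pt n (nxt (↑F) σ).1) ⊆ body n F v := by
  by_cases ho : ae σ ∈ F
  · rw [nxt_open (Finset.mem_coe.2 ho), RNG_seg]
    intro z hz
    exact Or.inr (Set.mem_biUnion (RNG_ae h1 ho) hz)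
  · rw [nxt_closed (fun h => ho (Finset.mem_coe.1 h)), p2_rt_fst, segment_same,
      Set.singleton_subset_iff]
    exact body_pt h1

/-- The interface loop around the component at `w`. -/
theorem hol_loop {n : ℕ} (hn : 0 < n) {F : Finset Edge} {v : ℤ × ℤ} {w : ℂ}
    (hw : w ∉ body n F v) :
    ∃ (σ : St) (N : ℕ), 0 < N ∧ σ.1 ∈ cluster F v ∧ orb (↑F) σ N = σ ∧
      (∀ j, 0 < j → j < N → orb (↑F) σ j ≠ σ) ∧
      Set.range (poly (fun j => pt n (orb (↑F) σ j).1) N) ⊆ body n F v ∧
      frontier (connectedComponentIn (body n F v)ᶜ w) ⊆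
        Set.range (poly (fun j => pt n (orb (↑F) σ j).1) N) := by
  classical
  have hne : (frontier (connectedComponentIn (body n F v)ᶜ w)).Nonempty := by
    rw [nonempty_frontier_iff]
    refine ⟨⟨w, mem_connectedComponentIn hw⟩, fun h => ?_⟩
    have h1 : pt n v ∈ connectedComponentIn (body n F v)ᶜ w := by
      rw [h]
      trivial
    exact connectedComponentIn_subset _ _ h1 (body_pt (SimpleGraph.Reachable.refl _))
  obtain ⟨z0, hz0⟩ := hne
  obtain ⟨σ, hσ1, hσ2, -⟩ := hol_sup hn hw hz0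
  have hper := P17.periodic F σ
  have hcl : ∀ j, (orb (↑F) σ j).1 ∈ cluster F v := by
    intro j
    rw [mem_cluster] at hσ1 ⊢
    exact hσ1.trans (pb_reach (↑F) σ j)
  obtain ⟨-, -, p3, -⟩ := t_POL (fun j => pt n (orb (↑F) σ j).1) (Nat.find hper)
    (Nat.find_spec hper).1
  refine ⟨σ, Nat.find hper, (Nat.find_spec hper).1, hσ1, (Nat.find_spec hper).2, ?_, ?_, ?_⟩
  · intro j hj hjN he
    exact Nat.find_min hper hjN ⟨hj, he⟩
  · rw [p3]
    apply Set.iUnion₂_subset
    intro j _
    simp only [orb_succ]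
    exact hol_sub (hcl j)
  · rw [p3]
    intro z hz
    obtain ⟨τ, h1, h2, h3⟩ := hol_sup hn hw hz
    obtain ⟨s, hs⟩ := orb_one hσ1 h1 (hσ2.trans h2.symm)
    refine Set.mem_iUnion₂.2 ⟨s % Nat.find hper, Finset.mem_range.2
      (Nat.mod_lt _ (Nat.find_spec hper).1), ?_⟩
    simp only [orb_succ]
    rw [RNG_mod (Nat.find_spec hper).2, hs]
    exact h3

end Run7.h165.EC
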