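import Pool.Agent.Run7.h165.EC.Allt

/-! # ALLT: all the pieces of the curve, components in an arbitrary open set -/

set_option autoImplicit false

namespace Run7.h165.EC

open Set Filter Topology Metric
open Run7.h561.EC
open scoped ENNReal NNReal

/-- **The deterministic part, components in an open set.** -/
theorem coreU {D U : Set ℂ} (hD : IsOpen D) (hU : IsOpen U) {f : C(unitInterval, ℂ)}
    (h1 : ∀ (a b H η : ℚ) (d : ℤ × ℤ), Dir d → 0 < H → 0 < η → Sq (5 * (H : ℝ)) ⟨a, b⟩ ⊆ D →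
      f ∈ EvO d H η ⟨a, b⟩ → 4 / 3 ≤ dimH (Lb (Sq (4 * (H : ℝ)) ⟨a, b⟩) (range f) ⟨a, b⟩))
    (h2 : dimH (dbl f ∩ D) ≤ 3 / 4)
    (h3 : dimH ((⋃ i : ℕ, Pool.Agent.TH990.FU.Acc (1 / ((i : ℝ) + 1)) f) ∩ D) ≤ 4 / 3)
    (h4 : ∀ s t : unitInterval, s < t → ∃ u ∈ Icc s t, f u ≠ f s) (axi : S_AXI)
    {s t : unitInterval} (hst : s < t) {w z : ℂ} (hzU : z ∈ U) (hz : z ∈ D)
    (hzf : z ∈ frontier (CompD U f s t w)) {ρ : ℝ} (hρ : 0 < ρ) :
    dimH (frontier (CompD U f s t w) ∩ (U ∩ D ∩ ball z ρ)) = 4 / 3 := by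
  have hKc : IsClosed (f '' Icc s t) := isClosed_piece f s t
  have hUD : IsOpen (U ∩ D) := hU.inter hD
  apply le_antisymm
  · have h5 : frontier (CompD U f s t w) ∩ (U ∩ D ∩ ball z ρ) ⊆
        ((⋃ i : ℕ, Pool.Agent.TH990.FU.Acc (1 / ((i : ℝ) + 1)) f) ∩ D) ∪
          (f '' Icc s t ∩ rest f s t ∩ D) := by
      rintro y ⟨hy1, ⟨hyU, hy2⟩, -⟩
      by_cases hyL : y ∈ rest f s t
      · exact Or.inr ⟨⟨(frontier_comp hU hKc hy1 hyU).1, hyL⟩, hy2⟩
      · exact Or.inl ⟨acc_of hU h4 hst hyU hy1 hyL, hy2⟩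
    refine (dimH_mono h5).trans ?_
    rw [dimH_union]
    refine max_le h3 ((dim_inter_rest h2 s t).trans ?_)
    rw [ENNReal.div_le_iff (by norm_num) (by norm_num)]
    have : (4 / 3 * 4 : ℝ≥0∞) = ENNReal.ofReal (16 / 3) := by
      rw [ENNReal.ofReal_div_of_pos (by norm_num)]
      rw [show (ENNReal.ofReal 16) = 16 by norm_num, show (ENNReal.ofReal 3) = 3 by norm_num,
        ENNReal.div_eq_inv_mul, ENNReal.div_eq_inv_mul, mul_assoc]
      norm_num
    rw [this, show (3 : ℝ≥0∞) = ENNReal.ofReal 3 by norm_num]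
    exact ENNReal.ofReal_le_ofReal (by norm_num)
  · obtain ⟨hzK, hzcl, hzW⟩ := frontier_comp hU hKc hzf hzU
    set W : Set ℂ := CompD U f s t w with hW
    have hWdef : W = connectedComponentIn (U \ f '' Icc s t) w := rfl
    have hWo : IsOpen W := (hU.sdiff hKc).connectedComponentIn
    have hWsub : W ⊆ U \ f '' Icc s t := connectedComponentIn_subset _ _
    obtain ⟨r1, hr1, hball⟩ := Metric.isOpen_iff.1 (hUD.inter (isOpen_ball (x := z) (ε := ρ))) z
      ⟨⟨hzU, hz⟩, mem_ball_self hρ⟩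
    obtain ⟨x, hxW, hxz⟩ := Metric.mem_closure_iff.1 hzcl r1 hr1
    rw [dist_comm] at hxz
    have hxB : x ∈ ball z r1 := hxz
    have hxU : x ∈ (U ∩ D) \ f '' Icc s t := ⟨(hball hxB).1, (hWsub hxW).2⟩
    have hsub : CompD (U ∩ D) f s t x ⊆ W := by
      have h5 : CompD (U ∩ D) f s t x ⊆ connectedComponentIn (U \ f '' Icc s t) x :=
        connectedComponentIn_mono x (Set.sdiff_subset_sdiff_left Set.inter_subset_left)
      have h6 : connectedComponentIn (U \ f '' Icc s t) w =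
          connectedComponentIn (U \ f '' Icc s t) x := connectedComponentIn_eq hxW
      rw [hWdef, h6]
      exact h5
    have hW'o : IsOpen (CompD (U ∩ D) f s t x) := (hUD.sdiff hKc).connectedComponentIn
    obtain ⟨z2, hz2B, hz2F⟩ := meets_frontier hW'o (convex_ball z r1).isPreconnected
      ⟨x, hxB, mem_connectedComponentIn hxU⟩ ⟨z, mem_ball_self hr1, fun h => hzW (hsub h)⟩
    obtain ⟨r2, hr2, hball2⟩ := Metric.isOpen_iff.1 (isOpen_ball (x := z) (ε := ρ)) z2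
      (hball hz2B).2
    have h7 := lower hUD (fun a b H η d e1 e2 e3 e4 e5 =>
      h1 a b H η d e1 e2 e3 (e4.trans Set.inter_subset_right) e5)
      ((dimH_mono (Set.inter_subset_inter_right _ Set.inter_subset_right)).trans h2) h4 axi hst
      (hball hz2B).1 hz2F hr2
    refine h7.trans (dimH_mono ?_)
    rintro y ⟨hy1, hy2, hy3⟩
    obtain ⟨g1, g2, -⟩ := frontier_comp hUD hKc hy1 hy2
    refine ⟨?_, hy2, hball2 hy3⟩
    rw [frontier, hWo.interior_eq]
    exact ⟨closure_mono hsub g2, fun h => (hWsub h).2 g1⟩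

end Run7.h165.EC
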