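import Pool.Agent.Run7.h561.EC.Stm

/-!
# Project EC: AXI, near every boundary point of a component of the complement of a curve some axis
parallel ray crosses the curve
-/

set_option autoImplicit false

namespace Run7.h165.EC

open MeasureTheory Filter Topology
open Run7.h561.EC

/-- the side of the line of direction `d` -/
def sid (d : ℤ × ℤ) (z : ℂ) : ℝ := z.re * d.2 - z.im * d.1

/-- the coordinate in the direction `d` -/
def fwd (d : ℤ × ℤ) (z : ℂ) : ℝ := z.re * d.1 + z.im * d.2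

/-- the direction as a complex number -/
def dv (d : ℤ × ℤ) : ℂ := ⟨d.1, d.2⟩

theorem sid_sub (d : ℤ × ℤ) (z w : ℂ) : sid d (z - w) = sid d z - sid d w := by
  simp only [sid, Complex.sub_re, Complex.sub_im]; ring

theorem fwd_sub (d : ℤ × ℤ) (z w : ℂ) : fwd d (z - w) = fwd d z - fwd d w := by
  simp only [fwd, Complex.sub_re, Complex.sub_im]; ring

theorem sid_abs {d : ℤ × ℤ} (hd : Dir d) (z : ℂ) : |sid d z| ≤ ‖z‖ := by
  have h1 := Complex.abs_re_le_norm z
  have h2 := Complex.abs_im_le_norm z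
  rcases hd with rfl | rfl | rfl | rfl <;> simp [sid, abs_neg, h1, h2]

theorem fwd_abs {d : ℤ × ℤ} (hd : Dir d) (z : ℂ) : |fwd d z| ≤ ‖z‖ := by
  have h1 := Complex.abs_re_le_norm z
  have h2 := Complex.abs_im_le_norm z
  rcases hd with rfl | rfl | rfl | rfl <;> simp [fwd, abs_neg, h1, h2]

theorem sid_line {d : ℤ × ℤ} (u : ℂ) (t : ℝ) : sid d (u + t * dv d) = sid d u := by
  simp only [sid, dv, Complex.add_re, Complex.add_im, Complex.mul_re, Complex.mul_im,
    Complex.ofReal_re, Complex.ofReal_im]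
  ring

theorem fwd_line {d : ℤ × ℤ} (hd : Dir d) (u : ℂ) (t : ℝ) :
    fwd d (u + t * dv d) = fwd d u + t := by
  simp only [fwd, dv, Complex.add_re, Complex.add_im, Complex.mul_re, Complex.mul_im,
    Complex.ofReal_re, Complex.ofReal_im]
  rcases hd with rfl | rfl | rfl | rfl <;> simp <;> ring

theorem norm_dv {d : ℤ × ℤ} (hd : Dir d) : ‖dv d‖ = 1 := by
  rw [← sq_eq_sq₀ (norm_nonneg _) zero_le_one, Complex.sq_norm, Complex.normSq_apply]
  rcases hd with rfl | rfl | rfl | rfl <;> simp [dv]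

theorem sid_cont (d : ℤ × ℤ) : Continuous (sid d) := by
  unfold sid
  fun_prop

/-- the values of the local extrema are countably many -/
theorem ctbl_max (g : unitInterval → ℝ) : {y | ∃ x, IsLocalMax g x ∧ g x = y}.Countable := by
  refine Set.Countable.mono ?_
    ((TopologicalSpace.countable_countableBasis unitInterval).image fun b => sSup (g '' b))
  rintro y ⟨x, hx, rfl⟩
  obtain ⟨b, hb, hxb, hbs⟩ :=
    (TopologicalSpace.isBasis_countableBasis unitInterval).mem_nhds_iff.1 hx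
  refine ⟨b, hb, ?_⟩
  exact IsGreatest.csSup_eq ⟨⟨x, hxb, rfl⟩, by rintro _ ⟨y, hy, rfl⟩; exact hbs hy⟩

theorem ctbl_ext (g : unitInterval → ℝ) : {y | ∃ x, IsLocalExtr g x ∧ g x = y}.Countable := by
  have h1 := ctbl_max g
  have h2 := (ctbl_max (fun x => -g x)).image fun y => -y
  refine (h1.union h2).mono ?_
  rintro y ⟨x, hx | hx, rfl⟩
  · right
    refine ⟨-g x, ⟨x, hx.neg, rfl⟩, by simp⟩
  · left
    exact ⟨x, hx, rfl⟩

/-- the conclusion of AXI -/
def Concl (f : C(unitInterval, ℂ)) (W : Set ℂ) (p : ℂ) (r : ℝ) : Prop :=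
  ∃ (a b H η : ℚ) (d : ℤ × ℤ), Dir d ∧ 0 < H ∧ (H : ℝ) < r ∧ 0 < η ∧
    dist (⟨a, b⟩ : ℂ) p < r ∧ (⟨a, b⟩ : ℂ) ∈ W ∧ f ∈ EvO d H η ⟨a, b⟩

theorem rat_near (z : ℂ) {ε : ℝ} (hε : 0 < ε) : ∃ a b : ℚ, dist (⟨a, b⟩ : ℂ) z < ε := by
  obtain ⟨a, ha1, ha2⟩ := exists_rat_btwn (show z.re < z.re + ε / 2 by linarith)
  obtain ⟨b, hb1, hb2⟩ := exists_rat_btwn (show z.im < z.im + ε / 2 by linarith)
  refine ⟨a, b, ?_⟩
  rw [Complex.dist_eq]
  refine lt_of_le_of_lt (Complex.norm_le_abs_re_add_abs_im _) ?_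
  simp only [Complex.sub_re, Complex.sub_im]
  rw [abs_of_pos (by linarith), abs_of_pos (by linarith)]
  linarith

/-- from a transversal approach to the conclusion -/
theorem concl_of (f : C(unitInterval, ℂ)) {W : Set ℂ} (hW : IsOpen W)
    (hWf : ∀ z ∈ W, z ∉ Set.range f) {p : ℂ} {r κ : ℝ} (hκ : 0 < κ) (hr : 2 * κ < r)
    {d : ℤ × ℤ} (hd : Dir d) {w' q : ℂ} (hw' : w' ∈ W) (hwp : dist w' p < r)
    (hq : q = w' + (κ : ℝ) * dv d) {σ : unitInterval} (hσ : f σ = q)
    (hne : ¬ IsLocalExtr (fun s => sid d (f s)) σ) : Concl f W p r := by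
  -- the neighbourhood of `σ`
  have hcont : ContinuousAt f σ := f.continuous.continuousAt
  have hN : ∀ᶠ s in 𝓝 σ, dist (f s) q < κ / 2 := by
    have := hcont.eventually (Metric.ball_mem_nhds (f σ) (half_pos hκ))
    rw [hσ] at this
    exact this
  obtain ⟨ε, hε, hball⟩ := Metric.eventually_nhds_iff.1 hN
  unfold IsLocalExtr IsExtrFilter at hne
  rw [not_or] at hne
  have hmin : ∃ s, dist s σ < ε ∧ sid d (f s) < sid d (f σ) := by
    by_contra hcon
    push_neg at hcon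
    exact hne.1 (Metric.eventually_nhds_iff.2 ⟨ε, hε, fun s hs => hcon s hs⟩)
  have hmax : ∃ s, dist s σ < ε ∧ sid d (f σ) < sid d (f s) := by
    by_contra hcon
    push_neg at hcon
    exact hne.2 (Metric.eventually_nhds_iff.2 ⟨ε, hε, fun s hs => hcon s hs⟩)
  obtain ⟨s1, hs1, hs1'⟩ := hmin
  obtain ⟨s2, hs2, hs2'⟩ := hmax
  have hsq : sid d (f σ) = sid d w' := by rw [hσ, hq, sid_line]
  rw [hsq] at hs1' hs2'
  -- perturb
  have hWn : W ∈ 𝓝 w' := hW.mem_nhds hw'
  obtain ⟨ε1, hε1, hW1⟩ := Metric.mem_nhds_iff.1 hWn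
  obtain ⟨a, b, hab⟩ := rat_near w' (ε := min (min ε1 (κ / 8)) (min (min (sid d w' - sid d (f s1))
    (sid d (f s2) - sid d w')) (r - dist w' p))) (by
      refine lt_min (lt_min hε1 (by linarith)) (lt_min (lt_min (by linarith) (by linarith))
        (by linarith)))
  set w : ℂ := ⟨a, b⟩ with hw
  have h1 : dist w w' < ε1 := hab.trans_le ((min_le_left _ _).trans (min_le_left _ _))
  have h2 : dist w w' < κ / 8 := hab.trans_le ((min_le_left _ _).trans (min_le_right _ _))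
  have h3 : dist w w' < sid d w' - sid d (f s1) :=
    hab.trans_le ((min_le_right _ _).trans ((min_le_left _ _).trans (min_le_left _ _)))
  have h4 : dist w w' < sid d (f s2) - sid d w' :=
    hab.trans_le ((min_le_right _ _).trans ((min_le_left _ _).trans (min_le_right _ _)))
  have h5 : dist w w' < r - dist w' p :=
    hab.trans_le ((min_le_right _ _).trans (min_le_right _ _))
  have hwW : w ∈ W := hW1 h1
  have hsw : |sid d w - sid d w'| ≤ dist w w' := by
    rw [← sid_sub, dist_eq_norm]; exact sid_abs hd _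
  have hfw : |fwd d w - fwd d w'| ≤ dist w w' := by
    rw [← fwd_sub, dist_eq_norm]; exact fwd_abs hd _
  rw [abs_le] at hsw hfw
  obtain ⟨H, hH1, hH2⟩ := exists_rat_btwn hr
  -- the distance to the curve
  have hcomp : IsCompact (Set.range f) := isCompact_range f.continuous
  have hinf : 0 < Metric.infDist w (Set.range f) :=
    (hcomp.isClosed.notMem_iff_infDist_pos ⟨f σ, ⟨σ, rfl⟩⟩).1 (hWf w hwW)
  obtain ⟨η, hη1, hη2⟩ := exists_rat_btwn hinf
  refine ⟨a, b, H, η, d, hd, by exact_mod_cast (show (0:ℝ) < H by linarith), hH2,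
    by exact_mod_cast hη1, ?_, hwW, ?_, ?_⟩
  · calc dist w p ≤ dist w w' + dist w' p := dist_triangle _ _ _
      _ < r := by linarith
  · intro s
    exact lt_of_lt_of_le hη2 (Metric.infDist_le_dist_of_mem ⟨s, rfl⟩)
  · -- the crossing
    have key : ∀ s, dist s σ < ε → f s ∈ Bx d H w := by
      intro s hs
      have g1 : dist (f s) q < κ / 2 := hball hs
      have g2 : dist q w' = κ := by
        rw [hq, dist_eq_norm, add_sub_cancel_left, norm_mul, norm_dv hd, mul_one,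
          Complex.norm_real, Real.norm_eq_abs, abs_of_pos hκ]
      have g3 : dist (f s) w < 2 * κ := by
        calc dist (f s) w ≤ dist (f s) q + dist q w' + dist w' w := dist_triangle4 _ _ _ _
          _ < 2 * κ := by rw [dist_comm w' w]; linarith
      have g4 : |(f s).re - w.re| ≤ dist (f s) w := by
        rw [dist_eq_norm, ← Complex.sub_re]; exact Complex.abs_re_le_norm _
      have g5 : |(f s).im - w.im| ≤ dist (f s) w := by
        rw [dist_eq_norm, ← Complex.sub_im]; exact Complex.abs_im_le_norm _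
      refine ⟨by linarith, by linarith, ?_⟩
      have g6 : |fwd d (f s) - fwd d q| ≤ dist (f s) q := by
        rw [← fwd_sub, dist_eq_norm]; exact fwd_abs hd _
      have g7 : fwd d q = fwd d w' + κ := by rw [hq, fwd_line hd]
      rw [abs_le] at g6
      have g8 : fwd d (f s) - fwd d w = ((f s).re - w.re) * d.1 + ((f s).im - w.im) * d.2 := by
        rw [← fwd_sub]; simp [fwd]
      rw [← g8]
      linarith
    have hint : ∀ s s' : unitInterval, dist s σ < ε → dist s' σ < ε →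
        f '' Set.Icc s s' ⊆ Bx d H w := by
      rintro s s' hs hs' _ ⟨t, ht, rfl⟩
      refine key t ?_
      rw [Subtype.dist_eq, Real.dist_eq, abs_lt] at hs hs' ⊢
      have e1 : (s : ℝ) ≤ t := ht.1
      have e2 : (t : ℝ) ≤ s' := ht.2
      constructor <;> linarith [hs.1, hs.2, hs'.1, hs'.2]
    have hside : ∀ s, ((f s).re - w.re) * d.2 - ((f s).im - w.im) * d.1 =
        sid d (f s) - sid d w := by
      intro s
      rw [← sid_sub]; simp [sid]
    have n1 : sid d (f s1) - sid d w < 0 := by linarith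
    have n2 : 0 < sid d (f s2) - sid d w := by linarith
    rcases le_total s1 s2 with h | h
    · refine ⟨s1, s2, h, hint _ _ hs1 hs2, ?_, ?_⟩
      · rw [hside]; exact n1.ne
      · rw [hside, hside]; exact mul_neg_of_neg_of_pos n1 n2
    · refine ⟨s2, s1, h, hint _ _ hs2 hs1, ?_, ?_⟩
      · rw [hside]; exact n2.ne'
      · rw [hside, hside]; exact mul_neg_of_pos_of_neg n2 n1

/-- a segment of `U` which starts in a component, and avoids the curve, ends in the component -/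
theorem seg_mem (f : C(unitInterval, ℂ)) {U : Set ℂ} {w0 u v : ℂ}
    (hu : u ∈ connectedComponentIn (U \ Set.range f) w0) (hseg : segment ℝ u v ⊆ U \ Set.range f) :
    v ∈ connectedComponentIn (U \ Set.range f) w0 := by
  have h1 : IsPreconnected (segment ℝ u v) := (convex_segment u v).isPreconnected
  rw [connectedComponentIn_eq hu]
  exact h1.subset_connectedComponentIn (left_mem_segment ℝ u v) hseg (right_mem_segment ℝ u v)

/-- the first hit of the curve on an axis parallel segment -/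
theorem first_hit (f : C(unitInterval, ℂ)) {U : Set ℂ} (hU : IsOpen U) {w0 : ℂ} {p : ℂ}
    {r : ℝ} (hr : 0 < r) {d : ℤ × ℤ} (hd : Dir d) {u : ℂ} {l : ℝ}
    (hu : u ∈ connectedComponentIn (U \ Set.range f) w0)
    (hball : ∀ t ∈ Set.Icc 0 l, u + (t : ℝ) * dv d ∈ U ∧ dist (u + (t : ℝ) * dv d) p < r)
    (hhit : ∃ t ∈ Set.Icc 0 l, u + (t : ℝ) * dv d ∈ Set.range f)
    (hgen : ∀ σ, sid d (f σ) = sid d u → ¬ IsLocalExtr (fun s => sid d (f s)) σ) :
    Concl f (connectedComponentIn (U \ Set.range f) w0) p r := by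
  set W := connectedComponentIn (U \ Set.range f) w0 with hWd
  have hcomp : IsCompact (Set.range f) := isCompact_range f.continuous
  have hop : IsOpen (U \ Set.range f) := hU.sdiff hcomp.isClosed
  have hWo : IsOpen W := hop.connectedComponentIn
  have hWf : ∀ z ∈ W, z ∉ Set.range f := fun z hz => (connectedComponentIn_subset _ _ hz).2
  let φ : ℝ → ℂ := fun t => u + (t : ℝ) * dv d
  have hφ : Continuous φ := by fun_prop
  let T : Set ℝ := Set.Icc 0 l ∩ φ ⁻¹' (Set.range f)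
  have hT : IsCompact T := isCompact_Icc.inter_right (hcomp.isClosed.preimage hφ)
  have hTne : T.Nonempty := by
    obtain ⟨t, ht, ht2⟩ := hhit
    exact ⟨t, ht, ht2⟩
  obtain ⟨t0, ht0, hmin⟩ := hT.exists_isLeast hTne
  have ht0pos : 0 < t0 := by
    rcases ht0.1.1.lt_or_eq with h | h
    · exact h
    · exfalso
      have h2 := ht0.2
      rw [← h] at h2
      refine hWf u hu ?_
      simpa [φ] using h2
  obtain ⟨σ, hσ⟩ := ht0.2
  set κ : ℝ := min (t0 / 2) (r / 4) with hκd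
  have hκ : 0 < κ := lt_min (by linarith) (by linarith)
  have hκ1 : κ ≤ t0 / 2 := min_le_left _ _
  have hκ2 : κ ≤ r / 4 := min_le_right _ _
  have hmem : φ (t0 - κ) ∈ W := by
    refine seg_mem f hu ?_
    intro z hz
    rw [segment_eq_image_lineMap] at hz
    obtain ⟨θ, hθ, rfl⟩ := hz
    have e1 : (AffineMap.lineMap u (φ (t0 - κ))) θ = φ (θ * (t0 - κ)) := by
      simp only [AffineMap.lineMap_apply, vsub_eq_sub, vadd_eq_add, φ, add_sub_cancel_left]
      rw [Complex.real_smul]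
      push_cast
      ring
    rw [e1]
    have hle : θ * (t0 - κ) ≤ t0 - κ := mul_le_of_le_one_left (by linarith) hθ.2
    have hge : 0 ≤ θ * (t0 - κ) := mul_nonneg hθ.1 (by linarith)
    have hin : θ * (t0 - κ) ∈ Set.Icc 0 l := ⟨hge, by linarith [ht0.1.2]⟩
    refine ⟨(hball _ hin).1, fun hcon => ?_⟩
    have := hmin (show θ * (t0 - κ) ∈ T from ⟨hin, hcon⟩)
    linarith
  refine concl_of f hWo hWf hκ (by linarith) hd (q := φ t0) hmem
    (hball _ ⟨by linarith, by linarith [ht0.1.2]⟩).2 ?_ hσ ?_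
  · simp only [φ]
    push_cast
    ring
  · refine hgen σ ?_
    rw [hσ]
    exact sid_line u t0

/-- moving along an axis: either the conclusion or the end is in the component -/
theorem axis_move (f : C(unitInterval, ℂ)) {U : Set ℂ} (hU : IsOpen U) {w0 : ℂ} {p : ℂ}
    {r ρ : ℝ} (hr : 0 < r) (hρr : 2 * ρ < r) (hρU : Metric.ball p (2 * ρ) ⊆ U)
    {d : ℤ × ℤ} (hd : Dir d) {u v : ℂ} {l : ℝ} (hl : 0 ≤ l) (hv : v = u + (l : ℝ) * dv d)
    (hu : u ∈ connectedComponentIn (U \ Set.range f) w0)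
    (h1 : |u.re - p.re| < ρ) (h2 : |u.im - p.im| < ρ)
    (h3 : |v.re - p.re| < ρ) (h4 : |v.im - p.im| < ρ)
    (hgen : ∀ σ, sid d (f σ) = sid d u → ¬ IsLocalExtr (fun s => sid d (f s)) σ) :
    Concl f (connectedComponentIn (U \ Set.range f) w0) p r ∨
      v ∈ connectedComponentIn (U \ Set.range f) w0 := by
  have hball : ∀ t ∈ Set.Icc 0 l, dist (u + (t : ℝ) * dv d) p < 2 * ρ := by
    intro t ht
    rw [Complex.dist_eq]
    refine lt_of_le_of_lt (Complex.norm_le_abs_re_add_abs_im _) ?_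
    have e1 : |(u + (t : ℝ) * dv d - p).re| < ρ := by
      rw [hv] at h3
      rw [abs_lt] at h1 h3 ⊢
      simp only [dv, Complex.add_re, Complex.sub_re, Complex.mul_re, Complex.ofReal_re,
        Complex.ofReal_im, zero_mul, sub_zero] at h3 ⊢
      rcases hd with rfl | rfl | rfl | rfl <;> simp only [Int.cast_zero, Int.cast_one,
        Int.cast_neg, mul_zero, mul_one, mul_neg, add_zero] at h3 ⊢ <;>
        constructor <;> linarith [h1.1, h1.2, h3.1, h3.2, ht.1, ht.2]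
    have e2 : |(u + (t : ℝ) * dv d - p).im| < ρ := by
      rw [hv] at h4
      rw [abs_lt] at h2 h4 ⊢
      simp only [dv, Complex.add_im, Complex.sub_im, Complex.mul_im, Complex.ofReal_re,
        Complex.ofReal_im, zero_mul, add_zero] at h4 ⊢
      rcases hd with rfl | rfl | rfl | rfl <;> simp only [Int.cast_zero, Int.cast_one,
        Int.cast_neg, mul_zero, mul_one, mul_neg, add_zero] at h4 ⊢ <;>
        constructor <;> linarith [h2.1, h2.2, h4.1, h4.2, ht.1, ht.2]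
    linarith
  by_cases hhit : ∃ t ∈ Set.Icc 0 l, u + (t : ℝ) * dv d ∈ Set.range f
  · left
    exact first_hit f hU hr hd hu (fun t ht => ⟨hρU (hball t ht), (hball t ht).trans hρr⟩) hhit
      hgen
  · right
    push_neg at hhit
    refine seg_mem f hu ?_
    intro z hz
    rw [segment_eq_image_lineMap] at hz
    obtain ⟨θ, hθ, rfl⟩ := hz
    have e1 : (AffineMap.lineMap u v) θ = u + ((θ * l : ℝ) : ℂ) * dv d := by
      rw [hv]
      simp only [AffineMap.lineMap_apply, vsub_eq_sub, vadd_eq_add, add_sub_cancel_left]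
      rw [Complex.real_smul]
      push_cast
      ring
    rw [e1]
    have hin : θ * l ∈ Set.Icc 0 l := ⟨mul_nonneg hθ.1 hl, mul_le_of_le_one_left hl hθ.2⟩
    exact ⟨hρU (hball _ hin), hhit _ hin⟩

theorem dir_re (u v : ℂ) (h : u.im = v.im) :
    ∃ d : ℤ × ℤ, (d = (1, 0) ∨ d = (-1, 0)) ∧ ∃ l : ℝ, 0 ≤ l ∧ v = u + (l : ℝ) * dv d := by
  rcases le_total u.re v.re with h1 | h1
  · refine ⟨(1, 0), Or.inl rfl, v.re - u.re, by linarith, ?_⟩
    apply Complex.ext <;> simp [dv, h]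
  · refine ⟨(-1, 0), Or.inr rfl, u.re - v.re, by linarith, ?_⟩
    apply Complex.ext <;> simp [dv, h]

theorem dir_im (u v : ℂ) (h : u.re = v.re) :
    ∃ d : ℤ × ℤ, (d = (0, 1) ∨ d = (0, -1)) ∧ ∃ l : ℝ, 0 ≤ l ∧ v = u + (l : ℝ) * dv d := by
  rcases le_total u.im v.im with h1 | h1
  · refine ⟨(0, 1), Or.inl rfl, v.im - u.im, by linarith, ?_⟩
    apply Complex.ext <;> simp [dv, h]
  · refine ⟨(0, -1), Or.inr rfl, u.im - v.im, by linarith, ?_⟩
    apply Complex.ext <;> simp [dv, h]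

theorem gen_im (f : C(unitInterval, ℂ)) {u : ℂ} (hu : u.im ∉ {y | ∃ x, IsLocalExtr
    (fun s => (f s).im) x ∧ (f x).im = y}) {d : ℤ × ℤ} (hd : d = (1, 0) ∨ d = (-1, 0)) :
    ∀ σ, sid d (f σ) = sid d u → ¬ IsLocalExtr (fun s => sid d (f s)) σ := by
  intro σ h1 h2
  refine hu ⟨σ, ?_, ?_⟩
  · rcases hd with rfl | rfl
    · have := h2.neg
      simpa [sid] using this
    · simpa [sid] using h2
  · rcases hd with rfl | rfl
    · simpa [sid] using h1
    · simpa [sid] using h1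

theorem gen_re (f : C(unitInterval, ℂ)) {u : ℂ} (hu : u.re ∉ {y | ∃ x, IsLocalExtr
    (fun s => (f s).re) x ∧ (f x).re = y}) {d : ℤ × ℤ} (hd : d = (0, 1) ∨ d = (0, -1)) :
    ∀ σ, sid d (f σ) = sid d u → ¬ IsLocalExtr (fun s => sid d (f s)) σ := by
  intro σ h1 h2
  refine hu ⟨σ, ?_, ?_⟩
  · rcases hd with rfl | rfl
    · simpa [sid] using h2
    · have := h2.neg
      simpa [sid] using this
  · rcases hd with rfl | rfl
    · simpa [sid] using h1
    · simpa [sid] using h1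

theorem dirh {d : ℤ × ℤ} (hd : d = (1, 0) ∨ d = (-1, 0)) : Dir d := by
  rcases hd with rfl | rfl
  · exact Or.inr (Or.inr (Or.inl rfl))
  · exact Or.inr (Or.inr (Or.inr rfl))

theorem dirv {d : ℤ × ℤ} (hd : d = (0, 1) ∨ d = (0, -1)) : Dir d := by
  rcases hd with rfl | rfl
  · exact Or.inl rfl
  · exact Or.inr (Or.inl rfl)

/-- intermediate values off a countable set -/
theorem ivt_gen (g : unitInterval → ℝ) (hg : Continuous g) {s1 s2 : unitInterval}
    {B : Set ℝ} (hB : B.Countable) (hnc : ∃ s ∈ Set.Icc s1 s2, g s ≠ g s1) (hs : s1 ≤ s2) :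
    ∃ σ ∈ Set.Icc s1 s2, g σ ∉ B := by
  obtain ⟨s, hsI, hne⟩ := hnc
  have hd : Dense Bᶜ := hB.dense_compl ℝ
  have hpre : IsPreconnected (Set.Icc s1 s2) := isPreconnected_Icc
  have himg : (g '' Set.Icc s1 s2).OrdConnected :=
    (hpre.image g hg.continuousOn).ordConnected
  have m1 : g s1 ∈ g '' Set.Icc s1 s2 := ⟨s1, ⟨le_rfl, hs⟩, rfl⟩
  have m2 : g s ∈ g '' Set.Icc s1 s2 := ⟨s, hsI, rfl⟩
  rcases lt_or_gt_of_ne hne with h | h
  · obtain ⟨x, hx, hx2⟩ := hd.exists_between h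
    obtain ⟨σ, hσ, rfl⟩ := himg.out m2 m1 ⟨hx2.1.le, hx2.2.le⟩
    exact ⟨σ, hσ, hx⟩
  · obtain ⟨x, hx, hx2⟩ := hd.exists_between h
    obtain ⟨σ, hσ, rfl⟩ := himg.out m1 m2 ⟨hx2.1.le, hx2.2.le⟩
    exact ⟨σ, hσ, hx⟩

theorem case_re (f : C(unitInterval, ℂ)) {U : Set ℂ} (hU : IsOpen U) {w0 : ℂ} {τ : unitInterval}
    {r : ℝ} (hr : 0 < r)
    (hcl : f τ ∈ closure (connectedComponentIn (U \ Set.range f) w0))
    {ρ : ℝ} (hρ : 0 < ρ) (hρr : 2 * ρ < r) (hρU : Metric.ball (f τ) (2 * ρ) ⊆ U)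
    {s1 s2 : unitInterval} (hs : s1 < s2)
    (hI : ∀ s ∈ Set.Icc s1 s2, dist (f s) (f τ) < ρ)
    (hnc : ∃ s ∈ Set.Icc s1 s2, (f s).re ≠ (f s1).re) :
    Concl f (connectedComponentIn (U \ Set.range f) w0) (f τ) r := by
  have hcomp : IsCompact (Set.range f) := isCompact_range f.continuous
  have hop : IsOpen (U \ Set.range f) := hU.sdiff hcomp.isClosed
  have hWo : IsOpen (connectedComponentIn (U \ Set.range f) w0) := hop.connectedComponentIn
  have hWf : ∀ z ∈ connectedComponentIn (U \ Set.range f) w0, z ∉ Set.range f :=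
    fun z hz => (connectedComponentIn_subset _ _ hz).2
  have hB1 := ctbl_ext (fun s => (f s).im)
  have hB2 := ctbl_ext (fun s => (f s).re)
  obtain ⟨σ', hσ', hgσ⟩ := ivt_gen (fun s => (f s).re) (Complex.continuous_re.comp f.continuous)
    hB2 hnc hs.le
  -- the starting point
  obtain ⟨w1', hw1, hw1b⟩ := Metric.mem_closure_iff.1 hcl ρ hρ
  have hopen : IsOpen (connectedComponentIn (U \ Set.range f) w0 ∩ Metric.ball (f τ) ρ) :=
    hWo.inter Metric.isOpen_ball
  obtain ⟨ε, hε, hεb⟩ := Metric.isOpen_iff.1 hopen w1' ⟨hw1, by rwa [Metric.mem_ball, dist_comm]⟩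
  obtain ⟨y, hy, hy2⟩ := (hB1.dense_compl ℝ).exists_between
    (show w1'.im < w1'.im + ε by linarith)
  have hw1m : (⟨w1'.re, y⟩ : ℂ) ∈ connectedComponentIn (U \ Set.range f) w0 ∩
      Metric.ball (f τ) ρ := by
    refine hεb ?_
    rw [Metric.mem_ball, Complex.dist_eq]
    refine lt_of_le_of_lt (Complex.norm_le_abs_re_add_abs_im _) ?_
    simp only [Complex.sub_re, Complex.sub_im, sub_self, abs_zero, zero_add]
    rw [abs_of_pos (by linarith [hy2.1])]
    linarith [hy2.2]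
  set w1 : ℂ := ⟨w1'.re, y⟩ with hw1d
  have hb1 : |w1.re - (f τ).re| < ρ := by
    refine lt_of_le_of_lt ?_ hw1m.2
    rw [Complex.dist_eq, ← Complex.sub_re]; exact Complex.abs_re_le_norm _
  have hb2 : |w1.im - (f τ).im| < ρ := by
    refine lt_of_le_of_lt ?_ hw1m.2
    rw [Complex.dist_eq, ← Complex.sub_im]; exact Complex.abs_im_le_norm _
  have hb3 : |(f σ').re - (f τ).re| < ρ := by
    refine lt_of_le_of_lt ?_ (hI σ' hσ')
    rw [Complex.dist_eq, ← Complex.sub_re]; exact Complex.abs_re_le_norm _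
  have hb4 : |(f σ').im - (f τ).im| < ρ := by
    refine lt_of_le_of_lt ?_ (hI σ' hσ')
    rw [Complex.dist_eq, ← Complex.sub_im]; exact Complex.abs_im_le_norm _
  obtain ⟨d1, hd1, l1, hl1, hv1⟩ := dir_re w1 ⟨(f σ').re, w1.im⟩ rfl
  rcases axis_move f hU hr hρr hρU (dirh hd1) hl1 hv1 hw1m.1 hb1 hb2 hb3 hb2
    (gen_im f (u := w1) hy hd1) with h | hu1
  · exact h
  obtain ⟨d2, hd2, l2, hl2, hv2⟩ := dir_im (⟨(f σ').re, w1.im⟩ : ℂ) (f σ') rfl
  rcases axis_move f hU hr hρr hρU (dirv hd2) hl2 hv2 hu1 hb3 hb2 hb3 hb4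
    (gen_re f (u := ⟨(f σ').re, w1.im⟩) hgσ hd2) with h | hu2
  · exact h
  · exact absurd ⟨σ', rfl⟩ (hWf _ hu2)

theorem case_im (f : C(unitInterval, ℂ)) {U : Set ℂ} (hU : IsOpen U) {w0 : ℂ} {τ : unitInterval}
    {r : ℝ} (hr : 0 < r)
    (hcl : f τ ∈ closure (connectedComponentIn (U \ Set.range f) w0))
    {ρ : ℝ} (hρ : 0 < ρ) (hρr : 2 * ρ < r) (hρU : Metric.ball (f τ) (2 * ρ) ⊆ U)
    {s1 s2 : unitInterval} (hs : s1 < s2)
    (hI : ∀ s ∈ Set.Icc s1 s2, dist (f s) (f τ) < ρ)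
    (hnc : ∃ s ∈ Set.Icc s1 s2, (f s).im ≠ (f s1).im) :
    Concl f (connectedComponentIn (U \ Set.range f) w0) (f τ) r := by
  have hcomp : IsCompact (Set.range f) := isCompact_range f.continuous
  have hop : IsOpen (U \ Set.range f) := hU.sdiff hcomp.isClosed
  have hWo : IsOpen (connectedComponentIn (U \ Set.range f) w0) := hop.connectedComponentIn
  have hWf : ∀ z ∈ connectedComponentIn (U \ Set.range f) w0, z ∉ Set.range f :=
    fun z hz => (connectedComponentIn_subset _ _ hz).2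
  have hB1 := ctbl_ext (fun s => (f s).re)
  have hB2 := ctbl_ext (fun s => (f s).im)
  obtain ⟨σ', hσ', hgσ⟩ := ivt_gen (fun s => (f s).im) (Complex.continuous_im.comp f.continuous)
    hB2 hnc hs.le
  -- the starting point
  obtain ⟨w1', hw1, hw1b⟩ := Metric.mem_closure_iff.1 hcl ρ hρ
  have hopen : IsOpen (connectedComponentIn (U \ Set.range f) w0 ∩ Metric.ball (f τ) ρ) :=
    hWo.inter Metric.isOpen_ball
  obtain ⟨ε, hε, hεb⟩ := Metric.isOpen_iff.1 hopen w1' ⟨hw1, by rwa [Metric.mem_ball, dist_comm]⟩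
  obtain ⟨y, hy, hy2⟩ := (hB1.dense_compl ℝ).exists_between
    (show w1'.re < w1'.re + ε by linarith)
  have hw1m : (⟨y, w1'.im⟩ : ℂ) ∈ connectedComponentIn (U \ Set.range f) w0 ∩
      Metric.ball (f τ) ρ := by
    refine hεb ?_
    rw [Metric.mem_ball, Complex.dist_eq]
    refine lt_of_le_of_lt (Complex.norm_le_abs_re_add_abs_im _) ?_
    simp only [Complex.sub_re, Complex.sub_im, sub_self, abs_zero, add_zero]
    rw [abs_of_pos (by linarith [hy2.1])]
    linarith [hy2.2]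
  set w1 : ℂ := ⟨y, w1'.im⟩ with hw1d
  have hb1 : |w1.re - (f τ).re| < ρ := by
    refine lt_of_le_of_lt ?_ hw1m.2
    rw [Complex.dist_eq, ← Complex.sub_re]; exact Complex.abs_re_le_norm _
  have hb2 : |w1.im - (f τ).im| < ρ := by
    refine lt_of_le_of_lt ?_ hw1m.2
    rw [Complex.dist_eq, ← Complex.sub_im]; exact Complex.abs_im_le_norm _
  have hb3 : |(f σ').re - (f τ).re| < ρ := by
    refine lt_of_le_of_lt ?_ (hI σ' hσ')
    rw [Complex.dist_eq, ← Complex.sub_re]; exact Complex.abs_re_le_norm _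
  have hb4 : |(f σ').im - (f τ).im| < ρ := by
    refine lt_of_le_of_lt ?_ (hI σ' hσ')
    rw [Complex.dist_eq, ← Complex.sub_im]; exact Complex.abs_im_le_norm _
  obtain ⟨d1, hd1, l1, hl1, hv1⟩ := dir_im w1 ⟨w1.re, (f σ').im⟩ rfl
  rcases axis_move f hU hr hρr hρU (dirv hd1) hl1 hv1 hw1m.1 hb1 hb2 hb1 hb4
    (gen_re f (u := w1) hy hd1) with h | hu1
  · exact h
  obtain ⟨d2, hd2, l2, hl2, hv2⟩ := dir_re (⟨w1.re, (f σ').im⟩ : ℂ) (f σ') rfl
  rcases axis_move f hU hr hρr hρU (dirh hd2) hl2 hv2 hu1 hb1 hb4 hb3 hb4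
    (gen_im f (u := ⟨w1.re, (f σ').im⟩) hgσ hd2) with h | hu2
  · exact h
  · exact absurd ⟨σ', rfl⟩ (hWf _ hu2)

theorem t_AXI : S_AXI := by
  intro f U w0 τ r hU hτU hr hcl hnc
  obtain ⟨ρ1, hρ1, hρ1U⟩ := Metric.isOpen_iff.1 hU _ hτU
  set ρ : ℝ := min (ρ1 / 2) (r / 4) with hρd
  have hρ : 0 < ρ := lt_min (by linarith) (by linarith)
  have hρr : 2 * ρ < r := by have := min_le_right (ρ1 / 2) (r / 4); linarith
  have hρU : Metric.ball (f τ) (2 * ρ) ⊆ U := by
    refine (Metric.ball_subset_ball ?_).trans hρ1U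
    have := min_le_left (ρ1 / 2) (r / 4); linarith
  -- a small interval around `τ`
  have hcont : ∀ᶠ s in 𝓝 τ, dist (f s) (f τ) < ρ :=
    f.continuous.continuousAt.eventually (Metric.ball_mem_nhds _ hρ)
  obtain ⟨ε, hε, hball⟩ := Metric.eventually_nhds_iff.1 hcont
  have hint : ∃ s1 s2 : unitInterval, s1 < s2 ∧ ∀ s ∈ Set.Icc s1 s2, dist s τ < ε := by
    by_cases h : (τ : ℝ) < 1
    · set m : ℝ := min ((τ : ℝ) + ε / 2) 1 with hm
      have hm1 : (τ : ℝ) < m := lt_min (by linarith) h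
      have hm2 : m ≤ 1 := min_le_right _ _
      have hm3 : m ≤ (τ : ℝ) + ε / 2 := min_le_left _ _
      refine ⟨τ, ⟨m, ⟨by linarith [τ.2.1], hm2⟩⟩, hm1, fun s hs => ?_⟩
      rw [Subtype.dist_eq, Real.dist_eq, abs_lt]
      have e1 : (τ : ℝ) ≤ s := hs.1
      have e2 : (s : ℝ) ≤ m := hs.2
      constructor <;> linarith
    · have h1 : (τ : ℝ) = 1 := le_antisymm τ.2.2 (not_lt.1 h)
      set m : ℝ := max (1 - ε / 2) 0 with hm
      have hm1 : m < 1 := max_lt (by linarith) one_pos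
      have hm2 : 0 ≤ m := le_max_right _ _
      have hm3 : 1 - ε / 2 ≤ m := le_max_left _ _
      refine ⟨⟨m, ⟨hm2, hm1.le⟩⟩, τ, by rw [← Subtype.coe_lt_coe, h1]; exact hm1,
        fun s hs => ?_⟩
      rw [Subtype.dist_eq, Real.dist_eq, abs_lt, h1]
      have e1 : m ≤ (s : ℝ) := hs.1
      have e2 : (s : ℝ) ≤ 1 := s.2.2
      constructor <;> linarith
  obtain ⟨s1, s2, hs, hI⟩ := hint
  obtain ⟨u, hu, hune⟩ := hnc s1 s2 hs
  have hI' : ∀ s ∈ Set.Icc s1 s2, dist (f s) (f τ) < ρ := fun s hs => hball (hI s hs)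
  by_cases hre : (f u).re = (f s1).re
  · have him : (f u).im ≠ (f s1).im := fun h => hune (Complex.ext hre h)
    exact case_im f hU hr hcl hρ hρr hρU hs hI' ⟨u, hu, him⟩
  · exact case_re f hU hr hcl hρ hρr hρU hs hI' ⟨u, hu, hre⟩

end Run7.h165.EC
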