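import Pool.Agent.Run7.h561.EC.Stm
import Pool.Agent.Y989.FR.T_GEO

/-! # GEW: in the limit `z` is on the boundary of the component of `w` -/

set_option autoImplicit false

namespace Run7.h165.EC

open Set Filter Topology Metric
open Run7.h561.EC Pool.Agent.Y989.FR.GEO

/-- As `Pool.Agent.Y989.FR.GEO.step`, for chains to `w`. -/
theorem stepW {U : Set ℂ} {M R : ℝ} {B : ℕ} {N : ℕ → ℕ} {w : ℂ} {f : C(unitInterval, ℂ)} {z : ℂ}
    (hM : 0 < M) (hwz : w ≠ z)
    (hQ : ∀ k : ℕ, (f, z) ∈ QW Uᶜ M R (1 / ((k : ℝ) + 1)) B (N k) w) {η : ℝ}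
    (hη : 0 < η) (hηκ : η ≤ dist w z / 4) :
    ∃ v : ℂ, dist v z ≤ 2 * η ∧ v ∈ connectedComponentIn (U \ range f) w := by
  have hκ : 0 < dist w z := dist_pos.2 hwz
  set K : Set ℂ := (U \ range f)ᶜ with hK
  have hKc : U \ range f = Kᶜ := by rw [hK, compl_compl]
  have hηB : 0 < η ^ B := pow_pos hη B
  have hmη : 0 < η ^ B / (2 * M) := by positivity
  obtain ⟨k, hk⟩ := exists_nat_one_div_lt (lt_min (lt_min (half_pos hηB) hmη) (lt_min hη
    (half_pos hκ)))
  set e : ℝ := 1 / ((k : ℝ) + 1) with he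
  have he1 : e < η ^ B / 2 := hk.trans_le ((min_le_left _ _).trans (min_le_left _ _))
  have he2 : e < η ^ B / (2 * M) := hk.trans_le ((min_le_left _ _).trans (min_le_right _ _))
  have he3 : e < η := hk.trans_le ((min_le_right _ _).trans (min_le_left _ _))
  have he4 : e < dist w z / 2 := hk.trans_le ((min_le_right _ _).trans (min_le_right _ _))
  have hQk := hQ k
  rw [← he] at hQk
  generalize N k = n at hQk
  obtain ⟨-, -, x, hxR, hx0, hxN, hxs, hxd, hxO⟩ := hQk
  replace hx0 : dist (x 0) z ≤ e := hx0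
  replace hxN : dist (x (Fin.last n)) w ≤ e := hxN
  replace hxd : ∀ i s, dist (x i) z ^ B ≤ M * dist (x i) (f s) + e := hxd
  replace hxO : ∀ i, ∀ y ∈ Uᶜ, dist (x i) z ^ B ≤ M * dist (x i) y + e := hxO
  -- the chain with natural indices
  let X : ℕ → ℂ := fun i => x ⟨min i n, by omega⟩
  have hX0 : X 0 = x 0 := congrArg x (Fin.ext (Nat.zero_min n))
  have hXN : X n = x (Fin.last n) := congrArg x (Fin.ext (min_self n))
  have hXs : ∀ i, i < n → dist (X i) (X (i + 1)) ≤ e := by
    intro i hi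
    have h1 := hxs ⟨i, hi⟩
    have e1 : X i = x (Fin.castSucc ⟨i, hi⟩) := congrArg x (Fin.ext (min_eq_left hi.le))
    have e2 : X (i + 1) = x (Fin.succ ⟨i, hi⟩) := congrArg x (Fin.ext (min_eq_left hi))
    rw [e1, e2]
    exact h1
  have hXd : ∀ i, ∀ y ∈ K, dist (X i) z ^ B ≤ M * dist (X i) y + e := by
    intro i y hy
    by_cases hyU : y ∈ U
    · have h1 : y ∈ range f := by
        by_contra h2
        exact hy ⟨hyU, h2⟩
      obtain ⟨s, rfl⟩ := h1
      exact hxd _ s
    · exact hxO _ y hyU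
  -- points away from `z`
  have away : ∀ (i : ℕ), η ≤ dist (X i) z → ball (X i) (η ^ B / (2 * M)) ⊆ Kᶜ := by
    intro i hi
    apply Pool.Agent.Y989.FR.GEO.ball_sub
    intro y hy
    have h1 := hXd i y hy
    have h2 : η ^ B ≤ dist (X i) z ^ B := pow_le_pow_left₀ hη.le hi B
    rw [div_le_iff₀ (by positivity)]
    linarith
  have hP0 : dist (X 0) z < η := by
    rw [hX0]
    exact hx0.trans_lt he3
  have hPN' : dist w z / 2 ≤ dist (X n) z := by
    rw [hXN]
    have h1 := dist_triangle w (x (Fin.last n)) z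
    have h2 := dist_comm w (x (Fin.last n))
    linarith
  have hPN : ¬ dist (X n) z < η := by
    intro h
    linarith
  obtain ⟨j, hj, hPj, hPi⟩ := last_index (P := fun i => dist (X i) z < η) hP0 hPN
  have hcomp : ∀ i, j < i → i ≤ n →
      connectedComponentIn Kᶜ (X (j + 1)) = connectedComponentIn Kᶜ (X i) := by
    intro i hi
    induction i, hi using Nat.le_induction with
    | base => intro _; rfl
    | succ i hi ih =>
      intro hin
      rw [ih (by omega)]
      refine comp_eq hmη (away i (not_lt.1 (hPi i hi (by omega)))) ?_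
      exact (hXs i (by omega)).trans_lt he2
  have hjmem : X (j + 1) ∈ Kᶜ :=
    away (j + 1) (not_lt.1 (hPi (j + 1) (by omega) (by omega))) (mem_ball_self hmη)
  have hlast : connectedComponentIn Kᶜ (X n) = connectedComponentIn Kᶜ w := by
    refine comp_eq hmη (away n (not_lt.1 hPN)) ?_
    rw [hXN]
    exact hxN.trans_lt he2
  refine ⟨X (j + 1), ?_, ?_⟩
  · have h1 := dist_triangle (X (j + 1)) (X j) z
    have h2 := hXs j hj
    rw [dist_comm] at h2
    linarith
  · rw [hKc, ← hlast, ← hcomp n hj le_rfl]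
    exact mem_connectedComponentIn hjmem

theorem t_GEW : S_GEW := by
  intro U M R B N w f z _ _ hwf hM _ hQ
  have hKc : IsCompact (range f) := isCompact_range f.continuous
  have hz : z ∈ range f := by
    rw [← hKc.isClosed.closure_eq, Metric.mem_closure_iff]
    intro ε hε
    obtain ⟨k, hk⟩ := exists_nat_one_div_lt hε
    obtain ⟨-, ⟨s, hs⟩, -⟩ := hQ k
    refine ⟨f s, mem_range_self s, ?_⟩
    rw [dist_comm]
    exact hs.trans_lt hk
  have hwz : w ≠ z := fun h => hwf (h ▸ hz)
  have hκ : 0 < dist w z := dist_pos.2 hwz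
  refine ⟨hz, ?_⟩
  rw [Metric.mem_closure_iff]
  intro ε hε
  obtain ⟨v, hv1, hv2⟩ := stepW hM hwz hQ
    (lt_min (by linarith : (0 : ℝ) < dist w z / 4) (by positivity : (0 : ℝ) < ε / 4))
    (min_le_left _ _)
  have h3 : min (dist w z / 4) (ε / 4) ≤ ε / 4 := min_le_right _ _
  refine ⟨v, hv2, ?_⟩
  rw [dist_comm]
  linarith

end Run7.h165.EC
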