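import Pool.Agent.Run7.h165.EC.Hol1
import Pool.Agent.H342R3.Tig.GRD

/-! # The number of macroscopic clusters -/

set_option autoImplicit false

namespace Run7.h165.EC

open H342T H342L H342P H342P.Plain H984P MeasureTheory TopologicalSpace Filter Topology

theorem lineH {F : Finset Edge} {v : ℤ × ℤ} {c : ℤ} (k : ℕ) (a : ℤ)
    (h : ∀ j : ℤ, a < j → j ≤ a + k → ∀ y, (j, y) ∉ cluster F v) :
    (faceGraph (clusterEdges F v)).Reachable (a, c) (a + k, c) := by
  induction k with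
  | zero => simp
  | succ k ih =>
    refine (ih (fun j h1 h2 => h j h1 (by push_cast; omega))).trans ?_
    have he : ((a + k + 1, c, false) : Edge) ∉ clusterEdges F v := by
      intro he
      exact h (a + k + 1) (by omega) (by push_cast; omega) c he.2
    have h := TOPB_adj he
    simp only [side₁, side₂, Bool.false_eq_true, if_false] at h
    push_cast
    rw [← add_assoc]
    rwa [add_sub_cancel_right] at h

theorem lineV {F : Finset Edge} {v : ℤ × ℤ} {c : ℤ} (k : ℕ) (a : ℤ)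
    (h : ∀ j : ℤ, a < j → j ≤ a + k → ∀ x, (x, j) ∉ cluster F v) :
    (faceGraph (clusterEdges F v)).Reachable (c, a) (c, a + k) := by
  induction k with
  | zero => simp
  | succ k ih =>
    refine (ih (fun j h1 h2 => h j h1 (by push_cast; omega))).trans ?_
    have he : ((c, a + k + 1, true) : Edge) ∉ clusterEdges F v := by
      intro he
      exact h (a + k + 1) (by omega) (by push_cast; omega) c he.2
    have h := TOPB_adj he
    simp only [side₁, side₂, if_true] at h
    push_cast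
    rw [← add_assoc]
    rwa [add_sub_cancel_right] at h

theorem lineH' {F : Finset Edge} {v : ℤ × ℤ} {c a b : ℤ} (hab : a ≤ b)
    (h : ∀ j : ℤ, a < j → j ≤ b → ∀ y, (j, y) ∉ cluster F v) :
    (faceGraph (clusterEdges F v)).Reachable (a, c) (b, c) := by
  have h1 := lineH (c := c) (b - a).toNat a (fun j h1 h2 => h j h1 (by
    rw [Int.toNat_of_nonneg (by omega)] at h2; omega))
  rwa [Int.toNat_of_nonneg (by omega), add_sub_cancel] at h1

theorem lineV' {F : Finset Edge} {v : ℤ × ℤ} {c a b : ℤ} (hab : a ≤ b)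
    (h : ∀ j : ℤ, a < j → j ≤ b → ∀ x, (x, j) ∉ cluster F v) :
    (faceGraph (clusterEdges F v)).Reachable (c, a) (c, b) := by
  have h1 := lineV (c := c) (b - a).toNat a (fun j h1 h2 => h j h1 (by
    rw [Int.toNat_of_nonneg (by omega)] at h2; omega))
  rwa [Int.toNat_of_nonneg (by omega), add_sub_cancel] at h1

/-- An extreme vertex for an integer function. -/
theorem exists_extreme {n : ℕ} {F : Finset Edge} (hF : F ⊆ edges n) {v : ℤ × ℤ} (hv : v ∈ box n)
    (g : ℤ × ℤ → ℤ) : ∃ u ∈ cluster F v, ∀ w ∈ cluster F v, g w ≤ g u := by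
  classical
  have hfin : (cluster F v).Finite := (box n).finite_toSet.subset (TOPB_cluster hF hv)
  have hne : (hfin.toFinset).Nonempty :=
    ⟨v, hfin.mem_toFinset.2 (SimpleGraph.Reachable.refl _)⟩
  obtain ⟨u, hu, hmax⟩ := Finset.exists_max_image hfin.toFinset g hne
  exact ⟨u, hfin.mem_toFinset.1 hu, fun w hw => hmax w (hfin.mem_toFinset.2 hw)⟩

theorem box_iff {n : ℕ} {u : ℤ × ℤ} : u ∈ box n ↔ (0 ≤ u.1 ∧ u.1 ≤ n) ∧ (0 ≤ u.2 ∧ u.2 ≤ n) := by
  unfold box
  rw [Finset.mem_product, Finset.mem_Icc, Finset.mem_Icc]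

/-- The four extreme faces are outer faces. -/
theorem outer_right {n : ℕ} {F : Finset Edge} (hF : F ⊆ edges n) {v : ℤ × ℤ} (hv : v ∈ box n)
    {u : ℤ × ℤ} (hu : u ∈ cluster F v) (hmax : ∀ w ∈ cluster F v, w.1 ≤ u.1) :
    Plain.Outer F v (u.1, u.2) := by
  have hb := box_iff.1 (CPT_box hF hv hu)
  refine (lineH' (b := (n : ℤ)) hb.1.2 (fun j h1 _ y hy => ?_)).trans
    (TOPB_far hF (Or.inl (Or.inr le_rfl)))
  have := hmax _ hy
  simp only at this
  omega

theorem outer_left {n : ℕ} {F : Finset Edge} (hF : F ⊆ edges n) {v : ℤ × ℤ} (hv : v ∈ box n)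
    {u : ℤ × ℤ} (hu : u ∈ cluster F v) (hmin : ∀ w ∈ cluster F v, u.1 ≤ w.1) :
    Plain.Outer F v (u.1 - 1, u.2) := by
  have hb := box_iff.1 (CPT_box hF hv hu)
  refine (lineH' (a := -1) (b := u.1 - 1) (by omega) (fun j _ h2 y hy => ?_)).symm.trans
    (TOPB_far hF (Or.inl (Or.inl (by norm_num))))
  have := hmin _ hy
  simp only at this
  omega

theorem outer_top {n : ℕ} {F : Finset Edge} (hF : F ⊆ edges n) {v : ℤ × ℤ} (hv : v ∈ box n)
    {u : ℤ × ℤ} (hu : u ∈ cluster F v) (hmax : ∀ w ∈ cluster F v, w.2 ≤ u.2) :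
    Plain.Outer F v (u.1, u.2) := by
  have hb := box_iff.1 (CPT_box hF hv hu)
  refine (lineV' (b := (n : ℤ)) hb.2.2 (fun j h1 _ y hy => ?_)).trans
    (TOPB_far hF (Or.inr (Or.inr le_rfl)))
  have := hmax _ hy
  simp only at this
  omega

theorem outer_bot {n : ℕ} {F : Finset Edge} (hF : F ⊆ edges n) {v : ℤ × ℤ} (hv : v ∈ box n)
    {u : ℤ × ℤ} (hu : u ∈ cluster F v) (hmin : ∀ w ∈ cluster F v, u.2 ≤ w.2) :
    Plain.Outer F v (u.1, u.2 - 1) := by
  have hb := box_iff.1 (CPT_box hF hv hu)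
  refine (lineV' (a := -1) (b := u.2 - 1) (by omega) (fun j _ h2 y hy => ?_)).symm.trans
    (TOPB_far hF (Or.inr (Or.inl (by norm_num))))
  have := hmin _ hy
  simp only at this
  omega

/-- An orbit of a large cluster which goes far. -/
theorem far_orbit {n : ℕ} {F : Finset Edge} (hF : F ⊆ edges n) {v : ℤ × ℤ} (hv : v ∈ box n)
    {m : ℤ} {p q : ℤ × ℤ} (hp : p ∈ cluster F v) (hq : q ∈ cluster F v) (hpq : Far p m q) :
    ∃ σ : St, σ.1 ∈ cluster F v ∧ ∃ t, Far σ.1 m (orb (↑F) σ t).1 := by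
  have key : ∀ u w g g' : ℤ × ℤ, u ∈ cluster F v → w ∈ cluster F v → Inc u g → Inc w g' →
      Plain.Outer F v g → Plain.Outer F v g' → Far u m w →
      ∃ σ : St, σ.1 ∈ cluster F v ∧ ∃ t, Far σ.1 m (orb (↑F) σ t).1 := by
    intro u w g g' hu hw h1 h2 h3 h4 h5
    obtain ⟨q1, hq1⟩ := RNG_face h1
    obtain ⟨q2, hq2⟩ := RNG_face h2
    obtain ⟨s, hs⟩ := orb_one (F := F) (v := v) (σ := (u, q1)) (τ := (w, q2)) hu hw (by
      rw [hq1, hq2]
      exact SimpleGraph.Reachable.trans h3 (SimpleGraph.Reachable.symm h4))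
    exact ⟨(u, q1), hu, s, by rw [hs]; exact h5⟩
  have hx : ∀ p ∈ cluster F v, ∀ q ∈ cluster F v, p.1 + m ≤ q.1 →
      ∃ σ : St, σ.1 ∈ cluster F v ∧ ∃ t, Far σ.1 m (orb (↑F) σ t).1 := by
    intro p hp q hq h
    obtain ⟨u, hu, hu2⟩ := exists_extreme hF hv (fun w => -w.1)
    obtain ⟨w, hw, hw2⟩ := exists_extreme hF hv (fun w => w.1)
    refine key u w (u.1 - 1, u.2) (w.1, w.2) hu hw ⟨Or.inr rfl, Or.inl rfl⟩
      ⟨Or.inl rfl, Or.inl rfl⟩ (outer_left hF hv hu (fun z hz => by have := hu2 z hz; omega))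
      (outer_right hF hv hw hw2) ?_
    right; left
    have h1 := hu2 p hp
    have h2 := hw2 q hq
    omega
  have hy : ∀ p ∈ cluster F v, ∀ q ∈ cluster F v, p.2 + m ≤ q.2 →
      ∃ σ : St, σ.1 ∈ cluster F v ∧ ∃ t, Far σ.1 m (orb (↑F) σ t).1 := by
    intro p hp q hq h
    obtain ⟨u, hu, hu2⟩ := exists_extreme hF hv (fun w => -w.2)
    obtain ⟨w, hw, hw2⟩ := exists_extreme hF hv (fun w => w.2)
    refine key u w (u.1, u.2 - 1) (w.1, w.2) hu hw ⟨Or.inl rfl, Or.inr rfl⟩
      ⟨Or.inl rfl, Or.inl rfl⟩ (outer_bot hF hv hu (fun z hz => by have := hu2 z hz; omega))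
      (outer_top hF hv hw hw2) ?_
    right; right; right
    have h1 := hu2 p hp
    have h2 := hw2 q hq
    omega
  rcases hpq with h | h | h | h
  · exact hx q hq p hp (by omega)
  · exact hx p hp q hq h
  · exact hy q hq p hp (by omega)
  · exact hy p hp q hq h

/-- The cluster of `u` has a vertex at which a strand of `F'` starts (`R` maps the vertices). -/
def Hit1 (n a : ℕ) (b c : ℤ) (F F' : Finset Edge) (R : ℤ × ℤ → ℤ × ℤ) (u : ℤ × ℤ) : Prop :=
  ∃ x ∈ (Finset.range (n / a + 2) ×ˢ Finset.Icc c (c + n)), ∃ w ∈ cluster F u,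
    R w = (b + x.1 * a, x.2) ∧
    ∃ (Y : ℤ) (T : ℕ), Strand (↑F' : Set Edge) (b + x.1 * a) x.2 (b + x.1 * a + 3 * a) Y T

theorem hit_count {n a : ℕ} {b c : ℤ} {F F' : Finset Edge} {R : ℤ × ℤ → ℤ × ℤ}
    (hR : Function.Injective R) (S : Finset (ℤ × ℤ))
    (hinj : ∀ u ∈ S, ∀ v ∈ S, (∃ w, w ∈ cluster F u ∧ w ∈ cluster F v) → u = v)
    (h : ∀ u ∈ S, Hit1 n a b c F F' R u) : S.card ≤ NS n a b c F' := by
  classical
  choose! x hx w hw h1 h2 using h
  unfold NS
  refine Finset.card_le_card_of_injOn x ?_ ?_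
  · intro i hi
    rw [Finset.mem_coe] at hi
    rw [Finset.mem_coe, Finset.mem_filter]
    exact ⟨hx i hi, h2 i hi⟩
  · intro i hi j hj hij
    rw [Finset.mem_coe] at hi hj
    have e : R (w i) = R (w j) := by rw [h1 i hi, h1 j hj, hij]
    have e2 := hR e
    exact hinj i hi j hj ⟨w i, hw i hi, by rw [e2]; exact hw j hj⟩

theorem hit_cases {n a : ℕ} (ha : 1 ≤ a) {F : Finset Edge} (hF : F ⊆ edges n) {u : ℤ × ℤ}
    (hu : u ∈ box n) (hbig : ∃ p ∈ cluster F u, ∃ q ∈ cluster F u, Far p (4 * a + 2) q) :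
    Hit1 n a 0 0 F F id u ∨ Hit1 n a (-n) 0 F (rM F) rV u ∨
      Hit1 n a (-n) (-n) F (rM (rM F)) (fun w => rV (rV w)) u ∨
      Hit1 n a 0 (-n) F (rM (rM (rM F))) (fun w => rV (rV (rV w))) u := by
  have ha1 : (1:ℤ) ≤ a := by exact_mod_cast ha
  obtain ⟨p, hp, q, hq, hpq⟩ := hbig
  obtain ⟨σ, hσ, t0, ht0⟩ := far_orbit hF hu hp hq hpq
  have hcl : ∀ s, (orb (↑F : Set Edge) σ s).1 ∈ cluster F u := by
    intro s
    rw [mem_cluster] at hσ ⊢
    exact hσ.trans (pb_reach _ _ _)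
  have hin : ∀ s, H974.inR 0 n 0 n (orb (↑F : Set Edge) σ s).1 := by
    intro s
    have := box_iff.1 (CPT_box hF hu (hcl s))
    unfold H974.inR
    omega
  obtain ⟨t, ht, hf, hex⟩ := first_far2 (by omega) ht0
  rcases hex with h | h | h | h
  · left
    obtain ⟨x, hx, s', -, h1, h2⟩ := GRD_right (n := n) (a := a) ha (b := 0) (c := 0) (F := F)
      (σ := σ) (t := t) (by intro s; simpa using hin s) hf h
    exact ⟨x, hx, _, hcl s', by rw [h1]; rfl, h2⟩
  · right; right; right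
    obtain ⟨x, hx, s', -, h1, h2⟩ := GRD_right (n := n) (a := a) ha (b := 0) (c := -n)
      (F := rM (rM (rM F))) (σ := rS (rS (rS σ))) (t := t) (by
        intro s
        rw [rot_orb, rot_orb, rot_orb]
        have := hin s
        simp only [H974.inR, rS, rV, Equiv.coe_fn_mk] at this ⊢
        omega) (by
        intro s hs
        rw [rot_orb, rot_orb, rot_orb]
        have := hf s hs
        simp only [Far, rS, rV, Equiv.coe_fn_mk] at this ⊢
        omega) (by
        rw [rot_orb, rot_orb, rot_orb]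
        simp only [rS, rV, Equiv.coe_fn_mk]
        omega)
    refine ⟨x, hx, _, hcl s', ?_, h2⟩
    rw [rot_orb, rot_orb, rot_orb] at h1
    exact congrArg Prod.fst h1
  · right; right; left
    obtain ⟨x, hx, s', -, h1, h2⟩ := GRD_right (n := n) (a := a) ha (b := -n) (c := -n)
      (F := rM (rM F)) (σ := rS (rS σ)) (t := t) (by
        intro s
        rw [rot_orb, rot_orb]
        have := hin s
        simp only [H974.inR, rS, rV, Equiv.coe_fn_mk] at this ⊢
        omega) (by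
        intro s hs
        rw [rot_orb, rot_orb]
        have := hf s hs
        simp only [Far, rS, rV, Equiv.coe_fn_mk] at this ⊢
        omega) (by
        rw [rot_orb, rot_orb]
        simp only [rS, rV, Equiv.coe_fn_mk]
        omega)
    refine ⟨x, hx, _, hcl s', ?_, h2⟩
    rw [rot_orb, rot_orb] at h1
    exact congrArg Prod.fst h1
  · right; left
    obtain ⟨x, hx, s', -, h1, h2⟩ := GRD_right (n := n) (a := a) ha (b := -n) (c := 0)
      (F := rM F) (σ := rS σ) (t := t) (by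
        intro s
        rw [rot_orb]
        have := hin s
        simp only [H974.inR, rS, rV, Equiv.coe_fn_mk] at this ⊢
        omega) (by
        intro s hs
        rw [rot_orb]
        have := hf s hs
        simp only [Far, rS, rV, Equiv.coe_fn_mk] at this ⊢
        omega) (by
        rw [rot_orb]
        simp only [rS, rV, Equiv.coe_fn_mk]
        omega)
    refine ⟨x, hx, _, hcl s', ?_, h2⟩
    rw [rot_orb] at h1
    exact congrArg Prod.fst h1

/-- The number of large clusters. -/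
theorem count_big {n a : ℕ} (ha : 1 ≤ a) {F : Finset Edge} (hF : F ⊆ edges n)
    (S : Finset (ℤ × ℤ)) (hS : ∀ u ∈ S, u ∈ box n)
    (hbig : ∀ u ∈ S, ∃ p ∈ cluster F u, ∃ q ∈ cluster F u, Far p (4 * a + 2) q)
    (hinj : ∀ u ∈ S, ∀ v ∈ S, (∃ w, w ∈ cluster F u ∧ w ∈ cluster F v) → u = v) :
    S.card ≤ N4 n a F := by
  classical
  have hcase : ∀ u ∈ S, _ := fun u hu => hit_cases ha hF (hS u hu) (hbig u hu)
  have hrV : Function.Injective (rV : ℤ × ℤ → ℤ × ℤ) := rV.injective
  have hcnt : ∀ (b c : ℤ) (F' : Finset Edge) (R : ℤ × ℤ → ℤ × ℤ), Function.Injective R →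
      (S.filter (fun u => Hit1 n a b c F F' R u)).card ≤ NS n a b c F' := by
    intro b c F' R hR
    refine hit_count (F := F) hR _ ?_ ?_
    · intro u hu v hv h
      exact hinj u (Finset.mem_filter.1 hu).1 v (Finset.mem_filter.1 hv).1 h
    · intro u hu
      exact (Finset.mem_filter.1 hu).2
  have c0 := hcnt 0 0 F id Function.injective_id
  have c1 := hcnt (-n) 0 (rM F) rV hrV
  have c2 := hcnt (-n) (-n) (rM (rM F)) (fun w => rV (rV w)) (hrV.comp hrV)
  have c3 := hcnt 0 (-n) (rM (rM (rM F))) (fun w => rV (rV (rV w))) (hrV.comp (hrV.comp hrV))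
  have hsub : S ⊆ ((S.filter (fun u => Hit1 n a 0 0 F F id u) ∪
      S.filter (fun u => Hit1 n a (-n) 0 F (rM F) rV u)) ∪
      S.filter (fun u => Hit1 n a (-n) (-n) F (rM (rM F)) (fun w => rV (rV w)) u)) ∪
      S.filter (fun u => Hit1 n a 0 (-n) F (rM (rM (rM F))) (fun w => rV (rV (rV w))) u) := by
    intro u hu
    have h := hcase u hu
    simp only [Finset.mem_union, Finset.mem_filter]
    tauto
  have h1 := Finset.card_le_card hsub
  have h2 := Finset.card_union_le ((S.filter (fun u => Hit1 n a 0 0 F F id u) ∪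
      S.filter (fun u => Hit1 n a (-n) 0 F (rM F) rV u)) ∪
      S.filter (fun u => Hit1 n a (-n) (-n) F (rM (rM F)) (fun w => rV (rV w)) u))
      (S.filter (fun u => Hit1 n a 0 (-n) F (rM (rM (rM F))) (fun w => rV (rV (rV w))) u))
  have h3 := Finset.card_union_le (S.filter (fun u => Hit1 n a 0 0 F F id u) ∪
      S.filter (fun u => Hit1 n a (-n) 0 F (rM F) rV u))
      (S.filter (fun u => Hit1 n a (-n) (-n) F (rM (rM F)) (fun w => rV (rV w)) u))
  have h4 := Finset.card_union_le (S.filter (fun u => Hit1 n a 0 0 F F id u))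
      (S.filter (fun u => Hit1 n a (-n) 0 F (rM F) rV u))
  unfold N4
  omega

end Run7.h165.EC
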