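import Pool.Agent.Run7.h165.EC.Hol4
import Pool.Agent.Run7.h165.EC.Hol3
import Pool.Agent.Run7.h561.EC.P_J8
import Pool.Agent.H342R3.Lim.CPT
import Pool.Agent.H342R3.Tig.CNT

/-! # The collection of all clusters: rules and discrete events -/

set_option autoImplicit false

namespace Run7.h165.EC

open H342T H342L H342P H342P.Plain H984P MeasureTheory TopologicalSpace Filter Topology
open scoped ENNReal NNReal

/-- The cluster of `v` (its vertices and its edges, divided by `n`) as a compact set. -/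
noncomputable def clu (n : ℕ) (F : Finset Edge) (v : ℤ × ℤ) : NonemptyCompacts ℂ :=
  ⟨⟨body n F v, CPT_isCompact_body n F v⟩, ⟨pt n v, CPT_pt_mem n F v⟩⟩

theorem coe_clu (n : ℕ) (F : Finset Edge) (v : ℤ × ℤ) : (clu n F v : Set ℂ) = body n F v := rfl

theorem zero_box (n : ℕ) : ((0, 0) : ℤ × ℤ) ∈ box n := by
  rw [box_iff]
  simp

/-- The collection of all clusters of the box. -/
noncomputable def coll (n : ℕ) (F : Finset Edge) : NonemptyCompacts (NonemptyCompacts ℂ) :=
  ⟨⟨clu n F '' (box n : Set (ℤ × ℤ)), ((box n).finite_toSet.image _).isCompact⟩,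
    ⟨clu n F (0, 0), _, zero_box n, rfl⟩⟩

theorem mem_coll {n : ℕ} {F : Finset Edge} {K : NonemptyCompacts ℂ} (h : K ∈ coll n F) :
    ∃ v ∈ box n, K = clu n F v := by
  obtain ⟨v, hv, rfl⟩ := (h : K ∈ clu n F '' (box n : Set (ℤ × ℤ)))
  exact ⟨v, hv, rfl⟩

/-- `K` has two points at distance more than `ε`. -/
def Big (ε : ℝ) (K : Set ℂ) : Prop := ∃ a ∈ K, ∃ b ∈ K, ε < dist a b

open Classical in
/-- A vertex which only depends on the cluster. -/
noncomputable def repC (C : Set (ℤ × ℤ)) : ℤ × ℤ := if h : C.Nonempty then h.some else (0, 0)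

theorem cluster_self (F : Finset Edge) (v : ℤ × ℤ) : v ∈ cluster F v :=
  SimpleGraph.Reachable.refl _

theorem cluster_eq {F : Finset Edge} {u v : ℤ × ℤ} (h : u ∈ cluster F v) :
    cluster F u = cluster F v := by
  ext w
  exact ⟨fun hw => SimpleGraph.Reachable.trans h hw,
    fun hw => SimpleGraph.Reachable.trans (SimpleGraph.Reachable.symm h) hw⟩

theorem repC_mem (F : Finset Edge) (v : ℤ × ℤ) : repC (cluster F v) ∈ cluster F v := by
  have h : (cluster F v).Nonempty := ⟨v, cluster_self F v⟩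
  unfold repC
  rw [dif_pos h]
  exact h.some_mem

theorem body_eq {n : ℕ} {F : Finset Edge} {u v : ℤ × ℤ} (h : cluster F u = cluster F v) :
    body n F u = body n F v := by
  unfold body clusterEdges
  rw [h]

theorem clu_eq {n : ℕ} {F : Finset Edge} {u v : ℤ × ℤ} (h : cluster F u = cluster F v) :
    clu n F u = clu n F v := by
  apply SetLike.coe_injective
  exact body_eq h

open Classical in
/-- Representatives of the clusters of diameter more than `ε`. -/
noncomputable def reps (n : ℕ) (ε : ℝ) (F : Finset Edge) : Finset (ℤ × ℤ) :=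
  ((box n).filter (fun v => Big ε (body n F v))).image (fun v => repC (cluster F v))

/-- The `j`-th representative. -/
noncomputable def vj (n : ℕ) (ε : ℝ) (F : Finset Edge) (j : ℕ) : ℤ × ℤ :=
  (reps n ε F).toList.getD j (0, 0)

theorem reps_mem {n : ℕ} {ε : ℝ} {F : Finset Edge} {s : ℤ × ℤ} (hs : s ∈ reps n ε F) :
    ∃ v ∈ box n, Big ε (body n F v) ∧ s = repC (cluster F v) ∧ cluster F s = cluster F v := by
  classical
  unfold reps at hs
  obtain ⟨v, hv, rfl⟩ := Finset.mem_image.1 hs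
  obtain ⟨h1, h2⟩ := Finset.mem_filter.1 hv
  exact ⟨v, h1, h2, rfl, cluster_eq (repC_mem F v)⟩

theorem reps_box {n : ℕ} {ε : ℝ} {F : Finset Edge} (hF : F ⊆ edges n) {s : ℤ × ℤ}
    (hs : s ∈ reps n ε F) : s ∈ box n := by
  obtain ⟨v, hv, -, -, h⟩ := reps_mem hs
  apply CPT_box hF hv
  rw [← h]
  exact cluster_self F s

theorem vj_box {n : ℕ} {ε : ℝ} {F : Finset Edge} (hF : F ⊆ edges n) (j : ℕ) :
    vj n ε F j ∈ box n := by
  unfold vj
  by_cases h : j < (reps n ε F).toList.length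
  · rw [List.getD_eq_getElem _ _ h]
    exact reps_box hF (Finset.mem_toList.1 (List.getElem_mem h))
  · rw [List.getD_eq_default _ _ (by omega)]
    exact zero_box n

theorem vj_surj {n : ℕ} {ε : ℝ} {F : Finset Edge} {N : ℕ} (hN : (reps n ε F).card ≤ N)
    {u : ℤ × ℤ} (hu : u ∈ box n) (hbig : Big ε (body n F u)) :
    ∃ j < N, clu n F u = clu n F (vj n ε F j) := by
  classical
  have hs : repC (cluster F u) ∈ reps n ε F :=
    Finset.mem_image.2 ⟨u, Finset.mem_filter.2 ⟨hu, hbig⟩, rfl⟩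
  obtain ⟨j, hj, hj2⟩ := List.mem_iff_getElem.1 (Finset.mem_toList.2 hs)
  refine ⟨j, ?_, ?_⟩
  · rw [Finset.length_toList] at hj
    omega
  · unfold vj
    rw [List.getD_eq_getElem _ _ hj, hj2]
    exact (clu_eq (cluster_eq (repC_mem F u))).symm

/-- A large cluster has two vertices far from each other. -/
theorem far_of_big {n a : ℕ} (hn : 0 < n) {ε : ℝ} {F : Finset Edge} {v : ℤ × ℤ}
    (ha : 4 * (a : ℝ) + 4 ≤ ε * n / 2) (hb : Big ε (body n F v)) :
    ∃ p ∈ cluster F v, ∃ q ∈ cluster F v, Far p (4 * a + 2) q := by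
  obtain ⟨z, hz, w, hw, hd⟩ := hb
  have hn' : (0 : ℝ) < n := by exact_mod_cast hn
  obtain ⟨p, hp, -, hp1, hp2⟩ := TOPB_end hn hz (TOPB_floor n z)
  obtain ⟨q, hq, -, hq1, hq2⟩ := TOPB_end hn hw (TOPB_floor n w)
  refine ⟨p, hp, q, hq, ?_⟩
  by_contra hfar
  unfold Far at hfar
  push Not at hfar
  obtain ⟨f1, f2, f3, f4⟩ := hfar
  have hx : |(p.1 : ℝ) - q.1| ≤ 4 * a + 1 := by
    rw [abs_le]
    constructor
    · have : (q.1 : ℤ) - p.1 ≤ 4 * a + 1 := by omega
      have h : ((q.1 : ℤ) : ℝ) - p.1 ≤ 4 * a + 1 := by exact_mod_cast this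
      linarith
    · have : (p.1 : ℤ) - q.1 ≤ 4 * a + 1 := by omega
      exact_mod_cast this
  have hy : |(p.2 : ℝ) - q.2| ≤ 4 * a + 1 := by
    rw [abs_le]
    constructor
    · have : (q.2 : ℤ) - p.2 ≤ 4 * a + 1 := by omega
      have h : ((q.2 : ℤ) : ℝ) - p.2 ≤ 4 * a + 1 := by exact_mod_cast this
      linarith
    · have : (p.2 : ℤ) - q.2 ≤ 4 * a + 1 := by omega
      exact_mod_cast this
  have e1 : |z.re - w.re| ≤ (4 * a + 3) / n := by
    have h1 : z.re - w.re = (z.re - (pt n p).re) + ((p.1 : ℝ) - q.1) / n +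
        ((pt n q).re - w.re) := by
      simp only [pt]
      ring
    rw [h1]
    refine (abs_add_le _ _).trans ((add_le_add_left (abs_add_le _ _) _).trans ?_)
    rw [abs_div, abs_of_pos hn', abs_sub_comm _ w.re]
    have h2 : |(p.1 : ℝ) - q.1| / n ≤ (4 * a + 1) / n := div_le_div_of_nonneg_right hx hn'.le
    have h3 : (4 * (a : ℝ) + 3) / n = 1 / n + (4 * a + 1) / n + 1 / n := by ring
    rw [h3]
    linarith
  have e2 : |z.im - w.im| ≤ (4 * a + 3) / n := by
    have h1 : z.im - w.im = (z.im - (pt n p).im) + ((p.2 : ℝ) - q.2) / n +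
        ((pt n q).im - w.im) := by
      simp only [pt]
      ring
    rw [h1]
    refine (abs_add_le _ _).trans ((add_le_add_left (abs_add_le _ _) _).trans ?_)
    rw [abs_div, abs_of_pos hn', abs_sub_comm _ w.im]
    have h2 : |(p.2 : ℝ) - q.2| / n ≤ (4 * a + 1) / n := div_le_div_of_nonneg_right hy hn'.le
    have h3 : (4 * (a : ℝ) + 3) / n = 1 / n + (4 * a + 1) / n + 1 / n := by ring
    rw [h3]
    linarith
  have h3 : dist z w ≤ (4 * a + 3) / n + (4 * a + 3) / n := by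
    rw [Complex.dist_eq]
    refine (Complex.norm_le_abs_re_add_abs_im _).trans ?_
    rw [Complex.sub_re, Complex.sub_im]
    exact add_le_add e1 e2
  have h4 : (4 * (a : ℝ) + 3) / n + (4 * a + 3) / n = 2 * (4 * a + 3) / n := by ring
  rw [h4, le_div_iff₀ hn'] at h3
  nlinarith

theorem reps_card {n a : ℕ} (hn : 0 < n) (ha1 : 1 ≤ a) {ε : ℝ} {F : Finset Edge}
    (hF : F ⊆ edges n) (ha : 4 * (a : ℝ) + 4 ≤ ε * n / 2) :
    (reps n ε F).card ≤ N4 n a F := by
  apply count_big ha1 hF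
  · exact fun u hu => reps_box hF hu
  · intro u hu
    obtain ⟨v, hv, h1, -, h2⟩ := reps_mem hu
    rw [h2]
    exact far_of_big hn ha h1
  · rintro u hu v hv ⟨w, hw1, hw2⟩
    obtain ⟨u', -, -, e1, e2⟩ := reps_mem hu
    obtain ⟨v', -, -, e3, e4⟩ := reps_mem hv
    have h1 := cluster_eq hw1
    have h2 := cluster_eq hw2
    rw [e1, e3]
    congr 1
    rw [← e2, ← e4, ← h1, ← h2]

/-- The number of large clusters is tight. -/
theorem reps_tight : ∃ C : ℝ, 0 < C ∧ ∀ (n N : ℕ) (ε : ℝ), 0 < ε → ε ≤ 1 → 200 ≤ ε * n → 1 ≤ N →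
    prob n (fun F => ¬ (reps n ε F).card < N) ≤ C * (1 / ε) ^ 2 / N := by
  obtain ⟨C, hC, h⟩ := t_CNT
  refine ⟨C * 2500, by positivity, fun n N ε hε hε1 hn hN => ?_⟩
  have hn0 : (0 : ℝ) < n := by
    by_contra hcon
    push Not at hcon
    nlinarith
  have hn' : 0 < n := by exact_mod_cast hn0
  set a : ℕ := ⌊ε * n / 20⌋₊ with haa
  have h1 : (a : ℝ) ≤ ε * n / 20 := Nat.floor_le (by positivity)
  have h2 : ε * n / 20 < a + 1 := Nat.lt_floor_add_one _
  have ha5 : 5 ≤ a := by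
    apply Nat.le_floor
    push_cast
    linarith
  have ha5' : (5 : ℝ) ≤ a := by exact_mod_cast ha5
  have h3 := h n a N ha5 hN
  refine (prob_le_of_pr (B := fun F => N ≤ N4 n a F) ?_).trans (h3.trans ?_)
  · intro F hF hnot
    push Not at hnot
    exact hnot.trans (reps_card hn' (by omega) hF (by linarith))
  · have hN' : (0 : ℝ) < N := by exact_mod_cast hN
    rw [div_le_div_iff_of_pos_right hN', mul_assoc]
    apply mul_le_mul_of_nonneg_left _ hC.le
    have h4 : (n : ℝ) / a + 1 ≤ 50 * (1 / ε) := by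
      have h5 : (n : ℝ) / a ≤ 40 * (1 / ε) := by
        rw [div_le_iff₀ (by linarith), mul_comm 40, mul_assoc, one_div, ← div_eq_inv_mul,
          le_div_iff₀ hε]
        linarith
      have h6 : 1 ≤ 1 / ε := by
        rw [le_div_iff₀ hε]
        linarith
      linarith
    calc ((n : ℝ) / a + 1) ^ 2 ≤ (50 * (1 / ε)) ^ 2 :=
          pow_le_pow_left₀ (by positivity) h4 2
      _ = 2500 * (1 / ε) ^ 2 := by ring

/-! ### The rule for the loops -/

theorem default_loop (F : Finset Edge) : ∃ (σ : St) (N : ℕ), 0 < N ∧ σ.1 = (0, 0) ∧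
    orb (↑F) σ N = σ ∧ (∀ j, 0 < j → j < N → orb (↑F) σ j ≠ σ) := by
  classical
  have hper := P17.periodic F ((0, 0), .ne)
  exact ⟨((0, 0), .ne), Nat.find hper, (Nat.find_spec hper).1, rfl, (Nat.find_spec hper).2,
    fun j hj hjN he => Nat.find_min hper hjN ⟨hj, he⟩⟩

/-- Existence of the loops. -/
theorem ex_loop (n : ℕ) (F : Finset Edge) (v : ℤ × ℤ) (w : ℂ) : ∃ c : Curve,
    (v ∈ box n → F ⊆ edges n → Run7.h561.EC.IsLoopB n F c) ∧
    (0 < n → w ∉ body n F v → Rel (body n F v) (Set.range c.path) w) := by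
  by_cases h : 0 < n ∧ w ∉ body n F v
  · obtain ⟨σ, N, hN, hσ, h1, h2, h3, h4⟩ := hol_loop h.1 h.2
    refine ⟨⟨poly (fun j => pt n (orb (↑F) σ j).1) N⟩, fun hv hF => ?_, fun _ _ => ?_⟩
    · exact ⟨σ, N, hN, CPT_box hF hv hσ, h1, h2, rfl⟩
    · exact rel_of_front (CPT_isCompact_body n F v).isClosed h.2 h3 h4
  · obtain ⟨σ, N, hN, hσ, h1, h2⟩ := default_loop F
    refine ⟨⟨poly (fun j => pt n (orb (↑F) σ j).1) N⟩, fun _ _ => ?_, fun hn hw => ?_⟩
    · exact ⟨σ, N, hN, by rw [hσ]; exact zero_box n, h1, h2, rfl⟩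
    · exact absurd ⟨hn, hw⟩ h

/-- The loop around the component at `w` of the complement of the cluster of `v`. -/
noncomputable def lp (n : ℕ) (F : Finset Edge) (v : ℤ × ℤ) (w : ℂ) : Curve :=
  (ex_loop n F v w).choose

theorem lp_loop {n : ℕ} {F : Finset Edge} {v : ℤ × ℤ} (w : ℂ) (hv : v ∈ box n)
    (hF : F ⊆ edges n) : Run7.h561.EC.IsLoopB n F (lp n F v w) :=
  (ex_loop n F v w).choose_spec.1 hv hF

theorem lp_rel {n : ℕ} {F : Finset Edge} {v : ℤ × ℤ} {w : ℂ} (hn : 0 < n)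
    (hw : w ∉ body n F v) : Rel (body n F v) (Set.range (lp n F v w).path) w :=
  (ex_loop n F v w).choose_spec.2 hn hw

end Run7.h165.EC
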