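import Pool.Agent.Run7.h165.EC.Hol5
import Pool.Agent.Run7.h165.EC.Finw
import Pool.Agent.H342R3.Tig.SML
import Pool.Agent.H342R3.Tig.ARZ
import Pool.Agent.H342R3.Tig.GRD

/-! # The limits of the collection of all clusters -/

set_option autoImplicit false

namespace Run7.h165.EC

open H342T H342L H342P H342P.Plain H984P MeasureTheory Filter Topology TopologicalSpace Metric
open Run7.h561.EC
open scoped ENNReal NNReal
open Pool.Agent.W822.PD (Sqc)

noncomputable instance instMNCC : MeasurableSpace (NonemptyCompacts (NonemptyCompacts ℂ)) :=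
  borel _
instance instBNCC : BorelSpace (NonemptyCompacts (NonemptyCompacts ℂ)) := ⟨rfl⟩

instance instSepCurve : SeparableSpace Curve := by
  have hs : Function.Surjective (fun f : C(unitInterval, ℂ) => (⟨f⟩ : Curve)) := by
    rintro ⟨f⟩
    exact ⟨f, rfl⟩
  exact hs.denseRange.separableSpace PRK_continuous_mk

/-- At `w`: the component of the complement of `K` at `w` has a boundary of dimension `4/3`, and so
has, around each of its points in the open unit square, the part of it in this square. -/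
def GoodAt (K : Set ℂ) (w : ℂ) : Prop := w ∉ K →
  dimH (frontier (connectedComponentIn Kᶜ w)) = 4 / 3 ∧
  ∀ z ∈ frontier (connectedComponentIn Kᶜ w), z ∈ Pool.Agent.W822.PD.Sq → ∀ ρ : ℝ, 0 < ρ →
    dimH (frontier (connectedComponentIn Kᶜ w) ∩ (Pool.Agent.W822.PD.Sq ∩ ball z ρ)) = 4 / 3

theorem image_all (f : C(unitInterval, ℂ)) : f '' Set.Icc 0 1 = Set.range f := by
  have h : Set.Icc (0 : unitInterval) 1 = Set.univ :=
    Set.eq_univ_of_forall fun t => ⟨t.2.1, t.2.2⟩
  rw [h, Set.image_univ]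

theorem curve_good (hF : S_FINL) (hb : Pool.Agent.W822.PD.PD_HB)
    {γ : (n : ℕ) → Finset Plain.Edge → Curve} (hT : Lps γ) {k : ℕ → ℕ} (hk : Tendsto k atTop atTop)
    {μ : ProbabilityMeasure Curve}
    (hμ : Tendsto (fun i => lawOf (k i) (γ (k i))) atTop (𝓝 μ)) :
    ∀ᵐ c : Curve ∂(μ : Measure Curve), (∃ s t : unitInterval, c.path s ≠ c.path t) →
      ∀ w, GoodAt (Set.range c.path) w := by
  filter_upwards [hF γ hT k hk μ hμ, t_FINW hF hb hT hk hμ] with c hc1 hc2 hne w hw
  have hne' : ∃ u ∈ Set.Icc (0 : unitInterval) 1, c.path u ≠ c.path 0 := by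
    by_contra hcon
    push Not at hcon
    obtain ⟨s, t, hst⟩ := hne
    exact hst ((hcon s ⟨s.2.1, s.2.2⟩).trans (hcon t ⟨t.2.1, t.2.2⟩).symm)
  have h1 := hc1 0 1 hne' Set.univ isOpen_univ w
  have h2 := (hc2 0 1 hne').1 w
  rw [image_all] at h1 h2
  rw [← Set.compl_eq_univ_sdiff] at h1
  refine ⟨h2 hw, fun z hz hzS ρ hρ => ?_⟩
  have h3 := h1 z (Set.mem_univ z) hzS hz ρ hρ
  rwa [Set.univ_inter] at h3

theorem E1_closed (ε : ℝ) (N : ℕ) : IsClosed
    {x : NonemptyCompacts (NonemptyCompacts ℂ) × ((Fin N → NonemptyCompacts ℂ) × (Fin N → Curve)) |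
      ∀ K ∈ (x.1 : Set (NonemptyCompacts ℂ)), ¬ Big ε (K : Set ℂ) ∨ ∃ j, K = x.2.1 j} := by
  apply IsSeqClosed.isClosed
  intro x y hx hlim K hK
  by_contra hcon
  push Not at hcon
  obtain ⟨⟨a, ha, b, hb, hab⟩, hne⟩ := hcon
  have h1 : Tendsto (fun i => (x i).1) atTop (𝓝 y.1) := (continuous_fst.tendsto y).comp hlim
  have h2 : ∀ j, Tendsto (fun i => (x i).2.1 j) atTop (𝓝 (y.2.1 j)) := fun j =>
    (((continuous_apply j).comp (continuous_fst.comp continuous_snd)).tendsto y).comp hlim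
  obtain ⟨δ, hδ, hδj⟩ : ∃ δ : ℝ, 0 < δ ∧ ∀ j, δ ≤ dist K (y.2.1 j) := by
    rcases Nat.eq_zero_or_pos N with h0 | h0
    · subst h0
      exact ⟨1, one_pos, fun j => j.elim0⟩
    · have hne2 : (Finset.univ : Finset (Fin N)).Nonempty := ⟨⟨0, h0⟩, Finset.mem_univ _⟩
      obtain ⟨j0, -, hj0⟩ := Finset.exists_min_image Finset.univ (fun j => dist K (y.2.1 j)) hne2
      exact ⟨dist K (y.2.1 j0), dist_pos.2 (hne j0), fun j => hj0 j (Finset.mem_univ j)⟩
  set η : ℝ := min (δ / 2) ((dist a b - ε) / 2) with hη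
  have hη0 : 0 < η := lt_min (by positivity) (by linarith)
  have hη1 : η ≤ δ / 2 := min_le_left _ _
  have hη2 : η ≤ (dist a b - ε) / 2 := min_le_right _ _
  have e1 : ∀ᶠ i in atTop, dist (x i).1 y.1 < η := (Metric.tendsto_nhds.1 h1) η hη0
  have e2 : ∀ᶠ i in atTop, ∀ j, dist ((x i).2.1 j) (y.2.1 j) < η :=
    eventually_all.2 fun j => (Metric.tendsto_nhds.1 (h2 j)) η hη0
  obtain ⟨i, h3, h4⟩ := (e1.and e2).exists
  obtain ⟨K', hK', hd⟩ := nc_near (by rwa [dist_comm] : dist y.1 (x i).1 < η) K hK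
  obtain ⟨a', ha', hda⟩ := nc_near hd a ha
  obtain ⟨b', hb', hdb⟩ := nc_near hd b hb
  have hbig : Big ε (K' : Set ℂ) := by
    refine ⟨a', ha', b', hb', ?_⟩
    have t1 := dist_triangle a a' b
    have t2 := dist_triangle a' b' b
    rw [dist_comm b' b] at t2
    linarith
  rcases hx i K' hK' with h5 | ⟨j, hj⟩
  · exact h5 hbig
  · have h6 := hδj j
    have h7 := dist_triangle K K' (y.2.1 j)
    have h8 := h4 j
    rw [← hj] at h8
    linarith

theorem E2_closed (w : ℂ) (N : ℕ) (j : Fin N) : IsClosed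
    {x : NonemptyCompacts (NonemptyCompacts ℂ) × ((Fin N → NonemptyCompacts ℂ) × (Fin N → Curve)) |
      w ∈ (x.2.1 j : Set ℂ) ∨ Rel (x.2.1 j : Set ℂ) (Set.range (x.2.2 j).path) w} := by
  have hc : Continuous (fun x : NonemptyCompacts (NonemptyCompacts ℂ) ×
      ((Fin N → NonemptyCompacts ℂ) × (Fin N → Curve)) => (x.2.1 j, (x.2.2 j).trace)) := by
    apply Continuous.prodMk
    · exact (continuous_apply j).comp (continuous_fst.comp continuous_snd)
    · exact Curve.continuous_trace.comp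
        ((continuous_apply j).comp (continuous_snd.comp continuous_snd))
  exact (rel_closed w).preimage hc

theorem law_zero {X : Type*} [MeasurableSpace X] {n : ℕ} {f : Finset Edge → X} {G : Set X}
    (hG : MeasurableSet G) (h : ∀ F, F ⊆ edges n → f F ∉ G) : (lawOf n f : Measure X) G = 0 := by
  rw [lawOf_apply _ _ hG]
  have h1 : prob n (fun F => f F ∈ G) ≤ 0 := by
    refine (prob_mono (B := fun F => ¬ True) (fun F hF hx => (h F hF hx).elim)).trans ?_
    rw [prob_not, prob_true]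
    norm_num
  exact ENNReal.ofReal_of_nonpos h1

/-- A nonconstant curve, from the relation. -/
theorem nonconst_of_rel {K : Set ℂ} {f : C(unitInterval, ℂ)} {w : ℂ} (hK : ∃ a ∈ K, ∃ b ∈ K, a ≠ b)
    (hw : w ∉ K) (hR : Rel K (Set.range f) w) : ∃ s t : unitInterval, f s ≠ f t := by
  by_contra hcon
  push Not at hcon
  have hr : Set.range f = {f 0} := by
    ext z
    constructor
    · rintro ⟨t, rfl⟩
      exact hcon t 0
    · rintro rfl
      exact ⟨0, rfl⟩
  rw [hr] at hR
  have hp : f 0 ∈ K := hR.1 rfl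
  have hconn : IsConnected ({f 0}ᶜ : Set ℂ) := by
    apply isConnected_compl_singleton_of_one_lt_rank
    rw [Complex.rank_real_complex]
    exact Cardinal.one_lt_two
  have hwp : w ∈ ({f 0}ᶜ : Set ℂ) := fun h => hw (by rwa [Set.mem_singleton_iff.1 h])
  have hall : ({f 0}ᶜ : Set ℂ) ⊆ connectedComponentIn ({f 0}ᶜ) w :=
    hconn.isPreconnected.subset_connectedComponentIn hwp subset_rfl
  obtain ⟨a, ha, b, hb, hab⟩ := hK
  by_cases h : a = f 0
  · exact hR.2 b hb (hall (fun hb2 => hab (h.trans (Set.mem_singleton_iff.1 hb2).symm)))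
  · exact hR.2 a ha (hall h)

end Run7.h165.EC
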