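import Pool.Agent.Run7.h165.EC.Hol6

/-! # The holes of all clusters in the limit -/

set_option autoImplicit false

namespace Run7.h165.EC

open H342T H342L H342P H342P.Plain H984P MeasureTheory Filter Topology TopologicalSpace Metric
open Run7.h561.EC
open scoped ENNReal NNReal
open Pool.Agent.W822.PD (Sqc)

theorem sqc_compact : IsCompact Sqc := by
  rw [← show closure Pool.Agent.W822.PD.Sq = Sqc from sq_clos]
  apply Bornology.IsBounded.isCompact_closure
  rw [Metric.isBounded_iff_subset_closedBall (0 : ℂ)]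
  refine ⟨2, ?_⟩
  rintro z ⟨h1, h2, h3, h4⟩
  rw [mem_closedBall_zero_iff]
  refine (Complex.norm_le_abs_re_add_abs_im z).trans ?_
  rw [abs_of_pos h1, abs_of_pos h3]
  linarith

theorem body_sqc {n : ℕ} (hn : 0 < n) {F : Finset Edge} (hF : F ⊆ edges n) {v : ℤ × ℤ}
    (hv : v ∈ box n) : body n F v ⊆ Sqc := by
  intro z hz
  obtain ⟨⟨h1, h2⟩, h3, h4⟩ := CPT_body_square hn hF hv hz
  exact ⟨h1, h2, h3, h4⟩

theorem coll_comp (ε : ℝ) (hε : 0 < ε) :
    ∃ K : Set (NonemptyCompacts (NonemptyCompacts ℂ)), IsCompact K ∧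
      ∀ n, 0 < n → (lawOf n (coll n) : Measure (NonemptyCompacts (NonemptyCompacts ℂ))) Kᶜ ≤
        ENNReal.ofReal ε := by
  have hK := NonemptyCompacts.isCompact_subsets_of_isCompact
    (NonemptyCompacts.isCompact_subsets_of_isCompact sqc_compact)
  refine ⟨_, hK, fun n hn => ?_⟩
  rw [law_zero hK.isClosed.measurableSet.compl]
  · exact zero_le
  · intro F hF hnot
    apply hnot
    intro K hK
    obtain ⟨v, hv, rfl⟩ := mem_coll hK
    exact body_sqc hn hF hv

/-- Relative compactness. -/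
theorem coll_subseq (k : ℕ → ℕ) (hk : Tendsto k atTop atTop) :
    ∃ (φ : ℕ → ℕ) (μ : ProbabilityMeasure (NonemptyCompacts (NonemptyCompacts ℂ))),
      StrictMono φ ∧ Tendsto (fun i => lawOf (k (φ i)) (coll (k (φ i)))) atTop (𝓝 μ) := by
  obtain ⟨N, hN⟩ := (tendsto_atTop.mp hk 1).exists_forall_of_atTop
  obtain ⟨φ, μ, hφ, hlim⟩ := PRK_gen (fun i => lawOf (k (i + N)) (coll (k (i + N)))) (by
    intro ε hε
    obtain ⟨K, h1, h2⟩ := coll_comp ε hε
    exact ⟨K, h1, fun i => h2 _ (hN (i + N) (by omega))⟩)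
  exact ⟨fun i => φ i + N, μ, fun i j hij => by have := hφ hij; simp only; omega, hlim⟩

/-- The auxiliary random elements. -/
noncomputable def aux (ε : ℝ) (w : ℂ) (N n : ℕ) (F : Finset Edge) :
    (Fin N → NonemptyCompacts ℂ) × (Fin N → Curve) :=
  (fun j => clu n F (vj n ε F j), fun j => lp n F (vj n ε F j) w)

theorem aux_comp (ε₀ : ℝ) (w : ℂ) (N : ℕ) (hN : 1 ≤ N) (ε : ℝ) (hε : 0 < ε) :
    ∃ K : Set ((Fin N → NonemptyCompacts ℂ) × (Fin N → Curve)), IsCompact K ∧ IsClosed K ∧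
      ∀ n, 0 < n → (lawOf n (aux ε₀ w N n) :
        Measure ((Fin N → NonemptyCompacts ℂ) × (Fin N → Curve))) Kᶜ ≤ ENNReal.ofReal ε := by
  have hN' : (0 : ℝ) < N := by exact_mod_cast hN
  have hloop : ∀ j : Fin N, ∃ K : Set Curve, IsCompact K ∧ IsClosed K ∧
      ∀ n : ℕ, 0 < n → (lawOf n (fun F => lp n F (vj n ε₀ F j) w) : Measure Curve) Kᶜ ≤
        ENNReal.ofReal (ε / N) := by
    intro j
    exact loop_tight_K (t_GRD t_POL) (t_SML t_POL) t_CNT t_ARZ
      (γ := fun n F => lp n F (vj n ε₀ F j) w)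
      (fun n F _ hF => lp_loop w (vj_box hF j) hF) (by positivity)
  choose KC hKC1 hKC2 hKC3 using hloop
  have hsq := NonemptyCompacts.isCompact_subsets_of_isCompact sqc_compact
  set A : Set (Fin N → NonemptyCompacts ℂ) :=
    Set.univ.pi (fun _ => {L : NonemptyCompacts ℂ | (L : Set ℂ) ⊆ Sqc}) with hA
  set B : Set (Fin N → Curve) := Set.univ.pi KC with hB
  have hA1 : IsCompact A := isCompact_univ_pi fun _ => hsq
  have hA2 : IsClosed A := isClosed_set_pi fun _ _ => hsq.isClosed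
  have hB1 : IsCompact B := isCompact_univ_pi hKC1
  have hB2 : IsClosed B := isClosed_set_pi fun j _ => hKC2 j
  refine ⟨A ×ˢ B, hA1.prod hB1, hA2.prod hB2, fun n hn => ?_⟩
  have hsub : (A ×ˢ B)ᶜ ⊆ (Prod.fst ⁻¹' Aᶜ) ∪
      ⋃ j : Fin N, (fun x : (Fin N → NonemptyCompacts ℂ) × (Fin N → Curve) => x.2 j) ⁻¹'
        (KC j)ᶜ := by
    intro x hx
    by_cases h1 : x.1 ∈ A
    · right
      have h2 : x.2 ∉ B := fun h2 => hx ⟨h1, h2⟩
      rw [hB, Set.mem_univ_pi] at h2
      push Not at h2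
      obtain ⟨j, hj⟩ := h2
      exact Set.mem_iUnion.2 ⟨j, hj⟩
    · exact Or.inl h1
  have e1 : (lawOf n (aux ε₀ w N n) :
      Measure ((Fin N → NonemptyCompacts ℂ) × (Fin N → Curve))) (Prod.fst ⁻¹' Aᶜ) = 0 := by
    apply law_zero (measurable_fst hA2.measurableSet.compl)
    intro F hF hnot
    apply hnot
    rw [hA]
    intro j _
    exact body_sqc hn hF (vj_box hF j)
  have e2 : ∀ j : Fin N, (lawOf n (aux ε₀ w N n) :
      Measure ((Fin N → NonemptyCompacts ℂ) × (Fin N → Curve)))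
      ((fun x : (Fin N → NonemptyCompacts ℂ) × (Fin N → Curve) => x.2 j) ⁻¹' (KC j)ᶜ) ≤
        ENNReal.ofReal (ε / N) := by
    intro j
    have hm : Measurable (fun x : (Fin N → NonemptyCompacts ℂ) × (Fin N → Curve) => x.2 j) :=
      (measurable_pi_apply j).comp measurable_snd
    rw [lawOf_apply _ _ (hm (hKC2 j).measurableSet.compl)]
    have h3 := hKC3 j n hn
    rw [lawOf_apply _ _ (hKC2 j).measurableSet.compl] at h3
    exact h3
  refine (measure_mono hsub).trans ((measure_union_le _ _).trans ?_)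
  rw [e1, zero_add]
  refine (measure_iUnion_le _).trans ?_
  rw [tsum_fintype]
  refine (Finset.sum_le_sum fun j _ => e2 j).trans ?_
  rw [Finset.sum_const, Finset.card_univ, Fintype.card_fin, nsmul_eq_mul,
    ← ENNReal.ofReal_natCast, ← ENNReal.ofReal_mul (by positivity)]
  apply ENNReal.ofReal_le_ofReal
  rw [mul_div_cancel₀ _ hN'.ne']

section
variable (hF : S_FINL) (hb : Pool.Agent.W822.PD.PD_HB)
include hF hb

theorem coll_N {C : ℝ}
    (hcnt : ∀ (n N : ℕ) (ε : ℝ), 0 < ε → ε ≤ 1 → 200 ≤ ε * n → 1 ≤ N →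
      prob n (fun F => ¬ (reps n ε F).card < N) ≤ C * (1 / ε) ^ 2 / N)
    (w : ℂ) {ε : ℝ} (hε : 0 < ε) (hε1 : ε ≤ 1) (N : ℕ) (hN : 1 ≤ N)
    {k : ℕ → ℕ} (hk : Tendsto k atTop atTop)
    {μ : ProbabilityMeasure (NonemptyCompacts (NonemptyCompacts ℂ))}
    (hμ : Tendsto (fun i => lawOf (k i) (coll (k i))) atTop (𝓝 μ)) :
    (μ : Measure (NonemptyCompacts (NonemptyCompacts ℂ)))
      {𝒞 | ¬ ∀ K ∈ 𝒞, Big ε (K : Set ℂ) → GoodAt (K : Set ℂ) w} ≤
      ENNReal.ofReal (C * (1 / ε) ^ 2 / N) := by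
  obtain ⟨φ, π, hφ, hlim, hfst, htight⟩ := joint coll (aux ε w N) coll_comp
    (aux_comp ε w N hN) hk hμ
  have hkφ : Tendsto (fun i => k (φ i)) atTop atTop := hk.comp hφ.tendsto_atTop
  have hkpos : ∀ᶠ i in atTop, 0 < k (φ i) := hkφ.eventually_gt_atTop 0
  set B : Set (NonemptyCompacts (NonemptyCompacts ℂ)) :=
    {𝒞 | ¬ ∀ K ∈ 𝒞, Big ε (K : Set ℂ) → GoodAt (K : Set ℂ) w} with hB
  -- the three kinds of events
  have hE1 : (π : Measure _) {x : NonemptyCompacts (NonemptyCompacts ℂ) ×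
      ((Fin N → NonemptyCompacts ℂ) × (Fin N → Curve)) |
      ∀ K ∈ (x.1 : Set (NonemptyCompacts ℂ)), ¬ Big ε (K : Set ℂ) ∨ ∃ j, K = x.2.1 j}ᶜ ≤
      ENNReal.ofReal (C * (1 / ε) ^ 2 / N) := by
    have h1 := ProbabilityMeasure.le_liminf_measure_open_of_tendsto hlim
      (E1_closed ε N).isOpen_compl
    refine h1.trans (liminf_le_of_frequently_le' (Eventually.frequently ?_))
    have h2 : ∀ᶠ i in atTop, 200 ≤ ε * (k (φ i) : ℝ) := by
      have h3 : Tendsto (fun i => ε * (k (φ i) : ℝ)) atTop atTop :=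
        (tendsto_natCast_atTop_atTop.comp hkφ).const_mul_atTop hε
      exact h3.eventually_ge_atTop 200
    filter_upwards [h2, hkpos] with i h3 h4
    rw [lawOf_apply _ _ (E1_closed ε N).measurableSet.compl]
    apply ENNReal.ofReal_le_ofReal
    refine (prob_mono ?_).trans (hcnt _ N ε hε hε1 h3 hN)
    intro F hF hnot hcard
    apply hnot
    intro K hK
    by_cases hbig : Big ε (K : Set ℂ)
    · right
      obtain ⟨v, hv, rfl⟩ := mem_coll hK
      obtain ⟨j, hj, he⟩ := vj_surj hcard.le hv hbig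
      exact ⟨⟨j, hj⟩, he⟩
    · exact Or.inl hbig
  have hE2 : ∀ j : Fin N, ∀ᵐ x ∂(π : Measure (NonemptyCompacts (NonemptyCompacts ℂ) ×
      ((Fin N → NonemptyCompacts ℂ) × (Fin N → Curve)))),
      w ∈ (x.2.1 j : Set ℂ) ∨ Rel (x.2.1 j : Set ℂ) (Set.range (x.2.2 j).path) w := by
    intro j
    rw [ae_iff]
    have h1 := ProbabilityMeasure.le_liminf_measure_open_of_tendsto hlim
      (E2_closed w N j).isOpen_compl
    refine le_antisymm (h1.trans (liminf_le_of_frequently_le' (Eventually.frequently ?_)))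
      zero_le
    filter_upwards [hkpos] with i h4
    rw [law_zero (E2_closed w N j).measurableSet.compl]
    intro F hF hnot
    apply hnot
    by_cases hw : w ∈ body (k (φ i)) F (vj (k (φ i)) ε F j)
    · exact Or.inl hw
    · exact Or.inr (lp_rel h4 hw)
  have hE3 : ∀ j : Fin N, ∀ᵐ x ∂(π : Measure (NonemptyCompacts (NonemptyCompacts ℂ) ×
      ((Fin N → NonemptyCompacts ℂ) × (Fin N → Curve)))),
      (∃ s t : unitInterval, (x.2.2 j).path s ≠ (x.2.2 j).path t) →
        ∀ w, GoodAt (Set.range (x.2.2 j).path) w := by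
    intro j
    have hcont : Continuous (fun x : NonemptyCompacts (NonemptyCompacts ℂ) ×
        ((Fin N → NonemptyCompacts ℂ) × (Fin N → Curve)) => x.2.2 j) :=
      (continuous_apply j).comp (continuous_snd.comp continuous_snd)
    have h1 := ProbabilityMeasure.tendsto_map_of_tendsto_of_continuous _ _ hlim hcont
    have h2 : ∀ n, (lawOf n (fun F => (coll n F, aux ε w N n F))).map
        hcont.measurable.aemeasurable = lawOf n (fun F => lp n F (vj n ε F j) w) := fun n =>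
      lawOf_map n (fun F => (coll n F, aux ε w N n F)) hcont.measurable
    have h3 : Tendsto (fun i => lawOf (k (φ i))
        ((fun n F => lp n F (vj n ε F j) w : (n : ℕ) → Finset Edge → Curve) (k (φ i)))) atTop
        (𝓝 (π.map hcont.measurable.aemeasurable)) := h1.congr fun i => h2 (k (φ i))
    have h4 := curve_good hF hb (γ := fun n F => lp n F (vj n ε F j) w) (by
      have h5 : LpsB (fun n F => lp n F (vj n ε F j) w) :=
        fun n F _ hF => lp_loop w (vj_box hF j) hF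
      exact h5.lps) hkφ h3
    exact ae_of_ae_map hcont.measurable.aemeasurable h4
  have hE2' := ae_all_iff.2 hE2
  have hE3' := ae_all_iff.2 hE3
  have hmain : Prod.fst ⁻¹' B ≤ᵐ[(π : Measure (NonemptyCompacts (NonemptyCompacts ℂ) ×
      ((Fin N → NonemptyCompacts ℂ) × (Fin N → Curve))))]
      {x : NonemptyCompacts (NonemptyCompacts ℂ) ×
      ((Fin N → NonemptyCompacts ℂ) × (Fin N → Curve)) |
      ∀ K ∈ (x.1 : Set (NonemptyCompacts ℂ)), ¬ Big ε (K : Set ℂ) ∨ ∃ j, K = x.2.1 j}ᶜ := by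
    filter_upwards [hE2', hE3'] with x h2 h3 hxB hx1
    apply hxB
    intro K hK hbig hw
    rcases hx1 K hK with h | ⟨j, rfl⟩
    · exact absurd hbig h
    have hR : Rel (x.2.1 j : Set ℂ) (Set.range (x.2.2 j).path) w := (h2 j).resolve_left hw
    have hne : ∃ s t : unitInterval, (x.2.2 j).path s ≠ (x.2.2 j).path t := by
      apply nonconst_of_rel ?_ hw hR
      obtain ⟨a, ha, b, hb', hab⟩ := hbig
      exact ⟨a, ha, b, hb', fun h => by rw [h, dist_self] at hab; linarith⟩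
    have h4 := h3 j hne w (fun h => hw (hR.1 h))
    rw [← rel_comp hR hw] at h4
    exact h4
  rw [← hfst]
  refine (map_fst_le _ htight B).trans ((measure_mono_ae hmain).trans hE1)

theorem coll_w (w : ℂ) {ε : ℝ} (hε : 0 < ε) (hε1 : ε ≤ 1)
    {k : ℕ → ℕ} (hk : Tendsto k atTop atTop)
    {μ : ProbabilityMeasure (NonemptyCompacts (NonemptyCompacts ℂ))}
    (hμ : Tendsto (fun i => lawOf (k i) (coll (k i))) atTop (𝓝 μ)) :
    ∀ᵐ 𝒞 : NonemptyCompacts (NonemptyCompacts ℂ)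
      ∂(μ : Measure (NonemptyCompacts (NonemptyCompacts ℂ))),
      ∀ K ∈ 𝒞, Big ε (K : Set ℂ) → GoodAt (K : Set ℂ) w := by
  obtain ⟨C, -, hcnt⟩ := reps_tight
  rw [ae_iff]
  have h1 : Tendsto (fun N : ℕ => ENNReal.ofReal (C * (1 / ε) ^ 2 / N)) atTop (𝓝 0) := by
    rw [← ENNReal.ofReal_zero]
    exact (ENNReal.continuous_ofReal.tendsto 0).comp
      (tendsto_const_div_atTop_nhds_zero_nat _)
  refine le_antisymm (ge_of_tendsto h1 ?_) zero_le
  filter_upwards [eventually_ge_atTop 1] with N hN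
  exact coll_N hF hb hcnt w hε hε1 N hN hk hμ

/-- Almost surely, all the components of the complements of all the clusters. -/
theorem coll_all {k : ℕ → ℕ} (hk : Tendsto k atTop atTop)
    {μ : ProbabilityMeasure (NonemptyCompacts (NonemptyCompacts ℂ))}
    (hμ : Tendsto (fun i => lawOf (k i) (coll (k i))) atTop (𝓝 μ)) :
    ∀ᵐ 𝒞 : NonemptyCompacts (NonemptyCompacts ℂ)
      ∂(μ : Measure (NonemptyCompacts (NonemptyCompacts ℂ))),
      ∀ K ∈ 𝒞, (K : Set ℂ).Nontrivial → ∀ w, GoodAt (K : Set ℂ) w := by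
  have h1 : ∀ᵐ 𝒞 : NonemptyCompacts (NonemptyCompacts ℂ)
      ∂(μ : Measure (NonemptyCompacts (NonemptyCompacts ℂ))), ∀ i m : ℕ,
      ∀ K ∈ 𝒞, Big (1 / ((m : ℝ) + 1)) (K : Set ℂ) → GoodAt (K : Set ℂ) (denseSeq ℂ i) := by
    rw [ae_all_iff]
    intro i
    rw [ae_all_iff]
    intro m
    refine coll_w hF hb _ (by positivity) ?_ hk hμ
    rw [div_le_one (by positivity)]
    have : (0 : ℝ) ≤ m := by positivity
    linarith
  filter_upwards [h1] with 𝒞 h2 K hK hnt w hw
  obtain ⟨a, ha, b, hb', hab⟩ := hnt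
  obtain ⟨m, hm⟩ := exists_nat_one_div_lt (dist_pos.2 hab)
  have hKc : IsClosed (K : Set ℂ) := K.isCompact.isClosed
  obtain ⟨y, hy2⟩ := (denseRange_denseSeq ℂ).exists_mem_open
    (hKc.isOpen_compl.connectedComponentIn (x := w)) ⟨w, mem_connectedComponentIn hw⟩
  have h3 := connectedComponentIn_eq hy2
  have h4 : denseSeq ℂ y ∉ (K : Set ℂ) := connectedComponentIn_subset _ _ hy2
  rw [h3]
  exact h2 y m K hK ⟨a, ha, b, hb', hm⟩ h4

end

end Run7.h165.EC
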