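import Pool.Agent.Run7.h561.EC.P_K1
import Pool.Agent.H984R4.HN.Couple

/-! # The half-plane exploration near a box -/

set_option autoImplicit false

namespace Run7.h165.EC

open H974 H12S Finset H342P H984P H984N H984H
open Run7.h561 Run7.h561.EC

theorem nxt_path (ω : Conf) (k : ℕ) : nxt (opn ω) (path ω (k + 1)) = path ω k := by
  rw [path_succ, nxt_step]

theorem nxt_inj {G : Set Edg} {σ τ : St} (h : nxt G σ = nxt G τ) : σ = τ := by
  rw [← step_nxt G σ, h, step_nxt]

theorem orb_path (ω : Conf) (T : ℕ) : ∀ j ≤ T, orb (opn ω) (path ω T) j = path ω (T - j) := by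
  intro j
  induction j with
  | zero => intro _; rfl
  | succ j ih =>
    intro hj
    rw [orb_succ, ih (by omega)]
    have : T - j = (T - (j + 1)) + 1 := by omega
    rw [this, nxt_path]

/-- Before the start the orbit runs below the negative half-axis. -/
theorem orb_before (ω : Conf) (k : ℕ) : (orb (opn ω) (((0, 0), .ne) : St) k).1.2 ≤ 0 := by
  have key : ∀ k : ℕ, ∃ x : ℤ, x ≤ 0 ∧ (orb (opn ω) (((0, 0), .ne) : St) (k + 1) = ((x, 0), .se) ∨
      orb (opn ω) (((0, 0), .ne) : St) (k + 1) = ((x, 0), .sw)) := by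
    intro k
    induction k with
    | zero =>
      refine ⟨0, le_rfl, Or.inl ?_⟩
      rw [orb_succ, orb_zero]
      have h : ae (((0, 0), .ne) : St) ∉ opn ω := by
        rw [ae_ne]
        simp [opn]
      rw [nxt_closed h]
      rfl
    | succ k ih =>
      obtain ⟨x, hx, h | h⟩ := ih
      · refine ⟨x, hx, Or.inr ?_⟩
        rw [orb_succ, h]
        have h' : ae (((x, 0), .se) : St) ∉ opn ω := by
          rw [ae_se]
          simp [opn]
        rw [nxt_closed h']
        rfl
      · refine ⟨x - 1, by omega, Or.inl ?_⟩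
        rw [orb_succ, h]
        have h' : ae (((x, 0), .sw) : St) ∈ opn ω := by
          rw [ae_sw]
          left
          refine ⟨rfl, rfl, ?_⟩
          show x - 1 < 0
          omega
        rw [nxt_open h']
        rfl
  rcases Nat.eq_zero_or_pos k with rfl | hk
  · exact le_rfl
  · obtain ⟨x, -, h | h⟩ := key (k - 1)
    · rw [Nat.sub_add_cancel hk] at h
      rw [h]
    · rw [Nat.sub_add_cancel hk] at h
      rw [h]

/-- **The half-plane exploration near a box which it does not visit after time `T`.** -/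
theorem nbh_half {ω : Conf} {T : ℕ} {q : ℤ × ℤ} {N : ℕ} (hN : 1 ≤ N) (hq : 1 ≤ q.2)
    (hret : ∀ k, T ≤ k → ¬ inR q.1 (q.1 + N) q.2 (q.2 + N) (path ω k).1) {F : Finset Edg}
    (hF : ∀ e : Edg, inR q.1 (q.1 + N) q.2 (q.2 + N) (src e) →
      inR q.1 (q.1 + N) q.2 (q.2 + N) (tgt e) → (e ∈ F ↔ ω e = true)) :
    Nbh (opn ω) (path ω T) T F q N := by
  refine ⟨⟨{σ | (∃ k, path ω k = σ) ∨ ∃ k, orb (opn ω) (((0, 0), .ne) : St) k = σ}, ?_,
    Or.inl ⟨T, rfl⟩, ?_⟩, ?_, ?_, ?_⟩
  · intro σ
    constructor
    · rintro (⟨k, rfl⟩ | ⟨k, rfl⟩)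
      · rcases k with _ | k
        · right
          exact ⟨1, rfl⟩
        · left
          exact ⟨k, (nxt_path ω k).symm⟩
      · right
        exact ⟨k + 1, orb_succ _ _ _⟩
    · rintro (⟨k, hk⟩ | ⟨k, hk⟩)
      · left
        refine ⟨k + 1, ?_⟩
        apply nxt_inj (G := opn ω)
        rw [nxt_path, hk]
      · rcases k with _ | k
        · left
          refine ⟨1, ?_⟩
          apply nxt_inj (G := opn ω)
          rw [← hk]
          exact nxt_path ω 0
        · right
          refine ⟨k, ?_⟩
          apply nxt_inj (G := opn ω)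
          rw [← hk, orb_succ]
  · rintro σ (⟨k, rfl⟩ | ⟨k, rfl⟩) hσ
    · have hk : k ≤ T := by
        by_contra hcon
        exact hret k (by omega) hσ
      refine ⟨T - k, Nat.sub_le _ _, ?_⟩
      rw [orb_path ω T _ (Nat.sub_le _ _)]
      congr 1
      omega
    · exfalso
      have h1 := orb_before ω k
      unfold inR at hσ
      omega
  · rintro ⟨x, y, b⟩ h1 h2
    rw [hF _ h1 h2]
    have hy : 1 ≤ y := by
      unfold inR at h1
      rw [src_mk] at h1
      simp only at h1
      omega
    constructor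
    · rintro (⟨h3, -⟩ | ⟨-, -, h3⟩)
      · simp only at h3
        omega
      · exact h3
    · intro h3
      right
      refine ⟨?_, ?_, h3⟩
      · show 0 ≤ y
        omega
      · rintro ⟨h4, -⟩
        simp only at h4
        omega
  · have h1 := hret T le_rfl
    unfold inR at h1
    unfold FrB rel
    rw [Set.mem_ofPred_eq]
    simp only
    omega
  · have h1 := hret T le_rfl
    generalize path ω T = σ at h1
    obtain ⟨⟨x, y⟩, c⟩ := σ
    unfold inR at h1
    unfold FrB rel
    rw [Set.mem_ofPred_eq]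
    have hN' : ((N - 1 : ℕ) : ℤ) = (N : ℤ) - 1 := by omega
    rw [hN']
    cases c
    · simp only [face_ne] at h1 ⊢
      omega
    · simp only [face_nw] at h1 ⊢
      omega
    · simp only [face_sw] at h1 ⊢
      omega
    · simp only [face_se] at h1 ⊢
      omega

end Run7.h165.EC
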