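import Pool.Agent.Run7.h561.EC.Stm
import Pool.Agent.Y989.FR.T_LG

/-! # LGO: abstract passage to the limit, on an open event -/

set_option autoImplicit false

namespace Run7.h165.EC

open Set Filter Topology Metric MeasureTheory H984N
open Run7.h561.EC Pool.Agent.H389R2.Dim Pool.Agent.Y989.FR.LG
open scoped ENNReal NNReal

theorem t_LGO : S_LGO := by
  intro μs μ hμ t ht _ T Ev hEv h
  rw [ae_iff, ← nonpos_iff_eq_zero]
  apply ENNReal.le_of_forall_pos_le_add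
  intro ε hε _
  obtain ⟨c, K, Q, hc, hK, hQ, hT, h1⟩ := h ε (by exact_mod_cast hε)
  have h1 : ∀ ε' : ℝ, 0 < ε' → ∀ᶠ i in atTop,
      (μs i : Measure X) {γ : X | γ.1 ∈ Ev ∧ ¬ Good t ε' c (AA K Q ε' γ.1)} ≤ ε := h1
  have hT0 : ∀ f ∈ Ev, AA K Q 0 f ⊆ T f := by
    rintro f hf z ⟨hz, hh⟩
    exact hT f hf z hz (fun k => hh k (by positivity))
  have hopen : ∀ ε' : ℝ, IsOpen {p : X | p.1 ∈ Ev ∧ ¬ Good t ε' c (AA K Q ε' p.1)} := by
    intro ε'
    have h2 : IsOpen {p : X | ¬ Good t ε' c (AA K Q ε' p.1)} :=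
      ((isClosed_good_AA (t := t) (δ := ε') (c := c) (e := ε') hQ hK).preimage
        continuous_fst).isOpen_compl
    have h3 : IsOpen {p : X | p.1 ∈ Ev} := hEv.preimage continuous_fst
    exact h3.inter h2
  have h2 : ∀ ε' : ℝ, 0 < ε' →
      (μ : Measure X) {p : X | p.1 ∈ Ev ∧ ¬ Good t ε' c (AA K Q ε' p.1)} ≤ ε := by
    intro ε' hε'
    refine (ProbabilityMeasure.le_liminf_measure_open_of_tendsto hμ (hopen ε')).trans ?_
    exact liminf_le_of_frequently_le (h1 ε' hε').frequently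
  set Bd : ℕ → Set X := fun n =>
    {p : X | p.1 ∈ Ev ∧ ¬ Good t (1 / ((n : ℝ) + 1)) c (AA K Q (1 / ((n : ℝ) + 1)) p.1)} with hBd
  have hmono : Monotone Bd := by
    intro n n' hnn p hp
    refine ⟨hp.1, fun hG => ?_⟩
    apply hp.2
    have h3 := hG.anti (Nat.one_div_le_one_div (α := ℝ) hnn)
    exact h3.mono (AA_mono (Nat.one_div_le_one_div hnn) p.1)
  have h3 : {p : X | ¬ (p.1 ∈ Ev → ENNReal.ofReal t ≤ dimH (T p.1))} ⊆ ⋃ n : ℕ, Bd n := by
    intro p hp
    by_contra hcon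
    apply hp
    intro hpE
    have hcon : ∀ n : ℕ, Good t (1 / ((n : ℝ) + 1)) c (AA K Q (1 / ((n : ℝ) + 1)) p.1) := by
      intro n
      by_contra hn
      exact hcon (mem_iUnion.2 ⟨n, hpE, hn⟩)
    have h4 : ∀ δ' : ℝ, 0 < δ' → Good t δ' c (AA K Q 0 p.1) := by
      intro δ' hδ'
      apply good_zero hQ hK
      intro n
      obtain ⟨m, hm⟩ := exists_nat_one_div_lt hδ'
      have h5 := hcon (max n m)
      have h6 : (1 : ℝ) / (((max n m : ℕ) : ℝ) + 1) ≤ 1 / ((n : ℝ) + 1) :=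
        Nat.one_div_le_one_div (le_max_left _ _)
      have h7 : (1 : ℝ) / (((max n m : ℕ) : ℝ) + 1) ≤ 1 / ((m : ℝ) + 1) :=
        Nat.one_div_le_one_div (le_max_right _ _)
      exact (h5.mono (AA_mono h6 p.1)).anti (h7.trans hm.le)
    exact (le_dimH_of_good ht hc (isCompact_AA hQ hK p.1) h4).trans (dimH_mono (hT0 p.1 hpE))
  refine le_trans (measure_mono h3) ?_
  rw [zero_add, hmono.measure_iUnion]
  exact iSup_le fun n => h2 _ (by positivity)

end Run7.h165.EC
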