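import Pool.Agent.Run7.h561.EC.Stm
import Pool.Agent.Run7.h561.TP.Tools
import Pool.Agent.H973R2.Arm1
import Pool.Agent.H12R2.Sep.Win1

/-! # LOC4: the four directions, and DUA: the dual configuration -/

set_option autoImplicit false

namespace Run7.h165.EC

open H974 H12S Finset H984P H984N Pool.Agent.W822.PD
open Run7.h561 Run7.h561.EC

theorem okh : Ok (fun _ : Edg => (1 / 2 : ℝ)) := fun _ => by norm_num

/-- A symmetry of the box, with its action on the directions. -/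
structure BSym (N : ℕ) (g : LSym) (L : ℤ × ℤ → ℤ × ℤ) : Prop where
  dist : ∀ x y : Vtx, sd (g.ψ x) (g.ψ y) = sd x y
  far : ∀ x : Vtx, g.ψ x ∈ FrB N ↔ x ∈ FrB N
  ray : ∀ (w : Vtx) (s : ℤ) (d : ℤ × ℤ), g.ψ (w.1 + s * d.1, w.2 + s * d.2) =
    ((g.ψ w).1 + s * (L d).1, (g.ψ w).2 + s * (L d).2)
  box : g.mp (RE 0 N 0 N) = RE 0 N 0 N

theorem bsym_rfy (N : ℕ) : BSym N (rfy N) (fun d => (d.1, -d.2)) := by
  refine ⟨?_, ?_, ?_, ?_⟩
  · rintro ⟨x1, x2⟩ ⟨y1, y2⟩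
    simp only [rfy_ψ]
    have h1 := sd_le.1 (le_refl (sd (x1, x2) (y1, y2)))
    have h2 := sd_le.1 (le_refl (sd (x1, (N : ℤ) - x2) (y1, (N : ℤ) - y2)))
    simp only at h1 h2
    apply le_antisymm
    · rw [sd_le]; simp only; omega
    · rw [sd_le]; simp only; omega
  · rintro ⟨x1, x2⟩
    simp only [rfy_ψ, FrB, Set.mem_ofPred_eq]
    omega
  · rintro ⟨w1, w2⟩ s ⟨d1, d2⟩
    simp only [rfy_ψ]
    ext
    · rfl
    · simp only; ring
  · rw [rfy_RE]; simp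

theorem bsym_tps (N : ℕ) : BSym N tps (fun d => (d.2, d.1)) := by
  refine ⟨?_, ?_, ?_, ?_⟩
  · rintro ⟨x1, x2⟩ ⟨y1, y2⟩
    simp only [tps_ψ]
    unfold sd
    simp only
    rw [max_comm]
  · rintro ⟨x1, x2⟩
    simp only [tps_ψ, FrB, Set.mem_ofPred_eq]
    omega
  · rintro ⟨w1, w2⟩ s ⟨d1, d2⟩
    simp only [tps_ψ]
  · rw [tps_RE]

namespace BSym

variable {N : ℕ} {g : LSym} {L : ℤ × ℤ → ℤ × ℤ}

theorem dist' (hg : BSym N g L) (x y : Vtx) : sd (g.ψ.symm x) y = sd x (g.ψ y) := by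
  rw [← hg.dist, Equiv.apply_symm_apply]

theorem cu (g : LSym) (F : Finset Edg) (x y : Vtx) :
    y ∈ Cu (↑(g.mp F) : Set Edg) x ↔ g.ψ.symm y ∈ Cu (↑F : Set Edg) (g.ψ.symm x) := by
  unfold Cu
  rw [Set.mem_ofPred_eq, Set.mem_ofPred_eq, LSym.coe_mp, ← g.reach_iff (F := (↑F : Set Edg)),
    Equiv.apply_symm_apply, Equiv.apply_symm_apply]

theorem clB (hg : BSym N g L) {M B : ℕ} {A : Set Vtx} {v x : Vtx}
    (h : ClB M B N {y | g.ψ.symm y ∈ A} v x) :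
    ClB M B N A (g.ψ.symm v) (g.ψ.symm x) := by
  intro c hc
  have h1 : g.ψ c ∈ {y | g.ψ.symm y ∈ A} ∪ FrB N := by
    rcases hc with hc | hc
    · left
      rw [Set.mem_ofPred_eq, Equiv.symm_apply_apply]
      exact hc
    · right
      exact (hg.far c).2 hc
  have h2 := h _ h1
  rw [hg.dist', hg.dist', Equiv.apply_symm_apply]
  exact h2

theorem rich (hg : BSym N g L) {t lam E K : ℝ} {M B : ℕ} {A : Set Vtx} {w : Vtx}
    (h : RichB t lam E K M B N {y | g.ψ.symm y ∈ A} (g.ψ w)) : RichB t lam E K M B N A w := by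
  obtain ⟨V, h1, h2, h3⟩ := h
  refine ⟨V.map g.ψ.symm.toEmbedding, ?_, ?_, ?_⟩
  · rw [Finset.card_map]; exact h1
  · refine le_of_eq_of_le ?_ h2
    unfold EnV
    rw [Finset.sum_map]
    refine Finset.sum_congr rfl fun x _ => ?_
    rw [Finset.sum_map]
    refine Finset.sum_congr rfl fun y _ => ?_
    rw [Equiv.coe_toEmbedding, hg.dist', Equiv.apply_symm_apply]
  · intro v hv
    rw [Finset.mem_map] at hv
    obtain ⟨v', hv', rfl⟩ := hv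
    obtain ⟨k1, k2, x, k3, k4⟩ := h3 v' hv'
    rw [Equiv.coe_toEmbedding]
    refine ⟨k1, ?_, g.ψ.symm x, ?_, ?_⟩
    · rw [hg.dist']; exact k2
    · rw [hg.dist', Equiv.apply_symm_apply]; exact k3
    · have k5 := g.inv.reach k4
      have e1 : g.inv.ψ (g.ψ w) = w := Equiv.symm_apply_apply _ _
      rw [e1] at k5
      refine Reach.mono ?_ k5
      rintro _ ⟨e, ⟨he1, he2⟩, rfl⟩
      have c1 := hg.clB he1
      have c2 := hg.clB he2
      rcases g.inv.compat e with ⟨b1, b2⟩ | ⟨b1, b2⟩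
      · rw [Set.mem_ofPred_eq, b1, b2]; exact ⟨c1, c2⟩
      · rw [Set.mem_ofPred_eq, b1, b2]; exact ⟨c2, c1⟩

theorem badR (hg : BSym N g L) {d : ℤ × ℤ} {t lam E K D : ℝ} {M B H : ℕ} {w : Vtx}
    {F : Finset Edg} (h : BadR d t lam E K D M B N H w (↑F : Set Edg)) :
    BadR (L d) t lam E K D M B N H (g.ψ w) (↑(g.mp F) : Set Edg) := by
  obtain ⟨A, h1, h2, ⟨z, hz, s, hs1, hs2, rfl⟩, h4⟩ := h
  refine ⟨{y | g.ψ.symm y ∈ A}, ?_, ?_, ?_, fun h => h4 (hg.rich h)⟩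
  · intro x hx hxF
    have hx' : g.ψ.symm x ∉ FrB N := by
      intro hc
      apply hxF
      rw [← hg.far, Equiv.apply_symm_apply] at hc
      exact hc
    obtain ⟨k1, y, k2, k3⟩ := h1 _ hx hx'
    refine ⟨?_, g.ψ y, ?_, (hg.far y).2 k3⟩
    · intro y hy
      exact k1 ((cu g F x y).1 hy)
    · rw [cu, Equiv.symm_apply_apply]; exact k2
  · intro c hc
    rw [← hg.dist']
    exact h2 _ hc
  · refine ⟨g.ψ (w.1 + s * d.1, w.2 + s * d.2), ?_, s, hs1, hs2, hg.ray w s d⟩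
    rw [Set.mem_ofPred_eq, Equiv.symm_apply_apply]
    exact hz

theorem pr_le (hg : BSym N g L) {d : ℤ × ℤ} {t lam E K D : ℝ} {M B H : ℕ} {w : Vtx} :
    PQ (1 / 2) (RE 0 N 0 N) (fun F => BadR d t lam E K D M B N H w (↑F : Set Edg)) ≤
      PQ (1 / 2) (RE 0 N 0 N)
        (fun F => BadR (L d) t lam E K D M B N H (g.ψ w) (↑F : Set Edg)) := by
  have h1 := LSym.pr g (1 / 2) (RE 0 N 0 N)
    (fun F => BadR (L d) t lam E K D M B N H (g.ψ w) (↑F : Set Edg))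
  rw [hg.box] at h1
  unfold PQ
  rw [h1]
  exact Pr_mono okh fun F _ h => hg.badR h

end BSym

theorem t_LOC4 (loc : S_LOC) : S_LOC4 := by
  intro t ht ht' ε δ κ hε hδ hκ
  obtain ⟨M, B, lam, E, n0, h1, h2, h3, h4, h5⟩ := loc t ht ht' ε δ κ hε hδ hκ
  refine ⟨M, B, lam, E, n0, h1, h2, h3, h4, ?_⟩
  intro N hN w H hw1 hw2 hw3 hw4 d hd
  have up : ∀ w : Vtx, δ * N + H ≤ w.1 → (w.1 : ℝ) + H ≤ N - δ * N →
      δ * N + H ≤ w.2 → (w.2 : ℝ) + H ≤ N - δ * N →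
      PQ (1 / 2) (RE 0 N 0 N) (fun F =>
        BadR (0, 1) t lam E (H + κ * N) (δ * N) M B N H w (↑F)) ≤ ε :=
    fun w a b c d => h5 N hN w H a b c d
  have down : ∀ w : Vtx, δ * N + H ≤ w.1 → (w.1 : ℝ) + H ≤ N - δ * N →
      δ * N + H ≤ w.2 → (w.2 : ℝ) + H ≤ N - δ * N →
      PQ (1 / 2) (RE 0 N 0 N) (fun F =>
        BadR (0, -1) t lam E (H + κ * N) (δ * N) M B N H w (↑F)) ≤ ε := by
    rintro ⟨w1, w2⟩ a b c d
    refine (bsym_rfy N).pr_le.trans ?_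
    simp only at a b c d
    simp only [neg_neg]
    apply up
    · simpa using a
    · simpa using b
    · simp only [rfy_ψ]; push_cast; linarith
    · simp only [rfy_ψ]; push_cast; linarith
  have side : ∀ d : ℤ × ℤ, ∀ w : Vtx, PQ (1 / 2) (RE 0 N 0 N) (fun F =>
        BadR d t lam E (H + κ * N) (δ * N) M B N H w (↑F)) ≤
      PQ (1 / 2) (RE 0 N 0 N) (fun F =>
        BadR (d.2, d.1) t lam E (H + κ * N) (δ * N) M B N H (w.2, w.1) (↑F)) := by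
    rintro d ⟨w1, w2⟩
    exact (bsym_tps N).pr_le
  rcases hd with rfl | rfl | rfl | rfl
  · exact up w hw1 hw2 hw3 hw4
  · exact down w hw1 hw2 hw3 hw4
  · exact (side _ w).trans (up (w.2, w.1) hw3 hw4 hw1 hw2)
  · exact (side _ w).trans (down (w.2, w.1) hw3 hw4 hw1 hw2)

/-! ### The dual configuration -/

theorem badR_mono {d : ℤ × ℤ} {t lam E K K' D D' : ℝ} {M B N H : ℕ} {w : Vtx} {F : Set Edg}
    (hK : K' ≤ K) (hD : D' ≤ D) (h : BadR d t lam E K D M B N H w F) :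
    BadR d t lam E K' D' M B N H w F := by
  obtain ⟨A, h1, h2, h3, h4⟩ := h
  refine ⟨A, h1, fun c hc => hD.trans (h2 c hc), h3, fun ⟨V, k1, k2, k3⟩ => h4 ⟨V, k1, k2, ?_⟩⟩
  intro v hv
  obtain ⟨j1, j2, j3⟩ := k3 v hv
  exact ⟨j1, j2.trans hK, j3⟩

/-- The edges of the box which have a dual edge in the smaller box. -/
noncomputable def RI (N : ℕ) : Finset Edg := (RE 0 ((N : ℤ) - 1) 0 ((N : ℤ) - 1)).map
  dl.symm.toEmbedding

theorem mem_RI {N : ℕ} {e : Edg} : e ∈ RI N ↔ dl e ∈ RE 0 ((N : ℤ) - 1) 0 ((N : ℤ) - 1) := by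
  unfold RI
  rw [Finset.mem_map_equiv, Equiv.symm_symm]

theorem dmp_RI (N : ℕ) : dmp (RI N) = RE 0 ((N : ℤ) - 1) 0 ((N : ℤ) - 1) := by
  ext e
  rw [mem_dmp, mem_RI, Equiv.apply_symm_apply]

theorem RI_sub (N : ℕ) : RI N ⊆ RE 0 (N : ℤ) 0 (N : ℤ) := by
  rintro ⟨x, y, _ | _⟩ h
  · rw [mem_RI, dl_f, mem_RE_true] at h
    rw [mem_RE_false]
    omega
  · rw [mem_RI, dl_t, mem_RE_false] at h
    rw [mem_RE_true]
    omega

theorem dualc_eq (N : ℕ) (F : Finset Edg) :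
    dualc N (↑F : Set Edg) = ↑(dmp (RI N \ (F ∩ RI N))) := by
  ext e
  rw [Finset.mem_coe, mem_dmp, Finset.mem_sdiff, Finset.mem_inter, mem_RI, Equiv.apply_symm_apply]
  unfold dualc
  simp only [Set.mem_ofPred_eq, Finset.mem_coe]
  tauto

/-- The law of the dual configuration. -/
theorem pr_dualc (N : ℕ) (P : Set Edg → Prop) :
    PQ (1 / 2) (RE 0 (N : ℤ) 0 (N : ℤ)) (fun F => P (dualc N (↑F : Set Edg))) =
      PQ (1 / 2) (RE 0 ((N : ℤ) - 1) 0 ((N : ℤ) - 1)) (fun F => P (↑F : Set Edg)) := by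
  have h1 : PQ (1 / 2) (RE 0 (N : ℤ) 0 (N : ℤ)) (fun F => P (dualc N (↑F : Set Edg))) =
      PQ (1 / 2) (RE 0 (N : ℤ) 0 (N : ℤ))
        (fun F => (fun G => P (↑(dmp (RI N \ G)) : Set Edg)) (F ∩ RI N)) := by
    unfold PQ
    apply Pr_congr
    intro F _
    rw [dualc_eq]
  rw [h1]
  unfold PQ
  rw [H973.Pr_restrict (RI_sub N) (fun G => P (↑(dmp (RI N \ G)) : Set Edg))]
  have h2 := pr_dual (q := 1 / 2) (RI N) (fun G => P (↑G : Set Edg))
  unfold PQ at h2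
  rw [h2, dmp_RI]
  norm_num

theorem t_DUA (loc4 : S_LOC4) : S_DUA := by
  intro t ht ht' ε δ κ hε hδ hκ
  obtain ⟨M, B, lam, E, n0, h1, h2, h3, h4, h5⟩ := loc4 t ht ht' ε δ κ hε hδ hκ
  refine ⟨M, B, lam, E, n0 + 1, h1, h2, h3, h4, ?_⟩
  intro N hN w H hw1 hw2 hw3 hw4 d hd
  have hN1 : ((N - 1 : ℕ) : ℤ) = (N : ℤ) - 1 := by omega
  have hN1' : ((N - 1 : ℕ) : ℝ) = (N : ℝ) - 1 := by
    have := congrArg (fun z : ℤ => (z : ℝ)) hN1
    push_cast at this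
    exact this
  have h6 := pr_dualc N (fun F => BadR d t lam E (H + κ * N) (δ * N) M B (N - 1) H w F)
  rw [h6, ← hN1]
  refine le_trans (Pr_mono okh fun F _ h => badR_mono ?_ ?_ h)
    (h5 (N - 1) (by omega) w H ?_ ?_ ?_ ?_ d hd)
  · rw [hN1']; nlinarith
  · rw [hN1']; nlinarith
  · rw [hN1']; nlinarith
  · rw [hN1']; nlinarith
  · rw [hN1']; nlinarith
  · rw [hN1']; nlinarith

end Run7.h165.EC
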