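import Pool.Agent.Run7.h561.EC.Stm

/-! # QWC: the sets of pairs with chains to `w` are closed -/

set_option autoImplicit false

namespace Run7.h165.EC

open Run7.h561.EC

theorem t_QWC : S_QWC := by
  intro O M R e B N w
  have : CompactSpace (Metric.closedBall (0 : ℂ) R) :=
    isCompact_iff_compactSpace.mp (isCompact_closedBall 0 R)
  let C : Set ((C(unitInterval, ℂ) × ℂ) × (unitInterval × (Fin (N + 1) →
      Metric.closedBall (0 : ℂ) R))) :=
    {q | ‖q.1.2‖ ≤ R ∧ dist (q.1.1 q.2.1) q.1.2 ≤ e ∧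
      dist ((q.2.2 0 : Metric.closedBall (0 : ℂ) R) : ℂ) q.1.2 ≤ e ∧
      dist ((q.2.2 (Fin.last N) : Metric.closedBall (0 : ℂ) R) : ℂ) w ≤ e ∧
      (∀ i : Fin N, dist ((q.2.2 i.castSucc : Metric.closedBall (0 : ℂ) R) : ℂ)
        ((q.2.2 i.succ : Metric.closedBall (0 : ℂ) R) : ℂ) ≤ e) ∧
      (∀ (i : Fin (N + 1)) (s : unitInterval),
        dist ((q.2.2 i : Metric.closedBall (0 : ℂ) R) : ℂ) q.1.2 ^ B ≤
          M * dist ((q.2.2 i : Metric.closedBall (0 : ℂ) R) : ℂ) (q.1.1 s) + e) ∧
      ∀ (i : Fin (N + 1)), ∀ y ∈ O,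
        dist ((q.2.2 i : Metric.closedBall (0 : ℂ) R) : ℂ) q.1.2 ^ B ≤
          M * dist ((q.2.2 i : Metric.closedBall (0 : ℂ) R) : ℂ) y + e}
  have hev : ∀ i : Fin (N + 1), Continuous (fun q : (C(unitInterval, ℂ) × ℂ) × (unitInterval ×
      (Fin (N + 1) → Metric.closedBall (0 : ℂ) R)) =>
      ((q.2.2 i : Metric.closedBall (0 : ℂ) R) : ℂ)) := by
    intro i
    fun_prop
  have hz : Continuous (fun q : (C(unitInterval, ℂ) × ℂ) × (unitInterval ×
      (Fin (N + 1) → Metric.closedBall (0 : ℂ) R)) => q.1.2) := by fun_prop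
  have hC : IsClosed C := by
    refine IsClosed.inter (isClosed_le hz.norm continuous_const) (IsClosed.inter ?_ (IsClosed.inter
      ?_ (IsClosed.inter ?_ (IsClosed.inter ?_ (IsClosed.inter ?_ ?_)))))
    · refine isClosed_le (Continuous.dist ?_ hz) continuous_const
      exact continuous_eval.comp ((continuous_fst.comp continuous_fst).prodMk
        (continuous_fst.comp continuous_snd))
    · exact isClosed_le ((hev 0).dist hz) continuous_const
    · exact isClosed_le ((hev (Fin.last N)).dist continuous_const) continuous_const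
    · have : {q : (C(unitInterval, ℂ) × ℂ) × (unitInterval × (Fin (N + 1) →
          Metric.closedBall (0 : ℂ) R)) | ∀ i : Fin N,
          dist ((q.2.2 i.castSucc : Metric.closedBall (0 : ℂ) R) : ℂ)
          ((q.2.2 i.succ : Metric.closedBall (0 : ℂ) R) : ℂ) ≤ e} = ⋂ i : Fin N,
          {q | dist ((q.2.2 i.castSucc : Metric.closedBall (0 : ℂ) R) : ℂ)
          ((q.2.2 i.succ : Metric.closedBall (0 : ℂ) R) : ℂ) ≤ e} := by
        ext q; simp only [Set.mem_iInter, Set.mem_setOf_eq]
      have h2 : IsClosed {q : (C(unitInterval, ℂ) × ℂ) × (unitInterval × (Fin (N + 1) →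
          Metric.closedBall (0 : ℂ) R)) | ∀ i : Fin N,
          dist ((q.2.2 i.castSucc : Metric.closedBall (0 : ℂ) R) : ℂ)
          ((q.2.2 i.succ : Metric.closedBall (0 : ℂ) R) : ℂ) ≤ e} := by
        rw [this]
        exact isClosed_iInter fun i =>
          isClosed_le ((hev i.castSucc).dist (hev i.succ)) continuous_const
      exact h2
    · have : {q : (C(unitInterval, ℂ) × ℂ) × (unitInterval × (Fin (N + 1) →
          Metric.closedBall (0 : ℂ) R)) | ∀ (i : Fin (N + 1)) (s : unitInterval),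
          dist ((q.2.2 i : Metric.closedBall (0 : ℂ) R) : ℂ) q.1.2 ^ B ≤
          M * dist ((q.2.2 i : Metric.closedBall (0 : ℂ) R) : ℂ) (q.1.1 s) + e} =
          ⋂ i : Fin (N + 1), ⋂ s : unitInterval,
          {q | dist ((q.2.2 i : Metric.closedBall (0 : ℂ) R) : ℂ) q.1.2 ^ B ≤
          M * dist ((q.2.2 i : Metric.closedBall (0 : ℂ) R) : ℂ) (q.1.1 s) + e} := by
        ext q; simp only [Set.mem_iInter, Set.mem_setOf_eq]
      have h2 : IsClosed {q : (C(unitInterval, ℂ) × ℂ) × (unitInterval × (Fin (N + 1) →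
          Metric.closedBall (0 : ℂ) R)) | ∀ (i : Fin (N + 1)) (s : unitInterval),
          dist ((q.2.2 i : Metric.closedBall (0 : ℂ) R) : ℂ) q.1.2 ^ B ≤
          M * dist ((q.2.2 i : Metric.closedBall (0 : ℂ) R) : ℂ) (q.1.1 s) + e} := by
        rw [this]
        refine isClosed_iInter fun i => isClosed_iInter fun s => ?_
        refine isClosed_le (((hev i).dist hz).pow B) ((continuous_const.mul
          ((hev i).dist ?_)).add continuous_const)
        exact (continuous_eval_const (F := C(unitInterval, ℂ)) s).comp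
          (continuous_fst.comp continuous_fst)
      exact h2
    · have : {q : (C(unitInterval, ℂ) × ℂ) × (unitInterval × (Fin (N + 1) →
          Metric.closedBall (0 : ℂ) R)) | ∀ (i : Fin (N + 1)), ∀ y ∈ O,
          dist ((q.2.2 i : Metric.closedBall (0 : ℂ) R) : ℂ) q.1.2 ^ B ≤
          M * dist ((q.2.2 i : Metric.closedBall (0 : ℂ) R) : ℂ) y + e} =
          ⋂ i : Fin (N + 1), ⋂ y ∈ O,
          {q | dist ((q.2.2 i : Metric.closedBall (0 : ℂ) R) : ℂ) q.1.2 ^ B ≤
          M * dist ((q.2.2 i : Metric.closedBall (0 : ℂ) R) : ℂ) y + e} := by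
        ext q; simp only [Set.mem_iInter, Set.mem_setOf_eq]
      have h2 : IsClosed {q : (C(unitInterval, ℂ) × ℂ) × (unitInterval × (Fin (N + 1) →
          Metric.closedBall (0 : ℂ) R)) | ∀ (i : Fin (N + 1)), ∀ y ∈ O,
          dist ((q.2.2 i : Metric.closedBall (0 : ℂ) R) : ℂ) q.1.2 ^ B ≤
          M * dist ((q.2.2 i : Metric.closedBall (0 : ℂ) R) : ℂ) y + e} := by
        rw [this]
        refine isClosed_iInter fun i => isClosed_iInter fun y => isClosed_iInter fun _ => ?_
        exact isClosed_le (((hev i).dist hz).pow B) ((continuous_const.mul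
          ((hev i).dist continuous_const)).add continuous_const)
      exact h2
  have himg : QW O M R e B N w = Prod.fst '' C := by
    ext p
    constructor
    · rintro ⟨h1, ⟨s, hs⟩, x, hx, h2, h3, h4, h5, h6⟩
      refine ⟨(p, (s, fun i => ⟨x i, ?_⟩)), ⟨h1, hs, h2, h3, h4, h5, h6⟩, rfl⟩
      rw [mem_closedBall_zero_iff]
      exact hx i
    · rintro ⟨⟨p', s, x⟩, ⟨h1, hs, h2, h3, h4, h5, h6⟩, rfl⟩
      refine ⟨h1, ⟨s, hs⟩, fun i => (x i : ℂ), fun i => ?_, h2, h3, h4, h5, h6⟩
      exact mem_closedBall_zero_iff.mp (x i).2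
  rw [himg]
  exact isClosedMap_fst_of_compactSpace C hC

end Run7.h165.EC
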