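import Pool.Agent.Run7.h165.EC.AlltU

/-! # Scaling and restriction to an initial time interval -/

set_option autoImplicit false

namespace Run7.h165.EC

open Set Filter Topology Metric
open Run7.h561.EC
open scoped ENNReal NNReal

/-- FIN for a curve: around each of its points in `D` the boundary of every component of the
complement of a piece has dimension `4/3`. -/
def Fin43 (D : Set ℂ) (f : C(unitInterval, ℂ)) : Prop :=
  ∀ s t : unitInterval, s < t → ∀ U : Set ℂ, IsOpen U → ∀ w z : ℂ, z ∈ U → z ∈ D →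
    z ∈ frontier (CompD U f s t w) → ∀ ρ : ℝ, 0 < ρ →
      dimH (frontier (CompD U f s t w) ∩ (U ∩ D ∩ ball z ρ)) = 4 / 3

/-- The condition on the full trace. -/
def Full43 (D : Set ℂ) (f : C(unitInterval, ℂ)) : Prop :=
  ∀ (a b H η : ℚ) (d : ℤ × ℤ), Run7.h561.EC.Dir d → 0 < H → 0 < η →
    Sq (5 * (H : ℝ)) ⟨a, b⟩ ⊆ D → f ∈ EvO d H η ⟨a, b⟩ →
    4 / 3 ≤ dimH (Lb (Sq (4 * (H : ℝ)) ⟨a, b⟩) (range f) ⟨a, b⟩)

theorem fin_of_full {D : Set ℂ} (hD : IsOpen D) {f : C(unitInterval, ℂ)} (h1 : Full43 D f)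
    (h2 : dimH (dbl f ∩ D) ≤ 3 / 4)
    (h3 : dimH ((⋃ i : ℕ, Pool.Agent.TH990.FU.Acc (1 / ((i : ℝ) + 1)) f) ∩ D) ≤ 4 / 3)
    (h4 : ∀ s t : unitInterval, s < t → ∃ u ∈ Icc s t, f u ≠ f s) (axi : S_AXI) : Fin43 D f :=
  fun _ _ hst _ hU _ _ hzU hz hzf _ hρ => coreU hD hU h1 h2 h3 h4 axi hst hzU hz hzf hρ

/-- The dilation by `c`. -/
noncomputable def dil (c : ℝ) (hc : 0 < c) : ℂ ≃ₜ ℂ :=
  Homeomorph.mulLeft₀ (c : ℂ) (by exact_mod_cast hc.ne')

theorem dil_apply {c : ℝ} (hc : 0 < c) (z : ℂ) : dil c hc z = c * z := rfl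

theorem dil_dist {c : ℝ} (hc : 0 < c) (z w : ℂ) : dist (dil c hc z) (dil c hc w) = c * dist z w := by
  rw [dil_apply, dil_apply, dist_eq_norm, ← mul_sub, norm_mul, Complex.norm_real,
    Real.norm_of_nonneg hc.le, ← dist_eq_norm]

theorem dil_dimH {c : ℝ} (hc : 0 < c) (S : Set ℂ) : dimH (dil c hc '' S) = dimH S := by
  apply le_antisymm
  · have h1 : LipschitzWith c.toNNReal (dil c hc) := LipschitzWith.of_dist_le_mul fun x y => by
      rw [dil_dist, Real.coe_toNNReal _ hc.le]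
    exact h1.dimH_image_le S
  · have h1 : LipschitzWith (c⁻¹).toNNReal (dil c hc).symm := LipschitzWith.of_dist_le_mul
      fun x y => by
        have h2 := dil_dist hc ((dil c hc).symm x) ((dil c hc).symm y)
        rw [Homeomorph.apply_symm_apply, Homeomorph.apply_symm_apply] at h2
        rw [h2, Real.coe_toNNReal _ (inv_nonneg.2 hc.le), ← mul_assoc, inv_mul_cancel₀ hc.ne',
          one_mul]
    have h3 := h1.dimH_image_le (dil c hc '' S)
    rwa [← Set.image_comp, Homeomorph.symm_comp_self, Set.image_id] at h3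

/-- The time `t / m`. -/
noncomputable def frac (m : ℕ) (t : unitInterval) : unitInterval :=
  ⟨t / ((m : ℝ) + 1), by
    have h0 := t.2.1
    have h1 := t.2.2
    have hm : (0 : ℝ) ≤ m := Nat.cast_nonneg m
    refine ⟨by positivity, ?_⟩
    rw [div_le_one (by positivity)]
    linarith⟩

theorem frac_cont (m : ℕ) : Continuous (frac m) := by
  unfold frac
  fun_prop

theorem frac_lt (m : ℕ) {s t : unitInterval} (h : s < t) : frac m s < frac m t := by
  have h' : (s : ℝ) < t := h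
  have hm : (0 : ℝ) < (m : ℝ) + 1 := by positivity
  show (s : ℝ) / ((m : ℝ) + 1) < t / ((m : ℝ) + 1)
  exact div_lt_div_of_pos_right h' hm

theorem frac_image (m : ℕ) (s t : unitInterval) : frac m '' Icc s t = Icc (frac m s) (frac m t) := by
  have hm : (0 : ℝ) < (m : ℝ) + 1 := by positivity
  ext u
  constructor
  · rintro ⟨v, ⟨h1, h2⟩, rfl⟩
    have h1' : (s : ℝ) ≤ v := h1
    have h2' : (v : ℝ) ≤ t := h2
    constructor
    · show (s : ℝ) / ((m : ℝ) + 1) ≤ v / ((m : ℝ) + 1)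
      gcongr
    · show (v : ℝ) / ((m : ℝ) + 1) ≤ t / ((m : ℝ) + 1)
      gcongr
  · rintro ⟨h1, h2⟩
    have h1' : (s : ℝ) / ((m : ℝ) + 1) ≤ u := h1
    have h2' : (u : ℝ) ≤ t / ((m : ℝ) + 1) := h2
    rw [div_le_iff₀ hm] at h1'
    rw [le_div_iff₀ hm] at h2'
    refine ⟨⟨u * ((m : ℝ) + 1), ?_, h2'.trans t.2.2⟩, ⟨h1', h2'⟩, ?_⟩
    · exact s.2.1.trans h1'
    · apply Subtype.ext
      show (u : ℝ) * ((m : ℝ) + 1) / ((m : ℝ) + 1) = u
      field_simp

/-- `t ↦ c f (t / (m + 1))`. -/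
noncomputable def scl (m : ℕ) (c : ℝ) (hc : 0 < c) (f : C(unitInterval, ℂ)) : C(unitInterval, ℂ) :=
  ⟨fun t => dil c hc (f (frac m t)),
    (dil c hc).continuous.comp (f.continuous.comp (frac_cont m))⟩

theorem scl_cont (m : ℕ) {c : ℝ} (hc : 0 < c) : Continuous (scl m c hc) := by
  have h1 : scl m c hc = fun f : C(unitInterval, ℂ) =>
      (⟨dil c hc, (dil c hc).continuous⟩ : C(ℂ, ℂ)).comp (f.comp ⟨frac m, frac_cont m⟩) := by
    funext f
    ext t
    rfl
  rw [h1]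
  fun_prop

theorem scl_image (m : ℕ) {c : ℝ} (hc : 0 < c) (f : C(unitInterval, ℂ)) (s t : unitInterval) :
    scl m c hc f '' Icc s t = dil c hc '' (f '' Icc (frac m s) (frac m t)) := by
  rw [← frac_image, ← Set.image_comp, ← Set.image_comp]
  rfl

theorem scl_comp (m : ℕ) {c : ℝ} (hc : 0 < c) (f : C(unitInterval, ℂ)) (s t : unitInterval)
    (U : Set ℂ) (w : ℂ) : CompD (dil c hc '' U) (scl m c hc f) s t (dil c hc w) =
      dil c hc '' CompD U f (frac m s) (frac m t) w := by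
  unfold CompD
  rw [scl_image, ← Set.image_sdiff (dil c hc).injective]
  by_cases hw : w ∈ U \ f '' Icc (frac m s) (frac m t)
  · rw [(dil c hc).image_connectedComponentIn hw]
  · have hw' : dil c hc w ∉ dil c hc '' (U \ f '' Icc (frac m s) (frac m t)) := by
      rintro ⟨w', hw1, hw2⟩
      rw [(dil c hc).injective hw2] at hw1
      exact hw hw1
    rw [connectedComponentIn_eq_empty hw, connectedComponentIn_eq_empty hw', Set.image_empty]

theorem fin_scl (m : ℕ) {c : ℝ} (hc : 0 < c) {D : Set ℂ} {f : C(unitInterval, ℂ)}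
    (h : Fin43 D f) : Fin43 (dil c hc '' D) (scl m c hc f) := by
  intro s t hst U hU w z hzU hzD hz ρ hρ
  obtain ⟨z', hz'D, rfl⟩ := hzD
  obtain ⟨w', rfl⟩ := (dil c hc).surjective w
  set U' : Set ℂ := dil c hc ⁻¹' U with hU'
  have hUU : dil c hc '' U' = U := Set.image_preimage_eq _ (dil c hc).surjective
  have hU'o : IsOpen U' := hU.preimage (dil c hc).continuous
  rw [← hUU, scl_comp, ← (dil c hc).image_frontier] at hz ⊢
  have hz' : z' ∈ frontier (CompD U' f (frac m s) (frac m t) w') := by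
    obtain ⟨z'', h1, h2⟩ := hz
    rwa [← (dil c hc).injective h2]
  have h5 := h (frac m s) (frac m t) (frac_lt m hst) U' hU'o w' z' hzU hz'D hz' (ρ / c)
    (div_pos hρ hc)
  rw [← h5, ← dil_dimH hc (frontier (CompD U' f (frac m s) (frac m t) w') ∩
    (U' ∩ D ∩ ball z' (ρ / c)))]
  congr 1
  rw [Set.image_inter (dil c hc).injective, Set.image_inter (dil c hc).injective,
    Set.image_inter (dil c hc).injective]
  congr 2
  ext y
  obtain ⟨y', rfl⟩ := (dil c hc).surjective y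
  constructor
  · intro hy
    rw [mem_ball, dil_dist] at hy
    refine ⟨y', ?_, rfl⟩
    rw [mem_ball, lt_div_iff₀ hc]
    linarith
  · rintro ⟨y'', hy1, hy2⟩
    rw [(dil c hc).injective hy2, mem_ball, lt_div_iff₀ hc] at hy1
    rw [mem_ball, dil_dist]
    linarith

/-- FIN in an increasing union. -/
theorem fin_iUnion {Ds : ℕ → Set ℂ} {D : Set ℂ} (hD : D = ⋃ n, Ds n) (hm : Monotone Ds)
    {f : C(unitInterval, ℂ)} (h : ∀ n, Fin43 (Ds n) f) : Fin43 D f := by
  intro s t hst U hU w z hzU hzD hz ρ hρ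
  rw [hD, Set.mem_iUnion] at hzD
  obtain ⟨n0, hn0⟩ := hzD
  apply le_antisymm
  · have h1 : frontier (CompD U f s t w) ∩ (U ∩ D ∩ ball z ρ) ⊆
        ⋃ n : ℕ, frontier (CompD U f s t w) ∩ (U ∩ Ds (max n0 n) ∩ ball z ρ) := by
      rintro y ⟨hy1, ⟨hy2, hy3⟩, hy4⟩
      rw [hD, Set.mem_iUnion] at hy3
      obtain ⟨n, hn⟩ := hy3
      exact Set.mem_iUnion.2 ⟨n, hy1, ⟨hy2, hm (le_max_right n0 n) hn⟩, hy4⟩
    refine (dimH_mono h1).trans ?_
    rw [dimH_iUnion]
    exact iSup_le fun n => (h (max n0 n) s t hst U hU w z hzU (hm (le_max_left n0 n) hn0) hz ρ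
      hρ).le
  · rw [← h n0 s t hst U hU w z hzU hn0 hz ρ hρ]
    apply dimH_mono
    rintro y ⟨hy1, ⟨hy2, hy3⟩, hy4⟩
    exact ⟨hy1, ⟨hy2, hD ▸ Set.mem_iUnion.2 ⟨n0, hy3⟩⟩, hy4⟩

end Run7.h165.EC
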